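import Pool.Agent.H22.DL.Vol

/-!
# Module Harris: the bridge is increasing in the endpoints and positively associated

Both by induction on `j - i` from `rs_rec` (base: `rs_one`). With
`g U A τ = rs i (j - 1) (update A (j - 1) (A i + (A j - A i) τ)) U`:
* `rs_mono`: `A i + (A j - A i) τ` is increasing in `(A i, A j)`, for `0 < τ ≤ 1`, and the updated
  sequences are ordered; `τ > 0` makes the inner window nondegenerate.
* `rs_harris`: `g (U ∩ V) A τ ≥ g U A τ * g V A τ` by induction, `g U A`, `g V A` are increasing in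
  `τ` by `rs_mono`, so `cheb` finishes.
-/

open MeasureTheory ProbabilityTheory Filter Topology Set
open scoped ENNReal

namespace Pool.Agent.H22.DL

theorem cheb_aux {μ : Measure ℝ} [IsProbabilityMeasure μ] {f g : ℝ → ℝ≥0∞} {D : Set ℝ}
    (hD : ∀ᵐ t ∂μ, t ∈ D) (hf : MonotoneOn f D) (hg : MonotoneOn g D) (hfm : Measurable f)
    (hgm : Measurable g) :
    (∫⁻ t, f t ∂μ) * ∫⁻ t, g t ∂μ ≤ ∫⁻ t, f t * g t ∂μ := by
  have h : ∀ x ∈ D, ∀ y ∈ D, f x * g y + f y * g x ≤ f x * g x + f y * g y := by
    intro x hx y hy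
    rcases le_total y x with hxy | hxy
    · obtain ⟨a, ha⟩ := exists_add_of_le (hf hy hx hxy)
      obtain ⟨b, hb⟩ := exists_add_of_le (hg hy hx hxy)
      rw [ha, hb]
      have : (f y + a) * (g y + b) + f y * g y =
          ((f y + a) * g y + f y * (g y + b)) + a * b := by ring
      rw [this]
      exact le_self_add
    · obtain ⟨a, ha⟩ := exists_add_of_le (hf hx hy hxy)
      obtain ⟨b, hb⟩ := exists_add_of_le (hg hx hy hxy)
      rw [ha, hb]
      have : f x * g x + (f x + a) * (g x + b) =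
          (f x * (g x + b) + (f x + a) * g x) + a * b := by ring
      rw [this]
      exact le_self_add
  have h1 : ∫⁻ x, ∫⁻ y, (f x * g y + f y * g x) ∂μ ∂μ ≤
      ∫⁻ x, ∫⁻ y, (f x * g x + f y * g y) ∂μ ∂μ := by
    apply lintegral_mono_ae
    filter_upwards [hD] with x hx
    apply lintegral_mono_ae
    filter_upwards [hD] with y hy
    exact h x hx y hy
  have e1 : ∫⁻ x, ∫⁻ y, (f x * g y + f y * g x) ∂μ ∂μ =
      2 * ((∫⁻ x, f x ∂μ) * (∫⁻ x, g x ∂μ)) := by
    have : ∀ x, ∫⁻ y, (f x * g y + f y * g x) ∂μ =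
        f x * (∫⁻ y, g y ∂μ) + g x * (∫⁻ y, f y ∂μ) := by
      intro x
      rw [lintegral_add_left (hgm.const_mul _), lintegral_const_mul _ hgm,
        lintegral_mul_const _ hfm, mul_comm (g x)]
    simp_rw [this]
    rw [lintegral_add_left (hfm.mul_const _), lintegral_mul_const _ hfm, lintegral_mul_const _ hgm]
    ring
  have e2 : ∫⁻ x, ∫⁻ y, (f x * g x + f y * g y) ∂μ ∂μ = 2 * ∫⁻ x, f x * g x ∂μ := by
    have : ∀ x, ∫⁻ y, (f x * g x + f y * g y) ∂μ = f x * g x + ∫⁻ y, f y * g y ∂μ := by
      intro x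
      rw [lintegral_add_left measurable_const, lintegral_const, measure_univ, mul_one]
    simp_rw [this]
    have mfg : Measurable fun x => f x * g x := hfm.mul hgm
    rw [lintegral_add_left mfg, lintegral_const, measure_univ, mul_one, two_mul]
  rw [e1, e2] at h1
  rwa [ENNReal.mul_le_mul_iff_right two_ne_zero ENNReal.ofNat_ne_top] at h1

/-- Chebyshev's inequality for two increasing functions (of `τ` in a set of full measure). Proof:
`f s * g t + f t * g s ≤ f s * g s + f t * g t` integrated over `s`, `t`. -/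
theorem cheb {μ : Measure ℝ} [IsProbabilityMeasure μ] {f g : ℝ → ℝ≥0∞} {D : Set ℝ}
    (hD : ∀ᵐ t ∂μ, t ∈ D) (hf : MonotoneOn f D) (hg : MonotoneOn g D) (hfm : Measurable f)
    (hgm : Measurable g) (hf1 : ∀ t, f t ≤ 1) (hg1 : ∀ t, g t ≤ 1) :
    (∫⁻ t, f t ∂μ) * ∫⁻ t, g t ∂μ ≤ ∫⁻ t, f t * g t ∂μ :=
  cheb_aux hD hf hg hfm hgm

theorem ae_bt (m : ℕ) : ∀ᵐ τ ∂(bt m), τ ∈ Set.Ioc (0 : ℝ) 1 :=
  (withDensity_absolutelyContinuous _ _).ae_le (ae_restrict_mem measurableSet_Ioc)

theorem rs_apply_rec {i j : ℕ} (hij : i + 1 < j) {A : Sq} (hA : A i < A j) {U : Set Sq}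
    (hUm : MeasurableSet U) :
    rs i j A U =
      ∫⁻ τ, rs i (j - 1) (Function.update A (j - 1) (A i + (A j - A i) * τ)) U
        ∂(bt (j - i - 1)) := by
  have h := rs_rec hij hA (Φ := U.indicator 1) (measurable_one.indicator hUm)
  rw [lintegral_indicator_one hUm] at h
  rw [h]
  congr 1
  funext τ
  rw [lintegral_indicator_one hUm]

theorem measurable_rs_apply (i j : ℕ) (A : Sq) (a b : ℝ) {U : Set Sq}
    (hUm : MeasurableSet U) :
    Measurable fun τ : ℝ => rs i j (Function.update A j (a + b * τ)) U := by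
  have h := measurable_rs (α := Unit) (F := fun _ => U.indicator 1)
    ((measurable_one.indicator hUm).comp measurable_snd) i j
  have h2 : Measurable fun τ : ℝ => ((), Function.update A j (a + b * τ)) := by
    refine measurable_const.prodMk ?_
    exact (measurable_update' (a := j)).comp (by fun_prop : Measurable fun τ : ℝ => (A, a + b * τ))
  have e : (fun τ : ℝ => rs i j (Function.update A j (a + b * τ)) U) =
      (fun p : Unit × Sq => ∫⁻ B, U.indicator 1 B ∂(rs i j p.2)) ∘
        fun τ : ℝ => ((), Function.update A j (a + b * τ)) := by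
    funext τ
    simp only [Function.comp]
    rw [lintegral_indicator_one hUm]
  rw [e]
  exact h.comp h2

theorem rs_mono {i j : ℕ} (hij : i < j) {A A' : Sq} (hAA : A ≤ A') (hA : A i < A j)
    (hA' : A' i < A' j) {U : Set Sq} (hU : IsUpperSet U) (hUm : MeasurableSet U) :
    rs i j A U ≤ rs i j A' U := by
  obtain ⟨d, rfl⟩ : ∃ d, j = i + d + 1 := ⟨j - i - 1, by omega⟩
  clear hij
  induction d generalizing A A' with
  | zero =>
    rw [add_zero] at hA hA' ⊢
    rw [rs_one i hA.le, rs_one i hA'.le, Measure.dirac_apply' _ hUm, Measure.dirac_apply' _ hUm]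
    by_cases h : A ∈ U
    · rw [Set.indicator_of_mem h, Set.indicator_of_mem (hU hAA h)]
      exact le_rfl
    · rw [Set.indicator_of_notMem h]
      exact zero_le
  | succ d ih =>
    rw [rs_apply_rec (by omega) hA hUm, rs_apply_rec (by omega) hA' hUm]
    have e1 : i + (d + 1) + 1 - 1 = i + d + 1 := by omega
    rw [e1]
    apply lintegral_mono_ae
    filter_upwards [ae_bt (i + (d + 1) + 1 - i - 1)] with τ hτ
    have hne : i ≠ i + d + 1 := by omega
    apply ih
    · rw [update_le_update_iff]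
      refine ⟨?_, fun k _ => hAA k⟩
      have h1 := hAA i
      have h2 := hAA (i + (d + 1) + 1)
      nlinarith [hτ.1, hτ.2, mul_nonneg hτ.1.le (sub_nonneg.2 h2),
        mul_nonneg (sub_nonneg.2 hτ.2) (sub_nonneg.2 h1)]
    · rw [Function.update_of_ne hne, Function.update_self]
      have := mul_pos (sub_pos.2 hA) hτ.1
      linarith
    · rw [Function.update_of_ne hne, Function.update_self]
      have := mul_pos (sub_pos.2 hA') hτ.1
      linarith

theorem rs_harris {i j : ℕ} (hij : i < j) {A : Sq} (hA : A i < A j) {U V : Set Sq}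
    (hU : IsUpperSet U) (hUm : MeasurableSet U) (hV : IsUpperSet V) (hVm : MeasurableSet V) :
    rs i j A U * rs i j A V ≤ rs i j A (U ∩ V) := by
  obtain ⟨d, rfl⟩ : ∃ d, j = i + d + 1 := ⟨j - i - 1, by omega⟩
  clear hij
  induction d generalizing A with
  | zero =>
    rw [add_zero] at hA ⊢
    rw [rs_one i hA.le, Measure.dirac_apply' _ hUm, Measure.dirac_apply' _ hVm,
      Measure.dirac_apply' _ (hUm.inter hVm), Set.inter_indicator_one]
    exact le_rfl
  | succ d ih =>
    have hsub : ∀ τ ∈ Set.Ioc (0 : ℝ) 1,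
        Function.update A (i + d + 1) (A i + (A (i + (d + 1) + 1) - A i) * τ) i <
        Function.update A (i + d + 1) (A i + (A (i + (d + 1) + 1) - A i) * τ) (i + d + 1) := by
      intro τ hτ
      have hne : i ≠ i + d + 1 := by omega
      rw [Function.update_of_ne hne, Function.update_self]
      have := mul_pos (sub_pos.2 hA) hτ.1
      linarith
    rw [rs_apply_rec (by omega) hA hUm, rs_apply_rec (by omega) hA hVm,
      rs_apply_rec (by omega) hA (hUm.inter hVm)]
    have e1 : i + (d + 1) + 1 - 1 = i + d + 1 := by omega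
    rw [e1]
    have : IsProbabilityMeasure (bt (i + (d + 1) + 1 - i - 1)) := prob_bt (by omega)
    have mono : ∀ {W : Set Sq}, IsUpperSet W → MeasurableSet W → MonotoneOn (fun τ : ℝ =>
        rs i (i + d + 1) (Function.update A (i + d + 1)
          (A i + (A (i + (d + 1) + 1) - A i) * τ)) W) (Set.Ioc (0 : ℝ) 1) := by
      intro W hW hWm τ hτ τ' hτ' hle
      refine rs_mono (by omega) ?_ (hsub τ hτ) (hsub τ' hτ') hW hWm
      rw [update_le_update_iff]
      refine ⟨?_, fun k _ => le_rfl⟩
      have := mul_le_mul_of_nonneg_left hle (sub_pos.2 hA).le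
      linarith
    refine (cheb_aux (ae_bt _) (mono hU hUm) (mono hV hVm) (measurable_rs_apply _ _ _ _ _ hUm)
      (measurable_rs_apply _ _ _ _ _ hVm)).trans ?_
    apply lintegral_mono_ae
    filter_upwards [ae_bt (i + (d + 1) + 1 - i - 1)] with τ hτ
    exact ih (hsub τ hτ)

theorem rs_harris_lower {i j : ℕ} (hij : i < j) {A : Sq} (hA : A i < A j) {U V : Set Sq}
    (hU : IsUpperSet U) (hUm : MeasurableSet U) (hV : IsLowerSet V) (hVm : MeasurableSet V) :
    rs i j A (U ∩ V) ≤ rs i j A U * rs i j A V := by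
  have := prob_rs hij hA
  have h := rs_harris hij hA hU hUm hV.compl hVm.compl
  have h1 : rs i j A (U ∩ V) + rs i j A (U ∩ Vᶜ) = rs i j A U := by
    rw [← measure_inter_add_sdiff U hVm]
    rfl
  have h2 : rs i j A V + rs i j A Vᶜ = 1 := by
    rw [measure_add_measure_compl hVm, measure_univ]
  have h3 : rs i j A (U ∩ V) + rs i j A U * rs i j A Vᶜ ≤
      rs i j A U * rs i j A V + rs i j A U * rs i j A Vᶜ := by
    rw [← mul_add, h2, mul_one]
    exact (add_le_add le_rfl h).trans h1.le
  exact (ENNReal.add_le_add_iff_right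
    (ENNReal.mul_ne_top (measure_ne_top _ _) (measure_ne_top _ _))).1 h3

end Pool.Agent.H22.DL
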