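import Pool.Agent.H22.DL.Paths

/-!
# Module Kolm: Kolmogorov's inequality

The coordinates of `ex (1 / 2)` are iid `expMeasure (1 / 2)`, mean `2`, variance `4`
(`iIndepFun_infinitePi`, `measurePreserving_eval_infinitePi`).
`kolmogorov`: classical (first passage decomposition, or Doob's maximal inequality
`maximal_ineq` for the submartingale `(ps x k - 2 k) ^ 2`).
-/

open MeasureTheory ProbabilityTheory Filter Topology Set
open scoped ENNReal

namespace Pool.Agent.H22.DL

/-- moments of the exponential law -/
lemma kolm_moment {r : ℝ} (hr : 0 < r) (n : ℕ) :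
    Integrable (fun y : ℝ => y ^ n) (expMeasure r) ∧
      ∫ y, y ^ n ∂(expMeasure r) = (1 / r) ^ n * n.factorial := by
  have hm : Measurable (gammaPDF 1 r) := (measurable_gammaPDFReal 1 r).ennreal_ofReal
  have htop : ∀ᵐ x ∂(volume : Measure ℝ), gammaPDF 1 r x < ∞ :=
    Eventually.of_forall fun x => ENNReal.ofReal_lt_top
  have hval : ∀ x : ℝ, (gammaPDF 1 r x).toReal • x ^ n =
      (Ici (0 : ℝ)).indicator (fun x => r * (x ^ n * Real.exp (-(r * x)))) x := by
    intro x
    unfold gammaPDF gammaPDFReal
    by_cases hx : 0 ≤ x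
    · rw [indicator_of_mem (mem_Ici.mpr hx), if_pos hx, ENNReal.toReal_ofReal (by
        simp only [Real.rpow_one, Real.Gamma_one, div_one, sub_self, Real.rpow_zero, mul_one]
        positivity)]
      simp only [Real.rpow_one, Real.Gamma_one, div_one, sub_self, Real.rpow_zero, mul_one,
        smul_eq_mul]
      ring
    · rw [indicator_of_notMem (by simpa using hx), if_neg hx]
      simp
  have hI : IntegrableOn (fun x : ℝ => x ^ n * Real.exp (-(r * x))) (Ioi 0) := by
    have h1 := integrableOn_rpow_mul_exp_neg_mul_rpow (p := 1) (s := n) (b := r)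
      (by have : (0 : ℝ) ≤ n := Nat.cast_nonneg n; linarith) one_pos hr
    refine h1.congr_fun (fun x _ => ?_) measurableSet_Ioi
    simp only [Real.rpow_natCast, Real.rpow_one, neg_mul]
  constructor
  · unfold expMeasure gammaMeasure
    rw [integrable_withDensity_iff_integrable_smul' hm htop]
    simp_rw [hval]
    rw [integrable_indicator_iff measurableSet_Ici, integrableOn_Ici_iff_integrableOn_Ioi]
    exact hI.const_mul r
  · unfold expMeasure gammaMeasure
    rw [integral_withDensity_eq_integral_toReal_smul hm htop]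
    simp_rw [hval]
    rw [integral_indicator measurableSet_Ici, integral_Ici_eq_integral_Ioi, integral_const_mul]
    have h2 := Real.integral_rpow_mul_exp_neg_mul_Ioi (a := (n : ℝ) + 1) (r := r) (by positivity) hr
    have h3 : ∫ x in Ioi (0 : ℝ), x ^ n * Real.exp (-(r * x)) =
        ∫ t in Ioi (0 : ℝ), t ^ ((n : ℝ) + 1 - 1) * Real.exp (-(r * t)) := by
      apply setIntegral_congr_fun measurableSet_Ioi
      intro x _
      simp only [add_sub_cancel_right, Real.rpow_natCast]
    rw [h3, h2, Real.Gamma_nat_eq_factorial]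
    have h4 : (1 / r : ℝ) ^ ((n : ℝ) + 1) = (1 / r) ^ (n + 1) := by
      rw [← Real.rpow_natCast]; push_cast; rfl
    rw [h4, pow_succ]
    field_simp

lemma kolm_sq (a K : ℝ) {l : ℝ} (hK : 0 ≤ K) :
    ∫⁻ y, ENNReal.ofReal (((a + (y - 2)) ^ 2 + K) / l ^ 2) ∂(expMeasure (1 / 2)) =
      ENNReal.ofReal ((a ^ 2 + (4 + K)) / l ^ 2) := by
  have hP : IsProbabilityMeasure (expMeasure (1 / 2)) :=
    isProbabilityMeasure_expMeasure (by norm_num)
  obtain ⟨i1, e1⟩ := kolm_moment (r := 1 / 2) (by norm_num) 1
  obtain ⟨i2, e2⟩ := kolm_moment (r := 1 / 2) (by norm_num) 2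
  simp only [pow_one] at i1 e1
  have hexp : ∀ y : ℝ, ((a + (y - 2)) ^ 2 + K) / l ^ 2 =
      (y ^ 2 + (2 * (a - 2) * y + ((a - 2) ^ 2 + K))) * (l ^ 2)⁻¹ := by
    intro y; rw [div_eq_mul_inv]; ring
  have iA : Integrable (fun y : ℝ => 2 * (a - 2) * y + ((a - 2) ^ 2 + K)) (expMeasure (1 / 2)) :=
    (i1.const_mul _).add (integrable_const _)
  have hint : Integrable (fun y : ℝ => ((a + (y - 2)) ^ 2 + K) / l ^ 2) (expMeasure (1 / 2)) := by
    simp_rw [hexp]
    exact (i2.add iA).mul_const _
  rw [← ofReal_integral_eq_lintegral_ofReal hint (Eventually.of_forall fun y => by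
    simp only [Pi.zero_apply]; positivity)]
  congr 1
  simp_rw [hexp]
  rw [integral_mul_const, integral_add i2 iA, integral_add (i1.const_mul _) (integrable_const _),
    integral_const_mul, e1, e2, integral_const]
  simp only [probReal_univ, smul_eq_mul, Nat.factorial]
  push_cast
  rw [div_eq_mul_inv]
  ring

/-- prepend a coordinate -/
def kcons (p : ℝ × Sq) : Sq := fun n => Nat.casesOn n p.1 p.2

lemma kcons_zero (p : ℝ × Sq) : kcons p 0 = p.1 := rfl

lemma kcons_succ (p : ℝ × Sq) (n : ℕ) : kcons p (n + 1) = p.2 n := rfl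

lemma measurable_kcons : Measurable kcons := by
  rw [measurable_pi_iff]
  intro n
  cases n with
  | zero => exact measurable_fst
  | succ n => exact (measurable_pi_apply n).comp measurable_snd

lemma map_kcons {l : ℝ} (hl : 0 < l) : ((expMeasure l).prod (ex l)).map kcons = ex l := by
  have hP : IsProbabilityMeasure (expMeasure l) := isProbabilityMeasure_expMeasure hl
  have hP2 : IsProbabilityMeasure (ex l) := by unfold ex; infer_instance
  conv_rhs => rw [ex]
  apply Measure.eq_infinitePi
  intro s t ht
  classical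
  obtain ⟨M, hM⟩ : ∃ M : ℕ, s ⊆ Finset.range (M + 1) := by
    refine ⟨s.sup id, fun i hi => ?_⟩
    rw [Finset.mem_range]
    exact Nat.lt_succ_of_le (Finset.le_sup (f := id) hi)
  set t' : ℕ → Set ℝ := fun i => if i ∈ s then t i else univ with ht'
  have ht'm : ∀ i, MeasurableSet (t' i) := by
    intro i
    simp only [ht']
    split_ifs
    · exact ht i
    · exact MeasurableSet.univ
  have h1 : Set.pi (s : Set ℕ) t = Set.pi (Finset.range (M + 1) : Set ℕ) t' := by
    ext x
    simp only [Set.mem_pi, Finset.mem_coe, ht']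
    constructor
    · intro h i _
      split_ifs with hi
      · exact h i hi
      · trivial
    · intro h i hi
      have := h i (hM hi)
      rwa [if_pos hi] at this
  have h2 : ∏ i ∈ s, (expMeasure l) (t i) = ∏ i ∈ Finset.range (M + 1), (expMeasure l) (t' i) := by
    rw [← Finset.prod_subset hM]
    · apply Finset.prod_congr rfl
      intro i hi
      simp only [ht', if_pos hi]
    · intro i _ hi
      simp only [ht', if_neg hi, measure_univ]
  rw [h1, h2, Measure.map_apply measurable_kcons (MeasurableSet.pi (Finset.countable_toSet _)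
    (fun i _ => ht'm i))]
  have h3 : kcons ⁻¹' (Set.pi (Finset.range (M + 1) : Set ℕ) t') =
      t' 0 ×ˢ Set.pi (Finset.range M : Set ℕ) (fun i => t' (i + 1)) := by
    ext p
    simp only [Set.mem_preimage, Set.mem_pi, Finset.mem_coe, Finset.mem_range, Set.mem_prod]
    constructor
    · intro h
      exact ⟨h 0 (by omega), fun i hi => h (i + 1) (by omega)⟩
    · rintro ⟨h0, h⟩ i hi
      cases i with
      | zero => exact h0
      | succ i => exact h i (by omega)
  rw [h3, Measure.prod_prod, ex, Measure.infinitePi_pi (μ := fun _ : ℕ => expMeasure l)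
    (fun i _ => ht'm (i + 1)), Finset.prod_range_succ', mul_comm]

lemma ps_kcons (p : ℝ × Sq) (k : ℕ) : ps (kcons p) (k + 1) = p.1 + ps p.2 k := by
  unfold ps
  rw [Finset.sum_range_succ', kcons_zero, add_comm]
  rfl

lemma measurable_ps' (k : ℕ) : Measurable fun x : Sq => ps x k := by
  unfold ps
  exact Finset.measurable_sum _ fun i _ => measurable_pi_apply i

lemma kolm_meas (K : ℕ) (a l : ℝ) :
    MeasurableSet {x : Sq | ∃ k ≤ K, l ≤ |a + (ps x k - 2 * k)|} := by
  have : {x : Sq | ∃ k ≤ K, l ≤ |a + (ps x k - 2 * k)|} =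
      ⋃ k ∈ Finset.range (K + 1), {x : Sq | l ≤ |a + (ps x k - 2 * k)|} := by
    ext x
    simp only [mem_iUnion, Finset.mem_range, exists_prop]
    exact exists_congr fun k => and_congr Nat.lt_succ_iff.symm Iff.rfl
  rw [this]
  apply Finset.measurableSet_biUnion
  intro k _
  apply measurableSet_le measurable_const
  exact (((measurable_ps' k).sub_const _).const_add a).abs

lemma kolm_gen (K : ℕ) (a : ℝ) {l : ℝ} (hl : 0 < l) :
    ex (1 / 2) {x | ∃ k ≤ K, l ≤ |a + (ps x k - 2 * k)|} ≤
      ENNReal.ofReal ((a ^ 2 + 4 * K) / l ^ 2) := by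
  have hP : IsProbabilityMeasure (expMeasure (1 / 2)) :=
    isProbabilityMeasure_expMeasure (by norm_num)
  have hP2 : IsProbabilityMeasure (ex (1 / 2)) := by
    unfold ex; infer_instance
  induction K generalizing a with
  | zero =>
    by_cases ha : l ≤ |a|
    · refine prob_le_one.trans ?_
      rw [← ENNReal.ofReal_one]
      apply ENNReal.ofReal_le_ofReal
      rw [one_le_div (by positivity)]
      have : l ^ 2 ≤ |a| ^ 2 := pow_le_pow_left₀ hl.le ha 2
      rw [sq_abs] at this
      simpa using this
    · have : {x : Sq | ∃ k ≤ 0, l ≤ |a + (ps x k - 2 * k)|} = ∅ := by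
        ext x
        simp only [mem_ofPred_eq, mem_empty_iff_false, iff_false, not_exists, not_and]
        intro k hk
        have hk0 : k = 0 := by omega
        subst hk0
        simpa [ps] using ha
      rw [this]
      simp
  | succ K ih =>
    by_cases ha : l ≤ |a|
    · refine prob_le_one.trans ?_
      rw [← ENNReal.ofReal_one]
      apply ENNReal.ofReal_le_ofReal
      rw [one_le_div (by positivity)]
      have : l ^ 2 ≤ |a| ^ 2 := pow_le_pow_left₀ hl.le ha 2
      rw [sq_abs] at this
      have h4 : (0 : ℝ) ≤ 4 * ((K + 1 : ℕ) : ℝ) := by positivity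
      linarith
    · have hset := kolm_meas (K + 1) a l
      have h1 : ex (1 / 2) {x | ∃ k ≤ K + 1, l ≤ |a + (ps x k - 2 * k)|} =
          ∫⁻ y, ex (1 / 2) (Prod.mk y ⁻¹' (kcons ⁻¹'
            {x | ∃ k ≤ K + 1, l ≤ |a + (ps x k - 2 * k)|})) ∂(expMeasure (1 / 2)) := by
        conv_lhs => rw [← map_kcons (l := 1 / 2) (by norm_num)]
        rw [Measure.map_apply measurable_kcons hset, Measure.prod_apply (measurable_kcons hset)]
      rw [h1]
      have h2 : ∀ y : ℝ, ex (1 / 2) (Prod.mk y ⁻¹' (kcons ⁻¹'
            {x | ∃ k ≤ K + 1, l ≤ |a + (ps x k - 2 * k)|})) ≤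
          ENNReal.ofReal (((a + (y - 2)) ^ 2 + 4 * K) / l ^ 2) := by
        intro y
        refine (measure_mono ?_).trans (ih (a + (y - 2)))
        intro x hx
        simp only [mem_preimage, mem_ofPred_eq] at hx ⊢
        obtain ⟨k, hk, hk2⟩ := hx
        cases k with
        | zero =>
          exfalso
          apply ha
          simpa [ps] using hk2
        | succ k =>
          refine ⟨k, by omega, ?_⟩
          rw [ps_kcons] at hk2
          have : a + (y - 2) + (ps x k - 2 * k) = a + (y + ps x k - 2 * ((k + 1 : ℕ) : ℝ)) := by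
            push_cast; ring
          rw [this]
          exact hk2
      refine (lintegral_mono h2).trans ?_
      rw [kolm_sq a (4 * K) (by positivity)]
      apply le_of_eq
      congr 2
      push_cast
      ring

theorem kolmogorov (K : ℕ) {l : ℝ} (hl : 0 < l) :
    ex (1 / 2) {x | ∃ k ≤ K, l ≤ |ps x k - 2 * k|} ≤ ENNReal.ofReal (4 * K / l ^ 2) := by
  have h := kolm_gen K 0 hl
  simpa using h

end Pool.Agent.H22.DL
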