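import Pool.Agent.H22.DL.Paths
import Pool.Agent.H20.DLW.Clt

/-!
# Module KolmB: large deviations of order one from the central limit theorem

The coordinates of `ex (1 / 2)` are iid `expMeasure (1 / 2)`, mean `2`, variance `4`. Mathlib's
central limit theorem (`tendstoInDistribution_inv_sqrt_mul_sum_sub`) and the portmanteau theorem
for the open sets `(x, ∞)` and `(-∞, -x)`, which have positive Gaussian measure.
-/

open MeasureTheory ProbabilityTheory Filter Topology Set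
open scoped ENNReal

namespace Pool.Agent.H22.DL

instance kolmB_prob : IsProbabilityMeasure (ex (1 / 2)) := prob_ex (by norm_num)

theorem kolmB_law (k : ℕ) : (ex (1 / 2)).map (fun x : Sq => x k) = expMeasure (1 / 2) :=
  Measure.infinitePi_map_eval (fun _ : ℕ => expMeasure (1 / 2)) k

theorem kolmB_int (k : ℕ) {f : ℝ → ℝ} (hf : Measurable f) :
    ∫ x : Sq, f (x k) ∂(ex (1 / 2)) = ∫ x, f x ∂(expMeasure (1 / 2)) := by
  rw [← kolmB_law k, integral_map (measurable_pi_apply k).aemeasurable hf.aestronglyMeasurable]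

theorem kolmB_clt :
    TendstoInDistribution (fun (n : ℕ) (x : Sq) => (√n)⁻¹ *
      ∑ k ∈ Finset.range n, (x k - 2)) atTop (id : ℝ → ℝ) (fun _ => ex (1 / 2))
      (gaussianReal 0 4) := by

  have hind : iIndepFun (fun (k : ℕ) (x : Sq) => x k) (ex (1 / 2)) :=
    iIndepFun_infinitePi (P := fun _ : ℕ => expMeasure (1 / 2)) (X := fun _ x => x)
      (fun _ => measurable_id)
  obtain ⟨i1, m1, i2, m2⟩ := H20.DLW.centred
  refine H20.DLW.clt_gen (fun (k : ℕ) (x : Sq) => x k - 2)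
    ((measurable_pi_apply 0).sub_const 2)
    (hind.comp (fun _ x => x - 2) (fun _ => by fun_prop)) ?_ ?_ ?_
  · intro k
    have h1 : IdentDistrib (fun x : Sq => x k) (fun x : Sq => x 0) (ex (1 / 2)) (ex (1 / 2)) :=
      ⟨(measurable_pi_apply k).aemeasurable, (measurable_pi_apply 0).aemeasurable,
        by rw [kolmB_law, kolmB_law]⟩
    exact h1.comp (u := fun x => x - 2) (by fun_prop)
  · exact (kolmB_int 0 (f := fun x => x - 2) (by fun_prop)).trans m1
  · exact (kolmB_int 0 (f := fun x => (x - 2) ^ 2) (by fun_prop)).trans m2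

theorem kolmB_sum (x : Sq) (K : ℕ) : ∑ k ∈ Finset.range K, (x k - 2) = ps x K - 2 * K := by
  rw [Finset.sum_sub_distrib, ps]
  simp [mul_comm]

/-- the general statement, for an open set of infinite volume -/
theorem kolmB_open {G : Set ℝ} (hG : IsOpen G) (hvol : volume G ≠ 0) :
    ∃ c : ℝ, 0 < c ∧ ∃ K₀ : ℕ, ∀ K : ℕ, K₀ ≤ K →
      ENNReal.ofReal c ≤ ex (1 / 2) {y | (√K)⁻¹ * (ps y K - 2 * K) ∈ G} := by

  have hpos : 0 < gaussianReal 0 4 G := by
    rw [pos_iff_ne_zero]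
    intro h0
    exact hvol (gaussianReal_absolutelyContinuous' 0 (by norm_num : (4 : NNReal) ≠ 0) h0)
  have h1 := ProbabilityMeasure.le_liminf_measure_open_of_tendsto kolmB_clt.tendsto hG
  have h2 : gaussianReal 0 4 G / 2 < gaussianReal 0 4 G :=
    ENNReal.half_lt_self hpos.ne' (measure_ne_top _ _)
  have h3 : gaussianReal 0 4 G / 2 < liminf (fun n : ℕ => ex (1 / 2)
      {y | (√n)⁻¹ * (ps y n - 2 * n) ∈ G}) atTop := by
    refine h2.trans_le ?_
    simp only [ProbabilityMeasure.coe_mk, Measure.map_id] at h1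
    refine h1.trans (le_of_eq ?_)
    congr 1
    funext n
    rw [Measure.map_apply (by fun_prop) hG.measurableSet]
    congr 1
    ext y
    simp only [Set.mem_preimage, Set.mem_ofPred_eq, kolmB_sum]
  have h4 := Filter.eventually_lt_of_lt_liminf h3
  obtain ⟨K₀, hK⟩ := eventually_atTop.1 h4
  refine ⟨(gaussianReal 0 4 G / 2).toReal, ?_, K₀, fun K hK' => ?_⟩
  · exact ENNReal.toReal_pos (ENNReal.half_pos hpos.ne').ne'
      (ENNReal.div_ne_top (measure_ne_top _ _) (by norm_num))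
  · rw [ENNReal.ofReal_toReal (ENNReal.div_ne_top (measure_ne_top _ _) (by norm_num))]
    exact (hK K hK').le

theorem ps_pos (x : ℝ) : ∃ c : ℝ, 0 < c ∧ ∃ K₀ : ℕ, ∀ K : ℕ, K₀ ≤ K →
    ENNReal.ofReal c ≤ ex (1 / 2) {y | x * √K ≤ ps y K - 2 * K} := by
  obtain ⟨c, hc, K₀, hK⟩ := kolmB_open (G := Ioi x) isOpen_Ioi (by simp)
  refine ⟨c, hc, max K₀ 1, fun K hK' => (hK K (le_of_max_le_left hK')).trans
    (measure_mono fun y hy => ?_)⟩
  have hK0 : 0 < √(K : ℝ) := Real.sqrt_pos.2 (by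
    have : 1 ≤ K := le_of_max_le_right hK'
    exact_mod_cast this)
  have hy' : x < (√(K : ℝ))⁻¹ * (ps y K - 2 * K) := hy
  show x * √K ≤ ps y K - 2 * K
  rw [inv_mul_eq_div, lt_div_iff₀ hK0] at hy'
  exact hy'.le

theorem ps_neg (x : ℝ) : ∃ c : ℝ, 0 < c ∧ ∃ K₀ : ℕ, ∀ K : ℕ, K₀ ≤ K →
    ENNReal.ofReal c ≤ ex (1 / 2) {y | ps y K - 2 * K ≤ -x * √K} := by
  obtain ⟨c, hc, K₀, hK⟩ := kolmB_open (G := Iio (-x)) isOpen_Iio (by simp)
  refine ⟨c, hc, max K₀ 1, fun K hK' => (hK K (le_of_max_le_left hK')).trans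
    (measure_mono fun y hy => ?_)⟩
  have hK0 : 0 < √(K : ℝ) := Real.sqrt_pos.2 (by
    have : 1 ≤ K := le_of_max_le_right hK'
    exact_mod_cast this)
  have hy' : (√(K : ℝ))⁻¹ * (ps y K - 2 * K) < -x := hy
  show ps y K - 2 * K ≤ -x * √K
  rw [inv_mul_eq_div, div_lt_iff₀ hK0] at hy'
  exact hy'.le

end Pool.Agent.H22.DL
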