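import Pool.Agent.H22.DL.Paths

/-!
# Module KolmC: after `K` steps the walk starts afresh

Under `ex (1 / 2) = infinitePi` the coordinates are independent; `(x 0, .., x (K - 1))` and
`(x (K + t))_t` are independent and the shifted sequence has again the law `ex (1 / 2)`: uniqueness
of `infinitePi` (`eq_infinitePi`) for the image of `(ex l).prod (ex l)` under
`(x, y) ↦ (x 0, .., x (K-1), y 0, ..)`.
-/

open MeasureTheory ProbabilityTheory Filter Topology Set
open scoped ENNReal

namespace Pool.Agent.H22.DL

/-- concatenation -/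
noncomputable def kolmC_G (K : ℕ) (p : Sq × Sq) : Sq := fun t => if t < K then p.1 t else p.2 (t - K)

theorem kolmC_measurable (K : ℕ) : Measurable (kolmC_G K) := by
  refine measurable_pi_lambda _ fun t => ?_
  by_cases h : t < K
  · simp only [kolmC_G, h, if_true]
    exact (measurable_pi_apply t).comp measurable_fst
  · simp only [kolmC_G, h, if_false]
    exact (measurable_pi_apply (t - K)).comp measurable_snd

theorem kolmC_map (K : ℕ) : ((ex (1 / 2)).prod (ex (1 / 2))).map (kolmC_G K) = ex (1 / 2) := by
  have : IsProbabilityMeasure (expMeasure (1 / 2)) := isProbabilityMeasure_expMeasure (by norm_num)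
  have : IsProbabilityMeasure (ex (1 / 2)) := by unfold ex; infer_instance
  refine Measure.eq_infinitePi (fun _ : ℕ => expMeasure (1 / 2)) fun s t ht => ?_
  rw [Measure.map_apply (kolmC_measurable K)
    (MeasurableSet.pi s.countable_toSet fun i _ => ht i)]
  have hpre : kolmC_G K ⁻¹' (Set.pi (s : Set ℕ) t) =
      (Set.pi ((s.filter (· < K) : Finset ℕ) : Set ℕ) t) ×ˢ
        (Set.pi (((s.filter (fun i => ¬ i < K)).image (· - K) : Finset ℕ) : Set ℕ)
          fun i => t (K + i)) := by
    ext p
    simp only [Set.mem_preimage, Set.mem_pi, Set.mem_prod, Finset.mem_coe, Finset.mem_filter,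
      Finset.mem_image]
    constructor
    · intro h
      refine ⟨fun i hi => ?_, ?_⟩
      · have := h i hi.1
        simpa [kolmC_G, hi.2] using this
      · rintro i ⟨a, ⟨ha, haK⟩, rfl⟩
        have := h a ha
        have e : K + (a - K) = a := by omega
        rw [e]
        simpa [kolmC_G, haK] using this
    · rintro ⟨h1, h2⟩ i hi
      by_cases hK : i < K
      · simpa [kolmC_G, hK] using h1 i ⟨hi, hK⟩
      · have := h2 (i - K) ⟨i, ⟨hi, hK⟩, rfl⟩
        have e : K + (i - K) = i := by omega
        rw [e] at this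
        simpa [kolmC_G, hK] using this
  rw [hpre, Measure.prod_prod]
  unfold ex
  rw [Measure.infinitePi_pi _ (fun i _ => ht i), Measure.infinitePi_pi _ (fun i _ => ht (K + i)),
    Finset.prod_image]
  · rw [← Finset.prod_filter_mul_prod_filter_not s (· < K)]
    congr 1
    refine Finset.prod_congr rfl fun i hi => ?_
    have := (Finset.mem_filter.1 hi).2
    have e : K + (i - K) = i := by omega
    rw [e]
  · intro a ha b hb hab
    have ha' := (Finset.mem_filter.1 (Finset.mem_coe.1 ha)).2
    have hb' := (Finset.mem_filter.1 (Finset.mem_coe.1 hb)).2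
    simp only at hab
    omega

/-- the strong Markov property used here: after `K` steps the walk starts afresh -/
theorem ex_split (K : ℕ) {U V : Set Sq} (hU : MeasurableSet U) (hV : MeasurableSet V)
    (hdep : ∀ x x' : Sq, (∀ t < K, x t = x' t) → (x ∈ U ↔ x' ∈ U)) :
    ex (1 / 2) {x | x ∈ U ∧ (fun t => x (K + t)) ∈ V} = ex (1 / 2) U * ex (1 / 2) V := by
  have : IsProbabilityMeasure (expMeasure (1 / 2)) := isProbabilityMeasure_expMeasure (by norm_num)
  have : IsProbabilityMeasure (ex (1 / 2)) := by unfold ex; infer_instance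
  have hsh : Measurable fun x : Sq => (fun t => x (K + t) : Sq) :=
    measurable_pi_lambda _ fun t => measurable_pi_apply _
  have hm : MeasurableSet {x : Sq | x ∈ U ∧ (fun t => x (K + t)) ∈ V} := hU.inter (hsh hV)
  conv_lhs => rw [← kolmC_map K]
  rw [Measure.map_apply (kolmC_measurable K) hm]
  have hpre : kolmC_G K ⁻¹' {x : Sq | x ∈ U ∧ (fun t => x (K + t)) ∈ V} = U ×ˢ V := by
    ext p
    simp only [Set.mem_preimage, Set.mem_ofPred_eq, Set.mem_prod]
    have h1 : kolmC_G K p ∈ U ↔ p.1 ∈ U := by
      refine hdep _ _ fun t ht => ?_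
      simp [kolmC_G, ht]
    have h2 : (fun t => kolmC_G K p (K + t)) = p.2 := by
      funext t
      simp [kolmC_G]
    rw [h1, h2]
  rw [hpre, Measure.prod_prod]

end Pool.Agent.H22.DL
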