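import Pool.Agent.H22.DL.Core

/-!
# Module Rev: reflection of the bridge

Enough: `bI i j (Φ ∘ rev i j) A = bI i j Φ A`. Inside: the map
`y ↦ (k ↦ A i + A j - y (i + j - k))` of `Finset.Ioo i j → ℝ` preserves the product Lebesgue
measure (reindexing by the involution `k ↦ i + j - k` of `Finset.Ioo i j`, then `x ↦ c - x` in each
coordinate) and `rev i j` maps `mon i j` to itself.
-/

open MeasureTheory ProbabilityTheory Filter Topology Set
open scoped ENNReal

namespace Pool.Agent.H22.DL

theorem measurable_rev (i j : ℕ) : Measurable (rev i j) := by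
  rw [measurable_pi_iff]
  intro k
  unfold rev
  by_cases h : i ≤ k ∧ k ≤ j
  · simp only [h, and_self, if_true]
    exact ((measurable_pi_apply i).add (measurable_pi_apply j)).sub (measurable_pi_apply _)
  · simp only [h, if_false]
    exact measurable_pi_apply k

/-- the involution of the window -/
def revE (i j : ℕ) : Finset.Ioo i j ≃ Finset.Ioo i j where
  toFun k := ⟨i + j - k, by
    have := k.2
    rw [Finset.mem_Ioo] at this ⊢
    omega⟩
  invFun k := ⟨i + j - k, by
    have := k.2
    rw [Finset.mem_Ioo] at this ⊢
    omega⟩
  left_inv k := by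
    have := k.2
    rw [Finset.mem_Ioo] at this
    apply Subtype.ext
    change i + j - (i + j - (k : ℕ)) = k
    omega
  right_inv k := by
    have := k.2
    rw [Finset.mem_Ioo] at this
    apply Subtype.ext
    change i + j - (i + j - (k : ℕ)) = k
    omega

theorem mon_rev {i j : ℕ} (B : Sq) : rev i j B ∈ mon i j ↔ B ∈ mon i j := by
  constructor
  · intro h k h1 h2
    have := h (i + j - k - 1) (by omega) (by omega)
    unfold rev at this
    rw [if_pos (by omega), if_pos (by omega)] at this
    have e1 : i + j - (i + j - k - 1) = k + 1 := by omega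
    have e2 : i + j - (i + j - k - 1 + 1) = k := by omega
    rw [e1, e2] at this
    linarith
  · intro h k h1 h2
    have := h (i + j - k - 1) (by omega) (by omega)
    unfold rev
    rw [if_pos (by omega), if_pos (by omega)]
    have e1 : i + j - k - 1 + 1 = i + j - k := by omega
    have e2 : i + j - (k + 1) = i + j - k - 1 := by omega
    rw [e1] at this
    rw [e2]
    linarith

theorem measurePreserving_revT (i j : ℕ) (c : ℝ) :
    MeasurePreserving (fun (y : Finset.Ioo i j → ℝ) (k : Finset.Ioo i j) => c - y (revE i j k))
      (Measure.pi fun _ : Finset.Ioo i j => (volume : Measure ℝ))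
      (Measure.pi fun _ : Finset.Ioo i j => (volume : Measure ℝ)) := by
  have h1 : MeasurePreserving (fun (y : Finset.Ioo i j → ℝ) (k : Finset.Ioo i j) => c - y k)
      (Measure.pi fun _ : Finset.Ioo i j => (volume : Measure ℝ))
      (Measure.pi fun _ : Finset.Ioo i j => (volume : Measure ℝ)) :=
    measurePreserving_pi (fun _ : Finset.Ioo i j => (volume : Measure ℝ))
      (fun _ : Finset.Ioo i j => (volume : Measure ℝ))
      (fun _ => Measure.measurePreserving_sub_left volume c)
  have h2 := measurePreserving_piCongrLeft (fun _ : Finset.Ioo i j => (volume : Measure ℝ))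
    (revE i j).symm
  have h3 := h1.comp h2
  convert h3 using 1
  funext y k
  change c - y (revE i j k) =
    c - (MeasurableEquiv.piCongrLeft (fun _ : Finset.Ioo i j => ℝ) (revE i j).symm) y k
  congr 1
  have := MeasurableEquiv.piCongrLeft_apply_apply (β := fun _ : Finset.Ioo i j => ℝ)
    (revE i j).symm y (revE i j k)
  rw [Equiv.symm_apply_apply] at this
  exact this.symm

theorem bI_rev {i j : ℕ} (hij : i < j) (A : Sq) {Φ : Sq → ℝ≥0∞} (hΦ : Measurable Φ) :
    bI i j (fun B => Φ (rev i j B)) A = bI i j Φ A := by
  unfold bI lmarginal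
  have hm : Measurable fun y : Finset.Ioo i j → ℝ =>
      (mon i j).indicator Φ (Function.updateFinset A (Finset.Ioo i j) y) :=
    (hΦ.indicator (measurableSet_mon i j)).comp measurable_updateFinset
  rw [← (measurePreserving_revT i j (A i + A j)).lintegral_comp hm]
  refine lintegral_congr fun y => ?_
  have e : Function.updateFinset A (Finset.Ioo i j)
      (fun k => A i + A j - y (revE i j k)) =
        rev i j (Function.updateFinset A (Finset.Ioo i j) y) := by
    have hi : i ∉ Finset.Ioo i j := by simp
    have hj : j ∉ Finset.Ioo i j := by simp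
    ext k
    unfold rev
    by_cases hk : k ∈ Finset.Ioo i j
    · have hk' := Finset.mem_Ioo.1 hk
      have hk2 : i + j - k ∈ Finset.Ioo i j := by rw [Finset.mem_Ioo]; omega
      rw [if_pos (by omega)]
      simp only [Function.updateFinset, hk, hi, hj, hk2, dite_true, dite_false]
      rfl
    · by_cases h : i ≤ k ∧ k ≤ j
      · rw [if_pos h]
        rw [Finset.mem_Ioo] at hk
        rcases eq_or_ne k i with rfl | hki
        · have e1 : k + j - k = j := by omega
          rw [e1]
          simp [Function.updateFinset]
        · have : k = j := by omega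
          subst this
          have e1 : i + k - k = i := by omega
          rw [e1]
          simp [Function.updateFinset]
      · rw [if_neg h]
        simp only [Function.updateFinset, hk, dite_false]
  rw [e]
  by_cases hB : Function.updateFinset A (Finset.Ioo i j) y ∈ mon i j
  · rw [Set.indicator_of_mem hB, Set.indicator_of_mem ((mon_rev _).2 hB)]
  · rw [Set.indicator_of_notMem hB, Set.indicator_of_notMem (fun h => hB ((mon_rev _).1 h))]

theorem rs_rev {i j : ℕ} (hij : i < j) (A : Sq) {U : Set Sq} (hUm : MeasurableSet U) :
    rs i j A (rev i j ⁻¹' U) = rs i j A U := by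
  have h1 : Measurable (U.indicator fun _ => (1 : ℝ≥0∞)) := measurable_const.indicator hUm
  have e1 : rs i j A U = ∫⁻ B, U.indicator (fun _ => (1 : ℝ≥0∞)) B ∂(rs i j A) := by
    rw [lintegral_indicator hUm]; simp
  have e2 : rs i j A (rev i j ⁻¹' U) =
      ∫⁻ B, U.indicator (fun _ => (1 : ℝ≥0∞)) (rev i j B) ∂(rs i j A) := by
    have : (fun B => U.indicator (fun _ => (1 : ℝ≥0∞)) (rev i j B)) =
        (rev i j ⁻¹' U).indicator (fun _ => (1 : ℝ≥0∞)) := by
      ext B; rfl
    rw [this, lintegral_indicator (measurable_rev i j hUm)]; simp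
  have e3 := lintegral_rs (h1.comp (measurable_rev i j)) i j A
  simp only [Function.comp] at e3
  rw [e1, e2, e3, lintegral_rs h1]
  congr 1
  exact bI_rev hij A h1

end Pool.Agent.H22.DL
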