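import Pool.Agent.H22.DL.BrRW
import Pool.Agent.H22.DL.Harris
import Pool.Agent.H22.DL.Rev
import Pool.Agent.H22.DL.Kolm
import Pool.Agent.H22.DL.KolmB
import Pool.Agent.H22.DL.KolmC

/-!
# Module Above: the bridge stays high above an inner window with positive probability

Let `M = j - i`, `c = (i + j) / 2`, `S = √M`. The events
`E1 = {B | ∀ k, i' < k → k < j' → k ≤ c → L + 2 k + C S ≤ B k}` and `E2` (the same with `c < k`)
are upper sets, so `rs (E1 ∩ E2) ≥ rs E1 * rs E2` (`rs_harris`).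
* `rs E1 ≥ c₁ P(E1 for the walk, |ps (c - i) - 2 (c - i)| ≤ R₀ S)` (`rs_ge_rw`, with `C₀ = 0`; the
  walk starts from `L + 2 i - C S`): if `i' ≤ c`, let the walk rise by at least `(2 C + 2) S` and at
  most `R₁ S` in the first `i' - i ≥ δ M` steps (`ps_pos`, `kolmogorov`) and then fluctuate by less
  than `2 S` during the next `c - i' ≤ M / 2` steps (`kolmogorov`: probability `≥ 1 / 2`),
  `ex_split`. If `c < i'` the event is everything.
* `rs E2 = rs (rev i j ⁻¹' E2)` (`rs_rev`): the walk has to go down by `(2 C + 2) S` in the first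
  `j - j' ≥ δ M` steps (`ps_neg`) and then to fluctuate by less than `2 S`.
-/

open MeasureTheory ProbabilityTheory Filter Topology Set
open scoped ENNReal

namespace Pool.Agent.H22.DL

theorem above_one {s : ℝ} (hs : s = 1 ∨ s = -1) (x : ℝ) :
    ∃ c : ℝ, 0 < c ∧ ∃ K₀ : ℕ, ∀ K : ℕ, K₀ ≤ K →
    ENNReal.ofReal c ≤ ex (1 / 2) {y | x * √K ≤ s * (ps y K - 2 * K)} := by
  rcases hs with rfl | rfl
  · simpa using ps_pos x
  · obtain ⟨c, hc, K₀, h⟩ := ps_neg x
    refine ⟨c, hc, K₀, fun K hK => (h K hK).trans (measure_mono fun y hy => ?_)⟩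
    simp only [Set.mem_ofPred_eq] at hy ⊢
    linarith

theorem above_meas_ps (k : ℕ) : Measurable fun x : Sq => ps x k := by
  unfold ps
  exact Finset.measurable_sum _ fun t _ => measurable_pi_apply t

theorem above_ps_add (x : Sq) (K t : ℕ) :
    ps x (K + t) = ps x K + ps (fun r => x (K + r)) t := by
  unfold ps
  exact Finset.sum_range_add _ _ _

theorem above_half {a : ℝ≥0∞} {p : ℝ} (h : ENNReal.ofReal p ≤ a + ENNReal.ofReal (p / 2))
    (hp : 0 < p) : ENNReal.ofReal (p / 2) ≤ a := by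
  have e : ENNReal.ofReal p = ENNReal.ofReal (p / 2) + ENNReal.ofReal (p / 2) := by
    rw [← ENNReal.ofReal_add (by positivity) (by positivity)]
    congr 1
    ring
  rw [e] at h
  exact (ENNReal.add_le_add_iff_right ENNReal.ofReal_ne_top).1 h

theorem above_walk {δ : ℝ} (hδ : 0 < δ) (C : ℝ) (hC : 0 ≤ C) {s : ℝ} (hs : s = 1 ∨ s = -1) :
    ∃ p : ℝ, 0 < p ∧ ∃ R₀ : ℝ, ∃ M₁ : ℕ, ∀ M K N : ℕ, M₁ ≤ M → δ * M ≤ K → 2 * N ≤ M →
    ENNReal.ofReal p ≤ ex (1 / 2) {x | |ps x N - 2 * N| ≤ R₀ * √M ∧ ∀ t : ℕ, K < t → t ≤ N →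
      2 * C * √M ≤ s * (ps x t - 2 * t)} := by
  have : IsProbabilityMeasure (ex (1 / 2)) := prob_ex (by norm_num)
  have hs2 : |s| = 1 := by rcases hs with rfl | rfl <;> simp
  obtain ⟨p₁, hp₁, K₀, h1⟩ := above_one hs ((2 * C + 2) / √δ)
  have hδs : 0 < √δ := Real.sqrt_pos.2 hδ
  set R₁ : ℝ := √(8 / p₁) + 2 with hR₁
  have hR₁2 : 2 ≤ R₁ := by have := Real.sqrt_nonneg (8 / p₁); linarith
  have hR₁sq : 8 / p₁ ≤ R₁ ^ 2 := by
    have h8 : (0 : ℝ) ≤ 8 / p₁ := by positivity
    calc 8 / p₁ = √(8 / p₁) ^ 2 := (Real.sq_sqrt h8).symm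
      _ ≤ R₁ ^ 2 := by
        refine pow_le_pow_left₀ (Real.sqrt_nonneg _) (by linarith) 2
  refine ⟨min (p₁ / 4) (1 / 2), by positivity, R₁ + 2, max 1 ⌈(K₀ : ℝ) / δ⌉₊,
    fun M K N hM hK hN => ?_⟩
  have hM1 : 1 ≤ M := (le_max_left _ _).trans hM
  have hM1' : (1 : ℝ) ≤ M := by exact_mod_cast hM1
  have hM0 : (0 : ℝ) < M := by linarith
  have hMK : (K₀ : ℝ) / δ ≤ M := (Nat.le_ceil _).trans (by exact_mod_cast (le_max_right _ _).trans hM)
  have hK0 : K₀ ≤ K := by
    have : (K₀ : ℝ) ≤ K := by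
      rw [div_le_iff₀ hδ] at hMK
      linarith
    exact_mod_cast this
  have hSM : 0 < √(M : ℝ) := Real.sqrt_pos.2 hM0
  have hSM2 : √(M : ℝ) ^ 2 = M := Real.sq_sqrt hM0.le
  have hN' : 2 * (N : ℝ) ≤ M := by exact_mod_cast hN
  by_cases hKN : K ≤ N
  · -- the main case
    have hKN' : (K : ℝ) ≤ N := by exact_mod_cast hKN
    set U : Set Sq := {x | (2 * C + 2) * √M ≤ s * (ps x K - 2 * K) ∧
      s * (ps x K - 2 * K) ≤ R₁ * √M} with hUdef
    set V : Set Sq := {y | ∀ k : ℕ, k ≤ N - K → |ps y k - 2 * k| < 2 * √M} with hVdef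
    have hUm : MeasurableSet U := by
      have hf : Measurable fun x : Sq => s * (ps x K - 2 * K) :=
        ((above_meas_ps K).sub_const _).const_mul s
      exact (measurableSet_le measurable_const hf).inter (measurableSet_le hf measurable_const)
    have hVm : MeasurableSet V := by
      have e : V = ⋂ k : ℕ, ⋂ _ : k ≤ N - K, {y : Sq | |ps y k - 2 * k| < 2 * √M} := by
        ext y
        simp [hVdef]
      rw [e]
      refine MeasurableSet.iInter fun k => MeasurableSet.iInter fun _ => ?_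
      exact measurableSet_lt (((above_meas_ps k).sub_const _).abs) measurable_const
    -- probability of `U`
    have hPU : ENNReal.ofReal (p₁ / 2) ≤ ex (1 / 2) U := by
      refine above_half ?_ hp₁
      have hsub : {y : Sq | (2 * C + 2) / √δ * √K ≤ s * (ps y K - 2 * K)} ⊆
          U ∪ {x | ∃ k ≤ K, R₁ * √M ≤ |ps x k - 2 * k|} := by
        intro y hy
        simp only [Set.mem_ofPred_eq] at hy
        by_cases hb : s * (ps y K - 2 * K) ≤ R₁ * √M
        · left
          refine ⟨?_, hb⟩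
          refine le_trans ?_ hy
          have h3 : √(δ * M) ≤ √K := Real.sqrt_le_sqrt hK
          rw [Real.sqrt_mul hδ.le] at h3
          have h4 : √(M : ℝ) ≤ √K / √δ := by
            rw [le_div_iff₀ hδs]
            linarith
          calc (2 * C + 2) * √M ≤ (2 * C + 2) * (√K / √δ) :=
                mul_le_mul_of_nonneg_left h4 (by linarith)
            _ = (2 * C + 2) / √δ * √K := by ring
        · right
          refine ⟨K, le_rfl, ?_⟩
          push Not at hb
          have : s * (ps y K - 2 * K) ≤ |ps y K - 2 * K| := by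
            calc s * (ps y K - 2 * K) ≤ |s * (ps y K - 2 * K)| := le_abs_self _
              _ = |ps y K - 2 * K| := by rw [abs_mul, hs2, one_mul]
          linarith
      calc ENNReal.ofReal p₁ ≤ ex (1 / 2) {y | (2 * C + 2) / √δ * √K ≤ s * (ps y K - 2 * K)} :=
            h1 K hK0
        _ ≤ ex (1 / 2) (U ∪ {x | ∃ k ≤ K, R₁ * √M ≤ |ps x k - 2 * k|}) := measure_mono hsub
        _ ≤ ex (1 / 2) U + ex (1 / 2) {x | ∃ k ≤ K, R₁ * √M ≤ |ps x k - 2 * k|} :=
            measure_union_le _ _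
        _ ≤ ex (1 / 2) U + ENNReal.ofReal (p₁ / 2) := by
            gcongr
            refine (kolmogorov K (by positivity)).trans (ENNReal.ofReal_le_ofReal ?_)
            rw [mul_pow, hSM2, div_le_iff₀ (by positivity)]
            have h5 : 8 ≤ R₁ ^ 2 * p₁ := (div_le_iff₀ hp₁).1 hR₁sq
            have h6 : 4 * (K : ℝ) ≤ 2 * M := by linarith
            have h7 : 8 * (M : ℝ) ≤ R₁ ^ 2 * p₁ * M := mul_le_mul_of_nonneg_right h5 hM0.le
            nlinarith
    -- probability of `V`
    have hPV : ENNReal.ofReal (1 / 2) ≤ ex (1 / 2) V := by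
      refine above_half ?_ one_pos
      have hsub : (Set.univ : Set Sq) ⊆ V ∪ {x | ∃ k ≤ N - K, 2 * √M ≤ |ps x k - 2 * k|} := by
        intro y _
        by_cases hy : y ∈ V
        · exact Or.inl hy
        · right
          simp only [hVdef, Set.mem_ofPred_eq] at hy
          push Not at hy
          exact hy
      calc ENNReal.ofReal 1 = ex (1 / 2) Set.univ := by rw [measure_univ, ENNReal.ofReal_one]
        _ ≤ ex (1 / 2) (V ∪ {x | ∃ k ≤ N - K, 2 * √M ≤ |ps x k - 2 * k|}) := measure_mono hsub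
        _ ≤ ex (1 / 2) V + ex (1 / 2) {x | ∃ k ≤ N - K, 2 * √M ≤ |ps x k - 2 * k|} :=
            measure_union_le _ _
        _ ≤ ex (1 / 2) V + ENNReal.ofReal (1 / 2) := by
            gcongr
            refine (kolmogorov (N - K) (by positivity)).trans (ENNReal.ofReal_le_ofReal ?_)
            rw [mul_pow, hSM2, div_le_iff₀ (by positivity)]
            have : ((N - K : ℕ) : ℝ) ≤ N := by exact_mod_cast Nat.sub_le N K
            linarith
    have hsplit := ex_split K hUm hVm (fun x x' hxx => by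
      have : ps x K = ps x' K := by
        unfold ps
        exact Finset.sum_congr rfl fun t ht => hxx t (Finset.mem_range.1 ht)
      simp only [hUdef, Set.mem_ofPred_eq, this])
    calc ENNReal.ofReal (min (p₁ / 4) (1 / 2)) ≤ ENNReal.ofReal (p₁ / 2 * (1 / 2)) := by
          refine ENNReal.ofReal_le_ofReal ((min_le_left _ _).trans (le_of_eq (by ring)))
      _ = ENNReal.ofReal (p₁ / 2) * ENNReal.ofReal (1 / 2) := ENNReal.ofReal_mul (by positivity)
      _ ≤ ex (1 / 2) U * ex (1 / 2) V := mul_le_mul' hPU hPV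
      _ = ex (1 / 2) {x | x ∈ U ∧ (fun t => x (K + t)) ∈ V} := hsplit.symm
      _ ≤ _ := by
        refine measure_mono fun x hx => ?_
        obtain ⟨⟨hx1, hx2⟩, hx3⟩ := hx
        have key : ∀ t : ℕ, K ≤ t → t ≤ N →
            |s * (ps x t - 2 * t) - s * (ps x K - 2 * K)| < 2 * √M := by
          intro t hKt htN
          have h9 := hx3 (t - K) (by omega)
          have e : t = K + (t - K) := by omega
          have e' : (t : ℝ) = K + ((t - K : ℕ) : ℝ) := by exact_mod_cast e
          have e2 : ps x t = ps x K + ps (fun r => x (K + r)) (t - K) := by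
            conv_lhs => rw [e]
            exact above_ps_add x K (t - K)
          have e3 : s * (ps x t - 2 * t) - s * (ps x K - 2 * K) =
              s * (ps (fun r => x (K + r)) (t - K) - 2 * ((t - K : ℕ) : ℝ)) := by
            rw [e2, e']
            ring
          rw [e3, abs_mul, hs2, one_mul]
          exact h9
        refine ⟨?_, fun t hKt htN => ?_⟩
        · have h10 := abs_lt.1 (key N hKN le_rfl)
          have h11 : |ps x N - 2 * N| = |s * (ps x N - 2 * N)| := by rw [abs_mul, hs2, one_mul]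
          rw [h11, abs_le]
          constructor
          · nlinarith
          · nlinarith
        · have h10 := abs_lt.1 (key t hKt.le htN)
          nlinarith
  · -- nothing to do, only the control of the end point
    push Not at hKN
    have hhalf : ENNReal.ofReal (1 / 2) ≤ ex (1 / 2) {x | |ps x N - 2 * N| ≤ (R₁ + 2) * √M} := by
      refine above_half ?_ one_pos
      have hsub : (Set.univ : Set Sq) ⊆ {x | |ps x N - 2 * N| ≤ (R₁ + 2) * √M} ∪
          {x | ∃ k ≤ N, (R₁ + 2) * √M ≤ |ps x k - 2 * k|} := by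
        intro y _
        by_cases hy : |ps y N - 2 * N| ≤ (R₁ + 2) * √M
        · exact Or.inl hy
        · right
          push Not at hy
          exact ⟨N, le_rfl, hy.le⟩
      calc ENNReal.ofReal 1 = ex (1 / 2) Set.univ := by rw [measure_univ, ENNReal.ofReal_one]
        _ ≤ ex (1 / 2) ({x | |ps x N - 2 * N| ≤ (R₁ + 2) * √M} ∪
          {x | ∃ k ≤ N, (R₁ + 2) * √M ≤ |ps x k - 2 * k|}) := measure_mono hsub
        _ ≤ ex (1 / 2) {x | |ps x N - 2 * N| ≤ (R₁ + 2) * √M} +
            ex (1 / 2) {x | ∃ k ≤ N, (R₁ + 2) * √M ≤ |ps x k - 2 * k|} := measure_union_le _ _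
        _ ≤ _ + ENNReal.ofReal (1 / 2) := by
            gcongr
            refine (kolmogorov N (by positivity)).trans (ENNReal.ofReal_le_ofReal ?_)
            rw [mul_pow, hSM2, div_le_iff₀ (by positivity)]
            have h12 : (16 : ℝ) ≤ (R₁ + 2) ^ 2 := by nlinarith
            have h13 : 16 * (M : ℝ) ≤ (R₁ + 2) ^ 2 * M := mul_le_mul_of_nonneg_right h12 hM0.le
            linarith
    refine le_trans (ENNReal.ofReal_le_ofReal (min_le_right _ _)) (hhalf.trans ?_)
    refine measure_mono fun x hx => ⟨hx, fun t h1t h2t => ?_⟩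
    omega

/-- the form of `rs_ge_rw` used here -/
theorem above_ge {R₀ c₁ : ℝ} {i c j : ℕ} {A : Sq}
    (h : ∀ Φ : Sq → ℝ≥0∞, Measurable Φ →
      (∀ B B' : Sq, (∀ k, (k ≤ c ∨ j ≤ k) → B k = B' k) → Φ B = Φ B') →
      ENNReal.ofReal c₁ * ∫⁻ x in {x | |ps x (c - i) - 2 * ((c : ℝ) - i)| ≤ R₀ * √((j : ℝ) - i)},
        Φ (path i c A x) ∂(ex (1 / 2)) ≤ ∫⁻ B, Φ B ∂(rs i j A))
    (hc₁ : 0 ≤ c₁) {E W : Set Sq} (hE : MeasurableSet E)
    (hdep : ∀ B B' : Sq, (∀ k, (k ≤ c ∨ j ≤ k) → B k = B' k) → B ∈ E → B' ∈ E)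
    {p : ℝ} (hp : ENNReal.ofReal p ≤ ex (1 / 2) W)
    (hW : ∀ x ∈ W, |ps x (c - i) - 2 * ((c : ℝ) - i)| ≤ R₀ * √((j : ℝ) - i) ∧
      path i c A x ∈ E) :
    ENNReal.ofReal (c₁ * p) ≤ rs i j A E := by
  have h1 := h (E.indicator 1) (measurable_one.indicator hE) (fun B B' hBB => by
    by_cases hB : B ∈ E
    · rw [Set.indicator_of_mem hB, Set.indicator_of_mem (hdep B B' hBB hB)]
      rfl
    · have hB' : B' ∉ E := fun hB' => hB (hdep B' B (fun k hk => (hBB k hk).symm) hB')
      rw [Set.indicator_of_notMem hB, Set.indicator_of_notMem hB'])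
  rw [lintegral_indicator_one hE] at h1
  refine le_trans ?_ h1
  rw [ENNReal.ofReal_mul hc₁]
  refine mul_le_mul' le_rfl (hp.trans ?_)
  have hT : MeasurableSet (path i c A ⁻¹' E) := measurable_path i c A hE
  have e : (fun x => E.indicator (1 : Sq → ℝ≥0∞) (path i c A x)) =
      (path i c A ⁻¹' E).indicator 1 := by
    funext x
    by_cases hx : path i c A x ∈ E
    · rw [Set.indicator_of_mem hx, Set.indicator_of_mem (show x ∈ path i c A ⁻¹' E from hx)]
      rfl
    · rw [Set.indicator_of_notMem hx,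
        Set.indicator_of_notMem (show x ∉ path i c A ⁻¹' E from hx)]
  rw [e, lintegral_indicator_one hT, Measure.restrict_apply hT]
  exact measure_mono fun x hx => ⟨(hW x hx).2, (hW x hx).1⟩

theorem bridge_above {δ : ℝ} (hδ : 0 < δ) (C : ℝ) (hC : 0 ≤ C) :
    ∃ c₀ : ℝ, 0 < c₀ ∧ ∃ M₀ : ℕ, ∀ i i' j' j : ℕ,
    M₀ ≤ j - i → i < i' → i' < j' → j' < j → δ * ((j : ℝ) - i) ≤ (i' : ℝ) - i →
    δ * ((j : ℝ) - i) ≤ (j : ℝ) - j' → ∀ (A : Sq) (L : ℝ),
    A i = L + 2 * i - C * √((j : ℝ) - i) → A j = L + 2 * j - C * √((j : ℝ) - i) →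
    ENNReal.ofReal c₀ ≤ rs i j A (bar (fun k => L + 2 * k + C * √((j : ℝ) - i)) i' j') := by
  obtain ⟨p, hp, R, M₁, hup⟩ := above_walk hδ C hC (Or.inl rfl : (1 : ℝ) = 1 ∨ (1 : ℝ) = -1)
  obtain ⟨p', hp', R', M₁', hdn⟩ := above_walk hδ C hC (Or.inr rfl : (-1 : ℝ) = 1 ∨ (-1 : ℝ) = -1)
  obtain ⟨c₁, hc₁, M₂, hge⟩ := rs_ge_rw 0 R
  obtain ⟨c₁', hc₁', M₂', hge'⟩ := rs_ge_rw 0 R'
  refine ⟨(c₁ * p) * (c₁' * p'), by positivity, max (max M₁ M₁') (max (max M₂ M₂') 2),
    fun i i' j' j hM hii' hi'j' hj'j hδ1 hδ2 A L hAi hAj => ?_⟩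
  have hij : i < j := by omega
  have hcast : ((j - i : ℕ) : ℝ) = (j : ℝ) - i := by
    rw [Nat.cast_sub hij.le]
  have hMpos : (0 : ℝ) < (j : ℝ) - i := by
    have : (i : ℝ) < j := by exact_mod_cast hij
    linarith
  have hAlt : A i < A j := by rw [hAi, hAj]; linarith
  set S : ℝ := √((j : ℝ) - i) with hS
  have hSpos : 0 < S := Real.sqrt_pos.2 hMpos
  set c : ℕ := (i + j) / 2 with hc
  have h2 : 2 ≤ j - i := (le_max_right _ _).trans ((le_max_right _ _).trans hM)
  have hic : i < c := by omega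
  have hcj : c < j := by omega
  have h43 : 4 * (c - i) ≤ 3 * (j - i) := by omega
  have hzero : |A j - A i - 2 * ((j : ℝ) - i)| ≤ 0 * √((j : ℝ) - i) := by
    rw [hAi, hAj]
    have : L + 2 * (j : ℝ) - C * S - (L + 2 * i - C * S) - 2 * ((j : ℝ) - i) = 0 := by ring
    rw [this]
    simp
  have hcc : ((c - i : ℕ) : ℝ) = (c : ℝ) - i := by rw [Nat.cast_sub hic.le]
  set E1 : Set Sq := {B | ∀ k, i' < k → k < j' → k ≤ c → L + 2 * k + C * S ≤ B k} with hE1
  set E2 : Set Sq := {B | ∀ k, i' < k → k < j' → c < k → L + 2 * k + C * S ≤ B k} with hE2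
  have hbar : bar (fun k => L + 2 * k + C * S) i' j' = E1 ∩ E2 := by
    ext B
    simp only [bar, hE1, hE2, Set.mem_ofPred_eq, Set.mem_inter_iff]
    constructor
    · intro h
      exact ⟨fun k h1 h2 _ => h k h1 h2, fun k h1 h2 _ => h k h1 h2⟩
    · intro h k h1 h2
      rcases le_or_gt k c with h3 | h3
      · exact h.1 k h1 h2 h3
      · exact h.2 k h1 h2 h3
  have hE1m : MeasurableSet E1 := by
    have e : E1 = ⋂ k : ℕ, ⋂ _ : i' < k, ⋂ _ : k < j', ⋂ _ : k ≤ c,
        {B : Sq | L + 2 * k + C * S ≤ B k} := by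
      ext B
      simp [hE1]
    rw [e]
    refine MeasurableSet.iInter fun k => MeasurableSet.iInter fun _ => MeasurableSet.iInter fun _ =>
      MeasurableSet.iInter fun _ => measurableSet_le measurable_const (measurable_pi_apply k)
  have hE2m : MeasurableSet E2 := by
    have e : E2 = ⋂ k : ℕ, ⋂ _ : i' < k, ⋂ _ : k < j', ⋂ _ : c < k,
        {B : Sq | L + 2 * k + C * S ≤ B k} := by
      ext B
      simp [hE2]
    rw [e]
    refine MeasurableSet.iInter fun k => MeasurableSet.iInter fun _ => MeasurableSet.iInter fun _ =>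
      MeasurableSet.iInter fun _ => measurableSet_le measurable_const (measurable_pi_apply k)
  have hE1u : IsUpperSet E1 := fun B B' hBB hB k h1 h2 h3 => (hB k h1 h2 h3).trans (hBB k)
  have hE2u : IsUpperSet E2 := fun B B' hBB hB k h1 h2 h3 => (hB k h1 h2 h3).trans (hBB k)
  -- first half
  have hR1 : ENNReal.ofReal (c₁ * p) ≤ rs i j A E1 := by
    have hw := hup (j - i) (i' - i) (c - i) (by omega)
      (by rw [hcast, Nat.cast_sub hii'.le]; exact hδ1) (by omega)
    refine above_ge (hge i c j (by omega) hic hcj h43 A hAlt hzero) hc₁.le hE1m ?_ hw ?_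
    · intro B B' hBB hB k h1 h2 h3
      rw [← hBB k (Or.inl h3)]
      exact hB k h1 h2 h3
    · intro x hx
      rw [hcast, hcc] at hx
      refine ⟨hx.1, fun k h1 h2 h3 => ?_⟩
      have h4 := hx.2 (k - i) (by omega) (by omega)
      have hki : ((k - i : ℕ) : ℝ) = (k : ℝ) - i := by rw [Nat.cast_sub (by omega)]
      rw [hki] at h4
      have hpath : path i c A x k = A i + ps x (k - i) := by
        unfold path
        rw [if_pos ⟨by omega, h3⟩]
      rw [hpath, hAi]
      linarith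
  -- second half
  have hR2 : ENNReal.ofReal (c₁' * p') ≤ rs i j A E2 := by
    rw [← rs_rev hij A hE2m]
    have hw := hdn (j - i) (j - j') (c - i) (by omega)
      (by rw [hcast, Nat.cast_sub hj'j.le]; exact hδ2) (by omega)
    refine above_ge (hge' i c j (by omega) hic hcj h43 A hAlt hzero) hc₁'.le
      (measurable_rev i j hE2m) ?_ hw ?_
    · intro B B' hBB hB k h1 h2 h3
      have h4 := hB k h1 h2 h3
      have hr : ∀ D : Sq, rev i j D k = D i + D j - D (i + j - k) := by
        intro D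
        unfold rev
        rw [if_pos ⟨by omega, by omega⟩]
      rw [hr] at h4 ⊢
      rw [← hBB i (Or.inl hic.le), ← hBB j (Or.inr le_rfl), ← hBB (i + j - k) (Or.inl (by omega))]
      exact h4
    · intro x hx
      rw [hcast, hcc] at hx
      refine ⟨hx.1, fun k h1 h2 h3 => ?_⟩
      have hr : ∀ D : Sq, rev i j D k = D i + D j - D (i + j - k) := by
        intro D
        unfold rev
        rw [if_pos ⟨by omega, by omega⟩]
      rw [hr]
      have hpi : path i c A x i = A i := by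
        unfold path
        rw [if_neg (by omega)]
      have hpj : path i c A x j = A j := by
        unfold path
        rw [if_neg (by omega)]
      have hpk : path i c A x (i + j - k) = A i + ps x (i + j - k - i) := by
        unfold path
        rw [if_pos ⟨by omega, by omega⟩]
      rw [hpi, hpj, hpk, hAj]
      have h4 := hx.2 (i + j - k - i) (by omega) (by omega)
      have hki : ((i + j - k - i : ℕ) : ℝ) = (j : ℝ) - k := by
        have : i + j - k - i = j - k := by omega
        rw [this, Nat.cast_sub (by omega)]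
      rw [hki] at h4
      linarith
  rw [hbar]
  calc ENNReal.ofReal ((c₁ * p) * (c₁' * p')) =
        ENNReal.ofReal (c₁ * p) * ENNReal.ofReal (c₁' * p') := ENNReal.ofReal_mul (by positivity)
    _ ≤ rs i j A E1 * rs i j A E2 := mul_le_mul' hR1 hR2
    _ ≤ rs i j A (E1 ∩ E2) := rs_harris hij hAlt hE1u hE1m hE2u hE2m

end Pool.Agent.H22.DL
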