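import Mathlib

/-!
# Module AcApp: criterion for absolute continuity (paper 7.0)

Inner regularity: if `μ₂ E = 0 < μ₁ E` take a compact `K ⊆ E` with `μ₁ K > 0` (`ι → ℝ` is Polish).
`K` is the decreasing intersection of the closed cylinders `{x | x|_s ∈ proj_s K}` over an
exhaustion of `ι` by finite sets `s`; for a closed set of a finite-dimensional space the indicator
is a decreasing limit of continuous functions with values in `[0, 1]` (`thickenedIndicator`). So
`μ₁ K ≤ C μ₂ K + ε = ε`.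
-/

open MeasureTheory ProbabilityTheory Filter Topology Set
open scoped ENNReal

namespace Pool.Agent.H22.DL

/-- restriction of a function to a finite set -/
def acr {ι : Type*} (s : Finset ι) (x : ι → ℝ) : s → ℝ := fun i => x i

lemma acr_meas {ι : Type*} (s : Finset ι) : Measurable (acr s : (ι → ℝ) → s → ℝ) := by
  rw [measurable_pi_iff]
  intro i
  exact measurable_pi_apply _

lemma acr_cont {ι : Type*} (s : Finset ι) : Continuous (acr s : (ι → ℝ) → s → ℝ) :=
  continuous_pi fun i => continuous_apply (i : ι)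

/-- closed cylinders -/
lemma acr_closed {ι : Type*} {μ₁ μ₂ : Measure (ι → ℝ)} [IsFiniteMeasure μ₁]
    [IsFiniteMeasure μ₂] {C ε : ℝ} (s : Finset ι)
    (h : ∀ F : (s → ℝ) → ℝ, Continuous F → (∀ v, 0 ≤ F v ∧ F v ≤ 1) →
      ∫ x, F (fun i => x i) ∂μ₁ ≤ C * ∫ x, F (fun i => x i) ∂μ₂ + ε)
    {K : Set (s → ℝ)} (hK : IsClosed K) :
    μ₁.real (acr s ⁻¹' K) ≤ C * μ₂.real (acr s ⁻¹' K) + ε := by
  have hδ : ∀ n : ℕ, (0 : ℝ) < 1 / ((n : ℝ) + 1) := fun n => by positivity
  have hlim : Tendsto (fun n : ℕ => 1 / ((n : ℝ) + 1)) atTop (𝓝 0) :=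
    tendsto_one_div_add_atTop_nhds_zero_nat
  have key : ∀ (μ : Measure (ι → ℝ)) [IsFiniteMeasure μ],
      Tendsto (fun n => ∫ x, ((thickenedIndicator (hδ n) K (acr s x) : NNReal) : ℝ) ∂μ) atTop
        (𝓝 (μ.real (acr s ⁻¹' K))) := by
    intro μ _
    have h1 := tendsto_lintegral_thickenedIndicator_of_isClosed (μ.map (acr s)) hK hδ hlim
    have h2 := (ENNReal.tendsto_toReal (measure_ne_top (μ.map (acr s)) K)).comp h1
    have h3 : ((μ.map (acr s)) K).toReal = μ.real (acr s ⁻¹' K) := by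
      rw [Measure.map_apply (acr_meas s) hK.measurableSet, measureReal_def]
    rw [h3] at h2
    refine h2.congr fun n => ?_
    rw [Function.comp_apply, BoundedContinuousFunction.toReal_lintegral_coe_eq_integral,
      integral_map (acr_meas s).aemeasurable]
    exact (NNReal.continuous_coe.comp (thickenedIndicator (hδ n) K).continuous).aestronglyMeasurable
  refine le_of_tendsto_of_tendsto' (key μ₁) (((key μ₂).const_mul C).add_const ε) fun n => ?_
  refine h (fun v => ((thickenedIndicator (hδ n) K v : NNReal) : ℝ)) ?_ ?_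
  · exact NNReal.continuous_coe.comp (thickenedIndicator (hδ n) K).continuous
  · intro v
    refine ⟨NNReal.coe_nonneg _, ?_⟩
    have := thickenedIndicator_le_one (hδ n) K v
    exact_mod_cast this

/-- finite exhaustion of a countable type -/
lemma acr_exh (ι : Type*) [Countable ι] : ∃ s : ℕ → Finset ι, Monotone s ∧ ∀ i, ∃ n, i ∈ s n := by
  classical
  obtain ⟨f, hf⟩ := exists_injective_nat ι
  have hfin : ∀ n : ℕ, {i | f i ≤ n}.Finite := fun n =>
    Set.Finite.preimage hf.injOn (Set.finite_Iic n)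
  refine ⟨fun n => (hfin n).toFinset, ?_, ?_⟩
  · intro a b hab i hi
    rw [Set.Finite.mem_toFinset] at hi ⊢
    exact le_trans hi hab
  · intro i
    refine ⟨f i, ?_⟩
    rw [Set.Finite.mem_toFinset]
    exact le_refl (f i)

theorem ac_of_approx {ι : Type*} [Countable ι] {μ₁ μ₂ : Measure (ι → ℝ)} [IsFiniteMeasure μ₁]
    [IsFiniteMeasure μ₂]
    (h : ∀ ε : ℝ, 0 < ε → ∃ C : ℝ, 0 ≤ C ∧ ∀ (s : Finset ι) (F : (s → ℝ) → ℝ), Continuous F →
      (∀ v, 0 ≤ F v ∧ F v ≤ 1) →
      ∫ x, F (fun i => x i) ∂μ₁ ≤ C * ∫ x, F (fun i => x i) ∂μ₂ + ε) : μ₁ ≪ μ₂ := by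
  classical
  apply Measure.AbsolutelyContinuous.mk
  intro E hE hE0
  by_contra hne
  obtain ⟨K, hKE, hK, hKpos⟩ := hE.exists_lt_isCompact (μ := μ₁) (pos_iff_ne_zero.mpr hne)
  have hK2 : μ₂ K = 0 := measure_mono_null hKE hE0
  have hKr : 0 < μ₁.real K := by
    rw [measureReal_def, ENNReal.toReal_pos_iff]
    exact ⟨hKpos, measure_lt_top _ _⟩
  obtain ⟨C, hC, hCε⟩ := h (μ₁.real K / 2) (by positivity)
  obtain ⟨s, hs, hcov⟩ := acr_exh ι
  -- cylinders over the projections
  set T : ℕ → Set (ι → ℝ) := fun n => acr (s n) ⁻¹' (acr (s n) '' K) with hT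
  have hclosed : ∀ n, IsClosed (acr (s n) '' K) := fun n =>
    (hK.image (acr_cont (s n))).isClosed
  have hTmeas : ∀ n, MeasurableSet (T n) := fun n => acr_meas (s n) (hclosed n).measurableSet
  have hKT : ∀ n, K ⊆ T n := fun n x hx => ⟨x, hx, rfl⟩
  have hanti : Antitone T := by
    intro a b hab x hx
    obtain ⟨y, hy, hyx⟩ := hx
    refine ⟨y, hy, ?_⟩
    funext i
    exact congrFun hyx ⟨i, hs hab i.2⟩
  have hinter : ⋂ n, T n = K := by
    apply Subset.antisymm
    · intro x hx
      rw [mem_iInter] at hx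
      choose y hy hyx using hx
      have hlim : Tendsto y atTop (𝓝 x) := by
        rw [tendsto_pi_nhds]
        intro i
        obtain ⟨n, hn⟩ := hcov i
        apply tendsto_const_nhds.congr'
        filter_upwards [eventually_ge_atTop n] with k hk
        exact (congrFun (hyx k) ⟨i, hs hk hn⟩).symm
      exact hK.isClosed.mem_of_tendsto hlim (Eventually.of_forall hy)
    · exact subset_iInter hKT
  have hlimT : Tendsto (fun n => μ₂ (T n)) atTop (𝓝 0) := by
    have := tendsto_measure_iInter_atTop (μ := μ₂) (fun n => (hTmeas n).nullMeasurableSet) hanti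
      ⟨0, measure_ne_top _ _⟩
    rwa [hinter, hK2] at this
  have hlimR : Tendsto (fun n => μ₂.real (T n)) atTop (𝓝 0) := by
    have := (ENNReal.tendsto_toReal ENNReal.zero_ne_top).comp hlimT
    rw [ENNReal.toReal_zero] at this
    exact this
  have hle : ∀ n, μ₁.real K ≤ C * μ₂.real (T n) + μ₁.real K / 2 := by
    intro n
    refine (measureReal_mono (hKT n) (measure_ne_top _ _)).trans ?_
    exact acr_closed (s n) (hCε (s n)) (hclosed n)
  have h3 : μ₁.real K ≤ C * 0 + μ₁.real K / 2 :=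
    ge_of_tendsto' ((hlimR.const_mul C).add_const (μ₁.real K / 2)) hle
  linarith

end Pool.Agent.H22.DL
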