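import Pool.Agent.H22.DL.Defs

/-!
# Module RdB: bounds for the density `Rd` (pure real analysis, Stirling)

`log Rd` as a function of `s` is concave with maximum at `d - s = 2 (m - k)`, with value
`log (m! / (m - k)!) + m log 2 + (m - k) log (m - k) - m log d + d / 2 - (m - k)`; with
`n! ≤ e √n (n/e)^n` and `√(2πn) (n/e)^n ≤ n!` this is at most
`C + m (x - 1 - log x)`, `x = d / (2 m)`, and `x - 1 - log x ≤ 2 (x - 1) ^ 2` near `1`.
For the lower bound use `log (1 + u) ≥ u - u ^ 2` (`|u| ≤ 1/2`) around `s = 2 k`.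
-/

open MeasureTheory ProbabilityTheory Filter Topology Set

namespace Pool.Agent.H22.DL

theorem RdB_fact_le {n : ℕ} (hn : 1 ≤ n) :
    (n.factorial : ℝ) ≤ Real.exp 1 * √n * (n / Real.exp 1) ^ n := by
  obtain ⟨k, rfl⟩ : ∃ k, n = k + 1 := ⟨n - 1, by omega⟩
  have h := Stirling.stirlingSeq'_antitone (Nat.zero_le k)
  simp only [Function.comp] at h
  rw [show Nat.succ 0 = 1 from rfl, Stirling.stirlingSeq_one] at h
  unfold Stirling.stirlingSeq at h
  have hk : (0 : ℝ) < ((k + 1 : ℕ) : ℝ) := by positivity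
  have h1 : 0 < √(2 * ((k + 1 : ℕ) : ℝ)) * (((k + 1 : ℕ) : ℝ) / Real.exp 1) ^ (k + 1) := by
    positivity
  rw [Nat.succ_eq_add_one, div_le_div_iff₀ h1 (by positivity)] at h
  have h2 : √(2 * ((k + 1 : ℕ) : ℝ)) = √2 * √((k + 1 : ℕ) : ℝ) := Real.sqrt_mul (by norm_num) _
  rw [h2] at h
  have h3 : (0 : ℝ) < √2 := by positivity
  have h4 : ((k + 1).factorial : ℝ) * √2 ≤
      (Real.exp 1 * √((k + 1 : ℕ) : ℝ) * (((k + 1 : ℕ) : ℝ) / Real.exp 1) ^ (k + 1)) * √2 := by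
    linarith
  exact le_of_mul_le_mul_right h4 h3

/-- the Stirling quotient -/
noncomputable def RdB_Q (m j : ℕ) : ℝ :=
  (m.factorial : ℝ) / (j.factorial : ℝ) * (j / Real.exp 1) ^ j / (m / Real.exp 1) ^ m

theorem RdB_Q_le {m j : ℕ} (hj : 1 ≤ j) (hm : 1 ≤ m) (hmj : m ≤ 8 * j) :
    RdB_Q m j ≤ Real.exp 1 * √8 := by
  have hjR : (0 : ℝ) < j := by exact_mod_cast hj
  have hmR : (0 : ℝ) < m := by exact_mod_cast hm
  unfold RdB_Q
  have h1 := RdB_fact_le hm
  have h2 := Stirling.le_factorial_stirling j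
  have h3 : √(j : ℝ) ≤ √(2 * Real.pi * j) := by
    apply Real.sqrt_le_sqrt
    have := Real.pi_gt_three
    nlinarith
  have h4 : √(j : ℝ) * (j / Real.exp 1) ^ j ≤ j.factorial :=
    (mul_le_mul_of_nonneg_right h3 (by positivity)).trans h2
  have h5 : √(m : ℝ) ≤ √8 * √(j : ℝ) := by
    rw [← Real.sqrt_mul (by norm_num)]
    apply Real.sqrt_le_sqrt
    exact_mod_cast hmj
  have hf : (0 : ℝ) < j.factorial := by positivity
  have hm' : (0 : ℝ) < (m / Real.exp 1) ^ m := by positivity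
  have hj' : (0 : ℝ) < (j / Real.exp 1) ^ j := by positivity
  rw [div_le_iff₀ hm', div_mul_eq_mul_div, div_le_iff₀ hf]
  calc (m.factorial : ℝ) * (j / Real.exp 1) ^ j
      ≤ (Real.exp 1 * √m * (m / Real.exp 1) ^ m) * (j / Real.exp 1) ^ j :=
        mul_le_mul_of_nonneg_right h1 hj'.le
    _ ≤ (Real.exp 1 * (√8 * √j) * (m / Real.exp 1) ^ m) * (j / Real.exp 1) ^ j := by
        apply mul_le_mul_of_nonneg_right _ hj'.le
        apply mul_le_mul_of_nonneg_right _ hm'.le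
        exact mul_le_mul_of_nonneg_left h5 (Real.exp_pos 1).le
    _ = Real.exp 1 * √8 * (m / Real.exp 1) ^ m * (√j * (j / Real.exp 1) ^ j) := by ring
    _ ≤ Real.exp 1 * √8 * (m / Real.exp 1) ^ m * j.factorial :=
        mul_le_mul_of_nonneg_left h4 (by positivity)

theorem RdB_Q_ge {m j : ℕ} (hj : 1 ≤ j) (hjm : j ≤ m) :
    (Real.exp 1)⁻¹ ≤ RdB_Q m j := by
  have hjR : (0 : ℝ) < j := by exact_mod_cast hj
  have hmR : (0 : ℝ) < m := by exact_mod_cast (hj.trans hjm)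
  unfold RdB_Q
  have h1 := RdB_fact_le hj
  have h2 := Stirling.le_factorial_stirling m
  have h3 : √(j : ℝ) ≤ √(2 * Real.pi * m) := by
    apply Real.sqrt_le_sqrt
    have := Real.pi_gt_three
    have h : (j : ℝ) ≤ m := by exact_mod_cast hjm
    nlinarith
  have hf : (0 : ℝ) < j.factorial := by positivity
  have hm' : (0 : ℝ) < (m / Real.exp 1) ^ m := by positivity
  have hj' : (0 : ℝ) < (j / Real.exp 1) ^ j := by positivity
  have h4 : √(j : ℝ) * (m / Real.exp 1) ^ m ≤ m.factorial :=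
    (mul_le_mul_of_nonneg_right h3 hm'.le).trans h2
  have he : 0 < Real.exp 1 := Real.exp_pos 1
  rw [le_div_iff₀ hm', div_mul_eq_mul_div, le_div_iff₀ hf]
  calc (Real.exp 1)⁻¹ * (m / Real.exp 1) ^ m * j.factorial
      ≤ (Real.exp 1)⁻¹ * (m / Real.exp 1) ^ m *
        (Real.exp 1 * √j * (j / Real.exp 1) ^ j) := mul_le_mul_of_nonneg_left h1 (by positivity)
    _ = (√j * (m / Real.exp 1) ^ m) * (j / Real.exp 1) ^ j := by
        field_simp
    _ ≤ m.factorial * (j / Real.exp 1) ^ j := mul_le_mul_of_nonneg_right h4 hj'.le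

/-- `log (1 + t) ≥ t - 2 t ^ 2` in exponential form -/
theorem RdB_log {t : ℝ} (ht : |t| ≤ 1 / 2) : t - 2 * t ^ 2 ≤ Real.log (1 + t) := by
  have h1 := abs_le.1 ht
  have h0 : 0 < 1 + t := by linarith [h1.1]
  have h2 := Real.one_sub_inv_le_log_of_pos h0
  have h3 : 1 - (1 + t)⁻¹ = t - t ^ 2 / (1 + t) := by field_simp; ring
  have h4 : t ^ 2 / (1 + t) ≤ 2 * t ^ 2 := by
    rw [div_le_iff₀ h0]
    nlinarith [sq_nonneg t, h1.1]
  linarith

theorem RdB_eq {m k : ℕ} {d s : ℝ} (hk : k < m) (hd : 0 < d) (hs : s ≤ d) :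
    Rd m k d s = RdB_Q m (m - k) *
      (((d - s) / (2 * ((m - k : ℕ) : ℝ))) ^ (m - k) *
        Real.exp (((m - k : ℕ) : ℝ) - (d - s) / 2)) *
      ((2 * m / d) ^ m * Real.exp (d / 2 - m)) := by
  obtain ⟨j, hj⟩ : ∃ j, m - k = j := ⟨_, rfl⟩
  have hj1 : 1 ≤ j := by omega
  have hm : m = k + j := by omega
  unfold Rd RdB_Q
  rw [if_pos hs, hj]
  have hjR : (0 : ℝ) < j := by exact_mod_cast hj1
  have hmR : (0 : ℝ) < m := by rw [hm]; push_cast; positivity
  have e1 : Real.exp (s / 2) = Real.exp ((j : ℝ) - (d - s) / 2) * Real.exp (d / 2 - m) *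
      Real.exp (m : ℝ) / Real.exp (j : ℝ) := by
    rw [← Real.exp_add, ← Real.exp_add, ← Real.exp_sub]
    congr 1; ring
  have e2 : (2 : ℝ) ^ k = 2 ^ m / 2 ^ j := by
    rw [hm, pow_add]; field_simp
  have e3 : Real.exp (m : ℝ) = Real.exp 1 ^ m := by rw [← Real.exp_nat_mul]; simp
  have e4 : Real.exp (j : ℝ) = Real.exp 1 ^ j := by rw [← Real.exp_nat_mul]; simp
  rw [e1, e2, e3, e4, div_pow, div_pow, div_pow, div_pow, mul_pow, mul_pow]
  have he : Real.exp 1 ≠ 0 := (Real.exp_pos 1).ne'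
  field_simp

/-- `m` large: `m + 1` dominates multiples of its square root -/
theorem RdB_large (A : ℝ) : ∃ m₀ : ℕ, ∀ m : ℕ, m₀ ≤ m → A * √(m + 1) ≤ m + 1 ∧ A ≤ m + 1 := by
  refine ⟨⌈A ^ 2 + |A|⌉₊, fun m hm => ?_⟩
  have h1 : A ^ 2 + |A| ≤ m := (Nat.le_ceil _).trans (by exact_mod_cast hm)
  have h2 : A ≤ |A| := le_abs_self A
  have h3 : 0 ≤ A ^ 2 := sq_nonneg A
  have h4 : |A| ≤ √(m + 1) := by
    apply Real.le_sqrt_of_sq_le
    rw [sq_abs]; have := abs_nonneg A; linarith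
  have h5 : √((m : ℝ) + 1) * √((m : ℝ) + 1) = m + 1 := Real.mul_self_sqrt (by positivity)
  have h6 : 0 ≤ √((m : ℝ) + 1) := Real.sqrt_nonneg _
  constructor
  · nlinarith
  · linarith

theorem Rd_le (C₀ : ℝ) : ∃ C : ℝ, 0 < C ∧ ∃ m₀ : ℕ, ∀ (m k : ℕ) (d s : ℝ), m₀ ≤ m →
    4 * k ≤ 3 * (m + 1) → |d - 2 * (m + 1)| ≤ C₀ * √(m + 1) → 0 ≤ s → Rd m k d s ≤ C := by
  obtain ⟨m₁, hm₁⟩ := RdB_large (8 * (|C₀| + 2))
  refine ⟨Real.exp 1 * √8 * Real.exp (4 * (|C₀| + 2) ^ 2), by positivity, max m₁ 20,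
    fun m k d s hm hk hd hs => ?_⟩
  have hm20 : 20 ≤ m := le_trans (le_max_right _ _) hm
  have hL := hm₁ m (le_trans (le_max_left _ _) hm)
  have hkm : k < m := by omega
  have hmR : (20 : ℝ) ≤ m := by exact_mod_cast hm20
  set r := √((m : ℝ) + 1) with hr
  have hrr : r * r = m + 1 := Real.mul_self_sqrt (by positivity)
  have hr1 : 1 ≤ r := by
    rw [hr]; apply Real.le_sqrt_of_sq_le; linarith
  have hC : C₀ * r ≤ |C₀| * r := mul_le_mul_of_nonneg_right (le_abs_self _) (by linarith)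
  -- size of `d - 2 m`
  have hd2 : |d - 2 * m| ≤ (|C₀| + 2) * r := by
    have h1 : |d - 2 * m| ≤ |d - 2 * (m + 1)| + |(2 : ℝ)| := by
      have : d - 2 * m = (d - 2 * (m + 1)) + 2 := by ring
      rw [this]; exact abs_add_le _ _
    rw [abs_of_pos (by norm_num : (0 : ℝ) < 2)] at h1
    nlinarith
  have hLr : 8 * (|C₀| + 2) * r ≤ m + 1 := hL.1
  have hdpos : 0 < d := by
    have := (abs_le.1 hd2).1
    nlinarith
  rcases lt_or_ge d s with hlt | hle
  · unfold Rd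
    rw [if_neg (not_le.2 hlt)]; positivity
  rw [RdB_eq hkm hdpos hle]
  set j := m - k with hj
  have hj1 : 1 ≤ j := by omega
  have hjR : (0 : ℝ) < j := by exact_mod_cast hj1
  have hQ : RdB_Q m j ≤ Real.exp 1 * √8 := RdB_Q_le hj1 (by omega) (by omega)
  have hQ0 : 0 ≤ RdB_Q m j := by unfold RdB_Q; positivity
  -- P1
  have hy : 0 ≤ (d - s) / (2 * (j : ℝ)) := by apply div_nonneg; linarith; positivity
  have hP1 : ((d - s) / (2 * (j : ℝ))) ^ j * Real.exp ((j : ℝ) - (d - s) / 2) ≤ 1 := by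
    have h1 : (d - s) / (2 * (j : ℝ)) ≤ Real.exp ((d - s) / (2 * (j : ℝ)) - 1) := by
      have := Real.add_one_le_exp ((d - s) / (2 * (j : ℝ)) - 1)
      linarith
    have h2 := pow_le_pow_left₀ hy h1 j
    rw [← Real.exp_nat_mul] at h2
    have h3 : (j : ℝ) * ((d - s) / (2 * (j : ℝ)) - 1) = (d - s) / 2 - j := by field_simp
    rw [h3] at h2
    calc ((d - s) / (2 * (j : ℝ))) ^ j * Real.exp ((j : ℝ) - (d - s) / 2)
        ≤ Real.exp ((d - s) / 2 - j) * Real.exp ((j : ℝ) - (d - s) / 2) :=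
          mul_le_mul_of_nonneg_right h2 (Real.exp_pos _).le
      _ = 1 := by rw [← Real.exp_add]; simp
  have hP10 : 0 ≤ ((d - s) / (2 * (j : ℝ))) ^ j * Real.exp ((j : ℝ) - (d - s) / 2) := by
    positivity
  -- P2
  have hmpos : (0 : ℝ) < m := by linarith
  set x := d / (2 * m) - 1 with hx
  have hxabs : |x| ≤ 1 / 2 := by
    rw [hx]
    have : d / (2 * m) - 1 = (d - 2 * m) / (2 * m) := by field_simp
    rw [this, abs_div, abs_of_pos (by positivity : (0 : ℝ) < 2 * m), div_le_iff₀ (by positivity)]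
    nlinarith [abs_nonneg C₀]
  have hxsq : m * x ^ 2 ≤ 2 * (|C₀| + 2) ^ 2 := by
    have e : x = (d - 2 * m) / (2 * m) := by rw [hx]; field_simp
    have h1 : (d - 2 * m) ^ 2 ≤ ((|C₀| + 2) * r) ^ 2 := by
      rw [← sq_abs (d - 2 * m)]
      exact pow_le_pow_left₀ (abs_nonneg _) hd2 2
    have h2 : m * x ^ 2 = (d - 2 * m) ^ 2 / (4 * m) := by rw [e]; field_simp; ring
    rw [h2, div_le_iff₀ (by positivity)]
    have h3 : ((|C₀| + 2) * r) ^ 2 = (|C₀| + 2) ^ 2 * (m + 1) := by rw [mul_pow, sq r, hrr]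
    rw [h3] at h1
    have h4 : 0 ≤ (|C₀| + 2) ^ 2 := sq_nonneg _
    nlinarith
  have hP2 : (2 * m / d) ^ m * Real.exp (d / 2 - m) ≤ Real.exp (4 * (|C₀| + 2) ^ 2) := by
    have h1 : d / (2 * m) = 1 + x := by rw [hx]; ring
    have h1pos : 0 < 1 + x := by rw [← h1]; positivity
    have h2 : 2 * m / d = (1 + x)⁻¹ := by rw [← h1]; field_simp
    have h3 : (1 + x)⁻¹ = Real.exp (-Real.log (1 + x)) := by
      rw [Real.exp_neg, Real.exp_log h1pos]
    rw [h2, h3, ← Real.exp_nat_mul, ← Real.exp_add]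
    apply Real.exp_le_exp.2
    have h4 := RdB_log hxabs
    have h5 : d / 2 - m = m * x := by rw [hx]; field_simp
    rw [h5]
    have h6 : (m : ℝ) * (x - 2 * x ^ 2) ≤ m * Real.log (1 + x) :=
      mul_le_mul_of_nonneg_left h4 hmpos.le
    nlinarith
  have hP20 : 0 ≤ (2 * m / d) ^ m * Real.exp (d / 2 - m) := by positivity
  calc RdB_Q m j * (((d - s) / (2 * (j : ℝ))) ^ j * Real.exp ((j : ℝ) - (d - s) / 2)) *
      ((2 * m / d) ^ m * Real.exp (d / 2 - m))
      ≤ (Real.exp 1 * √8 * 1) * Real.exp (4 * (|C₀| + 2) ^ 2) := by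
        apply mul_le_mul _ hP2 hP20 (by positivity)
        exact mul_le_mul hQ hP1 hP10 (by positivity)
    _ = _ := by ring

theorem Rd_ge (C₀ R₀ : ℝ) : ∃ c : ℝ, 0 < c ∧ ∃ m₀ : ℕ, ∀ (m k : ℕ) (d s : ℝ), m₀ ≤ m →
    4 * k ≤ 3 * (m + 1) → |d - 2 * (m + 1)| ≤ C₀ * √(m + 1) →
    |s - 2 * k| ≤ R₀ * √(m + 1) → c ≤ Rd m k d s := by
  obtain ⟨m₁, hm₁⟩ := RdB_large (16 * (|C₀| + |R₀| + 2))
  refine ⟨(Real.exp 1)⁻¹ * Real.exp (-(4 * (|C₀| + |R₀| + 2) ^ 2)), by positivity, max m₁ 20,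
    fun m k d s hm hk hd hs => ?_⟩
  have hm20 : 20 ≤ m := le_trans (le_max_right _ _) hm
  have hL := hm₁ m (le_trans (le_max_left _ _) hm)
  have hkm : k < m := by omega
  have hmR : (20 : ℝ) ≤ m := by exact_mod_cast hm20
  set r := √((m : ℝ) + 1) with hr
  set A := |C₀| + |R₀| + 2 with hA
  have hA2 : 2 ≤ A := by rw [hA]; linarith [abs_nonneg C₀, abs_nonneg R₀]
  have hrr : r * r = m + 1 := Real.mul_self_sqrt (by positivity)
  have hr1 : 1 ≤ r := by
    rw [hr]; apply Real.le_sqrt_of_sq_le; linarith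
  have hr0 : 0 < r := by linarith
  have hC : C₀ * r ≤ |C₀| * r := mul_le_mul_of_nonneg_right (le_abs_self _) hr0.le
  have hR : R₀ * r ≤ |R₀| * r := mul_le_mul_of_nonneg_right (le_abs_self _) hr0.le
  have hLr : 16 * A * r ≤ m + 1 := hL.1
  have hd' := abs_le.1 (hd.trans hC)
  have hs' := abs_le.1 (hs.trans hR)
  have hkR : 4 * (k : ℝ) ≤ 3 * (m + 1) := by exact_mod_cast hk
  have hAr : A * r = |C₀| * r + |R₀| * r + 2 * r := by rw [hA]; ring
  have hC0r : 0 ≤ |C₀| * r := by positivity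
  have hR0r : 0 ≤ |R₀| * r := by positivity
  have hdpos : 0 < d := by nlinarith [hd'.1]
  have hsd : s ≤ d := by nlinarith [hd'.1, hs'.2]
  rw [RdB_eq hkm hdpos hsd]
  set j := m - k with hj
  have hj1 : 1 ≤ j := by omega
  have hjR : (0 : ℝ) < j := by exact_mod_cast hj1
  have hjeq : (j : ℝ) = m - k := by rw [hj]; push_cast [hkm.le]; ring
  have hj8 : (m : ℝ) + 1 ≤ 8 * j := by
    have : m + 1 ≤ 8 * j := by omega
    exact_mod_cast this
  have hQ : (Real.exp 1)⁻¹ ≤ RdB_Q m j := RdB_Q_ge hj1 (by omega)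
  -- P1
  set t := (d - s) / (2 * (j : ℝ)) - 1 with ht
  have hte : t = (d - s - 2 * j) / (2 * j) := by rw [ht]; field_simp
  have hnum : |d - s - 2 * j| ≤ A * r := by
    rw [hjeq, abs_le]
    constructor
    · linarith [hd'.1, hs'.2]
    · linarith [hd'.2, hs'.1]
  have htabs : |t| ≤ 1 / 2 := by
    rw [hte, abs_div, abs_of_pos (by positivity : (0 : ℝ) < 2 * j), div_le_iff₀ (by positivity)]
    nlinarith
  have htsq : j * t ^ 2 ≤ 2 * A ^ 2 := by
    have h1 : (d - s - 2 * j) ^ 2 ≤ (A * r) ^ 2 := by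
      rw [← sq_abs (d - s - 2 * j)]
      exact pow_le_pow_left₀ (abs_nonneg _) hnum 2
    have h2 : j * t ^ 2 = (d - s - 2 * j) ^ 2 / (4 * j) := by rw [hte]; field_simp; ring
    rw [h2, div_le_iff₀ (by positivity)]
    have h3 : (A * r) ^ 2 = A ^ 2 * (m + 1) := by rw [mul_pow, sq r, hrr]
    rw [h3] at h1
    have h4 : 0 ≤ A ^ 2 := sq_nonneg _
    nlinarith
  have hP1 : Real.exp (-(4 * A ^ 2)) ≤
      ((d - s) / (2 * (j : ℝ))) ^ j * Real.exp ((j : ℝ) - (d - s) / 2) := by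
    have h1 : (d - s) / (2 * (j : ℝ)) = 1 + t := by rw [ht]; ring
    have h1pos : 0 < 1 + t := by have := (abs_le.1 htabs).1; linarith
    have h3 : 1 + t = Real.exp (Real.log (1 + t)) := by rw [Real.exp_log h1pos]
    have h5 : (j : ℝ) - (d - s) / 2 = -(j * t) := by rw [ht]; field_simp; ring
    rw [h1, h5, h3, ← Real.exp_nat_mul, ← Real.exp_add]
    apply Real.exp_le_exp.2
    have h4 := RdB_log htabs
    have h6 : (j : ℝ) * (t - 2 * t ^ 2) ≤ j * Real.log (1 + t) :=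
      mul_le_mul_of_nonneg_left h4 hjR.le
    nlinarith
  -- P2
  have hmpos : (0 : ℝ) < m := by linarith
  have hP2 : 1 ≤ (2 * m / d) ^ m * Real.exp (d / 2 - m) := by
    have hxpos : 0 < d / (2 * m) := by positivity
    have h2 : 2 * m / d = (d / (2 * m))⁻¹ := by field_simp
    have h3 : (d / (2 * m))⁻¹ = Real.exp (-Real.log (d / (2 * m))) := by
      rw [Real.exp_neg, Real.exp_log hxpos]
    rw [h2, h3, ← Real.exp_nat_mul, ← Real.exp_add]
    apply Real.one_le_exp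
    have h4 := Real.log_le_sub_one_of_pos hxpos
    have h5 : d / 2 - m = m * (d / (2 * m) - 1) := by field_simp
    rw [h5]
    have h6 : (m : ℝ) * Real.log (d / (2 * m)) ≤ m * (d / (2 * m) - 1) :=
      mul_le_mul_of_nonneg_left h4 hmpos.le
    linarith
  calc (Real.exp 1)⁻¹ * Real.exp (-(4 * A ^ 2))
      = ((Real.exp 1)⁻¹ * Real.exp (-(4 * A ^ 2))) * 1 := by ring
    _ ≤ RdB_Q m j * (((d - s) / (2 * (j : ℝ))) ^ j * Real.exp ((j : ℝ) - (d - s) / 2)) *
      ((2 * m / d) ^ m * Real.exp (d / 2 - m)) := by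
        apply mul_le_mul _ hP2 (by norm_num) _
        · exact mul_le_mul hQ hP1 (Real.exp_pos _).le (by unfold RdB_Q; positivity)
        · apply mul_nonneg
          · unfold RdB_Q; positivity
          · exact (Real.exp_pos _).le.trans hP1

end Pool.Agent.H22.DL
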