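import Pool.Agent.H22.DL.Compare
import Pool.Agent.H22.DL.RdB

/-!
# Module BrRW: bridge against random walk, inequalities

From `rs_eq_path` and `Rd_le`, `Rd_ge` with `m = j - i - 1`, `k = c - i`. (`ps x (c - i) ≥ 0`
almost surely for `rs_le_rw`.)
-/

open MeasureTheory ProbabilityTheory Filter Topology Set
open scoped ENNReal

namespace Pool.Agent.H22.DL

/-- the increments are nonnegative -/
theorem ae_ex_nonneg {l : ℝ} (hl : 0 < l) : ∀ᵐ x ∂(ex l), ∀ k, 0 ≤ x k := by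
  have := isProbabilityMeasure_expMeasure hl
  rw [ae_all_iff]
  intro k
  have h1 : ∀ᵐ t ∂(expMeasure l), (0 : ℝ) ≤ t := by
    have h2 : expMeasure l = volume.withDensity (exponentialPDF l) := rfl
    rw [h2]
    rw [ae_withDensity_iff (show Measurable (exponentialPDF l) from (measurable_exponentialPDFReal l).ennreal_ofReal)]
    refine Filter.Eventually.of_forall fun t ht => ?_
    by_contra hlt
    push Not at hlt
    exact ht (exponentialPDF_of_neg hlt)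
  have h3 : (ex l).map (fun x : Sq => x k) = expMeasure l := by
    have := Measure.infinitePi_map_eval (μ := fun _ : ℕ => expMeasure l) k
    exact this
  rw [← h3] at h1
  exact (ae_map_iff (measurable_pi_apply k).aemeasurable measurableSet_Ici).1 h1

theorem rs_le_rw (C₀ : ℝ) : ∃ C : ℝ, 0 < C ∧ ∃ M₀ : ℕ, ∀ i c j : ℕ, M₀ ≤ j - i → i < c →
    c < j → 4 * (c - i) ≤ 3 * (j - i) → ∀ A : Sq, A i < A j →
    |A j - A i - 2 * ((j : ℝ) - i)| ≤ C₀ * √((j : ℝ) - i) →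
    ∀ Φ : Sq → ℝ≥0∞, Measurable Φ →
    (∀ B B' : Sq, (∀ k, (k ≤ c ∨ j ≤ k) → B k = B' k) → Φ B = Φ B') →
    ∫⁻ B, Φ B ∂(rs i j A) ≤ ENNReal.ofReal C * ∫⁻ x, Φ (path i c A x) ∂(ex (1 / 2)) := by
  obtain ⟨C, hC, m₀, h⟩ := Rd_le C₀
  refine ⟨C, hC, m₀ + 1, fun i c j hM hic hcj h34 A hA hd Φ hΦ hdep => ?_⟩
  rw [rs_eq_path hic hcj hA hΦ hdep]
  have hpm : Measurable fun x => Φ (path i c A x) := hΦ.comp (measurable_path i c A)
  rw [← lintegral_const_mul _ hpm]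
  refine lintegral_mono_ae ?_
  filter_upwards [ae_ex_nonneg (l := 1 / 2) (by norm_num)] with x hx
  rw [mul_comm]
  gcongr
  have hij : i + 1 ≤ j := by omega
  have e1 : (((j - i - 1 : ℕ) : ℝ) + 1) = (j : ℝ) - i := by
    have : j - i - 1 + 1 = j - i := by omega
    have h2 : (((j - i - 1 + 1 : ℕ)) : ℝ) = ((j - i : ℕ) : ℝ) := by rw [this]
    push_cast at h2
    rw [h2, Nat.cast_sub (by omega)]
  refine h (j - i - 1) (c - i) (A j - A i) (ps x (c - i)) (by omega) (by omega) ?_ ?_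
  · rw [e1]
    exact hd
  · exact Finset.sum_nonneg fun t _ => hx t

theorem rs_ge_rw (C₀ R₀ : ℝ) : ∃ c₁ : ℝ, 0 < c₁ ∧ ∃ M₀ : ℕ, ∀ i c j : ℕ, M₀ ≤ j - i → i < c →
    c < j → 4 * (c - i) ≤ 3 * (j - i) → ∀ A : Sq, A i < A j →
    |A j - A i - 2 * ((j : ℝ) - i)| ≤ C₀ * √((j : ℝ) - i) →
    ∀ Φ : Sq → ℝ≥0∞, Measurable Φ →
    (∀ B B' : Sq, (∀ k, (k ≤ c ∨ j ≤ k) → B k = B' k) → Φ B = Φ B') →
    ENNReal.ofReal c₁ * ∫⁻ x in {x | |ps x (c - i) - 2 * ((c : ℝ) - i)| ≤ R₀ * √((j : ℝ) - i)},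
      Φ (path i c A x) ∂(ex (1 / 2)) ≤ ∫⁻ B, Φ B ∂(rs i j A) := by
  obtain ⟨c₁, hc₁, m₀, h⟩ := Rd_ge C₀ R₀
  refine ⟨c₁, hc₁, m₀ + 1, fun i c j hM hic hcj h34 A hA hd Φ hΦ hdep => ?_⟩
  rw [rs_eq_path hic hcj hA hΦ hdep]
  have hpm : Measurable fun x => Φ (path i c A x) := hΦ.comp (measurable_path i c A)
  have hps : Measurable fun x : Sq => ps x (c - i) := by
    unfold ps
    exact Finset.measurable_sum _ fun t _ => measurable_pi_apply t
  have hS : MeasurableSet {x : Sq | |ps x (c - i) - 2 * ((c : ℝ) - i)| ≤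
      R₀ * √((j : ℝ) - i)} :=
    measurableSet_le (continuous_abs.measurable.comp (hps.sub measurable_const))
      measurable_const
  rw [← lintegral_const_mul _ hpm]
  refine (setLIntegral_mono_ae' hS ?_).trans (setLIntegral_le_lintegral _ _)
  refine Filter.Eventually.of_forall fun x hx => ?_
  rw [mul_comm]
  gcongr
  have hij : i + 1 ≤ j := by omega
  have e1 : (((j - i - 1 : ℕ) : ℝ) + 1) = (j : ℝ) - i := by
    have : j - i - 1 + 1 = j - i := by omega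
    have h2 : (((j - i - 1 + 1 : ℕ)) : ℝ) = ((j - i : ℕ) : ℝ) := by rw [this]
    push_cast at h2
    rw [h2, Nat.cast_sub (by omega)]
  refine h (j - i - 1) (c - i) (A j - A i) (ps x (c - i)) (by omega) (by omega) ?_ ?_
  · rw [e1]
    exact hd
  · rw [e1, Nat.cast_sub hic.le]
    exact hx

end Pool.Agent.H22.DL
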