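import Pool.Agent.H22.DL.Scale
import Pool.Agent.H37.DL.Walk

/-!
# Module Clt: finite dimensional convergence of the random walk to Brownian motion

From `bn_fdd` (`Pool/Agent/H37/DL/Walk.lean`) for a two-sided walk `z` of `exists_isWalk`: with
`y t = z (t + 1 + ⌊sc n * (-K)⌋)`, the sequence `y` has law `ex (1/2)`, and for large `n` the
variable in the statement is `bn z n (x i)` (`wsum_sub`, `jn_bounds`).
-/

open MeasureTheory ProbabilityTheory Filter Topology Set
open scoped ENNReal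

namespace Pool.Agent.H22.DL

open Pool.Agent.H37.DL

theorem clt_wsum_zero (z : ℤ → ℝ) : wsum z 0 = 0 := by
  simp [wsum]

theorem clt_wsum_sub_two (z : ℤ → ℝ) (m : ℤ) : wsum (fun i => z i - 2) m = wsum z m - 2 * m := by
  unfold wsum
  rw [Finset.sum_sub_distrib, Finset.sum_sub_distrib, Finset.sum_const, Finset.sum_const,
    Int.card_Ioc, Int.card_Ioc]
  have h : ((m - 0).toNat : ℝ) - ((0 - m).toNat : ℝ) = m := by
    have : (((m - 0).toNat : ℤ)) - ((0 - m).toNat : ℤ) = m := by omega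
    exact_mod_cast this
  simp only [nsmul_eq_mul]
  linarith

theorem clt_sum_Ioc (z : ℤ → ℝ) (m : ℤ) (q : ℕ) :
    ∑ i ∈ Finset.Ioc m (m + q), z i = ps (fun t => z (t + 1 + m)) q := by
  unfold ps
  induction q with
  | zero => simp
  | succ q ih =>
    rw [Finset.sum_range_succ, ← ih]
    have : Finset.Ioc m (m + ((q + 1 : ℕ) : ℤ)) = insert (m + q + 1) (Finset.Ioc m (m + q)) := by
      ext i
      simp only [Finset.mem_Ioc, Finset.mem_insert]
      push_cast
      omega
    rw [this, Finset.sum_insert (by simp), add_comm]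
    congr 2
    ring

theorem clt_map_shift {Ω : Type*} [MeasurableSpace Ω] {Q : Measure Ω} {z : Ω → ℤ → ℝ}
    (hz : IsWalk Q z) (m : ℤ) :
    Q.map (fun ω (t : ℕ) => z ω (t + 1 + m)) = ex (1 / 2) := by
  have hind : iIndepFun (fun (t : ℕ) ω => z ω (t + 1 + m)) Q := by
    have := hz.indep.precomp (g := fun t : ℕ => ((t : ℤ) + 1 + m)) (by
      intro a b hab
      simpa using hab)
    exact this
  have h := hind.map_fun_eq_infinitePi_map (fun t => hz.meas _)
  rw [h]
  unfold ex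
  congr 1
  funext t
  exact hz.law _

theorem clt_fdd {Ωb : Type*} [MeasurableSpace Ωb] {Pb : Measure Ωb} [IsProbabilityMeasure Pb]
    {b : Ωb → ℝ → ℝ} (hb : IsBM Pb b) {s : Type*} [Fintype s] (x : s → ℝ) {K : ℝ} (hK : 0 < K)
    (hx : ∀ i, |x i| ≤ K) {F : (s → ℝ) → ℝ} (hF : Continuous F) (hF1 : ∀ v, |F v| ≤ 1) :
    Tendsto (fun n : ℕ => ∫ y, F (fun i =>
      (ps y (jn n (x i) - jn n (-K)) - ps y (jn n 0 - jn n (-K)) -
        2 * ((jn n (x i) : ℝ) - jn n 0)) / rt n) ∂(ex (1 / 2))) atTop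
      (𝓝 (∫ ω, F (fun i => b ω (x i)) ∂Pb)) := by
  obtain ⟨Ω, _, Q, z, hQ, hz⟩ := exists_isWalk
  set e := Fintype.equivFin s with he
  have h := bn_fdd hz hb (fun i => x (e.symm i)) (F := fun v => F (fun i => v (e i)))
    (hF.comp (by fun_prop)) ⟨1, fun v => hF1 _⟩
  simp only [Equiv.symm_apply_apply] at h
  refine h.congr' ?_
  filter_upwards [jn_bounds K, eventually_ge_atTop 1] with n hn hn1
  obtain ⟨_, _, hK1⟩ := hn (-K) (by rw [abs_neg, abs_of_pos hK])
  obtain ⟨_, _, h01⟩ := hn 0 (by rw [abs_zero]; exact hK.le)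
  rw [mul_zero, Int.floor_zero, add_zero] at h01
  have mz : Measurable fun ω (t : ℕ) => z ω (t + 1 + ⌊sc n * (-K)⌋) :=
    measurable_pi_iff.2 fun t => hz.meas _
  have mps : ∀ q : ℕ, Measurable fun y : Sq => ps y q := fun q => by
    unfold ps
    fun_prop
  rw [← clt_map_shift hz ⌊sc n * (-K)⌋, integral_map mz.aemeasurable]
  · refine integral_congr_ae (Eventually.of_forall fun ω => ?_)
    simp only
    congr 1
    funext i
    have key : ∀ x : ℝ, |x| ≤ K → ps (fun t : ℕ => z ω (t + 1 + ⌊sc n * (-K)⌋))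
        (jn n x - jn n (-K)) = wsum (z ω) ⌊sc n * x⌋ - wsum (z ω) ⌊sc n * (-K)⌋ := by
      intro x hx
      obtain ⟨_, _, hx1⟩ := hn x hx
      have hle : ⌊sc n * (-K)⌋ ≤ ⌊sc n * x⌋ := by
        apply Int.floor_le_floor
        rw [abs_le] at hx
        exact mul_le_mul_of_nonneg_left hx.1 (sc_pos hn1).le
      rw [wsum_sub _ hle]
      have e1 : ⌊sc n * x⌋ = ⌊sc n * (-K)⌋ + ((jn n x - jn n (-K) : ℕ) : ℤ) := by omega
      rw [e1]
      exact (clt_sum_Ioc (z ω) ⌊sc n * (-K)⌋ _).symm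
    have k0 := key 0 (by rw [abs_zero]; exact hK.le)
    rw [mul_zero, Int.floor_zero, clt_wsum_zero] at k0
    rw [key (x i) (hx i), k0]
    obtain ⟨_, _, hx1⟩ := hn (x i) (hx i)
    have hj : ((jn n (x i) : ℝ) - jn n 0) = (⌊sc n * x i⌋ : ℝ) := by
      have : ((jn n (x i) : ℤ) - jn n 0) = ⌊sc n * x i⌋ := by omega
      exact_mod_cast this
    rw [hj]
    unfold bn
    rw [clt_wsum_sub_two]
    congr 1
    ring
  · refine (hF.measurable.comp (measurable_pi_iff.2 fun i => ?_)).aestronglyMeasurable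
    exact (((mps _).sub (mps _)).sub_const _).div_const _

end Pool.Agent.H22.DL
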