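import Pool.Agent.H22.DL.Core

/-!
# Module Core2: volume, normalisation, recursion

* one step: for `i + 1 < j`, `Finset.Ioo i j = insert (j - 1) (Finset.Ioo i (j - 1))` and
  `(mon i j).indicator Φ = (mon i (j - 1)).indicator (fun B => if B (j - 1) ≤ B j then Φ B else 0)`,
  so `lmarginal_insert` gives
  `bI i j Φ A = ∫⁻ t in Iic (A j), bI i (j - 1) Φ (update A (j - 1) t)`.
* `bI_one` by induction on `j - i` (`∫_{A i}^{A j} (t - A i)^(m-1)/(m-1)! dt = (A j - A i)^m/m!`).
* `bI_eq`: if `bI i j 1 A` is neither `0` nor `∞` this is `lintegral_rs`; if it is `0` the set of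
  `y` with `updateFinset A _ y ∈ mon i j` is null, so `bI i j Φ A = 0`.
* `rs_rec`: the recursion above with `t = A i + (A j - A i) τ`.
-/

open MeasureTheory ProbabilityTheory Filter Topology Set
open scoped ENNReal

namespace Pool.Agent.H22.DL

/-- the law of the last of `m` ordered uniform points of `[0, 1]` -/
noncomputable def bt (m : ℕ) : Measure ℝ :=
  (volume.restrict (Set.Ioc 0 1)).withDensity fun τ => ENNReal.ofReal (m * τ ^ (m - 1))

theorem Ioo_step {i j : ℕ} (hij : i + 1 < j) :
    Finset.Ioo i j = insert (j - 1) (Finset.Ioo i (j - 1)) := by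
  ext k
  simp only [Finset.mem_Ioo, Finset.mem_insert]
  omega

theorem mem_mon_step {i j : ℕ} (hij : i + 1 < j) (B : Sq) :
    B ∈ mon i j ↔ B ∈ mon i (j - 1) ∧ B (j - 1) ≤ B j := by
  constructor
  · intro h
    refine ⟨fun k h1 h2 => h k h1 (by omega), ?_⟩
    have := h (j - 1) (by omega) (by omega)
    rwa [Nat.sub_add_cancel (by omega)] at this
  · rintro ⟨h1, h2⟩ k hk1 hk2
    rcases Nat.lt_or_ge k (j - 1) with h | h
    · exact h1 k hk1 h
    · have hk : k = j - 1 := by omega
      subst hk
      rwa [Nat.sub_add_cancel (by omega)]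

theorem bI_step {i j : ℕ} (hij : i + 1 < j) {Φ : Sq → ℝ≥0∞} (hΦ : Measurable Φ) (A : Sq) :
    bI i j Φ A = ∫⁻ t in Set.Iic (A j), bI i (j - 1) Φ (Function.update A (j - 1) t) := by
  unfold bI
  rw [Ioo_step hij, lmarginal_insert _ (hΦ.indicator (measurableSet_mon i j)) (by simp),
    ← lintegral_indicator measurableSet_Iic]
  refine lintegral_congr fun t => ?_
  by_cases ht : t ≤ A j
  · rw [Set.indicator_of_mem (by exact ht)]
    unfold lmarginal
    refine lintegral_congr fun y => ?_
    have h1 : Function.updateFinset (Function.update A (j - 1) t) (Finset.Ioo i (j - 1)) y (j - 1)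
        = t := by
      rw [Function.updateFinset_def]
      simp
    have h2 : Function.updateFinset (Function.update A (j - 1) t) (Finset.Ioo i (j - 1)) y j
        = A j := by
      rw [Function.updateFinset_def]
      have h3 : ¬ j < j - 1 := by omega
      have h4 : j ≠ j - 1 := by omega
      simp [h4]
    by_cases hm : Function.updateFinset (Function.update A (j - 1) t) (Finset.Ioo i (j - 1)) y
        ∈ mon i (j - 1)
    · rw [Set.indicator_of_mem hm, Set.indicator_of_mem]
      rw [mem_mon_step hij, h1, h2]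
      exact ⟨hm, ht⟩
    · rw [Set.indicator_of_notMem hm, Set.indicator_of_notMem]
      rw [mem_mon_step hij]
      exact fun h => hm h.1
  · rw [Set.indicator_of_notMem (by exact ht)]
    unfold lmarginal
    rw [← lintegral_zero (μ := Measure.pi fun _ : Finset.Ioo i (j - 1) => (volume : Measure ℝ))]
    refine lintegral_congr fun y => ?_
    have h1 : Function.updateFinset (Function.update A (j - 1) t) (Finset.Ioo i (j - 1)) y (j - 1)
        = t := by
      rw [Function.updateFinset_def]
      simp
    have h2 : Function.updateFinset (Function.update A (j - 1) t) (Finset.Ioo i (j - 1)) y j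
        = A j := by
      rw [Function.updateFinset_def]
      have h3 : ¬ j < j - 1 := by omega
      have h4 : j ≠ j - 1 := by omega
      simp [h4]
    rw [Set.indicator_of_notMem]
    rw [mem_mon_step hij, h1, h2]
    exact fun h => ht h.2

theorem bI_base (i : ℕ) (Φ : Sq → ℝ≥0∞) (A : Sq) :
    bI i (i + 1) Φ A = if A i ≤ A (i + 1) then Φ A else 0 := by
  unfold bI
  have h : Finset.Ioo i (i + 1) = ∅ := by
    ext k
    simp only [Finset.mem_Ioo, Finset.notMem_empty, iff_false]
    omega
  rw [h, lmarginal_empty]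
  have hm : A ∈ mon i (i + 1) ↔ A i ≤ A (i + 1) := by
    constructor
    · intro h
      exact h i le_rfl (by omega)
    · intro h k h1 h2
      have : k = i := by omega
      subst this
      exact h
  by_cases hA : A i ≤ A (i + 1)
  · rw [Set.indicator_of_mem (hm.2 hA), if_pos hA]
  · rw [Set.indicator_of_notMem (fun h => hA (hm.1 h)), if_neg hA]

theorem lint_pow (a b : ℝ) (hab : a ≤ b) (m : ℕ) :
    ∫⁻ t in Set.Icc a b, ENNReal.ofReal ((t - a) ^ m / m.factorial) =
      ENNReal.ofReal ((b - a) ^ (m + 1) / (m + 1).factorial) := by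
  rw [← ofReal_integral_eq_lintegral_ofReal]
  · congr 1
    rw [integral_Icc_eq_integral_Ioc, ← intervalIntegral.integral_of_le hab]
    have h1 : ∀ t ∈ Set.uIcc a b, HasDerivAt
        (fun t : ℝ => (t - a) ^ (m + 1) / (m + 1).factorial) ((t - a) ^ m / m.factorial) t := by
      intro t _
      have h2 : HasDerivAt (fun t : ℝ => (t - a) ^ (m + 1)) (((m + 1 : ℕ) : ℝ) * (t - a) ^ m * 1)
          t := by
        have := ((hasDerivAt_id t).sub_const a).fun_pow (m + 1)
        simpa using this
      have h3 := h2.div_const ((m + 1).factorial : ℝ)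
      refine h3.congr_deriv ?_
      rw [Nat.factorial_succ]
      push_cast
      have h4 : (m.factorial : ℝ) ≠ 0 := by positivity
      have h5 : (m + 1 : ℝ) ≠ 0 := by positivity
      field_simp
    rw [intervalIntegral.integral_eq_sub_of_hasDerivAt h1]
    · simp
    · exact ((((continuous_id.sub continuous_const).pow m).div_const _)).intervalIntegrable _ _
  · have hc : Continuous fun t : ℝ => (t - a) ^ m / m.factorial :=
      ((continuous_id.sub continuous_const).pow m).div_const _
    exact hc.continuousOn.integrableOn_compact isCompact_Icc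
  · refine (ae_restrict_iff' measurableSet_Icc).2 (Filter.Eventually.of_forall fun t ht => ?_)
    have : 0 ≤ t - a := sub_nonneg.2 ht.1
    positivity

theorem bI_one {i j : ℕ} (hij : i < j) (A : Sq) :
    bI i j (fun _ => 1) A =
      if A i ≤ A j then ENNReal.ofReal ((A j - A i) ^ (j - i - 1) / (j - i - 1).factorial)
      else 0 := by
  obtain ⟨m, rfl⟩ : ∃ m, j = i + 1 + m := ⟨j - (i + 1), by omega⟩
  clear hij
  induction m generalizing A with
  | zero =>
    rw [Nat.add_zero, bI_base]
    by_cases hA : A i ≤ A (i + 1)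
    · rw [if_pos hA, if_pos hA]
      simp
    · rw [if_neg hA, if_neg hA]
  | succ m ih =>
    have e1 : i + 1 + (m + 1) - 1 = i + 1 + m := by omega
    rw [bI_step (by omega) measurable_const, e1]
    have e2 : ∀ t : ℝ, bI i (i + 1 + m) (fun _ => 1) (Function.update A (i + 1 + m) t) =
        if A i ≤ t then ENNReal.ofReal ((t - A i) ^ m / m.factorial) else 0 := by
      intro t
      rw [ih]
      have h1 : Function.update A (i + 1 + m) t i = A i := by
        rw [Function.update_of_ne]
        omega
      have h2 : Function.update A (i + 1 + m) t (i + 1 + m) = t := by simp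
      rw [h1, h2]
      have h3 : i + 1 + m - i - 1 = m := by omega
      rw [h3]
    rw [lintegral_congr e2]
    have e3 : i + 1 + (m + 1) - i - 1 = m + 1 := by omega
    rw [e3]
    have e4 : (fun t : ℝ => if A i ≤ t then ENNReal.ofReal ((t - A i) ^ m / m.factorial) else 0)
        = (Set.Ici (A i)).indicator fun t => ENNReal.ofReal ((t - A i) ^ m / m.factorial) := by
      funext t
      by_cases h : A i ≤ t
      · rw [if_pos h, Set.indicator_of_mem (by exact h)]
      · rw [if_neg h, Set.indicator_of_notMem (by exact h)]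
    rw [e4, setLIntegral_indicator measurableSet_Ici]
    have e5 : Set.Ici (A i) ∩ Set.Iic (A (i + 1 + (m + 1))) =
        Set.Icc (A i) (A (i + 1 + (m + 1))) := by
      ext t
      simp
    rw [e5]
    by_cases hA : A i ≤ A (i + 1 + (m + 1))
    · rw [if_pos hA, lint_pow _ _ hA]
    · rw [if_neg hA, Set.Icc_eq_empty hA]
      simp

theorem bI_ge {i j : ℕ} (hij : j ≤ i) (Φ : Sq → ℝ≥0∞) (A : Sq) : bI i j Φ A = Φ A := by
  unfold bI
  have h : Finset.Ioo i j = ∅ := by
    ext k
    simp only [Finset.mem_Ioo, Finset.notMem_empty, iff_false]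
    omega
  rw [h, lmarginal_empty, Set.indicator_of_mem]
  intro k h1 h2
  omega

theorem bI_one_ne_top (i j : ℕ) (A : Sq) : bI i j (fun _ => 1) A ≠ ∞ := by
  rcases Nat.lt_or_ge i j with h | h
  · rw [bI_one h]
    split_ifs
    · exact ENNReal.ofReal_ne_top
    · simp
  · rw [bI_ge h]
    simp

theorem bI_eq (i j : ℕ) (A : Sq) {Φ : Sq → ℝ≥0∞} (hΦ : Measurable Φ) :
    bI i j Φ A = bI i j (fun _ => 1) A * ∫⁻ B, Φ B ∂(rs i j A) := by
  rw [lintegral_rs hΦ, ← mul_assoc]
  by_cases h0 : bI i j (fun _ => 1) A = 0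
  · rw [h0, zero_mul, zero_mul]
    have hm : Measurable (Function.updateFinset A (Finset.Ioo i j)) := measurable_updateFinset
    have h1 : (fun y : (Finset.Ioo i j) → ℝ => (mon i j).indicator (fun _ => (1 : ℝ≥0∞))
        (Function.updateFinset A (Finset.Ioo i j) y)) =ᵐ[Measure.pi fun _ => volume] 0 := by
      refine (lintegral_eq_zero_iff ?_).1 h0
      exact (measurable_const.indicator (measurableSet_mon i j)).comp hm
    unfold bI lmarginal
    refine (lintegral_eq_zero_iff ((hΦ.indicator (measurableSet_mon i j)).comp hm)).2 ?_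
    filter_upwards [h1] with y hy
    have h2 : Function.updateFinset A (Finset.Ioo i j) y ∉ mon i j := by
      intro h3
      simp only [Set.indicator_of_mem h3, Pi.zero_apply] at hy
      exact one_ne_zero hy
    rw [Function.comp_apply, Set.indicator_of_notMem h2, Pi.zero_apply]
  · rw [ENNReal.mul_inv_cancel h0 (bI_one_ne_top i j A), one_mul]

theorem bI_one_ne_zero {i j : ℕ} (hij : i < j) {A : Sq} (hA : A i < A j) :
    bI i j (fun _ => 1) A ≠ 0 := by
  rw [bI_one hij, if_pos hA.le]
  have h1 : 0 < A j - A i := sub_pos.2 hA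
  have h2 : 0 < (A j - A i) ^ (j - i - 1) / ((j - i - 1).factorial : ℝ) := by positivity
  simpa using h2

theorem prob_rs {i j : ℕ} (hij : i < j) {A : Sq} (hA : A i < A j) :
    IsProbabilityMeasure (rs i j A) := by
  constructor
  have h := lintegral_rs (Φ := fun _ => 1) measurable_const i j A
  rw [lintegral_const, one_mul] at h
  rw [h, ENNReal.inv_mul_cancel (bI_one_ne_zero hij hA) (bI_one_ne_top i j A)]

theorem prob_bt {m : ℕ} (hm : 1 ≤ m) : IsProbabilityMeasure (bt m) := by
  constructor
  unfold bt
  rw [withDensity_apply _ MeasurableSet.univ, Measure.restrict_univ]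
  rw [← ofReal_integral_eq_lintegral_ofReal]
  · rw [← intervalIntegral.integral_of_le zero_le_one]
    have h1 : (∫ τ in (0 : ℝ)..1, (m : ℝ) * τ ^ (m - 1)) = 1 := by
      rw [intervalIntegral.integral_const_mul, integral_pow]
      have h2 : ((m - 1 : ℕ) : ℝ) + 1 = m := by
        rw [Nat.cast_sub hm]
        simp
      have h3 : (m : ℝ) ≠ 0 := by
        have : (0 : ℝ) < m := by exact_mod_cast hm
        exact this.ne'
      rw [h2]
      simp [h3]
    rw [h1]
    simp
  · have hc : Continuous fun τ : ℝ => (m : ℝ) * τ ^ (m - 1) :=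
      continuous_const.mul (continuous_pow _)
    exact (hc.continuousOn.integrableOn_compact isCompact_Icc).mono_set Set.Ioc_subset_Icc_self
  · refine (ae_restrict_iff' measurableSet_Ioc).2 (Filter.Eventually.of_forall fun t ht => ?_)
    have : 0 ≤ t := ht.1.le
    positivity

theorem measurable_upd (A : Sq) (k : ℕ) : Measurable fun t : ℝ => Function.update A k t := by
  exact measurable_update A

theorem measurable_rs' {Φ : Sq → ℝ≥0∞} (hΦ : Measurable Φ) (i j : ℕ) :
    Measurable fun A : Sq => ∫⁻ B, Φ B ∂(rs i j A) := by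
  have h1 := measurable_rs (α := Unit) (F := fun _ => Φ) (hΦ.comp measurable_snd) i j
  have h2 : Measurable fun A : Sq => (((), A) : Unit × Sq) := measurable_prodMk_left
  have h3 := Measurable.comp h1 h2
  exact h3

theorem rs_rec {i j : ℕ} (hij : i + 1 < j) {A : Sq} (hA : A i < A j) {Φ : Sq → ℝ≥0∞}
    (hΦ : Measurable Φ) :
    ∫⁻ B, Φ B ∂(rs i j A) =
      ∫⁻ τ, (∫⁻ B, Φ B ∂(rs i (j - 1) (Function.update A (j - 1) (A i + (A j - A i) * τ))))
        ∂(bt (j - i - 1)) := by
  obtain ⟨m, rfl⟩ : ∃ m, j = i + 2 + m := ⟨j - (i + 2), by omega⟩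
  have e1 : i + 2 + m - 1 = i + 1 + m := by omega
  have e2 : i + 2 + m - i - 1 = m + 1 := by omega
  rw [e1, e2]
  set D : ℝ := A (i + 2 + m) - A i with hD
  have hD0 : 0 < D := sub_pos.2 hA
  set G : ℝ → ℝ≥0∞ := fun t => ∫⁻ B, Φ B ∂(rs i (i + 1 + m) (Function.update A (i + 1 + m) t))
    with hG
  have hGm : Measurable G := (measurable_rs' hΦ i (i + 1 + m)).comp (measurable_upd A (i + 1 + m))
  have hc : bI i (i + 2 + m) (fun _ => 1) A =
      ENNReal.ofReal (D ^ (m + 1) / (m + 1).factorial) := by
    rw [bI_one (by omega), if_pos hA.le, e2]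
  rw [lintegral_rs hΦ, hc, bI_step (by omega) hΦ, e1]
  have h1 : ∀ t : ℝ, bI i (i + 1 + m) Φ (Function.update A (i + 1 + m) t) =
      (Set.Ici (A i)).indicator
        (fun t => ENNReal.ofReal ((t - A i) ^ m / m.factorial) * G t) t := by
    intro t
    rw [bI_eq _ _ _ hΦ, bI_one (by omega)]
    have h1 : Function.update A (i + 1 + m) t i = A i := by
      rw [Function.update_of_ne]
      omega
    have h2 : Function.update A (i + 1 + m) t (i + 1 + m) = t := by simp
    have h3 : i + 1 + m - i - 1 = m := by omega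
    rw [h1, h2, h3]
    by_cases h : A i ≤ t
    · rw [if_pos h, Set.indicator_of_mem (by exact h)]
    · rw [if_neg h, Set.indicator_of_notMem (by exact h), zero_mul]
  rw [lintegral_congr h1, setLIntegral_indicator measurableSet_Ici]
  have e5 : Set.Ici (A i) ∩ Set.Iic (A (i + 2 + m)) =
      (fun τ : ℝ => A i + D * τ) '' Set.Icc 0 1 := by
    ext t
    simp only [Set.mem_inter_iff, Set.mem_Ici, Set.mem_Iic, Set.mem_image, Set.mem_Icc]
    constructor
    · rintro ⟨h1, h2⟩
      refine ⟨(t - A i) / D, ⟨div_nonneg (sub_nonneg.2 h1) hD0.le, ?_⟩, ?_⟩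
      · rw [div_le_one hD0]
        linarith
      · field_simp
        ring
    · rintro ⟨τ, ⟨h1, h2⟩, rfl⟩
      constructor
      · nlinarith
      · nlinarith
  rw [e5, lintegral_image_eq_lintegral_abs_deriv_mul (f' := fun _ => D) measurableSet_Icc]
  · have hR : (∫⁻ τ, (∫⁻ B, Φ B ∂(rs i (i + 1 + m)
          (Function.update A (i + 1 + m) (A i + D * τ)))) ∂(bt (m + 1))) =
        ∫⁻ τ in Set.Ioc 0 1, ENNReal.ofReal (((m + 1 : ℕ) : ℝ) * τ ^ (m + 1 - 1)) *
          G (A i + D * τ) := by
      unfold bt
      exact lintegral_withDensity_eq_lintegral_mul _ (by fun_prop)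
        (hGm.comp (by fun_prop : Measurable fun τ : ℝ => A i + D * τ))
    rw [hR]
    rw [← lintegral_const_mul' _ _ (by
      rw [ENNReal.inv_ne_top]
      have h2 : 0 < D ^ (m + 1) / ((m + 1).factorial : ℝ) := by positivity
      simpa using h2)]
    rw [restrict_Ioc_eq_restrict_Icc]
    refine setLIntegral_congr_fun measurableSet_Icc fun τ hτ => ?_
    have h3 : A i + D * τ - A i = D * τ := by ring
    rw [h3, ← mul_assoc, ← mul_assoc]
    congr 1
    rw [abs_of_pos hD0, mul_assoc, ← ENNReal.ofReal_mul hD0.le,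
      ← ENNReal.ofReal_inv_of_pos (by positivity),
      ← ENNReal.ofReal_mul (by positivity)]
    congr 1
    rw [Nat.factorial_succ]
    push_cast
    have h4 : (m.factorial : ℝ) ≠ 0 := by positivity
    have h5 : (m + 1 : ℝ) ≠ 0 := by positivity
    have h6 : D ≠ 0 := hD0.ne'
    rw [mul_pow, pow_succ]
    field_simp
  · intro τ _
    have h2 : HasDerivAt (fun τ : ℝ => A i + D * τ) (D * 1) τ :=
      ((hasDerivAt_id τ).const_mul D).const_add (A i)
    rw [mul_one] at h2
    exact h2.hasDerivWithinAt
  · intro a _ b _ hab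
    have h2 : D * a = D * b := add_left_cancel hab
    exact mul_left_cancel₀ hD0.ne' h2

/-- a window of length one: nothing is resampled -/
theorem rs_one (i : ℕ) {A : Sq} (hA : A i ≤ A (i + 1)) : rs i (i + 1) A = Measure.dirac A := by
  refine Measure.ext_of_lintegral _ fun Φ hΦ => ?_
  rw [lintegral_rs hΦ, bI_base, bI_base, if_pos hA, if_pos hA, inv_one, one_mul,
    lintegral_dirac' _ hΦ]

end Pool.Agent.H22.DL
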