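import Pool.Agent.H22.DL.Paths
import Pool.Agent.H22.DL.Vol

/-!
# Module Compare: bridge against random walk, exact density

`Finset.Ioo i j = Finset.Ioc i c ∪ Finset.Ioo c j`; the inner integral over `Finset.Ioo c j` is
`Φ B * bI c j 1 B` (`bI_one`), then `lintegral_path` with `l = 1 / 2`.
-/

open MeasureTheory ProbabilityTheory Filter Topology Set
open scoped ENNReal

namespace Pool.Agent.H22.DL

theorem measurable_Rd (m k : ℕ) (d : ℝ) : Measurable (Rd m k d) := by
  unfold Rd
  refine Measurable.ite measurableSet_Iic ?_ measurable_const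
  fun_prop

theorem mon_inter {i c j : ℕ} (hic : i ≤ c) (hcj : c ≤ j) (B : Sq) :
    B ∈ mon i j ↔ B ∈ mon i c ∧ B ∈ mon c j := by
  constructor
  · intro h
    exact ⟨fun k h1 h2 => h k h1 (by omega), fun k h1 h2 => h k (by omega) h2⟩
  · rintro ⟨h1, h2⟩ k hk1 hk2
    rcases lt_or_ge k c with h | h
    · exact h1 k hk1 h
    · exact h2 k h hk2

theorem mon_congr {i c : ℕ} {B B' : Sq} (h : ∀ k, i ≤ k → k ≤ c → B k = B' k) :
    B ∈ mon i c ↔ B' ∈ mon i c := by
  constructor
  · intro hB k h1 h2
    rw [← h k h1 h2.le, ← h (k + 1) (by omega) h2]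
    exact hB k h1 h2
  · intro hB k h1 h2
    rw [h k h1 h2.le, h (k + 1) (by omega) h2]
    exact hB k h1 h2

/-- integration over the last part of the window -/
theorem bI_split_cmp {i c j : ℕ} (hic : i < c) (hcj : c < j) (A : Sq)
    {Φ : Sq → ℝ≥0∞} (hΦ : Measurable Φ)
    (hdep : ∀ B B' : Sq, (∀ k, (k ≤ c ∨ j ≤ k) → B k = B' k) → Φ B = Φ B') :
    bI i j Φ A = (∫⋯∫⁻_Finset.Ioc i c, (mon i c).indicator (fun B => Φ B * bI c j (fun _ => 1) B)
      ∂fun _ => volume) A := by
  show (∫⋯∫⁻_Finset.Ioo i j, (mon i j).indicator Φ ∂fun _ => volume) A = _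
  have hun : Finset.Ioo i j = Finset.Ioc i c ∪ Finset.Ioo c j := by
    ext k
    simp only [Finset.mem_Ioo, Finset.mem_union, Finset.mem_Ioc]
    omega
  have hdis : Disjoint (Finset.Ioc i c) (Finset.Ioo c j) := by
    rw [Finset.disjoint_left]
    intro k hk hk'
    simp only [Finset.mem_Ioo, Finset.mem_Ioc] at hk hk'
    omega
  rw [hun, lmarginal_union _ _ (hΦ.indicator (measurableSet_mon i j)) hdis]
  congr 1
  funext B
  show ∫⁻ y : Finset.Ioo c j → ℝ, (mon i j).indicator Φ
    (Function.updateFinset B (Finset.Ioo c j) y) ∂(Measure.pi fun _ => volume) = _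
  have hupd : ∀ (y : Finset.Ioo c j → ℝ) (k : ℕ), (k ≤ c ∨ j ≤ k) →
      Function.updateFinset B (Finset.Ioo c j) y k = B k := by
    intro y k hk
    rw [Function.updateFinset_def]
    have : k ∉ Finset.Ioo c j := by
      rw [Finset.mem_Ioo]; omega
    simp only [this, dite_false]
  have hΦB : ∀ y : Finset.Ioo c j → ℝ,
      Φ (Function.updateFinset B (Finset.Ioo c j) y) = Φ B := fun y => hdep _ _ (hupd y)
  have hmB : ∀ y : Finset.Ioo c j → ℝ,
      (Function.updateFinset B (Finset.Ioo c j) y ∈ mon i c ↔ B ∈ mon i c) := fun y =>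
    mon_congr fun k _ h2 => hupd y k (Or.inl h2)
  by_cases hB : B ∈ mon i c
  · rw [Set.indicator_of_mem hB]
    have hu : Measurable (Function.updateFinset B (Finset.Ioo c j)) := measurable_updateFinset
    have hm : Measurable fun y : Finset.Ioo c j → ℝ => (mon c j).indicator (fun _ => (1 : ℝ≥0∞))
        (Function.updateFinset B (Finset.Ioo c j) y) :=
      (measurable_const.indicator (measurableSet_mon c j)).comp hu
    have hb : bI c j (fun _ => 1) B = ∫⁻ y : Finset.Ioo c j → ℝ,
        (mon c j).indicator (fun _ => (1 : ℝ≥0∞)) (Function.updateFinset B (Finset.Ioo c j) y)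
          ∂(Measure.pi fun _ => volume) := rfl
    rw [hb, ← lintegral_const_mul _ hm]
    refine lintegral_congr fun y => ?_
    by_cases hy : Function.updateFinset B (Finset.Ioo c j) y ∈ mon c j
    · have hy' : Function.updateFinset B (Finset.Ioo c j) y ∈ mon i j :=
        (mon_inter hic.le hcj.le _).2 ⟨(hmB y).2 hB, hy⟩
      rw [Set.indicator_of_mem hy, Set.indicator_of_mem hy', hΦB y, mul_one]
    · have hy' : Function.updateFinset B (Finset.Ioo c j) y ∉ mon i j := fun h =>
        hy ((mon_inter hic.le hcj.le _).1 h).2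
      rw [Set.indicator_of_notMem hy, Set.indicator_of_notMem hy', mul_zero]
  · rw [Set.indicator_of_notMem hB]
    have : ∀ y : Finset.Ioo c j → ℝ, (mon i j).indicator Φ
        (Function.updateFinset B (Finset.Ioo c j) y) = 0 := by
      intro y
      refine Set.indicator_of_notMem (fun h => hB ?_) _
      exact (hmB y).1 ((mon_inter hic.le hcj.le _).1 h).1
    simp only [this, lintegral_zero]

theorem rs_eq_path {i c j : ℕ} (hic : i < c) (hcj : c < j) {A : Sq} (hA : A i < A j)
    {Φ : Sq → ℝ≥0∞} (hΦ : Measurable Φ)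
    (hdep : ∀ B B' : Sq, (∀ k, (k ≤ c ∨ j ≤ k) → B k = B' k) → Φ B = Φ B') :
    ∫⁻ B, Φ B ∂(rs i j A) =
      ∫⁻ x, Φ (path i c A x) *
        ENNReal.ofReal (Rd (j - i - 1) (c - i) (A j - A i) (ps x (c - i))) ∂(ex (1 / 2)) := by
  rw [lintegral_rs hΦ, bI_split_cmp hic hcj A hΦ hdep]
  set Φ' : Sq → ℝ≥0∞ := fun B => Φ B *
    ENNReal.ofReal (Rd (j - i - 1) (c - i) (A j - A i) (B c - B i)) with hΦ'
  have hΦ'm : Measurable Φ' := by
    refine hΦ.mul (ENNReal.measurable_ofReal.comp ((measurable_Rd _ _ _).comp ?_))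
    exact (measurable_pi_apply c).sub (measurable_pi_apply i)
  have hR : ∀ x, Φ (path i c A x) *
        ENNReal.ofReal (Rd (j - i - 1) (c - i) (A j - A i) (ps x (c - i))) =
      Φ' (path i c A x) := by
    intro x
    have e1 : path i c A x c = A i + ps x (c - i) := by
      simp [path, hic]
    have e2 : path i c A x i = A i := by
      simp [path]
    simp only [hΦ', e1, e2]
    congr 4
    ring
  simp_rw [hR]
  rw [lintegral_path (by norm_num) hic.le A hΦ'm]
  show (bI i j (fun _ => 1) A)⁻¹ * ∫⁻ y : Finset.Ioc i c → ℝ,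
      (mon i c).indicator (fun B => Φ B * bI c j (fun _ => 1) B)
        (Function.updateFinset A (Finset.Ioc i c) y) ∂(Measure.pi fun _ => volume) =
    ∫⁻ y : Finset.Ioc i c → ℝ, (mon i c).indicator (fun B =>
        ENNReal.ofReal ((1 / 2) ^ (c - i) * Real.exp (-(1 / 2) * (B c - B i))) * Φ' B)
        (Function.updateFinset A (Finset.Ioc i c) y) ∂(Measure.pi fun _ => volume)
  have hu : Measurable (Function.updateFinset A (Finset.Ioc i c)) := measurable_updateFinset
  have hbm : Measurable fun B : Sq => bI c j (fun _ => (1 : ℝ≥0∞)) B := by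
    have := measurable_bI (α := Unit) (F := fun (_ : Unit) (_ : Sq) => (1 : ℝ≥0∞))
      measurable_const c j
    exact this.comp (measurable_const.prodMk measurable_id : Measurable fun B : Sq => ((), B))
  have hm : Measurable fun y : Finset.Ioc i c → ℝ =>
      (mon i c).indicator (fun B => Φ B * bI c j (fun _ => 1) B)
        (Function.updateFinset A (Finset.Ioc i c) y) :=
    ((hΦ.mul hbm).indicator (measurableSet_mon i c)).comp hu
  rw [← lintegral_const_mul _ hm]
  refine lintegral_congr fun y => ?_
  set B : Sq := Function.updateFinset A (Finset.Ioc i c) y with hB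
  have hBi : B i = A i := by
    rw [hB, Function.updateFinset_def]
    have : i ∉ Finset.Ioc i c := by simp
    simp only [this, dite_false]
  have hBj : B j = A j := by
    rw [hB, Function.updateFinset_def]
    have : j ∉ Finset.Ioc i c := by
      rw [Finset.mem_Ioc]; omega
    simp only [this, dite_false]
  by_cases hmon : B ∈ mon i c
  · rw [Set.indicator_of_mem hmon, Set.indicator_of_mem hmon]
    have hd : 0 < A j - A i := by linarith
    have hm1 : j - c - 1 = j - i - 1 - (c - i) := by omega
    rw [bI_one (hic.trans hcj), bI_one hcj, if_pos hA.le, hBj, hΦ']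
    simp only [hBi]
    by_cases hs : B c ≤ A j
    · have hs' : B c - A i ≤ A j - A i := by linarith
      rw [if_pos hs]
      have e1 : Rd (j - i - 1) (c - i) (A j - A i) (B c - A i) =
          ((j - i - 1).factorial : ℝ) / ((j - i - 1 - (c - i)).factorial : ℝ) *
            (A j - A i - (B c - A i)) ^ (j - i - 1 - (c - i)) / (A j - A i) ^ (j - i - 1) *
            2 ^ (c - i) * Real.exp ((B c - A i) / 2) := by
        unfold Rd
        rw [if_pos hs']
      rw [e1]
      have hf1 : (0 : ℝ) < ((j - i - 1).factorial : ℝ) := by positivity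
      have hf2 : (0 : ℝ) < ((j - c - 1).factorial : ℝ) := by positivity
      have hpos : 0 < (A j - A i) ^ (j - i - 1) / ((j - i - 1).factorial : ℝ) := by positivity
      have hq : (0 : ℝ) ≤ (A j - B c) ^ (j - c - 1) / ((j - c - 1).factorial : ℝ) := by
        have : 0 ≤ A j - B c := by linarith
        positivity
      rw [← ENNReal.ofReal_inv_of_pos hpos, ← mul_assoc, mul_comm _ (Φ B), mul_assoc,
        ← ENNReal.ofReal_mul (by positivity), mul_left_comm, ← ENNReal.ofReal_mul (by positivity)]
      congr 2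
      rw [← hm1]
      have e2 : A j - A i - (B c - A i) = A j - B c := by ring
      rw [e2]
      have e3 : Real.exp (-(1 / 2) * (B c - A i)) * Real.exp ((B c - A i) / 2) = 1 := by
        rw [← Real.exp_add]
        have : -(1 / 2) * (B c - A i) + (B c - A i) / 2 = 0 := by ring
        rw [this, Real.exp_zero]
      have e4 : ((1 : ℝ) / 2) ^ (c - i) * 2 ^ (c - i) = 1 := by
        rw [← mul_pow]
        norm_num
      have hd' : (A j - A i) ^ (j - i - 1) ≠ 0 := by positivity
      calc ((A j - A i) ^ (j - i - 1) / ((j - i - 1).factorial : ℝ))⁻¹ *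
            ((A j - B c) ^ (j - c - 1) / ((j - c - 1).factorial : ℝ))
          = (((j - i - 1).factorial : ℝ) / ((j - c - 1).factorial : ℝ) *
            (A j - B c) ^ (j - c - 1) / (A j - A i) ^ (j - i - 1)) := by
            field_simp
        _ = (((1 : ℝ) / 2) ^ (c - i) * 2 ^ (c - i)) *
            (Real.exp (-(1 / 2) * (B c - A i)) * Real.exp ((B c - A i) / 2)) *
            (((j - i - 1).factorial : ℝ) / ((j - c - 1).factorial : ℝ) *
            (A j - B c) ^ (j - c - 1) / (A j - A i) ^ (j - i - 1)) := by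
            rw [e3, e4]; ring
        _ = _ := by ring
    · have hs' : ¬ (B c - A i ≤ A j - A i) := by
        intro h; exact hs (by linarith)
      rw [if_neg hs]
      have e1 : Rd (j - i - 1) (c - i) (A j - A i) (B c - A i) = 0 := by
        unfold Rd
        rw [if_neg hs']
      rw [e1]
      simp
  · rw [Set.indicator_of_notMem hmon, Set.indicator_of_notMem hmon, mul_zero]

end Pool.Agent.H22.DL
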