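import Pool.Agent.H22.DL.Vol

/-!
# Module Core3: consistency (resampling a subwindow)

`Finset.Ioo i j = (Finset.Ioo i j \ Finset.Ioo i' j') ∪ Finset.Ioo i' j'`, `lmarginal_union`; the
indicator of `mon i j` is the product of the one of `mon i' j'` and a factor which does not depend
on the coordinates inside `(i', j')`; inside use `bI_eq i' j'`, and that
`B ↦ ∫⁻ C, Φ C ∂(rs i' j' B)` does not depend on these coordinates.
-/

open MeasureTheory ProbabilityTheory Filter Topology Set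
open scoped ENNReal

namespace Pool.Agent.H22.DL

/-- the integral over the window does not depend on the coordinates inside the window -/
theorem bI_updateFinset (i j : ℕ) (Φ : Sq → ℝ≥0∞) (B : Sq) (y : Finset.Ioo i j → ℝ) :
    bI i j Φ (Function.updateFinset B (Finset.Ioo i j) y) = bI i j Φ B := by
  unfold bI
  refine lmarginal_congr (fun _ => volume) _ fun k hk => ?_
  simp only [Function.updateFinset, hk, dite_false]

theorem rs_updateFinset (i j : ℕ) {Φ : Sq → ℝ≥0∞} (hΦ : Measurable Φ) (B : Sq)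
    (y : Finset.Ioo i j → ℝ) :
    ∫⁻ C, Φ C ∂(rs i j (Function.updateFinset B (Finset.Ioo i j) y)) =
      ∫⁻ C, Φ C ∂(rs i j B) := by
  rw [lintegral_rs hΦ, lintegral_rs hΦ, bI_updateFinset, bI_updateFinset]

theorem bI_mul_const (i j : ℕ) (Φ : Sq → ℝ≥0∞) (hΦ : Measurable Φ) (B : Sq) (c : ℝ≥0∞) :
    ∫⁻ y : Finset.Ioo i j → ℝ, c *
      (mon i j).indicator Φ (Function.updateFinset B (Finset.Ioo i j) y)
        ∂Measure.pi (fun _ => volume) = c * bI i j Φ B := by
  rw [lintegral_const_mul]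
  · rfl
  · exact (hΦ.indicator (measurableSet_mon i j)).comp measurable_updateFinset

/-- the part of the constraints outside the subwindow -/
def monO (i i' j' j : ℕ) : Set Sq :=
  {A | ∀ k, ((i ≤ k ∧ k < i') ∨ (j' ≤ k ∧ k < j)) → A k ≤ A (k + 1)}

theorem mon_iff {i i' j' j : ℕ} (hi : i ≤ i') (hij : i' < j') (hj : j' ≤ j) (A : Sq) :
    A ∈ mon i j ↔ A ∈ monO i i' j' j ∧ A ∈ mon i' j' := by
  constructor
  · intro h
    exact ⟨fun k hk => h k (by omega) (by omega), fun k h1 h2 => h k (by omega) (by omega)⟩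
  · rintro ⟨h1, h2⟩ k hk1 hk2
    by_cases h : i' ≤ k ∧ k < j'
    · exact h2 k h.1 h.2
    · exact h1 k (by omega)

theorem monO_update {i i' j' j : ℕ} (B : Sq) (y : Finset.Ioo i' j' → ℝ) :
    Function.updateFinset B (Finset.Ioo i' j') y ∈ monO i i' j' j ↔ B ∈ monO i i' j' j := by
  have h : ∀ k, (k ≤ i' ∨ j' ≤ k) → Function.updateFinset B (Finset.Ioo i' j') y k = B k := by
    intro k hk
    have : k ∉ Finset.Ioo i' j' := by rw [Finset.mem_Ioo]; omega
    simp only [Function.updateFinset, this, dite_false]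
  constructor
  · intro hB k hk
    have := hB k hk
    rwa [h k (by omega), h (k + 1) (by omega)] at this
  · intro hB k hk
    rw [h k (by omega), h (k + 1) (by omega)]
    exact hB k hk

theorem lmarginal_mon {i i' j' j : ℕ} (hi : i ≤ i') (hij : i' < j') (hj : j' ≤ j)
    {Φ : Sq → ℝ≥0∞} (hΦ : Measurable Φ) (B : Sq) :
    (∫⋯∫⁻_Finset.Ioo i' j', (mon i j).indicator Φ ∂fun _ => volume) B =
      (monO i i' j' j).indicator (fun _ => (1 : ℝ≥0∞)) B * bI i' j' Φ B := by
  rw [← bI_mul_const i' j' Φ hΦ]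
  unfold lmarginal
  refine lintegral_congr fun y => ?_
  by_cases h1 : B ∈ monO i i' j' j
  · rw [Set.indicator_of_mem h1, one_mul]
    by_cases h2 : Function.updateFinset B (Finset.Ioo i' j') y ∈ mon i' j'
    · rw [Set.indicator_of_mem h2, Set.indicator_of_mem]
      exact (mon_iff hi hij hj _).2 ⟨(monO_update B y).2 h1, h2⟩
    · rw [Set.indicator_of_notMem h2, Set.indicator_of_notMem]
      exact fun h => h2 ((mon_iff hi hij hj _).1 h).2
  · rw [Set.indicator_of_notMem h1, zero_mul, Set.indicator_of_notMem]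
    exact fun h => h1 ((monO_update B y).1 ((mon_iff hi hij hj _).1 h).1)

theorem measurable_rs_const {Φ : Sq → ℝ≥0∞} (hΦ : Measurable Φ) (i j : ℕ) :
    Measurable fun B : Sq => ∫⁻ C, Φ C ∂(rs i j B) := by
  simp_rw [lintegral_rs hΦ]
  have h1 : Measurable fun B : Sq => bI i j (fun _ => 1) B :=
    (measurable_const.indicator (measurableSet_mon i j)).lmarginal _
  have h2 : Measurable fun B : Sq => bI i j Φ B :=
    (hΦ.indicator (measurableSet_mon i j)).lmarginal _
  exact h1.inv.mul h2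

theorem bI_average (i j : ℕ) {Φ : Sq → ℝ≥0∞} (hΦ : Measurable Φ) (B : Sq) :
    bI i j (fun C => ∫⁻ D, Φ D ∂(rs i j C)) B = bI i j Φ B := by
  rw [bI_eq i j B hΦ, mul_comm, ← bI_mul_const i j (fun _ => 1) measurable_const]
  unfold bI lmarginal
  refine lintegral_congr fun y => ?_
  by_cases h2 : Function.updateFinset B (Finset.Ioo i j) y ∈ mon i j
  · rw [Set.indicator_of_mem h2, Set.indicator_of_mem h2, mul_one]
    exact rs_updateFinset i j hΦ B y
  · rw [Set.indicator_of_notMem h2, Set.indicator_of_notMem h2, mul_zero]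

theorem bI_split {i i' j' j : ℕ} (hi : i ≤ i') (hij : i' < j') (hj : j' ≤ j) (A : Sq)
    {Ψ : Sq → ℝ≥0∞} (hΨ : Measurable Ψ) : bI i j Ψ A =
      (∫⋯∫⁻_(Finset.Ioo i j \ Finset.Ioo i' j'), (fun B =>
        (monO i i' j' j).indicator (fun _ => (1 : ℝ≥0∞)) B * bI i' j' Ψ B)
          ∂fun _ => volume) A := by
  have hs : Finset.Ioo i j = (Finset.Ioo i j \ Finset.Ioo i' j') ∪ Finset.Ioo i' j' := by
    ext k
    simp only [Finset.mem_union, Finset.mem_sdiff, Finset.mem_Ioo]
    omega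
  have hd : Disjoint (Finset.Ioo i j \ Finset.Ioo i' j') (Finset.Ioo i' j') :=
    Finset.sdiff_disjoint
  have h1 : bI i j Ψ A = (∫⋯∫⁻_(Finset.Ioo i j \ Finset.Ioo i' j') ∪ Finset.Ioo i' j',
      (mon i j).indicator Ψ ∂fun _ => volume) A := by
    unfold bI
    rw [← hs]
  have h2 : (∫⋯∫⁻_Finset.Ioo i' j', (mon i j).indicator Ψ ∂fun _ => volume) = fun B =>
        (monO i i' j' j).indicator (fun _ => (1 : ℝ≥0∞)) B * bI i' j' Ψ B :=
    funext fun B => lmarginal_mon hi hij hj hΨ B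
  rw [h1, lmarginal_union _ _ (hΨ.indicator (measurableSet_mon i j)) hd, h2]

theorem rs_consistent {i i' j' j : ℕ} (hi : i ≤ i') (hij : i' < j') (hj : j' ≤ j) {A : Sq}
    {Φ : Sq → ℝ≥0∞} (hΦ : Measurable Φ) :
    ∫⁻ B, Φ B ∂(rs i j A) = ∫⁻ B, (∫⁻ C, Φ C ∂(rs i' j' B)) ∂(rs i j A) := by
  have hmeas := measurable_rs_const hΦ i' j'
  rw [lintegral_rs hΦ, lintegral_rs hmeas, bI_split hi hij hj A hΦ,
    bI_split hi hij hj A hmeas]
  have h : (fun B : Sq => (monO i i' j' j).indicator (fun _ => (1 : ℝ≥0∞)) B *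
      bI i' j' (fun C => ∫⁻ D, Φ D ∂(rs i' j' C)) B) = fun B =>
        (monO i i' j' j).indicator (fun _ => (1 : ℝ≥0∞)) B * bI i' j' Φ B :=
    funext fun B => by rw [bI_average i' j' hΦ B]
  rw [h]

end Pool.Agent.H22.DL
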