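import Pool.Agent.H22.DL.Scale

/-!
# Module ConvInt: convergence of integrals

Convergence in probability of `Sn (0, x i) + Y n i` to `S' (0, x i) + y i` (finitely many `i`) gives
`TendstoInMeasure`, composition with a continuous bounded function, and convergence of the
integrals (every subsequence has an a.e. convergent subsequence, dominated convergence; or
`tendstoInDistribution` and the definition of weak convergence).
-/

open MeasureTheory ProbabilityTheory Filter Topology Set
open scoped ENNReal

namespace Pool.Agent.H22.DL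

open Pool.Agent.H37.DL

section

variable {Ω' : Type} [MeasurableSpace Ω'] {Q : Measure Ω'} [IsProbabilityMeasure Q]
  {S' : Ω' → ℝ × ℝ → ℝ} {w : ℕ → Ω' → ℤ → ℕ → ℝ}

/-- convergence of integrals of continuous functions of finitely many values; `φn` is a random
perturbation which converges in probability -/
theorem conv_int (hw : ∀ n, IsExpWeights Q (w n)) (hm : ∀ p, Measurable fun ω => S' ω p)
    (hlim : ∀ R : ℝ, ∀ ε : ℝ, 0 < ε → Tendsto
        (fun n : ℕ => Q {ω | ∃ p : ℝ × ℝ, |p.1| ≤ R ∧ |p.2| ≤ R ∧
          ε ≤ |Sn (w n ω) n p - S' ω p|}) atTop (𝓝 0))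
    {s : Type*} [Fintype s] (x : s → ℝ) {Y : ℕ → Ω' → s → ℝ} {y : s → ℝ}
    (hYm : ∀ n i, Measurable fun ω => Y n ω i)
    (hY : ∀ i, ∀ ε : ℝ, 0 < ε → Tendsto (fun n : ℕ => Q {ω | ε ≤ |Y n ω i - y i|}) atTop (𝓝 0))
    {F : (s → ℝ) → ℝ} (hF : Continuous F) (hF1 : ∀ v, |F v| ≤ 1) :
    Tendsto (fun n : ℕ => ∫ ω, F (fun i => Sn (w n ω) n (0, x i) + Y n ω i) ∂Q) atTop
      (𝓝 (∫ ω, F (fun i => S' ω (0, x i) + y i) ∂Q)) := by
  obtain ⟨R, hR⟩ := Pool.Agent.H74.DL.exists_bound (fun i => ((0 : ℝ), x i))
  have mX : ∀ n, Measurable fun ω (i : s) => Sn (w n ω) n (0, x i) + Y n ω i := fun n =>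
    measurable_pi_iff.2 fun i =>
      (Pool.Agent.H74.DL.measurable_Sn (hw n).meas n _).add (hYm n i)
  have mZ : Measurable fun ω (i : s) => S' ω (0, x i) + y i :=
    measurable_pi_iff.2 fun i => (hm _).add measurable_const
  have hT : TendstoInMeasure Q (fun n ω (i : s) => Sn (w n ω) n (0, x i) + Y n ω i) atTop
      (fun ω i => S' ω (0, x i) + y i) := by
    rw [tendstoInMeasure_iff_dist]
    intro ε hε
    have hs : Tendsto (fun n : ℕ => ∑ i : s, Q {ω | ε / 4 ≤ |Y n ω i - y i|}) atTop (𝓝 0) := by
      have := tendsto_finsetSum (Finset.univ : Finset s)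
        (fun i _ => hY i (ε / 4) (by linarith))
      simpa using this
    have hsum := (hlim R (ε / 4) (by linarith)).add hs
    rw [add_zero] at hsum
    refine tendsto_of_tendsto_of_tendsto_of_le_of_le tendsto_const_nhds hsum
      (fun n => zero_le) (fun n => ?_)
    refine le_trans ?_ (add_le_add le_rfl (measure_iUnion_fintype_le Q _))
    refine (measure_mono ?_).trans (measure_union_le _ _)
    intro ω hω
    simp only [Set.mem_ofPred_eq] at hω
    by_contra hcon
    rw [Set.mem_union, not_or] at hcon
    obtain ⟨c1, c2⟩ := hcon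
    simp only [Set.mem_ofPred_eq, Set.mem_iUnion] at c1 c2
    push Not at c1 c2
    have : dist (fun i : s => Sn (w n ω) n (0, x i) + Y n ω i)
        (fun i => S' ω (0, x i) + y i) ≤ ε / 2 := by
      rw [dist_pi_le_iff (by linarith)]
      intro i
      rw [Real.dist_eq]
      have k1 := c1 (0, x i) (hR i).1 (hR i).2
      have k2 := c2 i
      have : Sn (w n ω) n (0, x i) + Y n ω i - (S' ω (0, x i) + y i) =
          (Sn (w n ω) n (0, x i) - S' ω (0, x i)) + (Y n ω i - y i) := by ring
      rw [this]
      refine (abs_add_le _ _).trans ?_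
      linarith
    linarith
  have hD := (hT.tendstoInDistribution fun n => (mX n).aemeasurable).tendsto
  have h := (ProbabilityMeasure.tendsto_iff_forall_integral_tendsto.1 hD)
    (BoundedContinuousFunction.ofNormedAddCommGroup F hF 1 fun v => by
      rw [Real.norm_eq_abs]; exact hF1 v)
  simp only [BoundedContinuousFunction.coe_ofNormedAddCommGroup, ProbabilityMeasure.coe_mk] at h
  rw [integral_map mZ.aemeasurable hF.aestronglyMeasurable] at h
  refine h.congr fun n => ?_
  rw [integral_map (mX n).aemeasurable hF.aestronglyMeasurable]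

end

end Pool.Agent.H22.DL
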