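import Pool.Agent.H22.DL.Defs

/-!
# Module Core1: measurability, integrals, support of the bridge

* `measurable_bI`: unfold `bI`, `lmarginal`, `Measurable.lintegral_prod_right'` (as in
  `Measurable.lmarginal`).
* `lintegral_rs`: unfold `rs`; `lintegral_smul_measure`, `lintegral_map`, and
  `(mon i j).indicator Φ (updateFinset A s y) = {y | .. ∈ mon i j}.indicator (Φ ∘ ..) y`.
* `ae_rs`: the restriction gives `mon i j`, `updateFinset` does not change the other coordinates.
-/

open MeasureTheory ProbabilityTheory Filter Topology Set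
open scoped ENNReal

namespace Pool.Agent.H22.DL

theorem measurableSet_mon (i j : ℕ) : MeasurableSet (mon i j) := by
  have : mon i j = ⋂ k : ℕ, {A : Sq | i ≤ k → k < j → A k ≤ A (k + 1)} := by
    ext A; simp [mon]
  rw [this]
  refine MeasurableSet.iInter fun k => ?_
  by_cases h1 : i ≤ k
  · by_cases h2 : k < j
    · have : {A : Sq | i ≤ k → k < j → A k ≤ A (k + 1)} = {A : Sq | A k ≤ A (k + 1)} := by
        ext A; simp [h1, h2]
      rw [this]
      exact measurableSet_le (measurable_pi_apply k) (measurable_pi_apply (k + 1))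
    · simp [h2]
  · simp [h1]

theorem measurableSet_bar (i j : ℕ) : MeasurableSet {p : Sq × Sq | p.2 ∈ bar p.1 i j} := by
  have : {p : Sq × Sq | p.2 ∈ bar p.1 i j} =
      ⋂ k : ℕ, {p : Sq × Sq | i < k → k < j → p.1 k ≤ p.2 k} := by
    ext A; simp [bar]
  rw [this]
  refine MeasurableSet.iInter fun k => ?_
  by_cases h1 : i < k
  · by_cases h2 : k < j
    · have : {p : Sq × Sq | i < k → k < j → p.1 k ≤ p.2 k} = {p : Sq × Sq | p.1 k ≤ p.2 k} := by
        ext A; simp [h1, h2]
      rw [this]
      exact measurableSet_le ((measurable_pi_apply k).comp measurable_fst)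
        ((measurable_pi_apply k).comp measurable_snd)
    · simp [h2]
  · simp [h1]

theorem measurable_bI {α : Type*} [MeasurableSpace α] {F : α → Sq → ℝ≥0∞}
    (hF : Measurable (Function.uncurry F)) (i j : ℕ) :
    Measurable fun p : α × Sq => bI i j (F p.1) p.2 := by
  unfold bI lmarginal
  have hm : Measurable fun q : (α × Sq) × (Finset.Ioo i j → ℝ) =>
      (mon i j).indicator (F q.1.1) (Function.updateFinset q.1.2 (Finset.Ioo i j) q.2) := by
    have h1 : Measurable fun q : (α × Sq) × (Finset.Ioo i j → ℝ) =>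
        Function.updateFinset q.1.2 (Finset.Ioo i j) q.2 :=
      measurable_updateFinset'.comp ((measurable_snd.comp measurable_fst).prodMk measurable_snd)
    have h2 : Measurable fun q : (α × Sq) × (Finset.Ioo i j → ℝ) =>
        F q.1.1 (Function.updateFinset q.1.2 (Finset.Ioo i j) q.2) :=
      hF.comp ((measurable_fst.comp measurable_fst).prodMk h1)
    exact h2.indicator (h1 (measurableSet_mon i j))
  exact hm.lintegral_prod_right'

theorem lintegral_rs {Φ : Sq → ℝ≥0∞} (hΦ : Measurable Φ) (i j : ℕ) (A : Sq) :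
    ∫⁻ B, Φ B ∂(rs i j A) = (bI i j (fun _ => 1) A)⁻¹ * bI i j Φ A := by
  have hu : Measurable (Function.updateFinset A (Finset.Ioo i j)) := measurable_updateFinset
  have hs : MeasurableSet {y : Finset.Ioo i j → ℝ |
      Function.updateFinset A (Finset.Ioo i j) y ∈ mon i j} := hu (measurableSet_mon i j)
  unfold rs
  rw [lintegral_smul_measure, lintegral_map hΦ hu, smul_eq_mul, ← lintegral_indicator hs]
  rfl

theorem measurable_rs {α : Type*} [MeasurableSpace α] {F : α → Sq → ℝ≥0∞}
    (hF : Measurable (Function.uncurry F)) (i j : ℕ) :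
    Measurable fun p : α × Sq => ∫⁻ B, F p.1 B ∂(rs i j p.2) := by
  have h0 : ∀ p : α × Sq, ∫⁻ B, F p.1 B ∂(rs i j p.2) =
      (bI i j (fun _ => 1) p.2)⁻¹ * bI i j (F p.1) p.2 := fun p =>
    lintegral_rs (hF.comp (measurable_const.prodMk measurable_id)) i j p.2
  simp_rw [h0]
  have h1 : Measurable fun p : α × Sq => bI i j ((fun (_ : α) (_ : Sq) => (1 : ℝ≥0∞)) p.1) p.2 :=
    measurable_bI (F := fun (_ : α) (_ : Sq) => (1 : ℝ≥0∞)) measurable_const i j
  exact h1.inv.mul (measurable_bI hF i j)

theorem measurable_Zf (i j : ℕ) : Measurable fun p : Sq × Sq => Zf p.1 i j p.2 := by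
  have hF : Measurable (Function.uncurry fun (h : Sq) (B : Sq) =>
      (bar h i j).indicator (fun _ => (1 : ℝ≥0∞)) B) := by
    have : (Function.uncurry fun (h : Sq) (B : Sq) =>
      (bar h i j).indicator (fun _ => (1 : ℝ≥0∞)) B) =
        ({p : Sq × Sq | p.2 ∈ bar p.1 i j}).indicator (fun _ => (1 : ℝ≥0∞)) := by
      ext p
      by_cases hp : p.2 ∈ bar p.1 i j
      · rw [Set.indicator_of_mem (show p ∈ {p : Sq × Sq | p.2 ∈ bar p.1 i j} from hp)]
        exact Set.indicator_of_mem hp (fun _ => (1 : ℝ≥0∞))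
      · rw [Set.indicator_of_notMem (show p ∉ {p : Sq × Sq | p.2 ∈ bar p.1 i j} from hp)]
        exact Set.indicator_of_notMem hp (fun _ => (1 : ℝ≥0∞))
    rw [this]
    exact measurable_const.indicator (measurableSet_bar i j)
  have h := measurable_rs hF i j
  have h2 : ∀ p : Sq × Sq, Zf p.1 i j p.2 =
      ∫⁻ B, (bar p.1 i j).indicator (fun _ => (1 : ℝ≥0∞)) B ∂(rs i j p.2) := by
    intro p
    have hb : MeasurableSet (bar p.1 i j) :=
      (measurable_const.prodMk measurable_id : Measurable fun A : Sq => (p.1, A))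
        (measurableSet_bar i j)
    rw [lintegral_indicator hb]
    simp [Zf]
  simp_rw [h2]
  exact h

theorem ae_rs (i j : ℕ) (A : Sq) :
    ∀ᵐ B ∂(rs i j A), B ∈ mon i j ∧ ∀ k, (k ≤ i ∨ j ≤ k) → B k = A k := by
  have hu : Measurable (Function.updateFinset A (Finset.Ioo i j)) := measurable_updateFinset
  have hs : MeasurableSet {y : Finset.Ioo i j → ℝ |
      Function.updateFinset A (Finset.Ioo i j) y ∈ mon i j} := hu (measurableSet_mon i j)
  unfold rs
  refine Measure.ae_smul_measure ?_ _
  have hset : MeasurableSet {B : Sq | B ∈ mon i j ∧ ∀ k, (k ≤ i ∨ j ≤ k) → B k = A k} := by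
    refine (measurableSet_mon i j).inter
      (s₂ := {B : Sq | ∀ k, (k ≤ i ∨ j ≤ k) → B k = A k}) ?_
    have : {B : Sq | ∀ k, (k ≤ i ∨ j ≤ k) → B k = A k} =
        ⋂ k : ℕ, {B : Sq | (k ≤ i ∨ j ≤ k) → B k = A k} := by ext; simp
    rw [this]
    refine MeasurableSet.iInter fun k => ?_
    by_cases h : k ≤ i ∨ j ≤ k
    · have : {B : Sq | (k ≤ i ∨ j ≤ k) → B k = A k} = {B : Sq | B k = A k} := by
        ext B; simp [h]
      rw [this]
      exact measurableSet_eq_fun (measurable_pi_apply k) measurable_const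
    · have : {B : Sq | (k ≤ i ∨ j ≤ k) → B k = A k} = univ := by
        ext B; simp only [h, false_imp_iff, Set.mem_ofPred_eq, Set.mem_univ]
      rw [this]
      exact MeasurableSet.univ
  rw [ae_map_iff hu.aemeasurable hset, ae_restrict_iff' hs]
  refine Filter.Eventually.of_forall fun y hy => ⟨hy, fun k hk => ?_⟩
  rw [Function.updateFinset_def]
  have : k ∉ Finset.Ioo i j := by
    rw [Finset.mem_Ioo]; omega
  simp only [this, dite_false]

/-- the bridge depends on the endpoints only -/
theorem rs_congr {i j : ℕ} (hij : i < j) {A A' : Sq} (hi : A i = A' i) (hj : A j = A' j)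
    {Φ : Sq → ℝ≥0∞} (hΦ : Measurable Φ)
    (hdep : ∀ B B' : Sq, (∀ k, i ≤ k → k ≤ j → B k = B' k) → Φ B = Φ B') :
    ∫⁻ B, Φ B ∂(rs i j A) = ∫⁻ B, Φ B ∂(rs i j A') := by
  have hupd : ∀ (y : Finset.Ioo i j → ℝ) (k : ℕ), i ≤ k → k ≤ j →
      Function.updateFinset A (Finset.Ioo i j) y k =
        Function.updateFinset A' (Finset.Ioo i j) y k := by
    intro y k h1 h2
    rw [Function.updateFinset_def, Function.updateFinset_def]
    by_cases hk : k ∈ Finset.Ioo i j
    · simp only [hk, dite_true]
    · simp only [hk, dite_false]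
      rw [Finset.mem_Ioo] at hk
      rcases eq_or_lt_of_le h1 with h | h
      · rw [← h]; exact hi
      · have : k = j := by omega
        rw [this]; exact hj
  have hbI : ∀ Ψ : Sq → ℝ≥0∞, (∀ B B' : Sq, (∀ k, i ≤ k → k ≤ j → B k = B' k) → Ψ B = Ψ B') →
      bI i j Ψ A = bI i j Ψ A' := by
    intro Ψ hΨ
    unfold bI lmarginal
    refine lintegral_congr fun y => ?_
    have hmem : Function.updateFinset A (Finset.Ioo i j) y ∈ mon i j ↔
        Function.updateFinset A' (Finset.Ioo i j) y ∈ mon i j := by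
      constructor
      · intro h k h1 h2
        rw [← hupd y k h1 h2.le, ← hupd y (k + 1) (by omega) h2]
        exact h k h1 h2
      · intro h k h1 h2
        rw [hupd y k h1 h2.le, hupd y (k + 1) (by omega) h2]
        exact h k h1 h2
    by_cases hm : Function.updateFinset A (Finset.Ioo i j) y ∈ mon i j
    · rw [Set.indicator_of_mem hm, Set.indicator_of_mem (hmem.1 hm)]
      exact hΨ _ _ (hupd y)
    · rw [Set.indicator_of_notMem hm, Set.indicator_of_notMem (fun h => hm (hmem.2 h))]
  rw [lintegral_rs hΦ, lintegral_rs hΦ, hbI Φ hdep, hbI (fun _ => 1) (fun _ _ _ => rfl)]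

end Pool.Agent.H22.DL
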