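import Pool.Agent.H37.DL.Defs

/-!
# PK3 (Gibbs property of the top line): definitions

`Sq` = sequences of reals. For a window `(i, j)` the coordinates `i < k < j` are resampled.
-/

open MeasureTheory ProbabilityTheory Filter Topology Set
open scoped ENNReal

namespace Pool.Agent.H22.DL

open Pool.Agent.H37.DL

/-- sequences of real numbers -/
abbrev Sq : Type := ℕ → ℝ

/-- sequences which are nondecreasing on `[i, j]` -/
def mon (i j : ℕ) : Set Sq := {A | ∀ k, i ≤ k → k < j → A k ≤ A (k + 1)}

/-- sequences above the barrier `h` strictly inside `(i, j)` -/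
def bar (h : Sq) (i j : ℕ) : Set Sq := {A | ∀ k, i < k → k < j → h k ≤ A k}

/-- the (unnormalised) integral over the coordinates inside `(i, j)`, nondecreasing on `[i, j]` -/
noncomputable def bI (i j : ℕ) (Φ : Sq → ℝ≥0∞) (A : Sq) : ℝ≥0∞ :=
  (∫⋯∫⁻_Finset.Ioo i j, (mon i j).indicator Φ ∂fun _ => volume) A

/-- the bridge: inside `(i, j)` the sequence `A` is replaced by ordered uniform points of
`[A i, A j]` (a probability measure if `A i < A j`) -/
noncomputable def rs (i j : ℕ) (A : Sq) : Measure Sq :=
  (bI i j (fun _ => 1) A)⁻¹ •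
    ((Measure.pi fun _ : Finset.Ioo i j => (volume : Measure ℝ)).restrict
      {y | Function.updateFinset A (Finset.Ioo i j) y ∈ mon i j}).map
        (Function.updateFinset A (Finset.Ioo i j))

/-- probability that the bridge is above the barrier -/
noncomputable def Zf (h : Sq) (i j : ℕ) (A : Sq) : ℝ≥0∞ := rs i j A (bar h i j)

/-- the infinite product of the exponential laws with parameter `l` -/
noncomputable def ex (l : ℝ) : Measure Sq := Measure.infinitePi fun _ : ℕ => expMeasure l

/-- partial sums -/
noncomputable def ps (x : Sq) (k : ℕ) : ℝ := ∑ t ∈ Finset.range k, x t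

/-- the path which follows `A`, except on `(i, c]` where it continues from `A i` with the
increments `x` -/
noncomputable def path (i c : ℕ) (A x : Sq) : Sq :=
  fun k => if i < k ∧ k ≤ c then A i + ps x (k - i) else A k

/-- the density of the first `k` increments of the bridge with `m` interior points, endpoints at
distance `d`, with respect to independent exponential variables of mean two, as a function of their
sum `s` -/
noncomputable def Rd (m k : ℕ) (d s : ℝ) : ℝ :=
  if s ≤ d then (m.factorial : ℝ) / ((m - k).factorial : ℝ) * (d - s) ^ (m - k) / d ^ m *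
    2 ^ k * Real.exp (s / 2) else 0

/-- `κ` is the joint law of a barrier (first component) and a nondecreasing sequence above it, with
the Gibbs property: inside each window the sequence is a bridge conditioned to stay above the
barrier. The last field is the local comparison principle. -/
structure GibbsPair (N : ℕ) (κ : Measure (Sq × Sq)) : Prop where
  prob : IsProbabilityMeasure κ
  le : ∀ᵐ p ∂κ, ∀ k ≤ N, p.1 k ≤ p.2 k
  mono : ∀ᵐ p ∂κ, p.2 ∈ mon 0 N
  lcp : ∀ i j : ℕ, i + 1 < j → j ≤ N → ∀ F G : Sq → Sq → ℝ≥0∞,
    Measurable (Function.uncurry F) → Measurable (Function.uncurry G) →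
    (∀ h A : Sq, A i < A j →
      ∫⁻ B, (bar h i j).indicator (F h) B ∂(rs i j A) ≤
        ∫⁻ B, (bar h i j).indicator (G h) B ∂(rs i j A)) →
    ∫⁻ p, F p.1 p.2 ∂κ ≤ ∫⁻ p, G p.1 p.2 ∂κ

/-- the top line -/
noncomputable def top (w : ℤ → ℕ → ℝ) (n : ℕ) : Sq := fun k => lpp w 0 k n

/-- apply `T` to the coordinates inside `(i, j)` -/
def tw (i j : ℕ) (T : ℝ → ℝ) (B : Sq) : Sq := fun k => if i < k ∧ k < j then T (B k) else B k

/-- reflection of the window `[i, j]` -/
def rev (i j : ℕ) (B : Sq) : Sq :=
  fun k => if i ≤ k ∧ k ≤ j then B i + B j - B (i + j - k) else B k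

end Pool.Agent.H22.DL
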