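import Pool.Agent.H22.DL.GoodZ

/-!
# Auxiliary lemmas for the assembly modules (helper22)
-/

open MeasureTheory ProbabilityTheory Filter Topology Set
open scoped ENNReal

namespace Pool.Agent.H22.DL

open Pool.Agent.H37.DL

theorem measurable_exv {N : ℕ} : Measurable (exv (N := N)) := by
  refine measurable_pi_iff.2 fun k => ?_
  by_cases h : k < N + 1
  · simpa [exv, h] using measurable_pi_apply (⟨k, h⟩ : Fin (N + 1))
  · simp [exv, h]

theorem exv_apply {N : ℕ} (v : Fin (N + 1) → ℝ) {k : ℕ} (hk : k ≤ N) :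
    exv v k = v ⟨k, Nat.lt_succ_of_le hk⟩ := by
  simp [exv, Nat.lt_succ_of_le hk]

/-- transfer of integrals between the Gibbs pair and the top line -/
theorem lint_top {Ω : Type*} [MeasurableSpace Ω] {Q : Measure Ω} {w : Ω → ℤ → ℕ → ℝ}
    (hw : IsExpWeights Q w) {n N : ℕ} {κ : Measure (Sq × Sq)}
    (hmap : κ.map (fun p (k : Fin (N + 1)) => p.2 k) =
      Q.map fun ω (k : Fin (N + 1)) => top (w ω) n k)
    {Φ : Sq → ℝ≥0∞} (hΦ : Measurable Φ)
    (hdep : ∀ B B' : Sq, (∀ k ≤ N, B k = B' k) → Φ B = Φ B') :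
    ∫⁻ p, Φ p.2 ∂κ = ∫⁻ ω, Φ (top (w ω) n) ∂Q := by
  have h1 : ∀ B : Sq, Φ B = Φ (exv fun k : Fin (N + 1) => B k) := fun B =>
    hdep _ _ fun k hk => by rw [exv_apply _ hk]
  have hm1 : Measurable fun (p : Sq × Sq) (k : Fin (N + 1)) => p.2 k :=
    measurable_pi_iff.2 fun k => (measurable_pi_apply _).comp measurable_snd
  have hm2 : Measurable fun ω (k : Fin (N + 1)) => top (w ω) n k :=
    measurable_pi_iff.2 fun k => measurable_top hw n k
  have hg : Measurable fun v : Fin (N + 1) → ℝ => Φ (exv v) := hΦ.comp measurable_exv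
  calc ∫⁻ p, Φ p.2 ∂κ = ∫⁻ p, Φ (exv fun k : Fin (N + 1) => p.2 k) ∂κ :=
        lintegral_congr fun p => h1 _
    _ = ∫⁻ v, Φ (exv v) ∂(κ.map fun p (k : Fin (N + 1)) => p.2 k) :=
        (lintegral_map hg hm1).symm
    _ = ∫⁻ v, Φ (exv v) ∂(Q.map fun ω (k : Fin (N + 1)) => top (w ω) n k) := by rw [hmap]
    _ = ∫⁻ ω, Φ (exv fun k : Fin (N + 1) => top (w ω) n k) ∂Q := lintegral_map hg hm2
    _ = _ := (lintegral_congr fun ω => h1 _).symm

/-- rescaled increments of the line, relative to the column of `0` -/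
noncomputable def psi {s : Type*} (n : ℕ) (x : s → ℝ) (B : Sq) : s → ℝ := fun i =>
  (B (jn n (x i)) - B (jn n 0) - 2 * ((jn n (x i) : ℝ) - jn n 0)) / rt n

theorem measurable_psi {s : Type*} (n : ℕ) (x : s → ℝ) : Measurable (psi n x) := by
  refine measurable_pi_iff.2 fun i => ?_
  unfold psi
  have h : ∀ k : ℕ, Measurable fun B : Sq => B k := fun k => measurable_pi_apply k
  exact (((h _).sub (h _)).sub measurable_const).div_const _

/-- rescaled increments of the walk, started at the column `jn n (-K)` -/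
noncomputable def wlk {s : Type*} (n : ℕ) (K : ℝ) (x : s → ℝ) (y : Sq) : s → ℝ := fun i =>
  (ps y (jn n (x i) - jn n (-K)) - ps y (jn n 0 - jn n (-K)) -
        2 * ((jn n (x i) : ℝ) - jn n 0)) / rt n

theorem measurable_ps (k : ℕ) : Measurable fun y : Sq => ps y k :=
  Finset.measurable_sum _ fun t _ => measurable_pi_apply t

theorem measurable_wlk {s : Type*} (n : ℕ) (K : ℝ) (x : s → ℝ) : Measurable (wlk n K x) := by
  refine measurable_pi_iff.2 fun i => ?_
  exact (((measurable_ps _).sub (measurable_ps _)).sub measurable_const).div_const _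

theorem path_apply {i c : ℕ} (A y : Sq) {k : ℕ} (hik : i ≤ k) (hkc : k ≤ c) :
    path i c A y k = A i + ps y (k - i) := by
  rcases hik.eq_or_lt with h | h
  · subst h; simp [path, ps]
  · simp [path, h, hkc]

theorem psi_path {s : Type*} {n : ℕ} {K : ℝ} (hK : 0 ≤ K) {x : s → ℝ} (hx : ∀ i, |x i| ≤ K)
    (A y : Sq) : psi n x (path (jn n (-K)) (jn n K) A y) = wlk n K x y := by
  funext i
  have h1 := path_apply (i := jn n (-K)) (c := jn n K) A y (k := jn n (x i))
    (jn_mono n (neg_le_of_abs_le (hx i))) (jn_mono n (le_of_abs_le (hx i)))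
  have h2 := path_apply (i := jn n (-K)) (c := jn n K) A y (k := jn n 0)
    (jn_mono n (by linarith)) (jn_mono n hK)
  unfold psi wlk
  rw [h1, h2]
  ring

theorem measurableSet_bar' (h : Sq) (i j : ℕ) : MeasurableSet (bar h i j) :=
  (measurableSet_bar i j).preimage
    (measurable_const.prodMk measurable_id : Measurable fun B : Sq => (h, B))

theorem Zf_congr {i j : ℕ} (hij : i < j) (h : Sq) {B B' : Sq} (hi : B i = B' i)
    (hj : B j = B' j) : Zf h i j B = Zf h i j B' := by
  classical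
  have hm := measurableSet_bar' h i j
  have := rs_congr hij hi hj (Φ := (bar h i j).indicator 1) (measurable_one.indicator hm) (by
    intro C C' hC
    have e : C ∈ bar h i j ↔ C' ∈ bar h i j := by
      unfold bar
      simp only [mem_setOf_eq]
      constructor
      · intro H k h1 h2; rw [← hC k h1.le h2.le]; exact H k h1 h2
      · intro H k h1 h2; rw [hC k h1.le h2.le]; exact H k h1 h2
    simp only [indicator, e, Pi.one_apply])
  rwa [lintegral_indicator_one hm, lintegral_indicator_one hm] at this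

theorem int_le_of_lint {X Y : Type*} [MeasurableSpace X] [MeasurableSpace Y] {μ : Measure X}
    {ν : Measure Y} [IsFiniteMeasure μ] [IsFiniteMeasure ν] {f : X → ℝ} {g : Y → ℝ}
    (hf : Measurable f) (hg : Measurable g) (hf0 : ∀ x, 0 ≤ f x) (hf1 : ∀ x, f x ≤ 1)
    (hg0 : ∀ y, 0 ≤ g y) (hg1 : ∀ y, g y ≤ 1) {C ε : ℝ} (hC : 0 ≤ C) (hε : 0 ≤ ε)
    (h : ∫⁻ x, ENNReal.ofReal (f x) ∂μ ≤
      ENNReal.ofReal C * ∫⁻ y, ENNReal.ofReal (g y) ∂ν + ENNReal.ofReal ε) :
    ∫ x, f x ∂μ ≤ C * ∫ y, g y ∂ν + ε := by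
  have if' : Integrable f μ := Integrable.of_bound hf.aestronglyMeasurable 1
    (ae_of_all _ fun x => by rw [Real.norm_eq_abs, abs_of_nonneg (hf0 x)]; exact hf1 x)
  have ig : Integrable g ν := Integrable.of_bound hg.aestronglyMeasurable 1
    (ae_of_all _ fun x => by rw [Real.norm_eq_abs, abs_of_nonneg (hg0 x)]; exact hg1 x)
  rw [← ofReal_integral_eq_lintegral_ofReal if' (ae_of_all _ hf0),
    ← ofReal_integral_eq_lintegral_ofReal ig (ae_of_all _ hg0),
    ← ENNReal.ofReal_mul hC, ← ENNReal.ofReal_add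
      (mul_nonneg hC (integral_nonneg hg0)) hε] at h
  exact (ENNReal.ofReal_le_ofReal_iff (add_nonneg (mul_nonneg hC (integral_nonneg hg0)) hε)).1 h

/-- the law of the increments of `S` is the law of the increments of the coupled copy -/
theorem map_incr {Ω : Type*} [MeasurableSpace Ω] {P : Measure Ω} {S : Ω → ℝ × ℝ → ℝ}
    (hS : ∀ p, Measurable fun ω => S ω p) {Ω' : Type*} [MeasurableSpace Ω'] {Q : Measure Ω'}
    {S' : Ω' → ℝ × ℝ → ℝ} (hS' : ∀ p, Measurable fun ω => S' ω p) (h : Q.map S' = P.map S)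
    {E : Type*} [MeasurableSpace E] {g : (ℝ × ℝ → ℝ) → E} (hg : Measurable g) :
    P.map (fun ω => g (S ω)) = Q.map fun ω => g (S' ω) := by
  have h1 : Measurable S := measurable_pi_iff.2 hS
  have h2 : Measurable S' := measurable_pi_iff.2 hS'
  have e1 : P.map (fun ω => g (S ω)) = (P.map S).map g := (Measure.map_map hg h1).symm
  have e2 : Q.map (fun ω => g (S' ω)) = (Q.map S').map g := (Measure.map_map hg h2).symm
  rw [e1, e2, h]

end Pool.Agent.H22.DL
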