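import Pool.Agent.H22.DL.RowDefs
import Pool.Agent.H22.DL.Vol

/-!
# Module GibbsOf: from the representation to the Gibbs property

`κ` = image under `(z, a) ↦ (exv (h z), exv a)` of `(ζ.prod volume).withDensity (dn N (h z) a)`.
`prob`: take `F = 1`. `le`, `mono`: support of the density. `lcp`: for fixed `z`, convert the
integral over `Fin (N + 1) → ℝ` into `∫⋯∫⁻_Finset.range (N + 1)` of a function of sequences
(`lmarginal_image` with `Fin.val`), split off `Finset.Ioo i j` (`lmarginal_union`); the density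
`dn N (h z)` is the product of the indicators of `mon i j` and `bar (h z) i j` and of a factor
which does not depend on the coordinates inside `(i, j)`; then `bI_eq` (both sides vanish unless
`A i < A j`, because `i + 1 < j`).
-/

open MeasureTheory ProbabilityTheory Filter Topology Set
open scoped ENNReal

namespace Pool.Agent.H22.DL

theorem gibbsOf_measurable_exv (N : ℕ) :
    Measurable (exv : (Fin (N + 1) → ℝ) → Sq) := by
  refine measurable_pi_iff.2 fun k => ?_
  unfold exv
  by_cases hk : k < N + 1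
  · simp only [hk, dite_true]
    exact measurable_pi_apply _
  · simp only [hk, dite_false]
    exact measurable_const

theorem gibbsOf_exv_val {N : ℕ} (v : Fin (N + 1) → ℝ) (k : Fin (N + 1)) : exv v k = v k := by
  unfold exv
  rw [dif_pos k.2]

theorem gibbsOf_exv_lt {N : ℕ} (v : Fin (N + 1) → ℝ) {k : ℕ} (hk : k < N + 1) :
    exv v k = v ⟨k, hk⟩ := by
  unfold exv
  simp [hk]

/-- the integral over vectors as an integral over the first coordinates of a sequence -/
theorem gibbsOf_lint {N : ℕ} {Ψ : Sq → ℝ≥0∞} (hΨ : Measurable Ψ) :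
    ∫⁻ a : Fin (N + 1) → ℝ, Ψ (exv a) = (∫⋯∫⁻_Finset.range (N + 1), Ψ ∂fun _ => volume) 0 := by
  have himg : (Finset.univ : Finset (Fin (N + 1))).image Fin.val = Finset.range (N + 1) := by
    ext k
    simp only [Finset.mem_image, Finset.mem_univ, true_and, Finset.mem_range]
    constructor
    · rintro ⟨a, rfl⟩
      exact a.2
    · intro hk
      exact ⟨⟨k, hk⟩, rfl⟩
  have h1 := lmarginal_image (X := fun _ : ℕ => ℝ) (μ := fun _ => (volume : Measure ℝ))
    (e := (Fin.val : Fin (N + 1) → ℕ)) Fin.val_injective Finset.univ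
    (f := fun a : Fin (N + 1) → ℝ => Ψ (exv a)) (hΨ.comp (gibbsOf_measurable_exv N)) (0 : Sq)
  rw [himg] at h1
  have h2 : (∫⋯∫⁻_Finset.range (N + 1), Ψ ∂fun _ => volume) 0 =
      (∫⋯∫⁻_Finset.range (N + 1), (fun a : Fin (N + 1) → ℝ => Ψ (exv a)) ∘
        (fun x : Sq => fun k : Fin (N + 1) => x k) ∂fun _ => volume) 0 := by
    unfold lmarginal
    refine lintegral_congr fun y => ?_
    simp only [Function.comp]
    congr 1
    funext k
    unfold exv
    by_cases hk : k < N + 1
    · simp only [hk, dite_true]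
    · simp only [hk, dite_false]
      rw [Function.updateFinset_def]
      have : k ∉ Finset.range (N + 1) := by simpa using hk
      simp [this]
  rw [h2]
  have h3 : (∫⋯∫⁻_Finset.range (N + 1), (fun a : Fin (N + 1) → ℝ => Ψ (exv a)) ∘
        (fun x : Sq => fun k : Fin (N + 1) => x k) ∂fun _ => volume) 0 =
      (∫⋯∫⁻_Finset.univ, (fun a : Fin (N + 1) → ℝ => Ψ (exv a)) ∂fun _ => volume)
        (fun _ => 0) := h1
  rw [h3, lmarginal_univ]
  rfl

open Classical in
/-- the part of the density which does not depend on the coordinates inside the window -/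
noncomputable def gibbsOf_R (N i j : ℕ) (h : Sq) (B : Sq) : ℝ≥0∞ :=
  if (∀ k, k < N → ¬ (i ≤ k ∧ k < j) → B k ≤ B (k + 1)) ∧
      (∀ k, k ≤ N → ¬ (i < k ∧ k < j) → h k ≤ B k) then
    ENNReal.ofReal (Real.exp (-(B N))) else 0

theorem gibbsOf_measurable_R (N i j : ℕ) (h : Sq) : Measurable (gibbsOf_R N i j h) := by
  unfold gibbsOf_R
  refine Measurable.ite ?_ (by fun_prop) measurable_const
  refine MeasurableSet.inter ?_ ?_
  · have : {B : Sq | ∀ k, k < N → ¬ (i ≤ k ∧ k < j) → B k ≤ B (k + 1)} =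
        ⋂ k, ⋂ (_ : k < N), ⋂ (_ : ¬ (i ≤ k ∧ k < j)), {B : Sq | B k ≤ B (k + 1)} := by
      ext B; simp
    change MeasurableSet {B : Sq | ∀ k, k < N → ¬ (i ≤ k ∧ k < j) → B k ≤ B (k + 1)}
    rw [this]
    exact MeasurableSet.iInter fun k => MeasurableSet.iInter fun _ => MeasurableSet.iInter fun _ =>
      measurableSet_le (measurable_pi_apply _) (measurable_pi_apply _)
  · have : {B : Sq | ∀ k, k ≤ N → ¬ (i < k ∧ k < j) → h k ≤ B k} =
        ⋂ k, ⋂ (_ : k ≤ N), ⋂ (_ : ¬ (i < k ∧ k < j)), {B : Sq | h k ≤ B k} := by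
      ext B; simp
    change MeasurableSet {B : Sq | ∀ k, k ≤ N → ¬ (i < k ∧ k < j) → h k ≤ B k}
    rw [this]
    exact MeasurableSet.iInter fun k => MeasurableSet.iInter fun _ => MeasurableSet.iInter fun _ =>
      measurableSet_le measurable_const (measurable_pi_apply _)

theorem gibbsOf_R_congr {N i j : ℕ} (hjN : j ≤ N) {h B B' : Sq}
    (hB : ∀ k, ¬ (i < k ∧ k < j) → B k = B' k) : gibbsOf_R N i j h B = gibbsOf_R N i j h B' := by
  unfold gibbsOf_R
  have hN : B N = B' N := hB N (by omega)
  rw [hN]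
  congr 1
  apply propext
  constructor
  · rintro ⟨h1, h2⟩
    refine ⟨fun k hk hk' => ?_, fun k hk hk' => ?_⟩
    · rw [← hB k (by omega), ← hB (k + 1) (by omega)]
      exact h1 k hk hk'
    · rw [← hB k hk']
      exact h2 k hk hk'
  · rintro ⟨h1, h2⟩
    refine ⟨fun k hk hk' => ?_, fun k hk hk' => ?_⟩
    · rw [hB k (by omega), hB (k + 1) (by omega)]
      exact h1 k hk hk'
    · rw [hB k hk']
      exact h2 k hk hk'

/-- factorisation of the density -/
theorem gibbsOf_dn {N i j : ℕ} (hjN : j ≤ N) (h a : Fin (N + 1) → ℝ) :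
    dn N h a = gibbsOf_R N i j (exv h) (exv a) *
      ((mon i j).indicator (fun _ => 1) (exv a) *
        (bar (exv h) i j).indicator (fun _ => 1) (exv a)) := by
  classical
  have hlast : exv a N = a (Fin.last N) := by
    have := gibbsOf_exv_val a (Fin.last N)
    simpa using this
  unfold dn gibbsOf_R
  by_cases hall : (∀ k : Fin N, a k.castSucc ≤ a k.succ) ∧ (∀ k, h k ≤ a k)
  · rw [if_pos hall]
    obtain ⟨h1, h2⟩ := hall
    have e1 : ∀ k, k < N → exv a k ≤ exv a (k + 1) := by
      intro k hk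
      have := h1 ⟨k, hk⟩
      rw [gibbsOf_exv_lt a (by omega : k < N + 1), gibbsOf_exv_lt a (by omega : k + 1 < N + 1)]
      exact this
    have e2 : ∀ k, k ≤ N → exv h k ≤ exv a k := by
      intro k hk
      rw [gibbsOf_exv_lt a (by omega : k < N + 1), gibbsOf_exv_lt h (by omega : k < N + 1)]
      exact h2 _
    rw [if_pos ⟨fun k hk _ => e1 k hk, fun k hk _ => e2 k hk⟩]
    rw [Set.indicator_of_mem (show exv a ∈ mon i j from fun k _ hk => e1 k (by omega)),
      Set.indicator_of_mem (show exv a ∈ bar (exv h) i j from fun k _ hk => e2 k (by omega)),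
      hlast]
    simp
  · rw [if_neg hall]
    by_cases hR : (∀ k, k < N → ¬ (i ≤ k ∧ k < j) → exv a k ≤ exv a (k + 1)) ∧
      (∀ k, k ≤ N → ¬ (i < k ∧ k < j) → exv h k ≤ exv a k)
    · by_cases hm : exv a ∈ mon i j
      · by_cases hb : exv a ∈ bar (exv h) i j
        · exfalso
          apply hall
          refine ⟨fun k => ?_, fun k => ?_⟩
          · have hk := k.2
            have key : exv a (k : ℕ) ≤ exv a ((k : ℕ) + 1) := by
              by_cases hk' : i ≤ (k : ℕ) ∧ (k : ℕ) < j
              · exact hm k hk'.1 hk'.2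
              · exact hR.1 k hk hk'
            rw [gibbsOf_exv_lt a (by omega : (k : ℕ) < N + 1),
              gibbsOf_exv_lt a (by omega : (k : ℕ) + 1 < N + 1)] at key
            exact key
          · have hk := k.2
            have key : exv h (k : ℕ) ≤ exv a (k : ℕ) := by
              by_cases hk' : i < (k : ℕ) ∧ (k : ℕ) < j
              · exact hb k hk'.1 hk'.2
              · exact hR.2 k (by omega) hk'
            rw [gibbsOf_exv_val, gibbsOf_exv_val] at key
            exact key
        · rw [Set.indicator_of_notMem hb]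
          simp
      · rw [Set.indicator_of_notMem hm]
        simp
    · rw [if_neg hR]
      simp

theorem gibbsOf_measurableSet_bar (h : Sq) (i j : ℕ) : MeasurableSet (bar h i j) := by
  have : bar h i j = ⋂ k, ⋂ (_ : i < k), ⋂ (_ : k < j), {A : Sq | h k ≤ A k} := by
    ext B; simp [bar]
  rw [this]
  exact MeasurableSet.iInter fun k => MeasurableSet.iInter fun _ => MeasurableSet.iInter fun _ =>
    measurableSet_le measurable_const (measurable_pi_apply _)

/-- the inner integral -/
theorem gibbsOf_inner {N i j : ℕ} (hjN : j ≤ N) (h : Sq) {Φ : Sq → ℝ≥0∞} (hΦ : Measurable Φ)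
    (A : Sq) :
    (∫⋯∫⁻_Finset.Ioo i j, (fun B => gibbsOf_R N i j h B *
      ((mon i j).indicator (fun _ => 1) B * (bar h i j).indicator (fun _ => 1) B) * Φ B)
        ∂fun _ => volume) A = gibbsOf_R N i j h A * bI i j ((bar h i j).indicator Φ) A := by
  unfold bI lmarginal
  rw [← lintegral_const_mul]
  · refine lintegral_congr fun y => ?_
    have hR : gibbsOf_R N i j h (Function.updateFinset A (Finset.Ioo i j) y) =
        gibbsOf_R N i j h A := by
      apply gibbsOf_R_congr hjN
      intro k hk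
      rw [Function.updateFinset_def]
      have : k ∉ Finset.Ioo i j := by simpa using hk
      simp only [this, dite_false]
    beta_reduce
    rw [hR]
    set B := Function.updateFinset A (Finset.Ioo i j) y
    by_cases hm : B ∈ mon i j
    · by_cases hb : B ∈ bar h i j
      · simp [Set.indicator_of_mem hm, Set.indicator_of_mem hb]
      · simp [Set.indicator_of_notMem hb]
    · simp [Set.indicator_of_notMem hm]
  · exact ((hΦ.indicator (gibbsOf_measurableSet_bar h i j)).indicator (measurableSet_mon i j)).comp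
      measurable_updateFinset

/-- the comparison for a fixed barrier -/
theorem gibbsOf_fixed {N i j : ℕ} (hij : i + 1 < j) (hjN : j ≤ N) (h : Fin (N + 1) → ℝ)
    {F G : Sq → ℝ≥0∞} (hF : Measurable F) (hG : Measurable G)
    (hFG : ∀ A : Sq, A i < A j →
      ∫⁻ B, (bar (exv h) i j).indicator F B ∂(rs i j A) ≤
        ∫⁻ B, (bar (exv h) i j).indicator G B ∂(rs i j A)) :
    ∫⁻ a, dn N h a * F (exv a) ≤ ∫⁻ a, dn N h a * G (exv a) := by
  have hsub : Finset.Ioo i j ⊆ Finset.range (N + 1) := by
    intro k hk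
    simp only [Finset.mem_Ioo] at hk
    simp only [Finset.mem_range]
    omega
  have hmeas : ∀ {Φ : Sq → ℝ≥0∞}, Measurable Φ → Measurable (fun B => gibbsOf_R N i j (exv h) B *
      ((mon i j).indicator (fun _ => 1) B * (bar (exv h) i j).indicator (fun _ => 1) B) * Φ B) := by
    intro Φ hΦ
    refine Measurable.mul (Measurable.mul (gibbsOf_measurable_R _ _ _ _) (Measurable.mul ?_ ?_)) hΦ
    · exact measurable_const.indicator (measurableSet_mon i j)
    · exact measurable_const.indicator (gibbsOf_measurableSet_bar _ _ _)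
  have hconv : ∀ {Φ : Sq → ℝ≥0∞}, Measurable Φ → ∫⁻ a, dn N h a * Φ (exv a) =
      (∫⋯∫⁻_Finset.range (N + 1), (fun B => gibbsOf_R N i j (exv h) B *
        ((mon i j).indicator (fun _ => 1) B * (bar (exv h) i j).indicator (fun _ => 1) B) * Φ B)
          ∂fun _ => volume) 0 := by
    intro Φ hΦ
    rw [← gibbsOf_lint (hmeas hΦ)]
    refine lintegral_congr fun a => ?_
    rw [gibbsOf_dn hjN]
  rw [hconv hF, hconv hG]
  refine lmarginal_le_of_subset hsub (hmeas hF) (hmeas hG) ?_ 0
  intro A
  rw [gibbsOf_inner hjN _ hF, gibbsOf_inner hjN _ hG]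
  gcongr
  rw [bI_eq i j A (hF.indicator (gibbsOf_measurableSet_bar _ _ _)),
    bI_eq i j A (hG.indicator (gibbsOf_measurableSet_bar _ _ _))]
  by_cases hA : A i < A j
  · exact mul_le_mul' le_rfl (hFG A hA)
  · have h0 : bI i j (fun _ => 1) A = 0 := by
      rw [bI_one (by omega : i < j)]
      split_ifs with hle
      · have : A j - A i = 0 := by
          have := le_antisymm hle (not_lt.1 hA)
          rw [this]; ring
        rw [this, zero_pow (by omega), zero_div, ENNReal.ofReal_zero]
      · rfl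
    rw [h0, zero_mul, zero_mul]

theorem gibbsOf_measurable_dn {N : ℕ} :
    Measurable fun p : (Fin (N + 1) → ℝ) × (Fin (N + 1) → ℝ) => dn N p.1 p.2 := by
  unfold dn
  refine Measurable.ite ?_ (by fun_prop) measurable_const
  refine MeasurableSet.inter ?_ ?_
  · have : {p : (Fin (N + 1) → ℝ) × (Fin (N + 1) → ℝ) |
        ∀ k : Fin N, p.2 k.castSucc ≤ p.2 k.succ} =
        ⋂ k : Fin N, {p | p.2 k.castSucc ≤ p.2 k.succ} := by
      ext B; simp
    change MeasurableSet {p : (Fin (N + 1) → ℝ) × (Fin (N + 1) → ℝ) |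
        ∀ k : Fin N, p.2 k.castSucc ≤ p.2 k.succ}
    rw [this]
    exact MeasurableSet.iInter fun k => measurableSet_le (by fun_prop) (by fun_prop)
  · have : {p : (Fin (N + 1) → ℝ) × (Fin (N + 1) → ℝ) | ∀ k, p.1 k ≤ p.2 k} =
        ⋂ k, {p | p.1 k ≤ p.2 k} := by
      ext B; simp
    change MeasurableSet {p : (Fin (N + 1) → ℝ) × (Fin (N + 1) → ℝ) | ∀ k, p.1 k ≤ p.2 k}
    rw [this]
    exact MeasurableSet.iInter fun k => measurableSet_le (by fun_prop) (by fun_prop)

theorem gibbs_of_rep {N : ℕ} {μ : Measure (Fin (N + 1) → ℝ)} [IsProbabilityMeasure μ]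
    (hμ : Rep N μ) : ∃ κ : Measure (Sq × Sq), GibbsPair N κ ∧
      κ.map (fun p (k : Fin (N + 1)) => p.2 k) = μ := by
  obtain ⟨Z, mZ, ζ, h, hζ, hh, hrep⟩ := hμ
  have hdn : Measurable fun p : Z × (Fin (N + 1) → ℝ) => dn N (h p.1) p.2 :=
    gibbsOf_measurable_dn.comp ((hh.comp measurable_fst).prodMk measurable_snd)
  have he : Measurable fun p : Z × (Fin (N + 1) → ℝ) => ((exv (h p.1), exv p.2) : Sq × Sq) :=
    ((gibbsOf_measurable_exv N).comp (hh.comp measurable_fst)).prodMk
      ((gibbsOf_measurable_exv N).comp measurable_snd)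
  set ρ : Measure (Z × (Fin (N + 1) → ℝ)) :=
    (ζ.prod volume).withDensity (fun p => dn N (h p.1) p.2) with hρ
  set κ : Measure (Sq × Sq) := ρ.map (fun p => (exv (h p.1), exv p.2)) with hκ
  have hint : ∀ H : Sq × Sq → ℝ≥0∞, Measurable H →
      ∫⁻ p, H p ∂κ = ∫⁻ z, ∫⁻ a, dn N (h z) a * H (exv (h z), exv a) ∂volume ∂ζ := by
    intro H hH
    rw [hκ, lintegral_map hH he, hρ, lintegral_withDensity_eq_lintegral_mul _ hdn
      (g := fun p => H (exv (h p.1), exv p.2)) (hH.comp he)]
    have hm2 : Measurable ((fun p : Z × (Fin (N + 1) → ℝ) => dn N (h p.1) p.2) *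
        fun p => H (exv (h p.1), exv p.2)) := hdn.mul (hH.comp he)
    rw [lintegral_prod _ hm2.aemeasurable]
    rfl
  have hmap : κ.map (fun p (k : Fin (N + 1)) => p.2 k) = μ := by
    ext s hs
    have hm : Measurable fun (p : Sq × Sq) (k : Fin (N + 1)) => p.2 k := by fun_prop
    rw [Measure.map_apply hm hs]
    have h1 : κ ((fun (p : Sq × Sq) (k : Fin (N + 1)) => p.2 k) ⁻¹' s) =
        ∫⁻ p, (s.indicator 1 (fun k : Fin (N + 1) => p.2 k) : ℝ≥0∞) ∂κ := by
      rw [← lintegral_indicator_one (hm hs)]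
      rfl
    have hm3 : Measurable fun p : Sq × Sq =>
        (s.indicator 1 (fun k : Fin (N + 1) => p.2 k) : ℝ≥0∞) :=
      (measurable_one.indicator hs).comp hm
    rw [h1, hint _ hm3]
    have h2 := hrep (s.indicator 1) (measurable_one.indicator hs)
    rw [lintegral_indicator_one hs] at h2
    rw [h2]
    refine lintegral_congr fun z => lintegral_congr fun a => ?_
    congr 2
    funext k
    exact gibbsOf_exv_val a k
  refine ⟨κ, ⟨?_, ?_, ?_, ?_⟩, hmap⟩
  · constructor
    have hm : Measurable fun (p : Sq × Sq) (k : Fin (N + 1)) => p.2 k := by fun_prop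
    have := congrArg (fun ν : Measure (Fin (N + 1) → ℝ) => ν univ) hmap
    simp only [Measure.map_apply hm MeasurableSet.univ, preimage_univ, measure_univ] at this
    exact this
  · have hae : ∀ᵐ p ∂ρ, dn N (h p.1) p.2 ≠ 0 := by
      rw [hρ, ae_withDensity_iff hdn]
      exact Eventually.of_forall fun p hp => hp
    have hs : MeasurableSet {p : Sq × Sq | ∀ k ≤ N, p.1 k ≤ p.2 k} := by
      have : {p : Sq × Sq | ∀ k ≤ N, p.1 k ≤ p.2 k} = ⋂ k, ⋂ (_ : k ≤ N), {p | p.1 k ≤ p.2 k} := by
        ext p; simp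
      rw [this]
      exact MeasurableSet.iInter fun k => MeasurableSet.iInter fun _ =>
        measurableSet_le (by fun_prop) (by fun_prop)
    rw [hκ, ae_map_iff he.aemeasurable hs]
    filter_upwards [hae] with p hp k hk
    unfold dn at hp
    simp only [ne_eq, ite_eq_right_iff, Classical.not_imp] at hp
    rw [gibbsOf_exv_lt _ (by omega : k < N + 1), gibbsOf_exv_lt _ (by omega : k < N + 1)]
    exact hp.1.2 _
  · have hae : ∀ᵐ p ∂ρ, dn N (h p.1) p.2 ≠ 0 := by
      rw [hρ, ae_withDensity_iff hdn]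
      exact Eventually.of_forall fun p hp => hp
    have hs : MeasurableSet {p : Sq × Sq | p.2 ∈ mon 0 N} :=
      (measurableSet_mon 0 N).preimage measurable_snd
    rw [hκ, ae_map_iff he.aemeasurable hs]
    filter_upwards [hae] with p hp k _ hk
    unfold dn at hp
    simp only [ne_eq, ite_eq_right_iff, Classical.not_imp] at hp
    rw [gibbsOf_exv_lt _ (by omega : k < N + 1), gibbsOf_exv_lt _ (by omega : k + 1 < N + 1)]
    exact hp.1.1 ⟨k, hk⟩
  · intro i j hij hjN F G hF hG hFG
    have hF' : Measurable fun p : Sq × Sq => F p.1 p.2 := hF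
    have hG' : Measurable fun p : Sq × Sq => G p.1 p.2 := hG
    rw [hint _ hF', hint _ hG']
    refine lintegral_mono fun z => ?_
    exact gibbsOf_fixed hij hjN (h z) (hF'.comp measurable_prodMk_left)
      (hG'.comp measurable_prodMk_left) fun A hA => hFG (exv (h z)) A hA

end Pool.Agent.H22.DL
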