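import Pool.Agent.H22.DL.Harris
import Pool.Agent.H22.DL.Cons

/-!
# Module LcpZ: the barrier is not too close (paper 5.3)

`lcp` on the window `(i, j)` with `F h A = 1{event}` (the event depends on `A i`, `A j`, `h`, and on
`Z' = Zf h i' j' A`), `G h A = (e / β) 1{A0 i ≤ A i, A0 j ≤ A j, h ≤ c on (i', j')}`. For fixed
`(h, A)` in the event (of the endpoints and `h`): `rs_consistent` gives
`∫ 1{bar h i j} 1{Z' < e} = ∫ 1{bar h outside (i', j')} 1{Z' < e} Z' ≤ e * rs (bar h outside)`, and
by `rs_harris`, `rs (bar h i j) ≥ rs (bar h outside) * rs (bar h i' j')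
≥ rs (bar h outside) * rs i j A0 (bar c i' j') ≥ rs (bar h outside) * β` (`rs_mono`, `rs_congr`).
-/

open MeasureTheory ProbabilityTheory Filter Topology Set
open scoped ENNReal

namespace Pool.Agent.H22.DL

theorem lcpZ_bar_meas (h : Sq) (i j : ℕ) : MeasurableSet (bar h i j) :=
  (measurable_const.prodMk measurable_id : Measurable fun A : Sq => (h, A))
    (measurableSet_bar i j)

theorem lcpZ_bar_upper (h : Sq) (i j : ℕ) : IsUpperSet (bar h i j) :=
  fun _ _ hAB hA k h1 h2 => (hA k h1 h2).trans (hAB k)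

/-- sequences above the barrier inside `(i, j)`, outside `(i', j')` -/
def lcpZOut (h : Sq) (i i' j' j : ℕ) : Set Sq :=
  {A | ∀ k, i < k → k < j → ¬(i' < k ∧ k < j') → h k ≤ A k}

theorem lcpZ_out_upper (h : Sq) (i i' j' j : ℕ) : IsUpperSet (lcpZOut h i i' j' j) :=
  fun _ _ hAB hA k h1 h2 h3 => (hA k h1 h2 h3).trans (hAB k)

theorem lcpZ_out_meas (h : Sq) (i i' j' j : ℕ) : MeasurableSet (lcpZOut h i i' j' j) := by
  have : lcpZOut h i i' j' j =
      ⋂ k : ℕ, {A : Sq | i < k → k < j → ¬(i' < k ∧ k < j') → h k ≤ A k} := by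
    ext A; simp [lcpZOut]
  rw [this]
  refine MeasurableSet.iInter fun k => ?_
  by_cases h1 : i < k ∧ k < j ∧ ¬(i' < k ∧ k < j')
  · have : {A : Sq | i < k → k < j → ¬(i' < k ∧ k < j') → h k ≤ A k} = {A : Sq | h k ≤ A k} := by
      ext A
      simp only [Set.mem_ofPred_eq]
      exact ⟨fun h' => h' h1.1 h1.2.1 h1.2.2, fun h' _ _ _ => h'⟩
    rw [this]
    exact measurableSet_le measurable_const (measurable_pi_apply k)
  · have : {A : Sq | i < k → k < j → ¬(i' < k ∧ k < j') → h k ≤ A k} = univ := by
      ext A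
      simp only [Set.mem_ofPred_eq, Set.mem_univ, iff_true]
      exact fun a b c => absurd ⟨a, b, c⟩ h1
    rw [this]
    exact MeasurableSet.univ

theorem lcpZ_bar_eq (h : Sq) {i i' j' j : ℕ} (hi : i ≤ i') (hj : j' ≤ j) :
    bar h i j = lcpZOut h i i' j' j ∩ bar h i' j' := by
  ext A
  constructor
  · exact fun hA => ⟨fun k h1 h2 _ => hA k h1 h2, fun k h1 h2 => hA k (by omega) (by omega)⟩
  · rintro ⟨h1, h2⟩ k hk1 hk2
    by_cases hk : i' < k ∧ k < j'
    · exact h2 k hk.1 hk.2
    · exact h1 k hk1 hk2 hk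

/-- `Zf` depends on the endpoints only -/
theorem lcpZ_Zf_congr (h : Sq) {i j : ℕ} (hij : i < j) {A A' : Sq} (hi : A i = A' i)
    (hj : A j = A' j) : Zf h i j A = Zf h i j A' := by
  have hm := lcpZ_bar_meas h i j
  have h0 : ∀ D : Sq, Zf h i j D =
      ∫⁻ B, (bar h i j).indicator (fun _ => (1 : ℝ≥0∞)) B ∂(rs i j D) := by
    intro D
    rw [lintegral_indicator hm, setLIntegral_const, one_mul, Zf]
  rw [h0, h0]
  refine rs_congr hij hi hj (measurable_const.indicator hm) fun B B' hB => ?_
  have : B ∈ bar h i j ↔ B' ∈ bar h i j := by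
    constructor
    · intro h' k h1 h2
      rw [← hB k h1.le h2.le]
      exact h' k h1 h2
    · intro h' k h1 h2
      rw [hB k h1.le h2.le]
      exact h' k h1 h2
  by_cases hb : B ∈ bar h i j
  · rw [Set.indicator_of_mem hb, Set.indicator_of_mem (this.1 hb)]
  · rw [Set.indicator_of_notMem hb, Set.indicator_of_notMem (fun h' => hb (this.2 h'))]

theorem lcpZ_Zf_meas (h : Sq) (i j : ℕ) : Measurable fun B : Sq => Zf h i j B := by
  have h1 : Measurable (fun B : Sq => ((h, B) : Sq × Sq)) :=
    measurable_const.prodMk measurable_id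
  have h2 := Measurable.comp (measurable_Zf i j) h1
  have h3 : (fun B : Sq => Zf h i j B) =
      ((fun p : Sq × Sq => Zf p.1 i j p.2) ∘ fun B : Sq => ((h, B) : Sq × Sq)) := by
    funext B
    simp only [Function.comp_apply]
  rw [h3]
  exact h2

theorem lcpZ_Zf_set (h : Sq) (i j : ℕ) (e : ℝ≥0∞) : MeasurableSet {B : Sq | Zf h i j B < e} :=
  measurableSet_lt (lcpZ_Zf_meas h i j) measurable_const

/-- the upper bound: `rs (bar h i j, Z' < e) ≤ e rs (out)` -/
theorem lcpZ_upper (h : Sq) {i i' j' j : ℕ} (hi : i ≤ i') (hij : i' + 1 < j') (hj : j' ≤ j)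
    (A : Sq) (e : ℝ≥0∞) :
    rs i j A (bar h i j ∩ {B | Zf h i' j' B < e}) ≤ e * rs i j A (lcpZOut h i i' j' j) := by
  have hZm : MeasurableSet {B : Sq | Zf h i' j' B < e} := lcpZ_Zf_set h i' j' e
  have hS : MeasurableSet (bar h i j ∩ {B | Zf h i' j' B < e}) :=
    (lcpZ_bar_meas h i j).inter hZm
  have hO := lcpZ_out_meas h i i' j' j
  have h1 : rs i j A (bar h i j ∩ {B | Zf h i' j' B < e}) =
      ∫⁻ B, (bar h i j ∩ {B | Zf h i' j' B < e}).indicator (fun _ => (1 : ℝ≥0∞)) B ∂(rs i j A) := by
    rw [lintegral_indicator hS, setLIntegral_const, one_mul]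
  rw [h1, rs_consistent hi (by omega : i' < j') hj (measurable_const.indicator hS)]
  have h2 : e * rs i j A (lcpZOut h i i' j' j) =
      ∫⁻ B, (lcpZOut h i i' j' j).indicator (fun _ => e) B ∂(rs i j A) := by
    rw [lintegral_indicator hO, setLIntegral_const]
  rw [h2]
  refine lintegral_mono fun B => ?_
  rw [lintegral_indicator hS, setLIntegral_const, one_mul]
  -- the inner measure
  by_cases hB : B ∈ lcpZOut h i i' j' j ∧ Zf h i' j' B < e
  · rw [Set.indicator_of_mem hB.1]
    calc rs i' j' B (bar h i j ∩ {B | Zf h i' j' B < e}) ≤ rs i' j' B (bar h i' j') :=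
          measure_mono fun C hC k h1 h2 => hC.1 k (by omega) (by omega)
      _ = Zf h i' j' B := rfl
      _ ≤ e := hB.2.le
  · have : rs i' j' B (bar h i j ∩ {B | Zf h i' j' B < e}) = 0 := by
      rw [measure_eq_zero_iff_ae_notMem]
      filter_upwards [ae_rs i' j' B] with C hC hC'
      apply hB
      constructor
      · intro k h1 h2 h3
        rw [← hC.2 k (by omega)]
        exact hC'.1 k h1 h2
      · have : Zf h i' j' C = Zf h i' j' B :=
          lcpZ_Zf_congr h (by omega) (hC.2 i' (Or.inl le_rfl)) (hC.2 j' (Or.inr le_rfl))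
        rw [← this]
        exact hC'.2
    rw [this]
    exact zero_le

/-- the lower bound -/
theorem lcpZ_lower (h : Sq) {i i' j' j : ℕ} (hi : i ≤ i') (hij : i' + 1 < j') (hj : j' ≤ j)
    {c A₀ A : Sq} (hA₀ : A₀ i < A₀ j) {β : ℝ≥0∞} (hβ : β ≤ rs i j A₀ (bar c i' j'))
    (hAij : A i < A j) (h1 : A₀ i ≤ A i) (h2 : A₀ j ≤ A j)
    (h3 : ∀ k, i' < k → k < j' → h k ≤ c k) :
    rs i j A (lcpZOut h i i' j' j) * β ≤ rs i j A (bar h i j) := by
  have hij' : i < j := by omega
  have hH := rs_harris hij' hAij (lcpZ_out_upper h i i' j' j) (lcpZ_out_meas h i i' j' j)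
    (lcpZ_bar_upper h i' j') (lcpZ_bar_meas h i' j')
  rw [lcpZ_bar_eq h (i' := i') (j' := j') hi hj]
  refine le_trans ?_ hH
  refine mul_le_mul_right ?_ _
  -- the comparison sequence
  set A' : Sq := fun k => if k = i then A₀ i else if k = j then A₀ j else A k with hA'
  have hA'i : A' i = A₀ i := by simp [hA']
  have hA'j : A' j = A₀ j := by
    have : j ≠ i := by omega
    simp [hA', this]
  have hcm := lcpZ_bar_meas c i' j'
  have e1 : rs i j A₀ (bar c i' j') = rs i j A' (bar c i' j') := by
    have h0 : ∀ D : Sq, rs i j D (bar c i' j') =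
        ∫⁻ B, (bar c i' j').indicator (fun _ => (1 : ℝ≥0∞)) B ∂(rs i j D) := by
      intro D
      rw [lintegral_indicator hcm, setLIntegral_const, one_mul]
    rw [h0, h0]
    refine rs_congr hij' hA'i.symm hA'j.symm (measurable_const.indicator hcm) fun B B' hB => ?_
    have : B ∈ bar c i' j' ↔ B' ∈ bar c i' j' := by
      constructor
      · intro h' k h1 h2
        rw [← hB k (by omega) (by omega)]
        exact h' k h1 h2
      · intro h' k h1 h2
        rw [hB k (by omega) (by omega)]
        exact h' k h1 h2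
    by_cases hb : B ∈ bar c i' j'
    · rw [Set.indicator_of_mem hb, Set.indicator_of_mem (this.1 hb)]
    · rw [Set.indicator_of_notMem hb, Set.indicator_of_notMem (fun h' => hb (this.2 h'))]
  have hle : A' ≤ A := by
    intro k
    simp only [hA']
    by_cases hk : k = i
    · rw [if_pos hk, hk]; exact h1
    · rw [if_neg hk]
      by_cases hk' : k = j
      · rw [if_pos hk', hk']; exact h2
      · rw [if_neg hk']
  calc β ≤ rs i j A₀ (bar c i' j') := hβ
    _ = rs i j A' (bar c i' j') := e1
    _ ≤ rs i j A (bar c i' j') :=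
        rs_mono hij' hle (by rw [hA'i, hA'j]; exact hA₀) hAij (lcpZ_bar_upper c i' j') hcm
    _ ≤ rs i j A (bar h i' j') :=
        measure_mono fun B hB k h1 h2 => (h3 k h1 h2).trans (hB k h1 h2)

theorem small_Z {N : ℕ} {κ : Measure (Sq × Sq)} (hκ : GibbsPair N κ) {i i' j' j : ℕ}
    (hi : i ≤ i') (hij : i' + 1 < j') (hj : j' ≤ j) (hjN : j ≤ N) {c A₀ : Sq}
    (hA₀ : A₀ i < A₀ j) {β e : ℝ≥0∞} (hβ : β ≤ rs i j A₀ (bar c i' j')) (hβ0 : β ≠ 0) :
    κ {p | A₀ i ≤ p.2 i ∧ A₀ j ≤ p.2 j ∧ (∀ k, i' < k → k < j' → p.1 k ≤ c k) ∧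
      Zf p.1 i' j' p.2 < e} ≤ e / β := by
  have hprob := hκ.prob
  have hij' : i < j := by omega
  have hβ1 : β ≠ ⊤ := by
    have := prob_rs hij' hA₀
    exact ne_top_of_le_ne_top ENNReal.one_ne_top (hβ.trans prob_le_one)
  -- the two events
  have hcset : MeasurableSet {p : Sq × Sq | ∀ k, i' < k → k < j' → p.1 k ≤ c k} := by
    have : {p : Sq × Sq | ∀ k, i' < k → k < j' → p.1 k ≤ c k} =
        ⋂ k : ℕ, {p : Sq × Sq | i' < k → k < j' → p.1 k ≤ c k} := by
      ext p; simp
    rw [this]
    refine MeasurableSet.iInter fun k => ?_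
    by_cases h1 : i' < k ∧ k < j'
    · have : {p : Sq × Sq | i' < k → k < j' → p.1 k ≤ c k} = {p : Sq × Sq | p.1 k ≤ c k} := by
        ext p
        simp only [Set.mem_ofPred_eq]
        exact ⟨fun h' => h' h1.1 h1.2, fun h' _ _ => h'⟩
      rw [this]
      exact measurableSet_le ((measurable_pi_apply k).comp measurable_fst) measurable_const
    · have : {p : Sq × Sq | i' < k → k < j' → p.1 k ≤ c k} = univ := by
        ext p
        simp only [Set.mem_ofPred_eq, Set.mem_univ, iff_true]
        exact fun a b => absurd ⟨a, b⟩ h1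
      rw [this]
      exact MeasurableSet.univ
  set S : Set (Sq × Sq) := {p | A₀ i ≤ p.2 i ∧ A₀ j ≤ p.2 j ∧
    (∀ k, i' < k → k < j' → p.1 k ≤ c k)} with hS
  set T : Set (Sq × Sq) := {p | Zf p.1 i' j' p.2 < e} with hT
  have hSm : MeasurableSet S := by
    have h1 : MeasurableSet {p : Sq × Sq | A₀ i ≤ p.2 i} :=
      measurableSet_le measurable_const ((measurable_pi_apply i).comp measurable_snd)
    have h2 : MeasurableSet {p : Sq × Sq | A₀ j ≤ p.2 j} :=
      measurableSet_le measurable_const ((measurable_pi_apply j).comp measurable_snd)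
    exact h1.inter (h2.inter hcset)
  have hTm : MeasurableSet T := measurableSet_lt (measurable_Zf i' j') measurable_const
  have hset : {p : Sq × Sq | A₀ i ≤ p.2 i ∧ A₀ j ≤ p.2 j ∧ (∀ k, i' < k → k < j' → p.1 k ≤ c k) ∧
      Zf p.1 i' j' p.2 < e} = S ∩ T := by
    ext p
    simp only [hS, hT, Set.mem_inter_iff, Set.mem_ofPred_eq]
    tauto
  have key := hκ.lcp i j (by omega) hjN
    (fun h A => (S ∩ T).indicator (fun _ => (1 : ℝ≥0∞)) (h, A))
    (fun h A => S.indicator (fun _ => e / β) (h, A))
    (measurable_const.indicator (hSm.inter hTm)) (measurable_const.indicator hSm)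
    (fun h A hA => by
      by_cases hs : (h, A) ∈ S
      · -- on the event
        have l1 : ∫⁻ B, (bar h i j).indicator
            (fun A => (S ∩ T).indicator (fun _ => (1 : ℝ≥0∞)) (h, A)) B ∂(rs i j A) ≤
            rs i j A (bar h i j ∩ {B | Zf h i' j' B < e}) := by
          have hZm : MeasurableSet {B : Sq | Zf h i' j' B < e} := lcpZ_Zf_set h i' j' e
          have : rs i j A (bar h i j ∩ {B | Zf h i' j' B < e}) =
              ∫⁻ B, (bar h i j ∩ {B | Zf h i' j' B < e}).indicator
                (fun _ => (1 : ℝ≥0∞)) B ∂(rs i j A) := by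
            rw [lintegral_indicator ((lcpZ_bar_meas h i j).inter hZm), setLIntegral_const, one_mul]
          rw [this]
          refine lintegral_mono fun B => ?_
          by_cases hb : B ∈ bar h i j
          · rw [Set.indicator_of_mem hb]
            by_cases ht : (h, B) ∈ S ∩ T
            · rw [Set.indicator_of_mem ht,
                Set.indicator_of_mem (show B ∈ bar h i j ∩ {B | Zf h i' j' B < e} from ⟨hb, ht.2⟩)]
            · rw [Set.indicator_of_notMem ht]
              exact zero_le
          · rw [Set.indicator_of_notMem hb]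
            exact zero_le
        have l2 : ∫⁻ B, (bar h i j).indicator
            (fun A => S.indicator (fun _ => e / β) (h, A)) B ∂(rs i j A) =
            e / β * rs i j A (bar h i j) := by
          rw [← setLIntegral_const, ← lintegral_indicator (lcpZ_bar_meas h i j)]
          refine lintegral_congr_ae ?_
          filter_upwards [ae_rs i j A] with B hB
          have hSB : (h, B) ∈ S := by
            refine ⟨?_, ?_, hs.2.2⟩
            · have := hs.1
              rw [show (h, B).2 i = A i from hB.2 i (Or.inl le_rfl)]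
              exact this
            · have := hs.2.1
              rw [show (h, B).2 j = A j from hB.2 j (Or.inr le_rfl)]
              exact this
          by_cases hb : B ∈ bar h i j
          · rw [Set.indicator_of_mem hb, Set.indicator_of_mem hb, Set.indicator_of_mem hSB]
          · rw [Set.indicator_of_notMem hb, Set.indicator_of_notMem hb]
        refine l1.trans ((lcpZ_upper h hi hij hj A e).trans ?_)
        refine le_trans ?_ l2.ge
        have l3 := lcpZ_lower h hi hij hj hA₀ hβ hA hs.1 hs.2.1 hs.2.2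
        calc e * rs i j A (lcpZOut h i i' j' j)
            = e / β * (rs i j A (lcpZOut h i i' j' j) * β) := by
              rw [mul_comm (rs i j A (lcpZOut h i i' j' j)) β, ← mul_assoc,
                ENNReal.div_mul_cancel hβ0 hβ1]
          _ ≤ e / β * rs i j A (bar h i j) := mul_le_mul_right l3 _
      · have l1 : ∫⁻ B, (bar h i j).indicator
            (fun A => (S ∩ T).indicator (fun _ => (1 : ℝ≥0∞)) (h, A)) B ∂(rs i j A) = 0 := by
          have : ∀ᵐ B ∂(rs i j A), (bar h i j).indicator
            (fun A => (S ∩ T).indicator (fun _ => (1 : ℝ≥0∞)) (h, A)) B = 0 := by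
            filter_upwards [ae_rs i j A] with B hB
            have hSB : (h, B) ∉ S ∩ T := by
              intro hSB
              apply hs
              refine ⟨?_, ?_, hSB.1.2.2⟩
              · have := hSB.1.1
                rw [show (h, B).2 i = A i from hB.2 i (Or.inl le_rfl)] at this
                exact this
              · have := hSB.1.2.1
                rw [show (h, B).2 j = A j from hB.2 j (Or.inr le_rfl)] at this
                exact this
            by_cases hb : B ∈ bar h i j
            · rw [Set.indicator_of_mem hb, Set.indicator_of_notMem hSB]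
            · rw [Set.indicator_of_notMem hb]
          rw [lintegral_congr_ae this, lintegral_zero]
        rw [l1]
        exact zero_le)
  rw [hset]
  calc κ (S ∩ T) = ∫⁻ p, (S ∩ T).indicator (fun _ => (1 : ℝ≥0∞)) (p.1, p.2) ∂κ := by
        rw [show (fun p : Sq × Sq => (S ∩ T).indicator (fun _ => (1 : ℝ≥0∞)) (p.1, p.2)) =
          (S ∩ T).indicator (fun _ => (1 : ℝ≥0∞)) from rfl,
          lintegral_indicator (hSm.inter hTm), setLIntegral_const, one_mul]
    _ ≤ ∫⁻ p, S.indicator (fun _ => e / β) (p.1, p.2) ∂κ := key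
    _ = e / β * κ S := by
        rw [show (fun p : Sq × Sq => S.indicator (fun _ => e / β) (p.1, p.2)) =
          S.indicator (fun _ => e / β) from rfl, lintegral_indicator hSm, setLIntegral_const]
    _ ≤ e / β * 1 := mul_le_mul_right prob_le_one _
    _ = e / β := mul_one _

end Pool.Agent.H22.DL
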