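import Pool.Agent.H22.DL.Tight
import Pool.Agent.H22.DL.GibbsOf
import Pool.Agent.H22.DL.LcpZ
import Pool.Agent.H22.DL.Above

/-!
# Module GoodZ: the window is not too constrained

`i = jn n (x₁ - 1)`, `i' = jn n x₁`, `j' = jn n x₂`, `j = jn n (x₂ + 1)`, `M = j - i`. `tight` (with
`ε / 2`) gives `C` with `|A k - 2 n - 2 k| ≤ C rt n` for `k ∈ [i, j]`; the barrier is below `A`
(`GibbsPair.le`). Then `small_Z` with `A₀ k = 2 n + 2 k - C' √M`, `c k = 2 n + 2 k + C' √M`,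
`C' √M ≥ C rt n` (`√M` is of order `rt n`), `β = c₀` from `bridge_above` (`L = 2 n`),
`e = c₀ ε / 2`.
-/

open MeasureTheory ProbabilityTheory Filter Topology Set
open scoped ENNReal

namespace Pool.Agent.H22.DL

open Pool.Agent.H37.DL

/-- the Gibbs pair of the top line -/
theorem exists_gibbs {Ω : Type*} [MeasurableSpace Ω] {P : Measure Ω} [IsProbabilityMeasure P]
    {w : Ω → ℤ → ℕ → ℝ} (hw : IsExpWeights P w) (n N : ℕ) :
    ∃ κ : Measure (Sq × Sq), GibbsPair N κ ∧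
      κ.map (fun p (k : Fin (N + 1)) => p.2 k) =
        P.map fun ω (k : Fin (N + 1)) => top (w ω) n k := by
  have hm : Measurable fun ω (k : Fin (N + 1)) => top (w ω) n k :=
    measurable_pi_iff.2 fun k => measurable_top hw n k
  have := Measure.isProbabilityMeasure_map (μ := P) hm.aemeasurable
  exact gibbs_of_rep (rep_top hw n N)

section

variable {Ω' : Type} [MeasurableSpace Ω'] {Q : Measure Ω'} [IsProbabilityMeasure Q]
  {S' : Ω' → ℝ × ℝ → ℝ} {w : ℕ → Ω' → ℤ → ℕ → ℝ}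

/-- with high probability, uniformly in `n`: the line is within `C rt n` of `2 n + 2 k`, the
barrier is below `2 n + 2 k + C rt n`, and the window is not too constrained -/
theorem goodZ (hw : ∀ n, IsExpWeights Q (w n)) (hm : ∀ p, Measurable fun ω => S' ω p)
    (hc : ∀ ω, Continuous (S' ω))
    (hlim : ∀ R : ℝ, ∀ ε : ℝ, 0 < ε → Tendsto
        (fun n : ℕ => Q {ω | ∃ p : ℝ × ℝ, |p.1| ≤ R ∧ |p.2| ≤ R ∧
          ε ≤ |Sn (w n ω) n p - S' ω p|}) atTop (𝓝 0))
    {x₁ x₂ : ℝ} (hx : x₁ < x₂) {ε : ℝ} (hε : 0 < ε) : ∃ C : ℝ, 0 < C ∧ ∃ e : ℝ, 0 < e ∧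
      ∀ᶠ n : ℕ in atTop, ∀ (N : ℕ) (κ : Measure (Sq × Sq)), GibbsPair N κ →
        jn n (x₂ + 1) ≤ N →
        κ.map (fun p (k : Fin (N + 1)) => p.2 k) =
          Q.map (fun ω (k : Fin (N + 1)) => top (w n ω) (n - 1) k) →
        κ {p | (∀ k, jn n (x₁ - 1) ≤ k → k ≤ jn n (x₂ + 1) →
            |p.2 k - 2 * n - 2 * k| ≤ C * rt n ∧ p.1 k ≤ 2 * n + 2 * k + C * rt n) ∧
          ENNReal.ofReal e ≤ Zf p.1 (jn n x₁) (jn n x₂) p.2}ᶜ ≤ ENNReal.ofReal ε := by
  set K : ℝ := |x₁| + |x₂| + 1 with hK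
  have hK1 : |x₁ - 1| ≤ K := by
    have := abs_sub x₁ 1
    have h2 := abs_nonneg x₂
    rw [abs_one] at this
    linarith
  have hK2 : |x₁| ≤ K := by
    have h2 := abs_nonneg x₂
    linarith
  have hK3 : |x₂| ≤ K := by
    have h2 := abs_nonneg x₁
    linarith
  have hK4 : |x₂ + 1| ≤ K := by
    have := abs_add_le x₂ 1
    have h2 := abs_nonneg x₁
    rw [abs_one] at this
    linarith
  obtain ⟨C, hC, hT⟩ := tight hw hm hc hlim (K + 1) (half_pos hε)
  set δ : ℝ := 1 / (2 * (x₂ - x₁ + 3)) with hδ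
  have hd3 : 0 < x₂ - x₁ + 3 := by linarith
  have hδ0 : 0 < δ := by positivity
  obtain ⟨c₀, hc₀, M₀, hB⟩ := bridge_above hδ0 (2 * C) (by positivity)
  refine ⟨C, hC, c₀ * (ε / 2), by positivity, ?_⟩
  have hs2 : ∀ᶠ n : ℕ in atTop, (2 : ℝ) ≤ sc n := tendsto_sc.eventually_ge_atTop 2
  have hs3 : ∀ᶠ n : ℕ in atTop, (M₀ : ℝ) ≤ sc n := tendsto_sc.eventually_ge_atTop _
  have hs4 : ∀ᶠ n : ℕ in atTop, 3 / (x₂ - x₁) ≤ sc n := tendsto_sc.eventually_ge_atTop _
  filter_upwards [hT, hs2, hs3, hs4, jn_bounds K, eventually_ge_atTop 1] with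
    n hTn h2 h3 h4 hJ hn1 N κ hκ hjN hmap
  have hx0 : 0 < x₂ - x₁ := by linarith
  rw [div_le_iff₀ hx0] at h4
  obtain ⟨a1, a2, -⟩ := hJ _ hK1
  obtain ⟨b1, b2, -⟩ := hJ _ hK2
  obtain ⟨c1, c2, -⟩ := hJ _ hK3
  obtain ⟨d1, d2, -⟩ := hJ _ hK4
  set i := jn n (x₁ - 1) with hi
  set i' := jn n x₁ with hi'
  set j' := jn n x₂ with hj'
  set j := jn n (x₂ + 1) with hj
  set s := sc n with hs
  have hii' : i < i' := by
    have : (i : ℝ) < i' := by nlinarith
    exact_mod_cast this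
  have hij' : i' + 1 < j' := by
    have : (i' : ℝ) + 1 < j' := by nlinarith
    exact_mod_cast this
  have hjj' : j' < j := by
    have : (j' : ℝ) < j := by nlinarith
    exact_mod_cast this
  have hij : i < j := by omega
  have hMs : s ≤ (j : ℝ) - i := by nlinarith
  have hMu : (j : ℝ) - i ≤ s * (x₂ - x₁ + 3) := by nlinarith
  have hM0 : M₀ ≤ j - i := by
    have h5 : (M₀ : ℝ) ≤ ((j - i : ℕ) : ℝ) := by
      rw [Nat.cast_sub hij.le]
      linarith
    exact_mod_cast h5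
  have hδM : δ * ((j : ℝ) - i) ≤ s / 2 := by
    rw [hδ, div_mul_eq_mul_div, one_mul, div_le_iff₀ (by positivity)]
    nlinarith
  have hrt : C * rt n ≤ 2 * C * √((j : ℝ) - i) := by
    have h5 : rt n ≤ 2 * √((j : ℝ) - i) := by
      have h6 := rt_sq n
      have h7 : 0 ≤ rt n := (rt_pos hn1).le
      have h8 : √((j : ℝ) - i) ^ 2 = (j : ℝ) - i := Real.sq_sqrt (by linarith)
      have h9 := Real.sqrt_nonneg ((j : ℝ) - i)
      refine abs_le_of_sq_le_sq' ?_ (by positivity) |>.2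
      rw [mul_pow, h8, h6]
      nlinarith
    calc C * rt n ≤ C * (2 * √((j : ℝ) - i)) := by gcongr
      _ = 2 * C * √((j : ℝ) - i) := by ring
  -- the comparison sequences
  set A₀ : Sq := fun k => 2 * n + 2 * k - 2 * C * √((j : ℝ) - i) with hA₀
  set c : Sq := fun k => 2 * n + 2 * k + 2 * C * √((j : ℝ) - i) with hcdef
  have hβ : ENNReal.ofReal c₀ ≤ rs i j A₀ (bar c i' j') :=
    hB i i' j' j hM0 hii' (by omega) hjj' (by nlinarith) (by nlinarith) A₀ (2 * n) rfl rfl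
  have hA₀lt : A₀ i < A₀ j := by
    have : (i : ℝ) < j := by exact_mod_cast hij
    simp only [hA₀]
    linarith
  have hsm := small_Z hκ hii'.le hij' hjj'.le hjN hA₀lt (e := ENNReal.ofReal (c₀ * (ε / 2))) hβ
    (by
      have := ENNReal.ofReal_pos.2 hc₀
      exact this.ne')
  have hdiv : ENNReal.ofReal (c₀ * (ε / 2)) / ENNReal.ofReal c₀ = ENNReal.ofReal (ε / 2) := by
    rw [← ENNReal.ofReal_div_of_pos hc₀, mul_div_cancel_left₀ _ hc₀.ne']
  rw [hdiv] at hsm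
  -- the tightness event
  set U : Set (Fin (N + 1) → ℝ) := {y | ∃ k : Fin (N + 1), i ≤ k.1 ∧ k.1 ≤ j ∧
    C * rt n < |y k - 2 * n - 2 * (k.1 : ℝ)|} with hU
  have hUm : MeasurableSet U := by
    have : U = ⋃ k : Fin (N + 1), {y : Fin (N + 1) → ℝ | i ≤ k.1 ∧ k.1 ≤ j ∧
        C * rt n < |y k - 2 * n - 2 * (k.1 : ℝ)|} := by
      ext y
      simp [hU]
    rw [this]
    refine MeasurableSet.iUnion fun k => ?_
    refine (MeasurableSet.const _).inter ((MeasurableSet.const _).inter ?_)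
    have hcont : Continuous fun y : Fin (N + 1) → ℝ => |y k - 2 * n - 2 * (k.1 : ℝ)| := by
      fun_prop
    exact measurableSet_lt measurable_const hcont.measurable
  have hm1 : Measurable fun (p : Sq × Sq) (k : Fin (N + 1)) => p.2 k :=
    measurable_pi_iff.2 fun k => (measurable_pi_apply _).comp measurable_snd
  have hm2 : Measurable fun ω (k : Fin (N + 1)) => top (w n ω) (n - 1) k :=
    measurable_pi_iff.2 fun k => measurable_top (hw n) (n - 1) k
  have hUκ : κ {p | ∃ k, i ≤ k ∧ k ≤ j ∧ C * rt n < |p.2 k - 2 * n - 2 * k|} ≤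
      ENNReal.ofReal (ε / 2) := by
    have e1 : {p : Sq × Sq | ∃ k, i ≤ k ∧ k ≤ j ∧ C * rt n < |p.2 k - 2 * n - 2 * k|} =
        (fun (p : Sq × Sq) (k : Fin (N + 1)) => p.2 k) ⁻¹' U := by
      ext p
      constructor
      · rintro ⟨k, k1, k2, k3⟩
        exact ⟨⟨k, by omega⟩, k1, k2, k3⟩
      · rintro ⟨k, k1, k2, k3⟩
        exact ⟨k.1, k1, k2, k3⟩
    rw [e1, ← Measure.map_apply hm1 hUm, hmap, Measure.map_apply hm2 hUm]
    refine (measure_mono ?_).trans hTn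
    rintro ω ⟨k, k1, k2, k3⟩
    refine ⟨k.1, ?_, k3⟩
    have k1' : (i : ℝ) ≤ k.1 := by exact_mod_cast k1
    have k2' : (k.1 : ℝ) ≤ j := by exact_mod_cast k2
    have hK1' := abs_le.1 hK1
    have hK4' := abs_le.1 hK4
    have hs0 : 0 ≤ s := by linarith
    rw [abs_le]
    constructor
    · nlinarith
    · nlinarith
  have hnull : κ {p | ¬ ∀ k ≤ N, p.1 k ≤ p.2 k} = 0 := hκ.le
  have hsplit : ENNReal.ofReal ε = ENNReal.ofReal (ε / 2) + 0 + ENNReal.ofReal (ε / 2) := by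
    rw [add_zero, ← ENNReal.ofReal_add (by linarith) (by linarith)]
    congr 1
    ring
  rw [hsplit]
  refine (measure_mono ?_).trans ((measure_union_le _ _).trans
    (add_le_add ((measure_union_le _ _).trans (add_le_add hUκ hnull.le)) hsm))
  intro p hp
  by_contra hno
  apply hp
  simp only [Set.mem_union, not_or, Set.mem_ofPred_eq] at hno
  obtain ⟨⟨n1, n2⟩, n3⟩ := hno
  push Not at n1 n2
  have hA : ∀ k, i ≤ k → k ≤ j → |p.2 k - 2 * n - 2 * k| ≤ C * rt n := n1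
  have hH : ∀ k, i ≤ k → k ≤ j → p.1 k ≤ 2 * n + 2 * k + C * rt n := by
    intro k k1 k2
    have h5 := n2 k (by omega)
    have h6 := (abs_le.1 (hA k k1 k2)).2
    linarith
  refine ⟨fun k k1 k2 => ⟨hA k k1 k2, hH k k1 k2⟩, ?_⟩
  by_contra hZ
  push Not at hZ
  apply n3
  refine ⟨?_, ?_, ?_, hZ⟩
  · have h6 := (abs_le.1 (hA i le_rfl hij.le)).1
    simp only [hA₀]
    linarith
  · have h6 := (abs_le.1 (hA j hij.le le_rfl)).1
    simp only [hA₀]
    linarith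
  · intro k k1 k2
    have h6 := hH k (by omega) (by omega)
    simp only [hcdef]
    linarith

end

end Pool.Agent.H22.DL
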