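import Pool.Agent.H22.DL.HatB

/-!
# Module HatK: deforming the inside, integrated

`lcp` with `F = 1_E G (tw i j T ·)`, `G' = 1_E (l G² + l⁻¹ exp(..) / e)`, using
`1 ≤ Zf h i j A / e = (∫ 1{bar h i j}) / e` on `E`.
-/

open MeasureTheory ProbabilityTheory Filter Topology Set
open scoped ENNReal

namespace Pool.Agent.H22.DL

theorem hatK_tw_meas (i j : ℕ) {T : ℝ → ℝ} (hT : Measurable T) : Measurable (tw i j T) := by
  have : tw i j T = HatB_tws (Finset.Ioo i j) T := by
    funext B
    exact HatB_tw i j T B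
  rw [this]
  exact HatB_measurable_tws _ hT

theorem hatK_bar_meas (h : Sq) (i j : ℕ) : MeasurableSet (bar h i j) :=
  (measurable_const.prodMk measurable_id : Measurable fun A : Sq => (h, A))
    (measurableSet_bar i j)

theorem hatK_ind_ae {E : Sq → Sq → Prop} {i j : ℕ}
    (hEdep : ∀ h B B', (∀ k, (k ≤ i ∨ j ≤ k) → B k = B' k) → (E h B ↔ E h B'))
    (h A : Sq) : ∀ᵐ B ∂(rs i j A), E h B ↔ E h A := by
  filter_upwards [ae_rs i j A] with B hB
  exact hEdep h B A hB.2

/-- the indicator of the event `E` -/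
noncomputable def hatKInd (E : Sq → Sq → Prop) (Ψ : Sq → Sq → ℝ≥0∞) (h A : Sq) : ℝ≥0∞ :=
  ({p : Sq × Sq | E p.1 p.2}).indicator (fun p => Ψ p.1 p.2) (h, A)

theorem hatK_ind_of {E : Sq → Sq → Prop} {Ψ : Sq → Sq → ℝ≥0∞} {h A : Sq} (hE : E h A) :
    hatKInd E Ψ h A = Ψ h A :=
  Set.indicator_of_mem (s := {p : Sq × Sq | E p.1 p.2}) (a := (h, A)) hE _

theorem hatK_ind_not {E : Sq → Sq → Prop} {Ψ : Sq → Sq → ℝ≥0∞} {h A : Sq} (hE : ¬E h A) :
    hatKInd E Ψ h A = 0 :=
  Set.indicator_of_notMem (s := {p : Sq × Sq | E p.1 p.2}) (a := (h, A)) hE _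

theorem hatK_lint {κ : Measure (Sq × Sq)} {E : Sq → Sq → Prop}
    (hE : MeasurableSet {p : Sq × Sq | E p.1 p.2}) (Ψ : Sq → Sq → ℝ≥0∞) :
    ∫⁻ p, hatKInd E Ψ p.1 p.2 ∂κ = ∫⁻ p in {p | E p.1 p.2}, Ψ p.1 p.2 ∂κ := by
  have : (fun p : Sq × Sq => hatKInd E Ψ p.1 p.2) =
      ({p : Sq × Sq | E p.1 p.2}).indicator (fun p => Ψ p.1 p.2) := rfl
  rw [this, lintegral_indicator hE]

theorem kappa_hat {N : ℕ} {κ : Measure (Sq × Sq)} (hκ : GibbsPair N κ) {i j : ℕ}
    (hij : i + 1 < j) (hjN : j ≤ N) {E : Sq → Sq → Prop}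
    (hE : MeasurableSet {p : Sq × Sq | E p.1 p.2})
    (hEdep : ∀ h B B', (∀ k, (k ≤ i ∨ j ≤ k) → B k = B' k) → (E h B ↔ E h B'))
    {T T' : ℝ → ℝ} (hT : ∀ v, HasDerivAt T (T' v) v) (hT' : Continuous T') {η : ℝ}
    (hη : ∀ v, |T' v - 1| ≤ η) (hη1 : η ≤ 1 / 2) (hup : ∀ v, v ≤ T v) {e : ℝ} (he : 0 < e)
    (hX : ∀ h A, E h A → A i < A j → T (A i) = A i ∧ T (A j) = A j ∧
      ENNReal.ofReal e ≤ Zf h i j A)
    {G : Sq → Sq → ℝ≥0∞} (hG : Measurable (Function.uncurry G)) {l : ℝ} (hl : 0 < l) :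
    ∫⁻ p in {p | E p.1 p.2}, G p.1 (tw i j T p.2) ∂κ ≤
      ENNReal.ofReal l * ∫⁻ p in {p | E p.1 p.2}, G p.1 p.2 ^ 2 ∂κ +
        ENNReal.ofReal (l⁻¹ * Real.exp (2 * η ^ 2 * (j - i - 1 : ℕ)) / e) := by
  have hprob := hκ.prob
  have hTc : Continuous T := continuous_iff_continuousAt.mpr fun v => (hT v).continuousAt
  have htw := hatK_tw_meas i j hTc.measurable
  set D : ℝ := l⁻¹ * Real.exp (2 * η ^ 2 * (j - i - 1 : ℕ)) with hD
  have hD0 : 0 ≤ D := by positivity
  set c : ℝ≥0∞ := ENNReal.ofReal (D / e) with hc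
  have m1 : Measurable (Function.uncurry fun h A : Sq => G h (tw i j T A)) :=
    hG.comp (measurable_fst.prodMk (htw.comp measurable_snd))
  have m2 : Measurable (Function.uncurry fun h A : Sq => ENNReal.ofReal l * G h A ^ 2 + c) :=
    (measurable_const.mul (hG.pow_const 2)).add measurable_const
  have key : ∫⁻ p, hatKInd E (fun h A => G h (tw i j T A)) p.1 p.2 ∂κ ≤
      ∫⁻ p, hatKInd E (fun h A => ENNReal.ofReal l * G h A ^ 2 + c) p.1 p.2 ∂κ := by
    refine hκ.lcp i j hij hjN _ _ (m1.indicator hE) (m2.indicator hE) fun h A hA => ?_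
    by_cases hEA : E h A
    · obtain ⟨hTi, hTj, hZ⟩ := hX h A hEA hA
      have hGh : Measurable (G h) := hG.comp (measurable_const.prodMk measurable_id)
      have e1 : ∫⁻ B, (bar h i j).indicator (hatKInd E (fun h A => G h (tw i j T A)) h) B
          ∂(rs i j A) = ∫⁻ B, (bar h i j).indicator (fun B => G h (tw i j T B)) B ∂(rs i j A) := by
        refine lintegral_congr_ae ?_
        filter_upwards [hatK_ind_ae hEdep h A] with B hB
        by_cases hb : B ∈ bar h i j
        · rw [indicator_of_mem hb, indicator_of_mem hb, hatK_ind_of (hB.2 hEA)]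
        · rw [indicator_of_notMem hb, indicator_of_notMem hb]
      have e2 : ∫⁻ B, (bar h i j).indicator
          (hatKInd E (fun h A => ENNReal.ofReal l * G h A ^ 2 + c) h) B ∂(rs i j A) =
          ENNReal.ofReal l * ∫⁻ B, (bar h i j).indicator (fun B => G h B ^ 2) B ∂(rs i j A) +
            c * Zf h i j A := by
        have e3 : ∫⁻ B, (bar h i j).indicator
            (hatKInd E (fun h A => ENNReal.ofReal l * G h A ^ 2 + c) h) B ∂(rs i j A) =
            ∫⁻ B, (ENNReal.ofReal l * (bar h i j).indicator (fun B => G h B ^ 2) B +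
              (bar h i j).indicator (fun _ => c) B) ∂(rs i j A) := by
          refine lintegral_congr_ae ?_
          filter_upwards [hatK_ind_ae hEdep h A] with B hB
          by_cases hb : B ∈ bar h i j
          · rw [indicator_of_mem hb, indicator_of_mem hb, indicator_of_mem hb,
              hatK_ind_of (hB.2 hEA)]
          · rw [indicator_of_notMem hb, indicator_of_notMem hb, indicator_of_notMem hb]
            simp
        have m3 : Measurable ((bar h i j).indicator fun B => G h B ^ 2) :=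
          (hGh.pow_const 2).indicator (hatK_bar_meas h i j)
        have m5 : Measurable fun B => ENNReal.ofReal l *
            (bar h i j).indicator (fun B => G h B ^ 2) B := m3.const_mul _
        rw [e3, lintegral_add_left m5, lintegral_const_mul _ m3,
          lintegral_indicator (hatK_bar_meas h i j), lintegral_indicator (hatK_bar_meas h i j),
          setLIntegral_const]
        rfl
      rw [e1, e2]
      refine (rs_hat (by omega) hA hT hT' hη hη1 hTi hTj hup h hGh hl).trans ?_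
      gcongr
      rw [← hD]
      calc ENNReal.ofReal D = ENNReal.ofReal (D / e * e) := by
            rw [div_mul_cancel₀ _ he.ne']
        _ = c * ENNReal.ofReal e := by rw [ENNReal.ofReal_mul (by positivity)]
        _ ≤ c * Zf h i j A := by gcongr
    · have : ∀ᵐ B ∂(rs i j A), (bar h i j).indicator
          (hatKInd E (fun h A => G h (tw i j T A)) h) B = 0 := by
        filter_upwards [hatK_ind_ae hEdep h A] with B hB
        by_cases hb : B ∈ bar h i j
        · rw [indicator_of_mem hb, hatK_ind_not (fun h' => hEA (hB.1 h'))]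
        · rw [indicator_of_notMem hb]
      rw [lintegral_congr_ae this, lintegral_zero]
      exact zero_le
  rw [hatK_lint hE, hatK_lint hE] at key
  refine key.trans ?_
  have m4 : Measurable fun p : Sq × Sq => G p.1 p.2 ^ 2 := hG.pow_const 2
  have m6 : Measurable fun p : Sq × Sq => ENNReal.ofReal l * G p.1 p.2 ^ 2 := m4.const_mul _
  rw [lintegral_add_left m6, lintegral_const_mul _ m4, setLIntegral_const]
  gcongr
  calc c * κ {p | E p.1 p.2} ≤ c * 1 := by gcongr; exact prob_le_one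
    _ = c := mul_one _

end Pool.Agent.H22.DL
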