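import Pool.Agent.H22.DL.ConvInt
import Pool.Agent.H22.DL.FinAux
import Pool.Agent.H22.DL.GoodZ
import Pool.Agent.H22.DL.HatK
import Pool.Agent.H22.DL.AcApp

/-!
# Module FinH: hats (paper 7.3)

`T v = v + rt n * φ ((v / 2 - 2 * n) / sc n)`, window `(jn n (-K), jn n K)` with `φ = 0` off
`(-K + 1, K - 1)`; `T' v - 1 = (rt n / (2 sc n)) φ' (..)`, and `rt n ^ 2 / sc n ^ 2 * (number of
columns) = O (1)`. `goodZ`, `kappa_hat`; the deformed line at column `jn n x` is
`2 n + 2 k + rt n * (Sn + φ (x + o(1)))`: `conv_int`; `ac_of_approx`.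
-/

open MeasureTheory ProbabilityTheory Filter Topology Set
open scoped ENNReal

namespace Pool.Agent.H22.DL

open Pool.Agent.H37.DL

/-- rescaled values of the line -/
noncomputable def finH_nu {s : Type*} (n : ℕ) (x : s → ℝ) (B : Sq) : s → ℝ := fun i =>
  (B (jn n (x i)) - 2 * n - 2 * (jn n (x i) : ℝ)) / rt n

/-- the deformation -/
noncomputable def finH_T (φ : ℝ → ℝ) (n : ℕ) (v : ℝ) : ℝ :=
  v + rt n * φ ((v / 2 - 2 * n) / sc n)

/-- the deformation of the rescaled values -/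
noncomputable def finH_Y (φ : ℝ → ℝ) (K : ℝ) (n : ℕ) (x : ℝ) (B : Sq) : ℝ :=
  if jn n (-K) < jn n x ∧ jn n x < jn n K then φ ((B (jn n x) / 2 - 2 * n) / sc n) else 0

theorem finH_measurable_nu {s : Type*} (n : ℕ) (x : s → ℝ) : Measurable (finH_nu n x) := by
  refine measurable_pi_iff.2 fun i => ?_
  unfold finH_nu
  exact (((measurable_pi_apply _).sub_const _).sub_const _).div_const _

theorem finH_hasDerivAt {φ : ℝ → ℝ} (hφ : ContDiff ℝ 1 φ) (n : ℕ) (v : ℝ) :
    HasDerivAt (finH_T φ n)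
      (1 + rt n * (deriv φ ((v / 2 - 2 * n) / sc n) * (1 / 2 / sc n))) v := by
  have h1 : HasDerivAt (fun v : ℝ => (v / 2 - 2 * n) / sc n) (1 / 2 / sc n) v :=
    (((hasDerivAt_id' v).div_const 2).sub_const _).div_const _
  have h2 : HasDerivAt φ (deriv φ ((v / 2 - 2 * n) / sc n)) ((v / 2 - 2 * n) / sc n) :=
    (hφ.differentiable one_ne_zero _).hasDerivAt
  have h3 := h2.comp v h1
  exact (hasDerivAt_id' v).add (h3.const_mul (rt n))

theorem finH_nu_tw {s : Type*} {φ : ℝ → ℝ} {K : ℝ} {n : ℕ} (hn : 1 ≤ n) (x : s → ℝ) (B : Sq) :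
    finH_nu n x (tw (jn n (-K)) (jn n K) (finH_T φ n) B) =
      fun i => finH_nu n x B i + finH_Y φ K n (x i) B := by
  funext i
  have hrt := (rt_pos hn).ne'
  unfold finH_nu finH_Y tw finH_T
  by_cases h : jn n (-K) < jn n (x i) ∧ jn n (x i) < jn n K
  · rw [if_pos h, if_pos h]
    field_simp
    ring
  · rw [if_neg h, if_neg h, add_zero]

/-- the deterministic estimates in the window -/
theorem finH_win {φ : ℝ → ℝ} {K : ℝ} (hK : 0 < K)
    (hs : ∀ v, v ≤ -K + 1 ∨ K - 1 ≤ v → φ v = 0) {M : ℝ} (hM : 0 ≤ M) {C₁ : ℝ} (hC₁ : 0 < C₁) :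
    ∀ᶠ n : ℕ in atTop, jn n (-K) + 1 < jn n K ∧ rt n * M / (2 * sc n) ≤ 1 / 2 ∧
      2 * (rt n * M / (2 * sc n)) ^ 2 * (jn n K - jn n (-K) - 1 : ℕ) ≤ 2 * K * M ^ 2 ∧
      (∀ v : ℝ, |v - 2 * n - 2 * jn n (-K)| ≤ C₁ * rt n → φ ((v / 2 - 2 * n) / sc n) = 0) ∧
      (∀ v : ℝ, |v - 2 * n - 2 * jn n K| ≤ C₁ * rt n → φ ((v / 2 - 2 * n) / sc n) = 0) := by
  have h2 : ∀ᶠ n : ℕ in atTop, 2 + 3 / K ≤ sc n := tendsto_sc.eventually_ge_atTop _
  have h3 : ∀ᶠ n : ℕ in atTop, rt n / sc n < 1 / (M + C₁ + 1) :=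
    tendsto_rt_div_sc.eventually_lt_const (by positivity)
  filter_upwards [jn_bounds K, h2, h3, eventually_ge_atTop 1] with n h1 h2 h3 hn
  obtain ⟨b1, c1, -⟩ := h1 K (by rw [abs_of_pos hK])
  obtain ⟨b2, c2, -⟩ := h1 (-K) (by rw [abs_neg, abs_of_pos hK])
  have hsc : 0 < sc n := sc_pos hn
  have hrt : 0 < rt n := rt_pos hn
  set r : ℝ := rt n / sc n with hr
  have hr0 : 0 < r := by positivity
  have hrt' : rt n = r * sc n := by rw [hr]; field_simp
  have hr1 : r * (M + C₁ + 1) ≤ 1 := by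
    rw [lt_div_iff₀ (by positivity)] at h3
    exact h3.le
  have hrM : r * M ≤ 1 := by nlinarith [mul_nonneg hr0.le hC₁.le]
  have hrC : r * C₁ ≤ 1 := by nlinarith [mul_nonneg hr0.le hM]
  have hKs : 3 ≤ sc n * K := by
    have h4 : 3 / K ≤ sc n := by linarith
    rwa [div_le_iff₀ hK] at h4
  have i1 : jn n (-K) + 1 < jn n K := by
    have : ((jn n (-K) + 1 : ℕ) : ℝ) < jn n K := by push_cast; nlinarith
    exact_mod_cast this
  have hs2 : 2 ≤ sc n := by
    have : 0 < 3 / K := by positivity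
    linarith
  refine ⟨i1, ?_, ?_, ?_, ?_⟩
  · rw [hrt', div_le_iff₀ (by positivity)]
    nlinarith
  · have e1 : 2 * (rt n * M / (2 * sc n)) ^ 2 = M ^ 2 / sc n := by
      rw [div_pow, mul_pow, mul_pow, rt_sq]
      field_simp
    have e2 : ((jn n K - jn n (-K) - 1 : ℕ) : ℝ) = (jn n K : ℝ) - jn n (-K) - 1 := by
      rw [Nat.cast_sub (by omega), Nat.cast_sub (by omega)]
      norm_num
    rw [e1, e2, div_mul_eq_mul_div, div_le_iff₀ hsc]
    have e3 : (jn n K : ℝ) - jn n (-K) - 1 ≤ 2 * K * sc n := by nlinarith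
    nlinarith [sq_nonneg M]
  · intro v hv
    rw [abs_le] at hv
    refine hs _ (Or.inl ?_)
    rw [div_le_iff₀ hsc]
    nlinarith [hv.2, hrt', mul_le_mul_of_nonneg_right hrC hsc.le]
  · intro v hv
    rw [abs_le] at hv
    refine hs _ (Or.inr ?_)
    rw [le_div_iff₀ hsc]
    nlinarith [hv.1, hrt', mul_le_mul_of_nonneg_right hrC hsc.le]

section

variable {Ω' : Type} [MeasurableSpace Ω'] {Q : Measure Ω'} [IsProbabilityMeasure Q]
  {S' : Ω' → ℝ × ℝ → ℝ} {w : ℕ → Ω' → ℤ → ℕ → ℝ}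

theorem finH_measurable_Y (hw : ∀ n, IsExpWeights Q (w n)) {φ : ℝ → ℝ} (hφ : Continuous φ)
    (K : ℝ) (n : ℕ) (x : ℝ) :
    Measurable fun ω => finH_Y φ K n x (top (w n ω) (n - 1)) := by
  unfold finH_Y
  by_cases h : jn n (-K) < jn n x ∧ jn n x < jn n K
  · simp only [h, and_self, if_true]
    exact hφ.measurable.comp ((((measurable_top (hw n) (n - 1) _).div_const _).sub_const _).div_const
      _)
  · simp only [h, if_false]
    exact measurable_const

theorem finH_conv (hw : ∀ n, IsExpWeights Q (w n)) (hm : ∀ p, Measurable fun ω => S' ω p)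
    (hlim : ∀ R : ℝ, ∀ ε : ℝ, 0 < ε → Tendsto
        (fun n : ℕ => Q {ω | ∃ p : ℝ × ℝ, |p.1| ≤ R ∧ |p.2| ≤ R ∧
          ε ≤ |Sn (w n ω) n p - S' ω p|}) atTop (𝓝 0))
    {φ : ℝ → ℝ} (hφ : Continuous φ) {K : ℝ} (hs : ∀ v, v ≤ -K ∨ K ≤ v → φ v = 0)
    (x : ℝ) {δ : ℝ} (hδ : 0 < δ) :
    Tendsto (fun n : ℕ => Q {ω | δ ≤ |finH_Y φ K n x (top (w n ω) (n - 1)) - φ x|}) atTop
      (𝓝 0) := by
  rcases le_or_gt x (-K) with hx1 | hx1
  · refine tendsto_const_nhds.congr fun n => ?_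
    symm
    have h1 : jn n x ≤ jn n (-K) := jn_mono n hx1
    have h2 : ∀ ω, finH_Y φ K n x (top (w n ω) (n - 1)) = 0 := fun ω => by
      unfold finH_Y
      rw [if_neg (by omega)]
    simp only [h2, hs x (Or.inl hx1), sub_zero, abs_zero]
    rw [show {ω : Ω' | δ ≤ 0} = ∅ by ext; simp [hδ]]
    simp
  rcases le_or_gt K x with hx2 | hx2
  · refine tendsto_const_nhds.congr fun n => ?_
    symm
    have h1 : jn n K ≤ jn n x := jn_mono n hx2
    have h2 : ∀ ω, finH_Y φ K n x (top (w n ω) (n - 1)) = 0 := fun ω => by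
      unfold finH_Y
      rw [if_neg (by omega)]
    simp only [h2, hs x (Or.inr hx2), sub_zero, abs_zero]
    rw [show {ω : Ω' | δ ≤ 0} = ∅ by ext; simp [hδ]]
    simp
  -- inside the window
  have hK : 0 < K := by linarith
  obtain ⟨θ, hθ, hcont⟩ := Metric.continuousAt_iff.1 (hφ.continuousAt (x := x)) δ hδ
  have hg : TendstoInMeasure Q (fun (n : ℕ) ω => rt n / sc n * (|S' ω (0, x)| + 1)) atTop
      (fun _ => (0 : ℝ)) := by
    refine tendstoInMeasure_of_tendsto_ae (fun n => ?_) (ae_of_all _ fun ω => ?_)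
    · exact (measurable_const.mul ((hm _).abs.add measurable_const)).aestronglyMeasurable
    · simpa using tendsto_rt_div_sc.mul_const (|S' ω (0, x)| + 1)
  rw [tendstoInMeasure_iff_dist] at hg
  have h1 := (hlim |x| 1 one_pos).add (hg (θ / 2) (by positivity))
  rw [add_zero] at h1
  have hsc1 : ∀ᶠ n : ℕ in atTop, 2 + 4 / θ + 2 / (K - x) + 2 / (x + K) ≤ sc n :=
    tendsto_sc.eventually_ge_atTop _
  refine tendsto_of_tendsto_of_tendsto_of_le_of_le' tendsto_const_nhds h1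
    (Eventually.of_forall fun n => zero_le) ?_
  filter_upwards [jn_bounds K, Sn_eq K, hsc1, eventually_ge_atTop 1] with n hb hSn hsc1 hn
  obtain ⟨b1, c1, -⟩ := hb K (by rw [abs_of_pos hK])
  obtain ⟨b2, c2, -⟩ := hb (-K) (by rw [abs_neg, abs_of_pos hK])
  have hxK : |x| ≤ K := abs_le.2 ⟨hx1.le, hx2.le⟩
  obtain ⟨b3, c3, -⟩ := hb x hxK
  have hsc : 0 < sc n := sc_pos hn
  have hrt : 0 < rt n := rt_pos hn
  have p1 : 0 < 4 / θ := by positivity
  have p2 : 0 < 2 / (K - x) := div_pos two_pos (by linarith)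
  have p3 : 0 < 2 / (x + K) := div_pos two_pos (by linarith)
  have q1 : 4 ≤ sc n * θ := by
    have : 4 / θ ≤ sc n := by linarith
    rwa [div_le_iff₀ hθ] at this
  have q2 : 2 ≤ sc n * (K - x) := by
    have : 2 / (K - x) ≤ sc n := by linarith
    rwa [div_le_iff₀ (by linarith)] at this
  have q3 : 2 ≤ sc n * (x + K) := by
    have : 2 / (x + K) ≤ sc n := by linarith
    rwa [div_le_iff₀ (by linarith)] at this
  have hin : jn n (-K) < jn n x ∧ jn n x < jn n K := by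
    constructor
    · have : (jn n (-K) : ℝ) < jn n x := by nlinarith
      exact_mod_cast this
    · have : (jn n x : ℝ) < jn n K := by nlinarith
      exact_mod_cast this
  refine (measure_mono ?_).trans (measure_union_le _ _)
  intro ω hω
  simp only [Set.mem_ofPred_eq] at hω
  by_contra hcon
  rw [Set.mem_union, not_or] at hcon
  obtain ⟨d1, d2⟩ := hcon
  simp only [Set.mem_ofPred_eq, not_exists, not_and, not_le] at d1 d2
  have d3 := d1 (0, x) (by simp) le_rfl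
  rw [hSn x hxK] at d3
  set a : ℝ := (top (w n ω) (n - 1) (jn n x) - 2 * n - 2 * jn n x) / rt n with ha
  have ha1 : |a| ≤ |S' ω (0, x)| + 1 := by
    have := abs_sub_abs_le_abs_sub a (S' ω (0, x))
    linarith
  rw [Real.dist_eq, sub_zero, abs_of_nonneg (by positivity)] at d2
  have hY : finH_Y φ K n x (top (w n ω) (n - 1)) =
      φ ((top (w n ω) (n - 1) (jn n x) / 2 - 2 * n) / sc n) := by
    unfold finH_Y
    rw [if_pos hin]
  have hu : (top (w n ω) (n - 1) (jn n x) / 2 - 2 * n) / sc n =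
      ((jn n x : ℝ) - n) / sc n + rt n / sc n * a / 2 := by
    rw [ha]
    field_simp
    ring
  have hr : 0 ≤ rt n / sc n := by positivity
  have h5 : |rt n / sc n * a / 2| < θ / 2 := by
    rw [abs_div, abs_mul, abs_of_nonneg hr, abs_of_pos (two_pos : (0 : ℝ) < 2)]
    have : rt n / sc n * |a| ≤ rt n / sc n * (|S' ω (0, x)| + 1) := by gcongr
    linarith
  have h6 : |((jn n x : ℝ) - n) / sc n - x| ≤ θ / 4 := by
    have e : ((jn n x : ℝ) - n) / sc n - x = ((jn n x : ℝ) - n - sc n * x) / sc n := by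
      field_simp
    rw [e, abs_div, abs_of_pos hsc, div_le_iff₀ hsc, abs_le]
    constructor <;> nlinarith
  have h7 : dist ((top (w n ω) (n - 1) (jn n x) / 2 - 2 * n) / sc n) x < θ := by
    rw [Real.dist_eq, hu]
    have : ((jn n x : ℝ) - n) / sc n + rt n / sc n * a / 2 - x =
        (((jn n x : ℝ) - n) / sc n - x) + rt n / sc n * a / 2 := by ring
    rw [this]
    refine (abs_add_le _ _).trans_lt ?_
    linarith
  have h8 := hcont h7
  rw [Real.dist_eq, ← hY] at h8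
  linarith

theorem finH_core (hw : ∀ n, IsExpWeights Q (w n)) (hm : ∀ p, Measurable fun ω => S' ω p)
    (hc : ∀ ω, Continuous (S' ω))
    (hlim : ∀ R : ℝ, ∀ ε : ℝ, 0 < ε → Tendsto
        (fun n : ℕ => Q {ω | ∃ p : ℝ × ℝ, |p.1| ≤ R ∧ |p.2| ≤ R ∧
          ε ≤ |Sn (w n ω) n p - S' ω p|}) atTop (𝓝 0))
    {φ : ℝ → ℝ} (hφ : ContDiff ℝ 1 φ) (hφ0 : ∀ v, 0 ≤ φ v) {K : ℝ} (hK : 0 < K)
    (hs : ∀ v, v ≤ -K + 1 ∨ K - 1 ≤ v → φ v = 0) {M : ℝ} (hM : ∀ v, |deriv φ v| ≤ M)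
    {ι : Type*} (x : ι → ℝ) {ε : ℝ} (hε : 0 < ε) :
    ∃ C : ℝ, 0 ≤ C ∧ ∀ s : Finset ι, ∀ᶠ n : ℕ in atTop, ∀ F : (s → ℝ) → ℝ≥0∞, Measurable F →
      (∀ v, F v ≤ 1) →
      ∫⁻ ω, F (finH_nu n (fun i : s => x i) (tw (jn n (-K)) (jn n K) (finH_T φ n)
          (top (w n ω) (n - 1)))) ∂Q ≤
        ENNReal.ofReal C * ∫⁻ ω, F (finH_nu n (fun i : s => x i) (top (w n ω) (n - 1))) ∂Q +
          ENNReal.ofReal ε := by
  have hM0 : 0 ≤ M := (abs_nonneg _).trans (hM 0)
  have hε2 : 0 < ε / 2 := by positivity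
  obtain ⟨C₁, hC₁, e, he, hgood⟩ := goodZ hw hm hc hlim (x₁ := -K) (x₂ := K) (by linarith) hε2
  set D : ℝ := Real.exp (2 * K * M ^ 2) with hD
  have hD0 : 0 < D := Real.exp_pos _
  set l : ℝ := 2 * D / (e * ε) with hl
  have hl0 : 0 < l := by positivity
  refine ⟨l, hl0.le, fun s => ?_⟩
  -- the number of columns
  obtain ⟨R, hRK, hR⟩ : ∃ R : ℝ, K + 1 ≤ R ∧ ∀ i ∈ s, x i ≤ R := by
    obtain ⟨R, hR⟩ := (s.image x).exists_le
    refine ⟨max R (K + 1), le_max_right _ _, fun i hi => ?_⟩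
    exact (hR _ (Finset.mem_image_of_mem _ hi)).trans (le_max_left _ _)
  filter_upwards [hgood, finH_win hK hs hM0 hC₁, eventually_ge_atTop 1] with n hgood hwin hn F hF
    hF1
  obtain ⟨w1, w2, w3, w4, w5⟩ := hwin
  set i := jn n (-K) with hi
  set j := jn n K with hj
  obtain ⟨κ, hκ, hmap⟩ := exists_gibbs (hw n) (n - 1) (jn n R)
  set N := jn n R with hN
  have hprob := hκ.prob
  have hgood := hgood N κ hκ (jn_mono n hRK) hmap
  have hjN : j ≤ N := jn_mono n (by linarith)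
  have hrt : 0 < rt n := rt_pos hn
  have hsc : 0 < sc n := sc_pos hn
  set T := finH_T φ n with hT
  set T' : ℝ → ℝ := fun v => 1 + rt n * (deriv φ ((v / 2 - 2 * n) / sc n) * (1 / 2 / sc n))
    with hT'
  have hTd : ∀ v, HasDerivAt T (T' v) v := fun v => finH_hasDerivAt hφ n v
  have hφ' : Continuous (deriv φ) := hφ.continuous_deriv le_rfl
  have hTc : Continuous T' := by
    rw [hT']
    fun_prop
  have hTcont : Continuous T := continuous_iff_continuousAt.mpr fun v => (hTd v).continuousAt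
  have htwm := hatK_tw_meas i j hTcont.measurable
  have hη : ∀ v, |T' v - 1| ≤ rt n * M / (2 * sc n) := by
    intro v
    simp only [hT']
    rw [add_sub_cancel_left, abs_mul, abs_mul, abs_of_pos hrt, abs_of_pos (by positivity :
      (0 : ℝ) < 1 / 2 / sc n)]
    calc rt n * (|deriv φ ((v / 2 - 2 * n) / sc n)| * (1 / 2 / sc n)) ≤
        rt n * (M * (1 / 2 / sc n)) := by gcongr; exact hM _
      _ = _ := by field_simp
  have hup : ∀ v, v ≤ T v := by
    intro v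
    simp only [hT, finH_T]
    have := mul_nonneg hrt.le (hφ0 ((v / 2 - 2 * n) / sc n))
    linarith
  -- the functions
  set Φ : Sq → ℝ≥0∞ := fun B => F (finH_nu n (fun i : s => x i) B) with hΦd
  have hΦ : Measurable Φ := hF.comp (finH_measurable_nu n _)
  have hcol : ∀ t : s, jn n (x t) ≤ N := fun t => jn_mono n (hR t t.2)
  have hΦdep : ∀ B B' : Sq, (∀ k ≤ N, B k = B' k) → Φ B = Φ B' := by
    intro B B' h
    simp only [hΦd]
    congr 1
    funext t
    unfold finH_nu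
    rw [h _ (hcol t)]
  set E : Sq → Sq → Prop := fun h A => (|A i - 2 * n - 2 * i| ≤ C₁ * rt n ∧
    |A j - 2 * n - 2 * j| ≤ C₁ * rt n) ∧ ENNReal.ofReal e ≤ Zf h i j A with hEd
  have hev : ∀ k : ℕ, Measurable fun p : Sq × Sq => p.2 k :=
    fun k => (measurable_pi_apply k).comp measurable_snd
  have hE : MeasurableSet {p : Sq × Sq | E p.1 p.2} := by
    refine MeasurableSet.inter (MeasurableSet.inter ?_ ?_) ?_
    · exact measurableSet_le (((hev _).sub_const _).sub_const _).abs measurable_const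
    · exact measurableSet_le (((hev _).sub_const _).sub_const _).abs measurable_const
    · exact measurableSet_le measurable_const (measurable_Zf i j)
  have hij : i < j := by omega
  have hEdep : ∀ h B B', (∀ k, (k ≤ i ∨ j ≤ k) → B k = B' k) → (E h B ↔ E h B') := by
    intro h B B' hB
    have h1 := Zf_congr hij h (hB i (Or.inl le_rfl)) (hB j (Or.inr le_rfl))
    simp only [hEd]
    rw [h1, hB i (Or.inl le_rfl), hB j (Or.inr le_rfl)]
  have hκE : κ {p : Sq × Sq | E p.1 p.2}ᶜ ≤ ENNReal.ofReal (ε / 2) := by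
    refine (measure_mono ?_).trans hgood
    refine compl_subset_compl.2 ?_
    rintro p ⟨h1, h2⟩
    have a1 : jn n (-K - 1) ≤ i := jn_mono n (by linarith)
    have a2 : jn n (-K - 1) ≤ j := jn_mono n (by linarith)
    have a3 : i ≤ jn n (K + 1) := jn_mono n (by linarith)
    have a4 : j ≤ jn n (K + 1) := jn_mono n (by linarith)
    exact ⟨⟨(h1 i a1 a3).1, (h1 j a2 a4).1⟩, h2⟩
  have hG : Measurable (Function.uncurry fun _ A : Sq => Φ A) := hΦ.comp measurable_snd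
  have hmain := kappa_hat hκ (i := i) (j := j) w1 hjN hE hEdep hTd hTc hη w2 hup he (by
      rintro h A ⟨⟨h1, h2⟩, h3⟩ _
      refine ⟨?_, ?_, h3⟩
      · simp only [hT, finH_T]
        rw [w4 _ h1]
        ring
      · simp only [hT, finH_T]
        rw [w5 _ h2]
        ring) hG hl0
  have hsplit : ∫⁻ p, Φ (tw i j T p.2) ∂κ ≤ ∫⁻ p in {p | E p.1 p.2}, Φ (tw i j T p.2) ∂κ +
      κ {p : Sq × Sq | E p.1 p.2}ᶜ := by
    rw [← lintegral_add_compl _ hE]
    gcongr
    calc ∫⁻ p in {p : Sq × Sq | E p.1 p.2}ᶜ, Φ (tw i j T p.2) ∂κ ≤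
        ∫⁻ p in {p : Sq × Sq | E p.1 p.2}ᶜ, 1 ∂κ := lintegral_mono fun p => hF1 _
      _ = _ := by simp
  have hsq : ∫⁻ p in {p | E p.1 p.2}, Φ p.2 ^ 2 ∂κ ≤ ∫⁻ p, Φ p.2 ∂κ := by
    refine (setLIntegral_le_lintegral _ _).trans (lintegral_mono fun p => ?_)
    rw [sq]
    calc Φ p.2 * Φ p.2 ≤ Φ p.2 * 1 := by gcongr; exact hF1 _
      _ = Φ p.2 := mul_one _
  have hconst : l⁻¹ * Real.exp (2 * (rt n * M / (2 * sc n)) ^ 2 * (j - i - 1 : ℕ)) / e ≤
      ε / 2 := by
    have h1 : Real.exp (2 * (rt n * M / (2 * sc n)) ^ 2 * (j - i - 1 : ℕ)) ≤ D :=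
      Real.exp_le_exp.2 w3
    calc l⁻¹ * Real.exp (2 * (rt n * M / (2 * sc n)) ^ 2 * (j - i - 1 : ℕ)) / e ≤
        l⁻¹ * D / e := by gcongr
      _ = ε / 2 := by rw [hl]; field_simp
  have htwdep : ∀ B B' : Sq, (∀ k ≤ N, B k = B' k) → Φ (tw i j T B) = Φ (tw i j T B') := by
    intro B B' h
    refine hΦdep _ _ fun k hk => ?_
    unfold tw
    rw [h k hk]
  have t1 := lint_top (hw n) hmap (Φ := fun B => Φ (tw i j T B)) (hΦ.comp htwm) htwdep
  have t2 := lint_top (hw n) hmap hΦ hΦdep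
  show ∫⁻ ω, Φ (tw i j T (top (w n ω) (n - 1))) ∂Q ≤
    ENNReal.ofReal l * ∫⁻ ω, Φ (top (w n ω) (n - 1)) ∂Q + ENNReal.ofReal ε
  rw [← t1, ← t2]
  calc ∫⁻ p, Φ (tw i j T p.2) ∂κ ≤ _ := hsplit
    _ ≤ (ENNReal.ofReal l * ∫⁻ p in {p | E p.1 p.2}, Φ p.2 ^ 2 ∂κ +
        ENNReal.ofReal (l⁻¹ * Real.exp (2 * (rt n * M / (2 * sc n)) ^ 2 * (j - i - 1 : ℕ)) / e)) +
          ENNReal.ofReal (ε / 2) := add_le_add hmain hκE
    _ ≤ (ENNReal.ofReal l * ∫⁻ p, Φ p.2 ∂κ + ENNReal.ofReal (ε / 2)) +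
        ENNReal.ofReal (ε / 2) := by
        gcongr
    _ = _ := by
        rw [add_assoc, ← ENNReal.ofReal_add hε2.le hε2.le, add_halves]

end

theorem hat {Ω : Type*} [MeasurableSpace Ω] {P : Measure Ω} [IsProbabilityMeasure P]
    {S : Ω → ℝ × ℝ → ℝ} (hS : IsAirySheet P S) {φ : ℝ → ℝ} (hφ : ContDiff ℝ 1 φ)
    (hφc : HasCompactSupport φ) (hφ0 : ∀ x, 0 ≤ φ x) {ι : Type*} [Countable ι] (x : ι → ℝ) :
    P.map (fun ω i => S ω (0, x i) + φ (x i)) ≪ P.map (fun ω i => S ω (0, x i)) := by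
  obtain ⟨Ω', mΩ', Q, S', w, hQ, hw, hm, hc, hmap, hlim⟩ := hS.limit
  -- the support
  obtain ⟨K, hK, hs⟩ : ∃ K : ℝ, 0 < K ∧ ∀ v, v ≤ -K + 1 ∨ K - 1 ≤ v → φ v = 0 := by
    obtain ⟨r, hr⟩ := hφc.isBounded.subset_closedBall 0
    refine ⟨|r| + 2, by positivity, fun v hv => ?_⟩
    by_contra hne
    have h1 : v ∈ tsupport φ := subset_tsupport _ hne
    have h2 := hr h1
    rw [Metric.mem_closedBall, Real.dist_eq, sub_zero] at h2
    have h3 := h2.trans (le_abs_self r)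
    rw [abs_le] at h3
    rcases hv with hv | hv <;> linarith [h3.1, h3.2]
  have hs' : ∀ v, v ≤ -K ∨ K ≤ v → φ v = 0 := fun v hv =>
    hs v (hv.imp (fun h => by linarith) (fun h => by linarith))
  obtain ⟨M, hM⟩ : ∃ M : ℝ, ∀ v, |deriv φ v| ≤ M := by
    obtain ⟨M, hM⟩ := hφc.deriv.exists_bound_of_continuous (hφ.continuous_deriv le_rfl)
    exact ⟨M, fun v => by simpa [Real.norm_eq_abs] using hM v⟩
  have hg1 : Measurable fun (f : ℝ × ℝ → ℝ) (i : ι) => f (0, x i) + φ (x i) :=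
    measurable_pi_iff.2 fun i => (measurable_pi_apply _).add_const _
  have hg2 : Measurable fun (f : ℝ × ℝ → ℝ) (i : ι) => f (0, x i) :=
    measurable_pi_iff.2 fun i => measurable_pi_apply _
  have e1 : P.map (fun ω i => S ω (0, x i) + φ (x i)) =
      Q.map fun ω i => S' ω (0, x i) + φ (x i) := map_incr hS.meas hm hmap hg1
  have e2 : P.map (fun ω i => S ω (0, x i)) =
      Q.map fun ω i => S' ω (0, x i) := map_incr hS.meas hm hmap hg2
  rw [e1, e2]
  have m1 : Measurable fun ω (i : ι) => S' ω (0, x i) + φ (x i) :=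
    measurable_pi_iff.2 fun i => (hm _).add_const _
  have m2 : Measurable fun ω (i : ι) => S' ω (0, x i) := measurable_pi_iff.2 fun i => hm _
  have i1 := Measure.isProbabilityMeasure_map (μ := Q) m1.aemeasurable
  have i2 := Measure.isProbabilityMeasure_map (μ := Q) m2.aemeasurable
  refine ac_of_approx fun ε hε => ?_
  obtain ⟨C, hC, hev⟩ := finH_core hw hm hc hlim hφ hφ0 hK hs hM x hε
  refine ⟨C, hC, fun s F hF hF01 => ?_⟩
  have hF1 : ∀ v, |F v| ≤ 1 := fun v => by rw [abs_of_nonneg (hF01 v).1]; exact (hF01 v).2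
  have hFm : Measurable fun v : ι → ℝ => F fun i : s => v i :=
    hF.measurable.comp (measurable_pi_iff.2 fun i => measurable_pi_apply _)
  rw [integral_map m1.aemeasurable hFm.aestronglyMeasurable,
    integral_map m2.aemeasurable hFm.aestronglyMeasurable]
  obtain ⟨R, hR⟩ : ∃ R : ℝ, ∀ i ∈ s, |x i| ≤ R := by
    obtain ⟨R, hR⟩ := (s.image fun i => |x i|).exists_le
    exact ⟨R, fun i hi => hR _ (Finset.mem_image_of_mem _ hi)⟩
  have h1 : Tendsto (fun n : ℕ => ∫ ω, F (finH_nu n (fun i : s => x i)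
      (tw (jn n (-K)) (jn n K) (finH_T φ n) (top (w n ω) (n - 1)))) ∂Q) atTop
      (𝓝 (∫ ω, F (fun i : s => S' ω (0, x i) + φ (x i)) ∂Q)) := by
    have h := conv_int hw hm hlim (fun i : s => x i)
      (Y := fun n ω i => finH_Y φ K n (x i) (top (w n ω) (n - 1))) (y := fun i => φ (x i))
      (fun n i => finH_measurable_Y hw hφ.continuous K n _)
      (fun i ε hε => finH_conv hw hm hlim hφ.continuous hs' _ hε) hF hF1
    refine h.congr' ?_
    filter_upwards [Sn_eq R, eventually_ge_atTop 1] with n hn hn1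
    refine integral_congr_ae (ae_of_all _ fun ω => ?_)
    simp only
    rw [finH_nu_tw hn1]
    congr 1
    funext i
    rw [hn (x i) (hR i i.2)]
    rfl
  have h2 : Tendsto (fun n : ℕ => ∫ ω, F (finH_nu n (fun i : s => x i)
      (top (w n ω) (n - 1))) ∂Q) atTop
      (𝓝 (∫ ω, F (fun i : s => S' ω (0, x i)) ∂Q)) := by
    have h := conv_int hw hm hlim (fun i : s => x i)
      (Y := fun _ _ _ => 0) (y := fun _ => 0) (fun _ _ => measurable_const)
      (fun i ε hε => by simp [hε.not_ge]) hF hF1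
    simp only [add_zero] at h
    refine h.congr' ?_
    filter_upwards [Sn_eq R] with n hn
    refine integral_congr_ae (ae_of_all _ fun ω => ?_)
    simp only
    congr 1
    funext i
    rw [hn (x i) (hR i i.2)]
    rfl
  refine le_of_tendsto_of_tendsto h1 ((h2.const_mul C).add_const ε) ?_
  filter_upwards [hev s, eventually_ge_atTop 1] with n hn hn1
  have hFm' : Measurable F := hF.measurable
  have mtop : Measurable fun ω => top (w n ω) (n - 1) :=
    measurable_pi_iff.2 fun k => measurable_top (hw n) (n - 1) k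
  have hTcont : Continuous (finH_T φ n) :=
    continuous_iff_continuousAt.mpr fun v => (finH_hasDerivAt hφ n v).continuousAt
  have mtw := hatK_tw_meas (jn n (-K)) (jn n K) hTcont.measurable
  refine int_le_of_lint (hFm'.comp ((finH_measurable_nu n _).comp (mtw.comp mtop)))
    (hFm'.comp ((finH_measurable_nu n _).comp mtop)) (fun _ => (hF01 _).1) (fun _ => (hF01 _).2)
    (fun _ => (hF01 _).1) (fun _ => (hF01 _).2) hC hε.le ?_
  exact hn (fun v => ENNReal.ofReal (F v)) hFm'.ennreal_ofReal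
    (fun v => ENNReal.ofReal_le_one.2 (hF01 _).2)

end Pool.Agent.H22.DL
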