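import Pool.Agent.H22.DL.Harris

/-!
# Module LcpA: local comparison (paper 5.4, 5.5, 5.6)

`lcp` with
* `kappa_le`: `F h A = 1{E h A} Φ A`, `G h A = (X / e) 1{E h A}`;
* `kappa_ge`: `F h A = (X - e) 1{E h A}`, `G h A = 1{E h A} Φ A`
  (`∫ 1{bar} Φ ≥ ∫ Φ - rs (bar)ᶜ`);
* `kappa_lower`: `F h A = 1{E h A} 1{A ∈ V}`, `G h A = e 1{E h A}` (`rs_harris_lower`).
`E h B ↔ E h A` for almost all `B` under `rs i j A` (`ae_rs`).
-/

open MeasureTheory ProbabilityTheory Filter Topology Set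
open scoped ENNReal

namespace Pool.Agent.H22.DL

theorem lcpA_bar_meas (h : Sq) (i j : ℕ) : MeasurableSet (bar h i j) :=
  (measurable_const.prodMk measurable_id : Measurable fun A : Sq => (h, A))
    (measurableSet_bar i j)

theorem lcpA_bar_upper (h : Sq) (i j : ℕ) : IsUpperSet (bar h i j) :=
  fun _ _ hAB hA k h1 h2 => (hA k h1 h2).trans (hAB k)

/-- the indicator of the event `E` -/
noncomputable def lcpAInd (E : Sq → Sq → Prop) (Ψ : Sq → ℝ≥0∞) (h A : Sq) : ℝ≥0∞ :=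
  ({p : Sq × Sq | E p.1 p.2}).indicator (fun p => Ψ p.2) (h, A)

theorem lcpA_ind_meas {E : Sq → Sq → Prop} (hE : MeasurableSet {p : Sq × Sq | E p.1 p.2})
    {Ψ : Sq → ℝ≥0∞} (hΨ : Measurable Ψ) : Measurable (Function.uncurry (lcpAInd E Ψ)) :=
  (hΨ.comp measurable_snd).indicator hE

theorem lcpA_ind_of {E : Sq → Sq → Prop} {Ψ : Sq → ℝ≥0∞} {h A : Sq} (hE : E h A) :
    lcpAInd E Ψ h A = Ψ A :=
  Set.indicator_of_mem (s := {p : Sq × Sq | E p.1 p.2}) (a := (h, A)) hE _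

theorem lcpA_ind_not {E : Sq → Sq → Prop} {Ψ : Sq → ℝ≥0∞} {h A : Sq} (hE : ¬E h A) :
    lcpAInd E Ψ h A = 0 :=
  Set.indicator_of_notMem (s := {p : Sq × Sq | E p.1 p.2}) (a := (h, A)) hE _

theorem lcpA_ind_ae {E : Sq → Sq → Prop} {i j : ℕ}
    (hEdep : ∀ h B B', (∀ k, (k ≤ i ∨ j ≤ k) → B k = B' k) → (E h B ↔ E h B'))
    (h A : Sq) : ∀ᵐ B ∂(rs i j A), E h B ↔ E h A := by
  filter_upwards [ae_rs i j A] with B hB
  exact hEdep h B A hB.2

theorem lcpA_lint_ind {κ : Measure (Sq × Sq)} {E : Sq → Sq → Prop}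
    (hE : MeasurableSet {p : Sq × Sq | E p.1 p.2}) (Ψ : Sq → ℝ≥0∞) :
    ∫⁻ p, lcpAInd E Ψ p.1 p.2 ∂κ = ∫⁻ p in {p | E p.1 p.2}, Ψ p.2 ∂κ := by
  have : (fun p : Sq × Sq => lcpAInd E Ψ p.1 p.2) =
      ({p : Sq × Sq | E p.1 p.2}).indicator (fun p => Ψ p.2) := rfl
  rw [this, lintegral_indicator hE]

/-- the comparison is trivial off the event -/
theorem lcpA_off {E : Sq → Sq → Prop} {i j : ℕ}
    (hEdep : ∀ h B B', (∀ k, (k ≤ i ∨ j ≤ k) → B k = B' k) → (E h B ↔ E h B'))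
    {Ψ : Sq → ℝ≥0∞} {h A : Sq} (hEA : ¬E h A) :
    ∫⁻ B, (bar h i j).indicator (lcpAInd E Ψ h) B ∂(rs i j A) = 0 := by
  have : ∀ᵐ B ∂(rs i j A), (bar h i j).indicator (lcpAInd E Ψ h) B = 0 := by
    filter_upwards [lcpA_ind_ae hEdep h A] with B hB
    have h0 : lcpAInd E Ψ h B = 0 := lcpA_ind_not (fun h' => hEA (hB.1 h'))
    by_cases hb : B ∈ bar h i j
    · rw [Set.indicator_of_mem hb, h0]
    · rw [Set.indicator_of_notMem hb]
  rw [lintegral_congr_ae this, lintegral_zero]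

theorem lcpA_on {E : Sq → Sq → Prop} {i j : ℕ}
    (hEdep : ∀ h B B', (∀ k, (k ≤ i ∨ j ≤ k) → B k = B' k) → (E h B ↔ E h B'))
    {Ψ : Sq → ℝ≥0∞} {h A : Sq} (hEA : E h A) :
    ∫⁻ B, (bar h i j).indicator (lcpAInd E Ψ h) B ∂(rs i j A) =
      ∫⁻ B in bar h i j, Ψ B ∂(rs i j A) := by
  rw [← lintegral_indicator (lcpA_bar_meas h i j)]
  refine lintegral_congr_ae ?_
  filter_upwards [lcpA_ind_ae hEdep h A] with B hB
  have h0 : lcpAInd E Ψ h B = Ψ B := lcpA_ind_of (hB.2 hEA)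
  by_cases hb : B ∈ bar h i j
  · rw [Set.indicator_of_mem hb, Set.indicator_of_mem hb, h0]
  · rw [Set.indicator_of_notMem hb, Set.indicator_of_notMem hb]

/-- the common reduction -/
theorem lcpA_main {N : ℕ} {κ : Measure (Sq × Sq)} (hκ : GibbsPair N κ) {i j : ℕ} (hij : i + 1 < j)
    (hjN : j ≤ N) {E : Sq → Sq → Prop} (hE : MeasurableSet {p : Sq × Sq | E p.1 p.2})
    (hEdep : ∀ h B B', (∀ k, (k ≤ i ∨ j ≤ k) → B k = B' k) → (E h B ↔ E h B'))
    {Φ Ψ : Sq → ℝ≥0∞} (hΦ : Measurable Φ) (hΨ : Measurable Ψ)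
    (hX : ∀ h A, E h A → A i < A j →
      ∫⁻ B in bar h i j, Φ B ∂(rs i j A) ≤ ∫⁻ B in bar h i j, Ψ B ∂(rs i j A)) :
    ∫⁻ p in {p | E p.1 p.2}, Φ p.2 ∂κ ≤ ∫⁻ p in {p | E p.1 p.2}, Ψ p.2 ∂κ := by
  rw [← lcpA_lint_ind hE, ← lcpA_lint_ind hE]
  refine hκ.lcp i j hij hjN (lcpAInd E Φ) (lcpAInd E Ψ) (lcpA_ind_meas hE hΦ)
    (lcpA_ind_meas hE hΨ) fun h A hA => ?_
  by_cases hEA : E h A
  · rw [lcpA_on hEdep hEA, lcpA_on hEdep hEA]
    exact hX h A hEA hA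
  · rw [lcpA_off hEdep hEA, lcpA_off hEdep hEA]

/-- local upper bound (paper 5.4) -/
theorem kappa_le {N : ℕ} {κ : Measure (Sq × Sq)} (hκ : GibbsPair N κ) {i j : ℕ} (hij : i + 1 < j)
    (hjN : j ≤ N) {E : Sq → Sq → Prop} (hE : MeasurableSet {p : Sq × Sq | E p.1 p.2})
    (hEdep : ∀ h B B', (∀ k, (k ≤ i ∨ j ≤ k) → B k = B' k) → (E h B ↔ E h B'))
    {Φ : Sq → ℝ≥0∞} (hΦ : Measurable Φ) {X e : ℝ≥0∞} (he : e ≠ 0) (he' : e ≠ ⊤)
    (hX : ∀ h A, E h A → A i < A j → e ≤ Zf h i j A ∧ ∫⁻ B, Φ B ∂(rs i j A) ≤ X) :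
    ∫⁻ p in {p | E p.1 p.2}, Φ p.2 ∂κ ≤ X / e := by
  have := hκ.prob
  have key := lcpA_main hκ hij hjN hE hEdep hΦ (measurable_const (a := X / e))
    (fun h A hEA hA => by
      obtain ⟨h1, h2⟩ := hX h A hEA hA
      calc ∫⁻ B in bar h i j, Φ B ∂(rs i j A) ≤ ∫⁻ B, Φ B ∂(rs i j A) :=
            setLIntegral_le_lintegral _ _
        _ ≤ X := h2
        _ = X / e * e := (ENNReal.div_mul_cancel he he').symm
        _ ≤ X / e * rs i j A (bar h i j) := mul_le_mul_right h1 _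
        _ = ∫⁻ B in bar h i j, (X / e) ∂(rs i j A) := by rw [setLIntegral_const])
  refine key.trans ?_
  rw [setLIntegral_const]
  calc X / e * κ {p | E p.1 p.2} ≤ X / e * 1 := mul_le_mul_right prob_le_one _
    _ = X / e := mul_one _

/-- local lower bound (paper 5.5) -/
theorem kappa_ge {N : ℕ} {κ : Measure (Sq × Sq)} (hκ : GibbsPair N κ) {i j : ℕ} (hij : i + 1 < j)
    (hjN : j ≤ N) {E : Sq → Sq → Prop} (hE : MeasurableSet {p : Sq × Sq | E p.1 p.2})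
    (hEdep : ∀ h B B', (∀ k, (k ≤ i ∨ j ≤ k) → B k = B' k) → (E h B ↔ E h B'))
    {Φ : Sq → ℝ≥0∞} (hΦ : Measurable Φ) (hΦ1 : ∀ B, Φ B ≤ 1) {X e : ℝ≥0∞}
    (hX : ∀ h A, E h A → A i < A j → X ≤ ∫⁻ B, Φ B ∂(rs i j A) ∧ rs i j A (bar h i j)ᶜ ≤ e) :
    (X - e) * κ {p | E p.1 p.2} ≤ ∫⁻ p, Φ p.2 ∂κ := by
  have key := lcpA_main hκ hij hjN hE hEdep (measurable_const (a := X - e)) hΦ
    (fun h A hEA hA => by
      obtain ⟨h1, h2⟩ := hX h A hEA hA
      have := prob_rs (by omega : i < j) hA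
      calc ∫⁻ B in bar h i j, (X - e) ∂(rs i j A) = (X - e) * rs i j A (bar h i j) := by
            rw [setLIntegral_const]
        _ ≤ (X - e) * 1 := mul_le_mul_right prob_le_one _
        _ = X - e := mul_one _
        _ ≤ ∫⁻ B in bar h i j, Φ B ∂(rs i j A) := by
            rw [tsub_le_iff_right]
            calc X ≤ ∫⁻ B, Φ B ∂(rs i j A) := h1
              _ = ∫⁻ B in bar h i j, Φ B ∂(rs i j A) + ∫⁻ B in (bar h i j)ᶜ, Φ B ∂(rs i j A) :=
                  (lintegral_add_compl _ (lcpA_bar_meas h i j)).symm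
              _ ≤ ∫⁻ B in bar h i j, Φ B ∂(rs i j A) + rs i j A (bar h i j)ᶜ := by
                  gcongr
                  calc ∫⁻ B in (bar h i j)ᶜ, Φ B ∂(rs i j A)
                      ≤ ∫⁻ B in (bar h i j)ᶜ, 1 ∂(rs i j A) := lintegral_mono fun B => hΦ1 B
                    _ = rs i j A (bar h i j)ᶜ := by rw [setLIntegral_const, one_mul]
              _ ≤ ∫⁻ B in bar h i j, Φ B ∂(rs i j A) + e := by gcongr)
  rw [setLIntegral_const] at key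
  exact key.trans (setLIntegral_le_lintegral _ _)

/-- a decreasing event of the inside is at most as likely as for the free bridge (paper 5.6) -/
theorem kappa_lower {N : ℕ} {κ : Measure (Sq × Sq)} (hκ : GibbsPair N κ) {i j : ℕ}
    (hij : i + 1 < j) (hjN : j ≤ N) {E : Sq → Sq → Prop}
    (hE : MeasurableSet {p : Sq × Sq | E p.1 p.2})
    (hEdep : ∀ h B B', (∀ k, (k ≤ i ∨ j ≤ k) → B k = B' k) → (E h B ↔ E h B'))
    {V : Set Sq} (hV : IsLowerSet V) (hVm : MeasurableSet V) {e : ℝ≥0∞}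
    (hX : ∀ h A, E h A → A i < A j → rs i j A V ≤ e) :
    κ {p | E p.1 p.2 ∧ p.2 ∈ V} ≤ e * κ {p | E p.1 p.2} := by
  have key := lcpA_main hκ hij hjN hE hEdep
    (measurable_const.indicator hVm : Measurable (V.indicator fun _ => (1 : ℝ≥0∞)))
    (measurable_const (a := e))
    (fun h A hEA hA => by
      have h1 : ∫⁻ B in bar h i j, V.indicator (fun _ => (1 : ℝ≥0∞)) B ∂(rs i j A) =
          rs i j A (bar h i j ∩ V) := by
        rw [lintegral_indicator hVm, setLIntegral_const, one_mul, Measure.restrict_apply hVm,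
          Set.inter_comm]
      rw [h1, setLIntegral_const]
      calc rs i j A (bar h i j ∩ V) ≤ rs i j A (bar h i j) * rs i j A V :=
            rs_harris_lower (by omega) hA (lcpA_bar_upper h i j) (lcpA_bar_meas h i j) hV hVm
        _ ≤ rs i j A (bar h i j) * e := mul_le_mul_right (hX h A hEA hA) _
        _ = e * rs i j A (bar h i j) := mul_comm _ _)
  rw [setLIntegral_const] at key
  refine le_trans (le_of_eq ?_) key
  have h2 : (fun p : Sq × Sq => V.indicator (fun _ => (1 : ℝ≥0∞)) p.2) =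
      ({p : Sq × Sq | p.2 ∈ V}).indicator (fun _ => (1 : ℝ≥0∞)) := rfl
  have hVm' : MeasurableSet {p : Sq × Sq | p.2 ∈ V} := measurable_snd hVm
  rw [h2, lintegral_indicator hVm', setLIntegral_const, one_mul, Measure.restrict_apply hVm']
  congr 1
  ext p
  exact and_comm

end Pool.Agent.H22.DL
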