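import Pool.Agent.H22.DL.Clt
import Pool.Agent.H22.DL.ConvInt
import Pool.Agent.H22.DL.FinAux
import Pool.Agent.H22.DL.LcpA
import Pool.Agent.H22.DL.BrRW
import Pool.Agent.H22.DL.AcApp

/-!
# Module FinL: increments of the Airy sheet are absolutely continuous (paper 7.1)

`K > 0` without loss. Block `[jn n (-K), jn n K]` at the start of the window
`(i, j) = (jn n (-K), jn n (3 K))`, `c = jn n K`. Event `E` = {`A i`, `A j` within `C rt n` of
`2 n + 2 k`, `Zf h i j A ≥ e`}, `goodZ` with `x₁ = -K`, `x₂ = 3 K`. `Φ B = F((B (jn n (x i)) -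
B (jn n 0) - 2 (jn n (x i) - jn n 0)) / rt n)`. `rs_le_rw`, `kappa_le`, then `n → ∞`: `conv_int`
on the left (`Sn_eq`), `clt_fdd` on the right; `ac_of_approx`; `Q.map S' = P.map S`.
-/

open MeasureTheory ProbabilityTheory Filter Topology Set
open scoped ENNReal

namespace Pool.Agent.H22.DL

open Pool.Agent.H37.DL

/-- the window -/
theorem win {K : ℝ} (hK : 0 < K) (M₀ : ℕ) : ∀ᶠ n : ℕ in atTop,
    M₀ ≤ jn n (3 * K) - jn n (-K) ∧ jn n (-K) + 1 < jn n K ∧ jn n K < jn n (3 * K) ∧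
    4 * (jn n K - jn n (-K)) ≤ 3 * (jn n (3 * K) - jn n (-K)) ∧
    √K * rt n ≤ √((jn n (3 * K) : ℝ) - jn n (-K)) ∧
    √((jn n (3 * K) : ℝ) - jn n (-K)) ≤ √(3 * K) * rt n := by
  have h1 := jn_bounds (3 * K)
  have h2 : ∀ᶠ n : ℕ in atTop, (7 + M₀) / K ≤ sc n := tendsto_sc.eventually_ge_atTop _
  filter_upwards [h1, h2, eventually_ge_atTop 1] with n h1 h2 hn
  have a1 := h1 (3 * K) (by rw [abs_of_pos (by linarith)])
  have a2 := h1 K (by rw [abs_of_pos hK]; linarith)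
  have a3 := h1 (-K) (by rw [abs_neg, abs_of_pos hK]; linarith)
  have h3 : 7 + M₀ ≤ sc n * K := by rwa [div_le_iff₀ hK] at h2
  obtain ⟨b1, c1, -⟩ := a1
  obtain ⟨b2, c2, -⟩ := a2
  obtain ⟨b3, c3, -⟩ := a3
  have hM₀ : (0 : ℝ) ≤ M₀ := Nat.cast_nonneg _
  have i1 : jn n (-K) + 1 < jn n K := by
    have : ((jn n (-K) + 1 : ℕ) : ℝ) < jn n K := by push_cast; nlinarith
    exact_mod_cast this
  have i2 : jn n K < jn n (3 * K) := by
    have : (jn n K : ℝ) < jn n (3 * K) := by nlinarith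
    exact_mod_cast this
  have hrt : 0 < rt n := rt_pos hn
  have hsq := rt_sq n
  refine ⟨?_, i1, i2, ?_, ?_, ?_⟩
  · have : ((M₀ + jn n (-K) : ℕ) : ℝ) ≤ jn n (3 * K) := by push_cast; nlinarith
    have h : M₀ + jn n (-K) ≤ jn n (3 * K) := by exact_mod_cast this
    omega
  · have e : 4 * jn n K + 3 * jn n (-K) ≤ 3 * jn n (3 * K) + 4 * jn n (-K) := by
      have : ((4 * jn n K + 3 * jn n (-K) : ℕ) : ℝ) ≤ (3 * jn n (3 * K) + 4 * jn n (-K) : ℕ) := by
        push_cast; nlinarith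
      exact_mod_cast this
    omega
  · refine Real.le_sqrt_of_sq_le ?_
    rw [mul_pow, Real.sq_sqrt hK.le, hsq]
    nlinarith
  · refine Real.sqrt_le_iff.2 ⟨by positivity, ?_⟩
    rw [mul_pow, Real.sq_sqrt (by linarith), hsq]
    nlinarith

section

variable {Ω' : Type} [MeasurableSpace Ω'] {Q : Measure Ω'} [IsProbabilityMeasure Q]
  {S' : Ω' → ℝ × ℝ → ℝ} {w : ℕ → Ω' → ℤ → ℕ → ℝ}

theorem core_le (hw : ∀ n, IsExpWeights Q (w n)) (hm : ∀ p, Measurable fun ω => S' ω p)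
    (hc : ∀ ω, Continuous (S' ω))
    (hlim : ∀ R : ℝ, ∀ ε : ℝ, 0 < ε → Tendsto
        (fun n : ℕ => Q {ω | ∃ p : ℝ × ℝ, |p.1| ≤ R ∧ |p.2| ≤ R ∧
          ε ≤ |Sn (w n ω) n p - S' ω p|}) atTop (𝓝 0))
    {ι : Type*} (x : ι → ℝ) {K : ℝ} (hK : 0 < K) (hx : ∀ i, |x i| ≤ K) {ε : ℝ} (hε : 0 < ε) :
    ∃ C : ℝ, 0 ≤ C ∧ ∀ᶠ n : ℕ in atTop, ∀ F : (ι → ℝ) → ℝ≥0∞, Measurable F → (∀ v, F v ≤ 1) →
      ∫⁻ ω, F (psi n x (top (w n ω) (n - 1))) ∂Q ≤
        ENNReal.ofReal C * ∫⁻ y, F (wlk n K x y) ∂(ex (1 / 2)) + ENNReal.ofReal ε := by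
  obtain ⟨C₁, hC₁, e, he, hgood⟩ := goodZ hw hm hc hlim (x₁ := -K) (x₂ := 3 * K) (by linarith) hε
  obtain ⟨C₂, hC₂, M₀, hrw⟩ := rs_le_rw (2 * C₁ / √K)
  refine ⟨C₂ / e, by positivity, ?_⟩
  filter_upwards [hgood, win hK M₀, eventually_ge_atTop 1] with n hgood hwin hn F hF hF1
  obtain ⟨w1, w2, w3, w4, w5, -⟩ := hwin
  set i := jn n (-K) with hi
  set c := jn n K with hcd
  set j := jn n (3 * K) with hj
  obtain ⟨κ, hκ, hmap⟩ := exists_gibbs (hw n) (n - 1) (jn n (3 * K + 1))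
  set N := jn n (3 * K + 1) with hN
  have hjN : j ≤ N := jn_mono n (by linarith)
  have hgood := hgood N κ hκ le_rfl hmap
  have hrt : 0 < rt n := rt_pos hn
  -- the function
  set Φ : Sq → ℝ≥0∞ := fun B => F (psi n x B) with hΦd
  have hΦ : Measurable Φ := hF.comp (measurable_psi n x)
  have hpsi : ∀ B B' : Sq, (∀ k ≤ c, B k = B' k) → psi n x B = psi n x B' := by
    intro B B' h
    funext t
    unfold psi
    rw [h _ (jn_mono n (le_of_abs_le (hx t))), h _ (jn_mono n hK.le)]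
  rw [← lint_top (hw n) hmap hΦ fun B B' h => congrArg F (hpsi B B' fun k hk => h k
    (hk.trans (w3.le.trans hjN)))]
  set E : Sq → Sq → Prop := fun h A => (|A i - 2 * n - 2 * i| ≤ C₁ * rt n ∧
    |A j - 2 * n - 2 * j| ≤ C₁ * rt n) ∧ ENNReal.ofReal e ≤ Zf h i j A with hEd
  have hev : ∀ k : ℕ, Measurable fun p : Sq × Sq => p.2 k :=
    fun k => (measurable_pi_apply k).comp measurable_snd
  have hE : MeasurableSet {p : Sq × Sq | E p.1 p.2} := by
    refine MeasurableSet.inter (MeasurableSet.inter ?_ ?_) ?_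
    · exact measurableSet_le (((hev _).sub_const _).sub_const _).abs measurable_const
    · exact measurableSet_le (((hev _).sub_const _).sub_const _).abs measurable_const
    · exact measurableSet_le measurable_const (measurable_Zf i j)
  have hij : i < j := by omega
  have hEdep : ∀ h B B', (∀ k, (k ≤ i ∨ j ≤ k) → B k = B' k) → (E h B ↔ E h B') := by
    intro h B B' hB
    have h1 := Zf_congr hij h (hB i (Or.inl le_rfl)) (hB j (Or.inr le_rfl))
    simp only [hEd]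
    rw [h1, hB i (Or.inl le_rfl), hB j (Or.inr le_rfl)]
  have hκE : κ {p : Sq × Sq | E p.1 p.2}ᶜ ≤ ENNReal.ofReal ε := by
    refine (measure_mono ?_).trans hgood
    refine compl_subset_compl.2 ?_
    rintro p ⟨h1, h2⟩
    have a1 : jn n (-K - 1) ≤ i := jn_mono n (by linarith)
    have a2 : jn n (-K - 1) ≤ j := jn_mono n (by linarith)
    have a3 : i ≤ jn n (3 * K + 1) := jn_mono n (by linarith)
    exact ⟨⟨(h1 i a1 a3).1, (h1 j a2 hjN).1⟩, h2⟩
  have hsplit : ∫⁻ p, Φ p.2 ∂κ ≤ ∫⁻ p in {p | E p.1 p.2}, Φ p.2 ∂κ +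
      κ {p : Sq × Sq | E p.1 p.2}ᶜ := by
    rw [← lintegral_add_compl _ hE]
    gcongr
    calc ∫⁻ p in {p : Sq × Sq | E p.1 p.2}ᶜ, Φ p.2 ∂κ ≤
        ∫⁻ p in {p : Sq × Sq | E p.1 p.2}ᶜ, 1 ∂κ := lintegral_mono fun p => hF1 _
      _ = _ := by simp
  have hmain := kappa_le hκ (i := i) (j := j) (by omega) hjN hE hEdep hΦ
    (X := ENNReal.ofReal C₂ * ∫⁻ y, F (wlk n K x y) ∂(ex (1 / 2))) (e := ENNReal.ofReal e)
    (by simpa using he) (by simp) (by
      rintro h A ⟨⟨h1, h2⟩, h3⟩ hA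
      refine ⟨h3, ?_⟩
      have h4 : |A j - A i - 2 * ((j : ℝ) - i)| ≤ 2 * C₁ / √K * √((j : ℝ) - i) := by
        have : |A j - A i - 2 * ((j : ℝ) - i)| ≤ 2 * C₁ * rt n := by
          rw [abs_le] at h1 h2 ⊢
          constructor <;> linarith
        refine this.trans ?_
        have hsK : 0 < √K := Real.sqrt_pos.2 hK
        calc 2 * C₁ * rt n = 2 * C₁ / √K * (√K * rt n) := by field_simp
          _ ≤ _ := by gcongr
      have := hrw i c j w1 (by omega) w3 w4 A hA h4 Φ hΦ (fun B B' hB => congrArg F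
        (hpsi B B' fun k hk => hB k (Or.inl hk)))
      refine this.trans (le_of_eq ?_)
      congr 1
      refine lintegral_congr fun y => ?_
      show F (psi n x (path i c A y)) = _
      rw [hi, hcd, psi_path hK.le hx])
  calc ∫⁻ p, Φ p.2 ∂κ ≤ _ := hsplit
    _ ≤ (ENNReal.ofReal C₂ * ∫⁻ y, F (wlk n K x y) ∂(ex (1 / 2))) / ENNReal.ofReal e +
        ENNReal.ofReal ε := add_le_add hmain hκE
    _ = _ := by
        rw [ENNReal.ofReal_div_of_pos he, ENNReal.mul_div_right_comm]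

end

/-- the rescaled increments converge in law -/
theorem psi_tendsto {Ω' : Type} [MeasurableSpace Ω'] {Q : Measure Ω'} [IsProbabilityMeasure Q]
    {S' : Ω' → ℝ × ℝ → ℝ} {w : ℕ → Ω' → ℤ → ℕ → ℝ} (hw : ∀ n, IsExpWeights Q (w n))
    (hm : ∀ p, Measurable fun ω => S' ω p)
    (hlim : ∀ R : ℝ, ∀ ε : ℝ, 0 < ε → Tendsto
        (fun n : ℕ => Q {ω | ∃ p : ℝ × ℝ, |p.1| ≤ R ∧ |p.2| ≤ R ∧
          ε ≤ |Sn (w n ω) n p - S' ω p|}) atTop (𝓝 0))
    {s : Type*} [Fintype s] (x : s → ℝ) {K : ℝ} (hx : ∀ i, |x i| ≤ K) {F : (s → ℝ) → ℝ}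
    (hF : Continuous F) (hF1 : ∀ v, |F v| ≤ 1) :
    Tendsto (fun n : ℕ => ∫ ω, F (psi n x (top (w n ω) (n - 1))) ∂Q) atTop
      (𝓝 (∫ ω, F (fun i => S' ω (0, x i) - S' ω (0, 0)) ∂Q)) := by
  have h := conv_int hw hm hlim (s := Option s) (fun o => o.elim 0 x)
    (Y := fun _ _ _ => 0) (y := fun _ => 0) (fun _ _ => measurable_const)
    (fun i ε hε => by simp [hε.not_ge])
    (F := fun v => F (fun i => v (some i) - v none)) (by fun_prop) (fun v => hF1 _)
  simp only [add_zero, Option.elim] at h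
  refine h.congr' ?_
  filter_upwards [Sn_eq (max K 0)] with n hn
  refine integral_congr_ae (ae_of_all _ fun ω => ?_)
  simp only
  congr 1
  funext i
  rw [hn (x i) ((hx i).trans (le_max_left _ _)), hn 0 (by simp)]
  unfold psi
  ring

theorem ac_left {Ω : Type*} [MeasurableSpace Ω] {P : Measure Ω} [IsProbabilityMeasure P]
    {S : Ω → ℝ × ℝ → ℝ} (hS : IsAirySheet P S) {Ωb : Type*} [MeasurableSpace Ωb]
    {Pb : Measure Ωb} [IsProbabilityMeasure Pb] {b : Ωb → ℝ → ℝ} (hb : IsBM Pb b)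
    {ι : Type*} [Countable ι] (x : ι → ℝ) (K : ℝ) (hx : ∀ i, |x i| ≤ K) :
    P.map (fun ω i => S ω (0, x i) - S ω (0, 0)) ≪ Pb.map (fun ω i => b ω (x i)) := by
  obtain ⟨Ω', mΩ', Q, S', w, hQ, hw, hm, hc, hmap, hlim⟩ := hS.limit
  obtain ⟨K', hK', hx'⟩ : ∃ K' : ℝ, 0 < K' ∧ ∀ i, |x i| ≤ K' :=
    ⟨max K 1, lt_max_of_lt_right one_pos, fun i => (hx i).trans (le_max_left _ _)⟩
  have hg : Measurable fun (f : ℝ × ℝ → ℝ) (i : ι) => f (0, x i) - f (0, 0) :=
    measurable_pi_iff.2 fun i => (measurable_pi_apply _).sub (measurable_pi_apply _)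
  have e0 : P.map (fun ω i => S ω (0, x i) - S ω (0, 0)) =
      Q.map fun ω i => S' ω (0, x i) - S' ω (0, 0) := map_incr hS.meas hm hmap hg
  rw [e0]
  have mS : Measurable fun ω (i : ι) => S' ω (0, x i) - S' ω (0, 0) :=
    measurable_pi_iff.2 fun i => (hm _).sub (hm _)
  have mb : Measurable fun ω (i : ι) => b ω (x i) := measurable_pi_iff.2 fun i => hb.meas _
  have i1 := Measure.isProbabilityMeasure_map (μ := Q) mS.aemeasurable
  have i2 := Measure.isProbabilityMeasure_map (μ := Pb) mb.aemeasurable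
  refine ac_of_approx fun ε hε => ?_
  obtain ⟨C, hC, hev⟩ := core_le hw hm hc hlim x hK' hx' hε
  refine ⟨C, hC, fun s F hF hF01 => ?_⟩
  have hF1 : ∀ v, |F v| ≤ 1 := fun v => by rw [abs_of_nonneg (hF01 v).1]; exact (hF01 v).2
  have hFm : Measurable fun v : ι → ℝ => F fun i : s => v i :=
    hF.measurable.comp (measurable_pi_iff.2 fun i => measurable_pi_apply _)
  rw [integral_map mS.aemeasurable hFm.aestronglyMeasurable,
    integral_map mb.aemeasurable hFm.aestronglyMeasurable]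
  have h1 := psi_tendsto hw hm hlim (fun i : s => x i) (fun i => hx' i) hF hF1
  have h2 := ((clt_fdd hb (fun i : s => x i) hK' (fun i => hx' i) hF hF1).const_mul C).add_const ε
  refine le_of_tendsto_of_tendsto h1 h2 ?_
  have hex : IsProbabilityMeasure (ex (1 / 2)) := prob_ex (by norm_num)
  filter_upwards [hev] with n hn
  have mw : Measurable fun y : Sq => wlk n K' (fun i : s => x i) y := measurable_wlk _ _ _
  refine int_le_of_lint (hF.measurable.comp ((measurable_psi n _).comp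
    (measurable_pi_iff.2 fun k => measurable_top (hw n) (n - 1) k)))
    (hF.measurable.comp mw) (fun _ => (hF01 _).1) (fun _ => (hF01 _).2) (fun _ => (hF01 _).1)
    (fun _ => (hF01 _).2) hC hε.le ?_
  exact hn (fun v => ENNReal.ofReal (F fun i : s => v i)) hFm.ennreal_ofReal
    (fun v => ENNReal.ofReal_le_one.2 (hF01 _).2)

end Pool.Agent.H22.DL
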