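import Pool.Agent.H22.DL.BrRW
import Pool.Agent.H22.DL.Rev
import Pool.Agent.H22.DL.Kolm

/-!
# Module Low: a bridge with high endpoints stays high

Let `M = j - i`, `c = (i + j) / 2`. Some `B k < L + 2 k` with `k ≤ c` needs
`ps (k - i) - 2 (k - i) < -R √M`: `rs_le_rw` and `kolmogorov` give at most `C * 4 (M/2) / (R² M)`.
For `k > c` use `rs_rev`: `(rev i j B) (i + j - k) = B i + B j - B k`, so with `k' = i + j - k` one
needs `ps (k' - i) - 2 (k' - i) > R √M`.
-/

open MeasureTheory ProbabilityTheory Filter Topology Set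
open scoped ENNReal

namespace Pool.Agent.H22.DL

/-- the form of `rs_le_rw` used here -/
theorem low_le {C : ℝ} {i c j : ℕ} {A : Sq}
    (h : ∀ Φ : Sq → ℝ≥0∞, Measurable Φ →
      (∀ B B' : Sq, (∀ k, (k ≤ c ∨ j ≤ k) → B k = B' k) → Φ B = Φ B') →
      ∫⁻ B, Φ B ∂(rs i j A) ≤ ENNReal.ofReal C * ∫⁻ x, Φ (path i c A x) ∂(ex (1 / 2)))
    {E W : Set Sq} (hE : MeasurableSet E)
    (hdep : ∀ B B' : Sq, (∀ k, (k ≤ c ∨ j ≤ k) → B k = B' k) → B ∈ E → B' ∈ E)
    (hW : ∀ x, path i c A x ∈ E → x ∈ W) :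
    rs i j A E ≤ ENNReal.ofReal C * ex (1 / 2) W := by
  have h1 := h (E.indicator 1) (measurable_one.indicator hE) (fun B B' hBB => by
    by_cases hB : B ∈ E
    · rw [Set.indicator_of_mem hB, Set.indicator_of_mem (hdep B B' hBB hB)]
      rfl
    · have hB' : B' ∉ E := fun hB' => hB (hdep B' B (fun k hk => (hBB k hk).symm) hB')
      rw [Set.indicator_of_notMem hB, Set.indicator_of_notMem hB'])
  rw [lintegral_indicator_one hE] at h1
  refine h1.trans (mul_le_mul' le_rfl ?_)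
  have hT : MeasurableSet (path i c A ⁻¹' E) := measurable_path i c A hE
  have e : (fun x => E.indicator (1 : Sq → ℝ≥0∞) (path i c A x)) =
      (path i c A ⁻¹' E).indicator 1 := by
    funext x
    by_cases hx : path i c A x ∈ E
    · rw [Set.indicator_of_mem hx, Set.indicator_of_mem (show x ∈ path i c A ⁻¹' E from hx)]
      rfl
    · rw [Set.indicator_of_notMem hx,
        Set.indicator_of_notMem (show x ∉ path i c A ⁻¹' E from hx)]
  rw [e, lintegral_indicator_one hT]
  exact measure_mono fun x hx => hW x hx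

theorem bridge_low (C₀ : ℝ) {ε : ℝ} (hε : 0 < ε) : ∃ R₀ : ℝ, 0 < R₀ ∧ ∃ M₀ : ℕ,
    ∀ i j : ℕ, M₀ ≤ j - i → ∀ (A : Sq) (L R : ℝ), R₀ ≤ R → A i < A j →
    L + 2 * i + R * √((j : ℝ) - i) ≤ A i → L + 2 * j + R * √((j : ℝ) - i) ≤ A j →
    |A j - A i - 2 * ((j : ℝ) - i)| ≤ C₀ * √((j : ℝ) - i) →
    rs i j A (bar (fun k => L + 2 * k) i j)ᶜ ≤ ENNReal.ofReal ε := by
  obtain ⟨C, hC, M₁, hle⟩ := rs_le_rw C₀
  refine ⟨√(4 * C / ε) + 1, by positivity, max M₁ 2, fun i j hM A L R hR hAlt hAi hAj hAA => ?_⟩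
  have h2 : 2 ≤ j - i := (le_max_right _ _).trans hM
  have hij : i < j := by omega
  have hMpos : (0 : ℝ) < (j : ℝ) - i := by
    have : (i : ℝ) < j := by exact_mod_cast hij
    linarith
  have hR0 : 0 < R := by
    have := Real.sqrt_nonneg (4 * C / ε)
    linarith
  have hRsq : 4 * C / ε ≤ R ^ 2 := by
    have h8 : (0 : ℝ) ≤ 4 * C / ε := by positivity
    calc 4 * C / ε = √(4 * C / ε) ^ 2 := (Real.sq_sqrt h8).symm
      _ ≤ R ^ 2 := pow_le_pow_left₀ (Real.sqrt_nonneg _) (by linarith) 2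
  set S : ℝ := √((j : ℝ) - i) with hS
  have hSpos : 0 < S := Real.sqrt_pos.2 hMpos
  have hS2 : S ^ 2 = (j : ℝ) - i := Real.sq_sqrt hMpos.le
  set c : ℕ := (i + j) / 2 with hc
  have hic : i < c := by omega
  have hcj : c < j := by omega
  have hle' := hle i c j (by omega) hic hcj (by omega) A hAlt hAA
  have hcc : 2 * ((c - i : ℕ) : ℝ) ≤ (j : ℝ) - i := by
    have h3 : 2 * (c - i) ≤ j - i := by omega
    have h4 : (2 : ℝ) * ((c - i : ℕ) : ℝ) ≤ ((j - i : ℕ) : ℝ) := by exact_mod_cast h3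
    rwa [Nat.cast_sub hij.le] at h4
  have hK : ex (1 / 2) {x | ∃ k ≤ c - i, R * S ≤ |ps x k - 2 * k|} ≤
      ENNReal.ofReal (2 / R ^ 2) := by
    refine (kolmogorov (c - i) (by positivity)).trans (ENNReal.ofReal_le_ofReal ?_)
    rw [mul_pow, hS2, div_le_div_iff₀ (by positivity) (by positivity)]
    nlinarith [mul_le_mul_of_nonneg_right hcc (sq_nonneg R)]
  have hfin : ENNReal.ofReal C * ENNReal.ofReal (2 / R ^ 2) ≤ ENNReal.ofReal (ε / 2) := by
    rw [← ENNReal.ofReal_mul hC.le]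
    refine ENNReal.ofReal_le_ofReal ?_
    rw [div_le_iff₀ hε] at hRsq
    rw [← mul_div_assoc, div_le_iff₀ (by positivity)]
    nlinarith
  set E1 : Set Sq := {B | ∃ k : ℕ, i < k ∧ k ≤ c ∧ B k < L + 2 * k} with hE1
  set E2 : Set Sq := {B | ∃ k : ℕ, c < k ∧ k < j ∧ B k < L + 2 * k} with hE2
  have hsub : (bar (fun k => L + 2 * k) i j)ᶜ ⊆ E1 ∪ E2 := by
    intro B hB
    simp only [bar, Set.mem_compl_iff, Set.mem_ofPred_eq, not_forall] at hB
    obtain ⟨k, h1, h2, h3⟩ := hB
    push Not at h3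
    rcases le_or_gt k c with h4 | h4
    · exact Or.inl ⟨k, h1, h4, h3⟩
    · exact Or.inr ⟨k, h4, h2, h3⟩
  have hE1m : MeasurableSet E1 := by
    have e : E1 = ⋃ k : ℕ, ⋃ _ : i < k, ⋃ _ : k ≤ c, {B : Sq | B k < L + 2 * k} := by
      ext B
      simp only [hE1, Set.mem_ofPred_eq, Set.mem_iUnion, exists_prop]
    rw [e]
    exact MeasurableSet.iUnion fun k => MeasurableSet.iUnion fun _ => MeasurableSet.iUnion fun _ =>
      measurableSet_lt (measurable_pi_apply k) measurable_const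
  have hE2m : MeasurableSet E2 := by
    have e : E2 = ⋃ k : ℕ, ⋃ _ : c < k, ⋃ _ : k < j, {B : Sq | B k < L + 2 * k} := by
      ext B
      simp only [hE2, Set.mem_ofPred_eq, Set.mem_iUnion, exists_prop]
    rw [e]
    exact MeasurableSet.iUnion fun k => MeasurableSet.iUnion fun _ => MeasurableSet.iUnion fun _ =>
      measurableSet_lt (measurable_pi_apply k) measurable_const
  have hR1 : rs i j A E1 ≤ ENNReal.ofReal (ε / 2) := by
    refine (low_le hle' hE1m ?_ (W := {x | ∃ k ≤ c - i, R * S ≤ |ps x k - 2 * k|}) ?_).trans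
      ((mul_le_mul' le_rfl hK).trans hfin)
    · rintro B B' hBB ⟨k, h1, h2, h3⟩
      exact ⟨k, h1, h2, by rw [← hBB k (Or.inl h2)]; exact h3⟩
    · rintro x ⟨k, h1, h2, h3⟩
      refine ⟨k - i, by omega, ?_⟩
      have hpath : path i c A x k = A i + ps x (k - i) := by
        unfold path
        rw [if_pos ⟨h1, h2⟩]
      rw [hpath] at h3
      have hki : ((k - i : ℕ) : ℝ) = (k : ℝ) - i := by rw [Nat.cast_sub h1.le]
      rw [hki]
      refine le_trans ?_ (neg_le_abs _)
      linarith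
  have hR2 : rs i j A E2 ≤ ENNReal.ofReal (ε / 2) := by
    rw [← rs_rev hij A hE2m]
    have hr : ∀ (D : Sq) (k : ℕ), i ≤ k → k ≤ j → rev i j D k = D i + D j - D (i + j - k) := by
      intro D k h1 h2
      unfold rev
      rw [if_pos ⟨h1, h2⟩]
    refine (low_le hle' (measurable_rev i j hE2m) ?_
      (W := {x | ∃ k ≤ c - i, R * S ≤ |ps x k - 2 * k|}) ?_).trans
      ((mul_le_mul' le_rfl hK).trans hfin)
    · rintro B B' hBB ⟨k, h1, h2, h3⟩
      refine ⟨k, h1, h2, ?_⟩
      rw [hr _ _ (by omega) (by omega)] at h3 ⊢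
      rw [← hBB i (Or.inl hic.le), ← hBB j (Or.inr le_rfl), ← hBB (i + j - k) (Or.inl (by omega))]
      exact h3
    · rintro x ⟨k, h1, h2, h3⟩
      refine ⟨i + j - k - i, by omega, ?_⟩
      rw [hr _ _ (by omega) (by omega)] at h3
      have hpi : path i c A x i = A i := by
        unfold path
        rw [if_neg (by omega)]
      have hpj : path i c A x j = A j := by
        unfold path
        rw [if_neg (by omega)]
      have hpk : path i c A x (i + j - k) = A i + ps x (i + j - k - i) := by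
        unfold path
        rw [if_pos ⟨by omega, by omega⟩]
      rw [hpi, hpj, hpk] at h3
      have hki : ((i + j - k - i : ℕ) : ℝ) = (j : ℝ) - k := by
        have : i + j - k - i = j - k := by omega
        rw [this, Nat.cast_sub (by omega)]
      rw [hki]
      refine le_trans ?_ (le_abs_self _)
      linarith
  calc rs i j A (bar (fun k => L + 2 * k) i j)ᶜ ≤ rs i j A (E1 ∪ E2) := measure_mono hsub
    _ ≤ rs i j A E1 + rs i j A E2 := measure_union_le _ _
    _ ≤ ENNReal.ofReal (ε / 2) + ENNReal.ofReal (ε / 2) := add_le_add hR1 hR2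
    _ = ENNReal.ofReal ε := by
      rw [← ENNReal.ofReal_add (by positivity) (by positivity)]
      congr 1
      ring

end Pool.Agent.H22.DL
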