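import Pool.Agent.H22.DL.FinRa
import Pool.Agent.H22.DL.Low

/-!
# Module FinR: the converse (paper 7.2)

Fix `K`, the constant `C` of `goodZ` for the window `(-2K-1, 4K+1)` with `ε = 1/2`. For `R > 0` let
`U_R` = {the line at `jn n (-K)` and at `jn n (3K)` is within `C rt n` of
`2 n + 2 k + R rt n`, the barrier is below `2 n + 2 k + C rt n` on the window between them}.
(1) `κ (U_R) ≥ p (R) > 0` uniformly in `n`: `kappa_hat` with a bump `φ = R` on `[-K, 3K]`
(neighbourhood), supported in `(-2K, 4K)`, `G = 1_{U_R}` and `l` large, because the deformed line is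
in `U_R` on the event of `goodZ` (`UR_ge`).
(2) on `U_R`: `∫ F d rs ≥ c₁ E_walk (F; |block sum - 2 k| ≤ R₀ ..)` (`rs_ge_rw`, `c₁` independent of
`R`), `rs (bar h)ᶜ ≤ e (R)`, `e (R) → 0` (`bridge_low`): `kappa_ge`.
(3) given `ε`: choose `R₀` (`kolmogorov`), then `R`, `C = 1 / (c₁ p (R))`.
-/

open MeasureTheory ProbabilityTheory Filter Topology Set
open scoped ENNReal

namespace Pool.Agent.H22.DL

open Pool.Agent.H37.DL

section

variable {Ω' : Type} [MeasurableSpace Ω'] {Q : Measure Ω'} [IsProbabilityMeasure Q]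
  {S' : Ω' → ℝ × ℝ → ℝ} {w : ℕ → Ω' → ℤ → ℕ → ℝ}

theorem core_ge (hw : ∀ n, IsExpWeights Q (w n)) (hm : ∀ p, Measurable fun ω => S' ω p)
    (hc : ∀ ω, Continuous (S' ω))
    (hlim : ∀ R : ℝ, ∀ ε : ℝ, 0 < ε → Tendsto
        (fun n : ℕ => Q {ω | ∃ p : ℝ × ℝ, |p.1| ≤ R ∧ |p.2| ≤ R ∧
          ε ≤ |Sn (w n ω) n p - S' ω p|}) atTop (𝓝 0))
    {ι : Type*} (x : ι → ℝ) {K : ℝ} (hK : 1 ≤ K) (hx : ∀ i, |x i| ≤ K) {ε : ℝ} (hε : 0 < ε) :
    ∃ C : ℝ, 0 ≤ C ∧ ∀ᶠ n : ℕ in atTop, ∀ F : (ι → ℝ) → ℝ≥0∞, Measurable F → (∀ v, F v ≤ 1) →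
      ∫⁻ y, F (wlk n K x y) ∂(ex (1 / 2)) ≤
        ENNReal.ofReal C * ∫⁻ ω, F (psi n x (top (w n ω) (n - 1))) ∂Q + ENNReal.ofReal ε := by
  have hK0 : 0 < K := by linarith
  obtain ⟨C₁, hC₁, e, he, hgood⟩ :=
    goodZ hw hm hc hlim (x₁ := -(2 * K)) (x₂ := 4 * K) (by linarith) (ε := 1 / 2) (by norm_num)
  set C₀ : ℝ := 2 * C₁ / √K with hC₀
  obtain ⟨R₀, hR₀, hR₀'⟩ : ∃ R₀ : ℝ, 0 < R₀ ∧ 4 / R₀ ^ 2 ≤ ε / 2 := by
    refine ⟨√(8 / ε), Real.sqrt_pos.2 (by positivity), ?_⟩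
    rw [Real.sq_sqrt (by positivity)]
    rw [div_div_eq_mul_div, div_le_div_iff₀ (by norm_num) (by norm_num)]
    linarith
  obtain ⟨c₁, hc₁, M₀, hrw⟩ := rs_ge_rw C₀ R₀
  obtain ⟨R₁, hR₁, M₁, hlow⟩ := bridge_low C₀ (ε := c₁ * (ε / 2)) (by positivity)
  set R : ℝ := 2 * C₁ + R₁ * √(3 * K) with hR
  have hR0 : 0 ≤ R := by positivity
  obtain ⟨p, hp, hUR⟩ := UR_ge hK hC₁ he hR0
  refine ⟨1 / (c₁ * p), by positivity, ?_⟩
  filter_upwards [hgood, win hK0 (max M₀ M₁), hUR, eventually_ge_atTop 1]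
    with n hgood hwin hUR hn F hF hF1
  obtain ⟨w1, w2, w3, w4, w5, w6⟩ := hwin
  obtain ⟨κ, hκ, hmap⟩ := exists_gibbs (hw n) (n - 1) (jn n (4 * K + 1))
  have hprob := hκ.prob
  have hgood' := hgood _ κ hκ le_rfl hmap
  have hUR' := hUR _ κ hκ le_rfl hgood'
  set i := jn n (-K) with hi
  set c := jn n K with hcd
  set j := jn n (3 * K) with hj
  set N := jn n (4 * K + 1) with hN
  have hjN : j ≤ N := jn_mono n (by linarith)
  have hrt : 0 < rt n := rt_pos hn
  have hex : IsProbabilityMeasure (ex (1 / 2)) := prob_ex (by norm_num)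
  set Φ : Sq → ℝ≥0∞ := fun B => F (psi n x B) with hΦd
  have hΦ : Measurable Φ := hF.comp (measurable_psi n x)
  have hpsi : ∀ B B' : Sq, (∀ k ≤ c, B k = B' k) → psi n x B = psi n x B' := by
    intro B B' h
    funext t
    unfold psi
    rw [h _ (jn_mono n (le_of_abs_le (hx t))), h _ (jn_mono n hK0.le)]
  rw [← lint_top (hw n) hmap hΦ fun B B' h => congrArg F (hpsi B B' fun k hk => h k
    (hk.trans (w3.le.trans hjN)))]
  set s : ℝ := √((j : ℝ) - i) with hs
  have hspos : 0 < s := lt_of_lt_of_le (by positivity) w5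
  set V : Set Sq := {y | |ps y (c - i) - 2 * ((c : ℝ) - i)| ≤ R₀ * s} with hV
  have hVm : MeasurableSet V :=
    measurableSet_le ((measurable_ps _).sub_const _).abs measurable_const
  have hVc : ex (1 / 2) Vᶜ ≤ ENNReal.ofReal (ε / 2) := by
    have hci : ((c - i : ℕ) : ℝ) = (c : ℝ) - i := by
      rw [Nat.cast_sub (by omega)]
    refine (measure_mono ?_).trans ((kolmogorov (c - i) (l := R₀ * s) (by positivity)).trans
      (ENNReal.ofReal_le_ofReal ?_))
    · intro y hy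
      simp only [hV, mem_compl_iff, mem_setOf_eq, not_le] at hy
      exact ⟨c - i, le_rfl, by rw [hci]; exact hy.le⟩
    · refine le_trans ?_ hR₀'
      rw [hci, mul_pow, hs, Real.sq_sqrt (by
        have : (i : ℝ) ≤ j := by exact_mod_cast (by omega : i ≤ j)
        linarith)]
      have h1 : (c : ℝ) - i ≤ (j : ℝ) - i := by
        have : (c : ℝ) ≤ j := by exact_mod_cast w3.le
        linarith
      have h2 : (0 : ℝ) < (j : ℝ) - i := by
        have : (i : ℝ) < j := by exact_mod_cast (by omega : i < j)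
        linarith
      rw [div_le_div_iff₀ (by positivity) (by positivity)]
      have h3 : 4 * R₀ ^ 2 * ((c : ℝ) - i) ≤ 4 * R₀ ^ 2 * ((j : ℝ) - i) := by gcongr
      linarith
  have hge := kappa_ge hκ (i := i) (j := j) (by omega) hjN
    (E := fun h A => UR n i j C₁ R h A) (measurableSet_UR n i j C₁ R)
    (fun h B B' hB => by
      unfold UR
      rw [hB i (Or.inl le_rfl), hB j (Or.inr le_rfl)]) hΦ (fun B => hF1 _)
    (X := ENNReal.ofReal c₁ * ∫⁻ y in V, F (wlk n K x y) ∂(ex (1 / 2)))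
    (e := ENNReal.ofReal (c₁ * (ε / 2))) (by
      rintro h A ⟨⟨h1, h2⟩, h3⟩ hA
      have h4 : |A j - A i - 2 * ((j : ℝ) - i)| ≤ C₀ * √((j : ℝ) - i) := by
        have : |A j - A i - 2 * ((j : ℝ) - i)| ≤ 2 * C₁ * rt n := by
          rw [abs_le] at h1 h2 ⊢
          constructor <;> linarith
        refine this.trans ?_
        have hsK : 0 < √K := Real.sqrt_pos.2 hK0
        calc 2 * C₁ * rt n = 2 * C₁ / √K * (√K * rt n) := by field_simp
          _ ≤ _ := by gcongr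
      constructor
      · have := hrw i c j ((le_max_left _ _).trans w1) (by omega) w3 w4 A hA h4 Φ hΦ
          (fun B B' hB => congrArg F (hpsi B B' fun k hk => hB k (Or.inl hk)))
        refine le_trans (le_of_eq ?_) this
        congr 1
        refine lintegral_congr fun y => ?_
        show _ = F (psi n x (path i c A y))
        rw [hi, hcd, psi_path hK0.le hx]
      · have h5 : R₁ * √((j : ℝ) - i) ≤ (R - 2 * C₁) * rt n := by
          calc R₁ * √((j : ℝ) - i) ≤ R₁ * (√(3 * K) * rt n) := by gcongr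
            _ = _ := by rw [hR]; ring
        rw [abs_le] at h1 h2
        have := hlow i j ((le_max_right _ _).trans w1) A (2 * n + C₁ * rt n) R₁ le_rfl hA
          (by linarith [h1.1]) (by linarith [h2.1]) h4
        refine (measure_mono (compl_subset_compl.2 ?_)).trans this
        intro B hB k hk1 hk2
        refine (h3 k hk1 hk2).trans (le_trans (le_of_eq ?_) (hB k hk1 hk2))
        ring)
  -- put together
  have hIle : ∫⁻ y, F (wlk n K x y) ∂(ex (1 / 2)) ≤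
      ∫⁻ y in V, F (wlk n K x y) ∂(ex (1 / 2)) + ENNReal.ofReal (ε / 2) := by
    rw [← lintegral_add_compl _ hVm]
    gcongr
    calc ∫⁻ y in Vᶜ, F (wlk n K x y) ∂(ex (1 / 2)) ≤ ∫⁻ y in Vᶜ, 1 ∂(ex (1 / 2)) :=
          lintegral_mono fun p => hF1 _
      _ = ex (1 / 2) Vᶜ := by simp
      _ ≤ _ := hVc
  refine hIle.trans ?_
  have hfi : ∫⁻ y in V, F (wlk n K x y) ∂(ex (1 / 2)) ≠ ⊤ := by
    refine ne_top_of_le_ne_top (measure_ne_top (ex (1 / 2)) V) ?_
    calc ∫⁻ y in V, F (wlk n K x y) ∂(ex (1 / 2)) ≤ ∫⁻ y in V, 1 ∂(ex (1 / 2)) :=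
          lintegral_mono fun p => hF1 _
      _ = _ := by simp
  have hfj : ∫⁻ p, Φ p.2 ∂κ ≠ ⊤ := by
    refine ne_top_of_le_ne_top (measure_ne_top κ univ) ?_
    calc ∫⁻ p, Φ p.2 ∂κ ≤ ∫⁻ p, 1 ∂κ := lintegral_mono fun p => hF1 _
      _ = _ := by simp
  have h6 := (mul_le_mul_right hUR' _).trans hge
  rw [← ENNReal.ofReal_toReal hfi] at h6 ⊢
  rw [← ENNReal.ofReal_toReal hfj] at h6 ⊢
  set a := (∫⁻ y in V, F (wlk n K x y) ∂(ex (1 / 2))).toReal with ha
  set b := (∫⁻ p, Φ p.2 ∂κ).toReal with hb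
  have ha0 : 0 ≤ a := ENNReal.toReal_nonneg
  have hb0 : 0 ≤ b := ENNReal.toReal_nonneg
  rw [← ENNReal.ofReal_mul hc₁.le, ← ENNReal.ofReal_sub _ (by positivity),
    ← ENNReal.ofReal_mul' hp.le, ENNReal.ofReal_le_ofReal_iff hb0] at h6
  rw [← ENNReal.ofReal_mul (by positivity), ← ENNReal.ofReal_add ha0 (by positivity),
    ← ENNReal.ofReal_add (by positivity) hε.le]
  refine ENNReal.ofReal_le_ofReal ?_
  have h7 : a ≤ 1 / (c₁ * p) * b + ε / 2 := by
    rw [one_div, inv_mul_eq_div, ← sub_le_iff_le_add, le_div_iff₀ (by positivity)]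
    nlinarith
  linarith

end

theorem ac_right {Ω : Type*} [MeasurableSpace Ω] {P : Measure Ω} [IsProbabilityMeasure P]
    {S : Ω → ℝ × ℝ → ℝ} (hS : IsAirySheet P S) {Ωb : Type*} [MeasurableSpace Ωb]
    {Pb : Measure Ωb} [IsProbabilityMeasure Pb] {b : Ωb → ℝ → ℝ} (hb : IsBM Pb b)
    {ι : Type*} [Countable ι] (x : ι → ℝ) (K : ℝ) (hx : ∀ i, |x i| ≤ K) :
    Pb.map (fun ω i => b ω (x i)) ≪ P.map (fun ω i => S ω (0, x i) - S ω (0, 0)) := by
  obtain ⟨Ω', mΩ', Q, S', w, hQ, hw, hm, hc, hmap, hlim⟩ := hS.limit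
  obtain ⟨K', hK', hx'⟩ : ∃ K' : ℝ, 1 ≤ K' ∧ ∀ i, |x i| ≤ K' :=
    ⟨max K 1, le_max_right _ _, fun i => (hx i).trans (le_max_left _ _)⟩
  have hK0 : 0 < K' := by linarith
  have hg : Measurable fun (f : ℝ × ℝ → ℝ) (i : ι) => f (0, x i) - f (0, 0) :=
    measurable_pi_iff.2 fun i => (measurable_pi_apply _).sub (measurable_pi_apply _)
  have e0 : P.map (fun ω i => S ω (0, x i) - S ω (0, 0)) =
      Q.map fun ω i => S' ω (0, x i) - S' ω (0, 0) := map_incr hS.meas hm hmap hg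
  rw [e0]
  have mS : Measurable fun ω (i : ι) => S' ω (0, x i) - S' ω (0, 0) :=
    measurable_pi_iff.2 fun i => (hm _).sub (hm _)
  have mb : Measurable fun ω (i : ι) => b ω (x i) := measurable_pi_iff.2 fun i => hb.meas _
  have i1 := Measure.isProbabilityMeasure_map (μ := Q) mS.aemeasurable
  have i2 := Measure.isProbabilityMeasure_map (μ := Pb) mb.aemeasurable
  refine ac_of_approx fun ε hε => ?_
  obtain ⟨C, hC, hev⟩ := core_ge hw hm hc hlim x hK' hx' hε
  refine ⟨C, hC, fun s F hF hF01 => ?_⟩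
  have hF1 : ∀ v, |F v| ≤ 1 := fun v => by rw [abs_of_nonneg (hF01 v).1]; exact (hF01 v).2
  have hFm : Measurable fun v : ι → ℝ => F fun i : s => v i :=
    hF.measurable.comp (measurable_pi_iff.2 fun i => measurable_pi_apply _)
  rw [integral_map mS.aemeasurable hFm.aestronglyMeasurable,
    integral_map mb.aemeasurable hFm.aestronglyMeasurable]
  have h1 := ((psi_tendsto hw hm hlim (fun i : s => x i) (fun i => hx' i) hF hF1).const_mul
    C).add_const ε
  have h2 := clt_fdd hb (fun i : s => x i) hK0 (fun i => hx' i) hF hF1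
  refine le_of_tendsto_of_tendsto h2 h1 ?_
  have hex : IsProbabilityMeasure (ex (1 / 2)) := prob_ex (by norm_num)
  filter_upwards [hev] with n hn
  refine int_le_of_lint (hF.measurable.comp (measurable_wlk _ _ _))
    (hF.measurable.comp ((measurable_psi n _).comp
    (measurable_pi_iff.2 fun k => measurable_top (hw n) (n - 1) k)))
    (fun _ => (hF01 _).1) (fun _ => (hF01 _).2) (fun _ => (hF01 _).1)
    (fun _ => (hF01 _).2) hC hε.le ?_
  exact hn (fun v => ENNReal.ofReal (F fun i : s => v i)) hFm.ennreal_ofReal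
    (fun v => ENNReal.ofReal_le_one.2 (hF01 _).2)

end Pool.Agent.H22.DL
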