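import Pool.Agent.H22.DL.FinL
import Pool.Agent.H22.DL.HatK

/-!
# The line is high with positive probability (paper 7.2, first part)
-/

open MeasureTheory ProbabilityTheory Filter Topology Set
open scoped ENNReal

namespace Pool.Agent.H22.DL

open Pool.Agent.H37.DL

/-- the line is near `2 n + 2 k + R rt n` at the ends, the barrier is low -/
def UR (n i j : ℕ) (C R : ℝ) (h A : Sq) : Prop :=
  (|A i - 2 * n - 2 * i - R * rt n| ≤ C * rt n ∧ |A j - 2 * n - 2 * j - R * rt n| ≤ C * rt n) ∧
    ∀ k, i < k → k < j → h k ≤ 2 * n + 2 * k + C * rt n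

theorem measurableSet_UR (n i j : ℕ) (C R : ℝ) :
    MeasurableSet {p : Sq × Sq | UR n i j C R p.1 p.2} := by
  have hev : ∀ k : ℕ, Measurable fun p : Sq × Sq => p.2 k :=
    fun k => (measurable_pi_apply k).comp measurable_snd
  have hev1 : ∀ k : ℕ, Measurable fun p : Sq × Sq => p.1 k :=
    fun k => (measurable_pi_apply k).comp measurable_fst
  have h1 : MeasurableSet {p : Sq × Sq | |p.2 i - 2 * n - 2 * i - R * rt n| ≤ C * rt n} :=
    measurableSet_le ((((hev _).sub_const _).sub_const _).sub_const _).abs measurable_const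
  have h2 : MeasurableSet {p : Sq × Sq | |p.2 j - 2 * n - 2 * j - R * rt n| ≤ C * rt n} :=
    measurableSet_le ((((hev _).sub_const _).sub_const _).sub_const _).abs measurable_const
  have h3 : MeasurableSet {p : Sq × Sq | ∀ k, i < k → k < j →
      p.1 k ≤ 2 * n + 2 * k + C * rt n} := by
    have : {p : Sq × Sq | ∀ k, i < k → k < j → p.1 k ≤ 2 * n + 2 * k + C * rt n} =
        ⋂ k : ℕ, ⋂ (_ : i < k), ⋂ (_ : k < j),
          {p : Sq × Sq | p.1 k ≤ 2 * n + 2 * k + C * rt n} := by
      ext p; simp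
    rw [this]
    exact MeasurableSet.iInter fun k => MeasurableSet.iInter fun _ =>
      MeasurableSet.iInter fun _ => measurableSet_le (hev1 k) measurable_const
  exact (h1.inter h2).inter h3

theorem measurable_tw' (i j : ℕ) {T : ℝ → ℝ} (hT : Measurable T) : Measurable (tw i j T) := by
  refine measurable_pi_iff.2 fun k => ?_
  unfold tw
  by_cases h : i < k ∧ k < j
  · simp only [h, and_self, if_true]
    exact hT.comp (measurable_pi_apply k)
  · simp only [h, if_false]
    exact measurable_pi_apply k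

/-- position of the value `v` on the rescaled axis -/
noncomputable def pos (n : ℕ) (v : ℝ) : ℝ := (v / 2 - 2 * n) / sc n

theorem pos_near (K C : ℝ) : ∀ᶠ n : ℕ in atTop, ∀ x : ℝ, |x| ≤ K → ∀ v : ℝ,
    |v - 2 * n - 2 * jn n x| ≤ C * rt n → |pos n v - x| ≤ 1 / 4 := by
  have h1 : ∀ᶠ n : ℕ in atTop, C * (rt n / sc n) < 1 / 4 := by
    have := tendsto_rt_div_sc.const_mul C
    rw [mul_zero] at this
    exact this.eventually (gt_mem_nhds (by norm_num))
  filter_upwards [h1, jn_bounds K, tendsto_sc.eventually_ge_atTop 8, eventually_ge_atTop 1]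
    with n h1 h2 h3 hn x hx v hv
  have hs : 0 < sc n := sc_pos hn
  obtain ⟨a, b, -⟩ := h2 x hx
  have h4 : C * rt n < 1 / 4 * sc n := by
    rw [← mul_div_assoc, div_lt_iff₀ hs] at h1
    exact h1
  have e : pos n v - x = (v - 4 * n - 2 * (sc n * x)) / (2 * sc n) := by
    unfold pos
    field_simp
    ring
  rw [e, abs_div, abs_of_pos (by positivity : (0 : ℝ) < 2 * sc n), div_le_iff₀ (by positivity)]
  rw [abs_le] at hv ⊢
  constructor <;> nlinarith

theorem UR_ge {K : ℝ} (hK : 1 ≤ K) {C e R : ℝ} (hC : 0 < C) (he : 0 < e) (hR : 0 ≤ R) :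
    ∃ p : ℝ, 0 < p ∧ ∀ᶠ n : ℕ in atTop, ∀ (N : ℕ) (κ : Measure (Sq × Sq)), GibbsPair N κ →
      jn n (4 * K + 1) ≤ N →
      κ {p | (∀ k, jn n (-(2 * K) - 1) ≤ k → k ≤ jn n (4 * K + 1) →
            |p.2 k - 2 * n - 2 * k| ≤ C * rt n ∧ p.1 k ≤ 2 * n + 2 * k + C * rt n) ∧
          ENNReal.ofReal e ≤ Zf p.1 (jn n (-(2 * K))) (jn n (4 * K)) p.2}ᶜ ≤
        ENNReal.ofReal (1 / 2) →
      ENNReal.ofReal p ≤ κ {q | UR n (jn n (-K)) (jn n (3 * K)) C R q.1 q.2} := by
  classical
  let f : ContDiffBump K := ⟨2 * K + 1 / 2, 3 * K - 1 / 4, by linarith, by linarith⟩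
  have hf1 : ContDiff ℝ 1 f := f.contDiff
  have hfd : Continuous (deriv f) := hf1.continuous_deriv le_rfl
  obtain ⟨D, hD⟩ := hfd.bounded_above_of_compact_support f.hasCompactSupport.deriv
  have hD0 : 0 ≤ D := (norm_nonneg _).trans (hD 0)
  set B : ℝ := Real.exp (2 * (R * D) ^ 2 * (7 * K)) with hB
  have hBpos : 0 < B := Real.exp_pos _
  set l : ℝ := 4 * B / e with hl
  have hlpos : 0 < l := by positivity
  refine ⟨1 / (4 * l), by positivity, ?_⟩
  have e1 : ∀ᶠ n : ℕ in atTop, R * D * (rt n / sc n) < 1 := by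
    have := tendsto_rt_div_sc.const_mul (R * D)
    rw [mul_zero] at this
    exact this.eventually (gt_mem_nhds (by norm_num))
  filter_upwards [e1, pos_near (4 * K + 1) C, jn_bounds (4 * K + 1),
    tendsto_sc.eventually_ge_atTop 8, eventually_ge_atTop 1] with n e1 hpos hjn hs8 hn N κ hκ hN hgood
  have hs : 0 < sc n := sc_pos hn
  have hrt : 0 < rt n := rt_pos hn
  have hsq := rt_sq n
  have hprob := hκ.prob
  set I := jn n (-(2 * K)) with hI
  set J := jn n (4 * K) with hJ
  set i := jn n (-K) with hi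
  set j := jn n (3 * K) with hj
  obtain ⟨I1, I2, -⟩ := hjn (-(2 * K)) (by rw [abs_neg, abs_of_pos (by linarith)]; linarith)
  obtain ⟨J1, J2, -⟩ := hjn (4 * K) (by rw [abs_of_pos (by linarith)]; linarith)
  obtain ⟨i1, i2, -⟩ := hjn (-K) (by rw [abs_neg, abs_of_pos (by linarith)]; linarith)
  obtain ⟨j1, j2, -⟩ := hjn (3 * K) (by rw [abs_of_pos (by linarith)]; linarith)
  rw [← hI] at I1 I2
  rw [← hJ] at J1 J2
  rw [← hi] at i1 i2
  rw [← hj] at j1 j2
  have hIi : I < i := by
    have : (I : ℝ) < i := by nlinarith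
    exact_mod_cast this
  have hij : i + 1 < j := by
    have : ((i + 1 : ℕ) : ℝ) < j := by push_cast; nlinarith
    exact_mod_cast this
  have hjJ : j < J := by
    have : (j : ℝ) < J := by nlinarith
    exact_mod_cast this
  have hJN : J ≤ N := (jn_mono n (by linarith)).trans hN
  -- the deformation
  set T : ℝ → ℝ := fun v => v + rt n * (R * f (pos n v)) with hTd
  set T' : ℝ → ℝ := fun v => 1 + rt n * (R * (deriv f (pos n v) * (1 / 2 / sc n))) with hT'd
  have hposd : ∀ v, HasDerivAt (pos n) (1 / 2 / sc n) v := fun v =>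
    (((hasDerivAt_id v).div_const 2).sub_const _).div_const _
  have hT : ∀ v, HasDerivAt T (T' v) v := fun v => by
    have h1 : HasDerivAt f (deriv f (pos n v)) (pos n v) :=
      (hf1.differentiable one_ne_zero _).hasDerivAt
    exact (hasDerivAt_id v).add (((h1.comp v (hposd v)).const_mul R).const_mul (rt n))
  have hposc : Continuous (pos n) := by unfold pos; fun_prop
  have hT'c : Continuous T' := by
    have := hfd.comp hposc
    simp only [Function.comp_def] at this
    simp only [hT'd]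
    fun_prop
  have hTc : Continuous T := by
    have := hf1.continuous.comp hposc
    simp only [Function.comp_def] at this
    simp only [hTd]
    fun_prop
  set η : ℝ := R * D * (rt n / sc n) / 2 with hη
  have hη0 : 0 ≤ η := by positivity
  have hη1 : ∀ v, |T' v - 1| ≤ η := fun v => by
    have h1 := hD (pos n v)
    rw [Real.norm_eq_abs] at h1
    have : T' v - 1 = rt n * (R * (deriv f (pos n v) * (1 / 2 / sc n))) := by
      simp only [hT'd]; ring
    rw [this, abs_mul, abs_mul, abs_mul, abs_of_pos hrt, abs_of_nonneg hR,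
      abs_of_pos (by positivity : (0 : ℝ) < 1 / 2 / sc n)]
    calc rt n * (R * (|deriv f (pos n v)| * (1 / 2 / sc n))) ≤
        rt n * (R * (D * (1 / 2 / sc n))) := by gcongr
      _ = η := by rw [hη]; field_simp
  have hη2 : η ≤ 1 / 2 := by rw [hη]; linarith
  have hup : ∀ v, v ≤ T v := fun v => by
    simp only [hTd]
    have := f.nonneg (x := pos n v)
    have : 0 ≤ rt n * (R * f (pos n v)) := by positivity
    linarith
  have hT0 : ∀ v : ℝ, |v - 2 * n - 2 * I| ≤ C * rt n → T v = v := fun v hv => by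
    have := hpos (-(2 * K)) (by rw [abs_neg, abs_of_pos (by linarith)]; linarith) v hv
    have h0 : f (pos n v) = 0 := f.zero_of_le_dist (by
      show 3 * K - 1 / 4 ≤ dist (pos n v) K
      rw [Real.dist_eq, abs_sub_comm]
      rw [abs_le] at this
      refine le_trans ?_ (le_abs_self _)
      linarith [this.2])
    simp [hTd, h0]
  have hT1 : ∀ v : ℝ, |v - 2 * n - 2 * J| ≤ C * rt n → T v = v := fun v hv => by
    have := hpos (4 * K) (by rw [abs_of_pos (by linarith)]; linarith) v hv
    have h0 : f (pos n v) = 0 := f.zero_of_le_dist (by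
      show 3 * K - 1 / 4 ≤ dist (pos n v) K
      rw [Real.dist_eq]
      rw [abs_le] at this
      refine le_trans ?_ (le_abs_self _)
      linarith [this.1])
    simp [hTd, h0]
  have hTi : ∀ v : ℝ, |v - 2 * n - 2 * i| ≤ C * rt n → T v = v + R * rt n := fun v hv => by
    have := hpos (-K) (by rw [abs_neg, abs_of_pos (by linarith)]; linarith) v hv
    have h0 : f (pos n v) = 1 := f.one_of_mem_closedBall (by
      show dist (pos n v) K ≤ 2 * K + 1 / 2
      rw [Real.dist_eq, abs_le]
      rw [abs_le] at this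
      constructor <;> linarith [this.1, this.2])
    simp only [hTd, h0]; ring
  have hTj : ∀ v : ℝ, |v - 2 * n - 2 * j| ≤ C * rt n → T v = v + R * rt n := fun v hv => by
    have := hpos (3 * K) (by rw [abs_of_pos (by linarith)]; linarith) v hv
    have h0 : f (pos n v) = 1 := f.one_of_mem_closedBall (by
      show dist (pos n v) K ≤ 2 * K + 1 / 2
      rw [Real.dist_eq, abs_le]
      rw [abs_le] at this
      constructor <;> linarith [this.1, this.2])
    simp only [hTd, h0]; ring
  -- the event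
  set E : Sq → Sq → Prop := fun h A => (|A I - 2 * n - 2 * I| ≤ C * rt n ∧
    |A J - 2 * n - 2 * J| ≤ C * rt n) ∧ ENNReal.ofReal e ≤ Zf h I J A with hEd
  have hev : ∀ k : ℕ, Measurable fun p : Sq × Sq => p.2 k :=
    fun k => (measurable_pi_apply k).comp measurable_snd
  have hE : MeasurableSet {p : Sq × Sq | E p.1 p.2} := by
    refine MeasurableSet.inter (MeasurableSet.inter ?_ ?_) ?_
    · exact measurableSet_le (((hev _).sub_const _).sub_const _).abs measurable_const
    · exact measurableSet_le (((hev _).sub_const _).sub_const _).abs measurable_const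
    · exact measurableSet_le measurable_const (measurable_Zf I J)
  have hEdep : ∀ h B B', (∀ k, (k ≤ I ∨ J ≤ k) → B k = B' k) → (E h B ↔ E h B') := by
    intro h B B' hB
    have h1 := Zf_congr (show I < J by omega) h (hB I (Or.inl le_rfl)) (hB J (Or.inr le_rfl))
    simp only [hEd]
    rw [h1, hB I (Or.inl le_rfl), hB J (Or.inr le_rfl)]
  set G : Sq → Sq → ℝ≥0∞ := fun h A => if UR n i j C R h A then 1 else 0 with hGd
  have hG : Measurable (Function.uncurry G) :=
    Measurable.ite (measurableSet_UR n i j C R) measurable_const measurable_const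
  have hmain := kappa_hat hκ (i := I) (j := J) (by omega) hJN hE hEdep hT hT'c hη1 hη2 hup he
    (fun h A hEh _ => ⟨hT0 _ hEh.1.1, hT1 _ hEh.1.2, hEh.2⟩) hG hlpos
  set W : Set (Sq × Sq) := {p | E p.1 p.2 ∧ UR n i j C R p.1 (tw I J T p.2)} with hW
  have hWm : MeasurableSet W := hE.inter ((measurableSet_UR n i j C R).preimage
    (measurable_fst.prodMk ((measurable_tw' I J hTc.measurable).comp measurable_snd)))
  have hκW : κ Wᶜ ≤ ENNReal.ofReal (1 / 2) := by
    refine (measure_mono (compl_subset_compl.2 ?_)).trans hgood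
    rintro p ⟨h1, h2⟩
    have b1 : jn n (-(2 * K) - 1) ≤ I := jn_mono n (by linarith)
    have b2 : J ≤ jn n (4 * K + 1) := jn_mono n (by linarith)
    refine ⟨⟨⟨(h1 I b1 (by omega)).1, (h1 J (by omega) b2).1⟩, h2⟩, ⟨?_, ?_⟩, ?_⟩
    · have h3 := (h1 i (by omega) (by omega)).1
      have h4 : tw I J T p.2 i = p.2 i + R * rt n := by
        unfold tw
        rw [if_pos ⟨hIi, by omega⟩]
        exact hTi _ h3
      rw [h4]
      convert h3 using 2
      ring
    · have h3 := (h1 j (by omega) (by omega)).1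
      have h4 : tw I J T p.2 j = p.2 j + R * rt n := by
        unfold tw
        rw [if_pos ⟨by omega, hjJ⟩]
        exact hTj _ h3
      rw [h4]
      convert h3 using 2
      ring
    · intro k hk1 hk2
      exact (h1 k (by omega) (by omega)).2
  have hlow : κ W ≤ ∫⁻ p in {p : Sq × Sq | E p.1 p.2}, G p.1 (tw I J T p.2) ∂κ := by
    rw [← lintegral_indicator_one hWm, ← lintegral_indicator hE]
    refine lintegral_mono fun p => ?_
    by_cases hp : p ∈ W
    · rw [indicator_of_mem hp, indicator_of_mem (show p ∈ {p : Sq × Sq | E p.1 p.2} from hp.1)]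
      simp only [hGd, Pi.one_apply]
      rw [if_pos hp.2]
    · rw [indicator_of_notMem hp]
      exact bot_le
  have hup' : ∫⁻ p in {p : Sq × Sq | E p.1 p.2}, G p.1 p.2 ^ 2 ∂κ ≤
      κ {q | UR n i j C R q.1 q.2} := by
    rw [← lintegral_indicator_one (measurableSet_UR n i j C R)]
    refine (setLIntegral_le_lintegral _ _).trans (lintegral_mono fun p => ?_)
    by_cases hp : UR n i j C R p.1 p.2
    · rw [indicator_of_mem (show p ∈ {q : Sq × Sq | UR n i j C R q.1 q.2} from hp)]
      simp [hGd, hp]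
    · simp [hGd, hp]
  have hexp : l⁻¹ * Real.exp (2 * η ^ 2 * (J - I - 1 : ℕ)) / e ≤ 1 / 4 := by
    have hm : ((J - I - 1 : ℕ) : ℝ) ≤ 7 * K * sc n := by
      have h1 : ((J - I - 1 : ℕ) : ℝ) ≤ (J : ℝ) - I := by
        have : J - I - 1 + I ≤ J := by omega
        have : ((J - I - 1 + I : ℕ) : ℝ) ≤ J := by exact_mod_cast this
        push_cast at this
        linarith
      nlinarith
    have h1 : Real.exp (2 * η ^ 2 * (J - I - 1 : ℕ)) ≤ B := by
      rw [hB]
      refine Real.exp_le_exp.2 ?_
      have h2 : η ^ 2 * sc n = (R * D) ^ 2 / 2 := by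
        rw [hη, div_pow, mul_pow, div_pow, hsq]
        field_simp
      calc 2 * η ^ 2 * (J - I - 1 : ℕ) ≤ 2 * η ^ 2 * (7 * K * sc n) := by gcongr
        _ = 2 * (7 * K) * (η ^ 2 * sc n) := by ring
        _ = 2 * (7 * K) * ((R * D) ^ 2 / 2) := by rw [h2]
        _ ≤ 2 * (R * D) ^ 2 * (7 * K) := by nlinarith [sq_nonneg (R * D)]
    calc l⁻¹ * Real.exp (2 * η ^ 2 * (J - I - 1 : ℕ)) / e ≤ l⁻¹ * B / e := by gcongr
      _ = 1 / 4 := by rw [hl]; field_simp
  have hfin : κ W ≤ ENNReal.ofReal l * κ {q | UR n i j C R q.1 q.2} + ENNReal.ofReal (1 / 4) :=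
    hlow.trans (hmain.trans (add_le_add (mul_le_mul_right hup' _)
      (ENNReal.ofReal_le_ofReal hexp)))
  have h1W : 1 ≤ κ W + ENNReal.ofReal (1 / 2) := by
    rw [← prob_add_prob_compl (μ := κ) hWm]
    gcongr
  have hu : κ {q | UR n i j C R q.1 q.2} ≠ ⊤ := measure_ne_top _ _
  rw [← ENNReal.ofReal_toReal hu] at hfin ⊢
  refine ENNReal.ofReal_le_ofReal ?_
  set u := (κ {q | UR n i j C R q.1 q.2}).toReal with hu'
  have hu0 : 0 ≤ u := ENNReal.toReal_nonneg
  have h2 := h1W.trans (add_le_add_left hfin _)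
  rw [← ENNReal.ofReal_mul hlpos.le, ← ENNReal.ofReal_add (by positivity) (by norm_num),
    ← ENNReal.ofReal_add (by positivity) (by norm_num), ENNReal.one_le_ofReal] at h2
  rw [div_le_iff₀ (by positivity)]
  linarith

end Pool.Agent.H22.DL
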