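import Pool.Agent.H22.DL.Paths
import Pool.Agent.H22.DL.Vol

/-!
# Module OnePt: one point of the bridge

With `m = j - i - 1` interior points, `a = k - i`, for all `s ≥ 1`, `0 ≤ p ≤ 1`,
`rs i j A {B | B k ≤ A i + (A j - A i) p} ≤ s ^ (-a) (1 + (s - 1) p) ^ m`
(the Chernoff bound for the binomial law with parameters `m`, `p`), by induction on `j` from the
recursion `rs_rec`; then `s = exp (t / 2)`.
-/

open MeasureTheory ProbabilityTheory Filter Topology Set
open scoped ENNReal

namespace Pool.Agent.H22.DL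

theorem OnePt_integral {m : ℕ} (hm : 1 ≤ m) {c a b : ℝ} (hac : 0 ≤ a + c) (hab : a ≤ b) :
    ∫⁻ τ in Ioc a b, ENNReal.ofReal (m * (τ + c) ^ (m - 1)) =
      ENNReal.ofReal ((b + c) ^ m - (a + c) ^ m) := by
  have hcont : Continuous fun τ : ℝ => (m : ℝ) * (τ + c) ^ (m - 1) := by fun_prop
  have hint : IntegrableOn (fun τ : ℝ => (m : ℝ) * (τ + c) ^ (m - 1)) (Ioc a b) :=
    (hcont.integrableOn_Icc).mono_set Ioc_subset_Icc_self
  rw [← ofReal_integral_eq_lintegral_ofReal hint]
  · congr 1
    rw [← intervalIntegral.integral_of_le hab]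
    refine intervalIntegral.integral_eq_sub_of_hasDerivAt (f := fun τ => (τ + c) ^ m)
      (fun x _ => ?_) (hcont.intervalIntegrable _ _)
    have := ((hasDerivAt_id x).add_const c).fun_pow m
    simpa using this
  · refine (ae_restrict_mem measurableSet_Ioc).mono fun τ hτ => ?_
    have : 0 ≤ τ + c := by linarith [hτ.1]
    positivity

theorem OnePt_bt {m : ℕ} {g : ℝ → ℝ≥0∞} (hg : Measurable g) :
    ∫⁻ τ, g τ ∂bt m = ∫⁻ τ in Ioc 0 1, ENNReal.ofReal (m * τ ^ (m - 1)) * g τ := by
  unfold bt
  rw [lintegral_withDensity_eq_lintegral_mul _ (by fun_prop) hg]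
  rfl

/-- monotone version without measurability -/
theorem OnePt_bt_le {m : ℕ} {g h : ℝ → ℝ≥0∞} (hh : Measurable h)
    (hgh : ∀ τ ∈ Ioc (0 : ℝ) 1, g τ ≤ h τ) :
    ∫⁻ τ, g τ ∂bt m ≤ ∫⁻ τ in Ioc 0 1, ENNReal.ofReal (m * τ ^ (m - 1)) * h τ := by
  rw [← OnePt_bt hh]
  refine lintegral_mono_ae ?_
  have h1 : ∀ᵐ τ ∂(volume.restrict (Ioc (0 : ℝ) 1)), g τ ≤ h τ :=
    (ae_restrict_mem measurableSet_Ioc).mono hgh
  exact (withDensity_absolutelyContinuous _ _) h1

theorem OnePt_set (k : ℕ) (c : ℝ) : MeasurableSet {B : Sq | B k ≤ c} :=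
  measurableSet_le (measurable_pi_apply k) measurable_const

/-- Chernoff bound -/
theorem OnePt_chernoff {s : ℝ} (hs : 1 ≤ s) (i a : ℕ) (ha : 1 ≤ a) (m : ℕ) (ham : a ≤ m) :
    ∀ (A : Sq), A i < A (i + m + 1) → ∀ p : ℝ, 0 ≤ p → p ≤ 1 →
      rs i (i + m + 1) A {B | B (i + a) ≤ A i + (A (i + m + 1) - A i) * p} ≤
        ENNReal.ofReal ((s ^ a)⁻¹ * (1 + (s - 1) * p) ^ m) := by
  have hs0 : (0 : ℝ) < s := by linarith
  induction m, ham using Nat.le_induction with
  | base =>
    intro A hA p hp0 hp1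
    rw [← lintegral_indicator_one (OnePt_set _ _), rs_rec (by omega) hA
      (measurable_one.indicator (OnePt_set _ _))]
    have e1 : i + a + 1 - 1 = i + a := by omega
    have e2 : i + a + 1 - i - 1 = a := by omega
    rw [e1, e2]
    have hle : ∀ τ ∈ Ioc (0 : ℝ) 1,
        ∫⁻ B, ({B : Sq | B (i + a) ≤ A i + (A (i + a + 1) - A i) * p}).indicator 1 B
          ∂(rs i (i + a) (Function.update A (i + a) (A i + (A (i + a + 1) - A i) * τ))) ≤
        (Iic p).indicator 1 τ := by
      intro τ hτ
      rw [lintegral_indicator_one (OnePt_set _ _)]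
      by_cases hτp : τ ≤ p
      · rw [indicator_of_mem (show τ ∈ Iic p from hτp)]
        have hA' : (Function.update A (i + a) (A i + (A (i + a + 1) - A i) * τ)) i <
            (Function.update A (i + a) (A i + (A (i + a + 1) - A i) * τ)) (i + a) := by
          rw [Function.update_self, Function.update_of_ne (by omega)]
          nlinarith [hτ.1, mul_pos (sub_pos.2 hA) hτ.1]
        have := prob_rs (i := i) (j := i + a) (by omega) hA'
        exact prob_le_one
      · have h0 : rs i (i + a) (Function.update A (i + a) (A i + (A (i + a + 1) - A i) * τ))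
            {B | B (i + a) ≤ A i + (A (i + a + 1) - A i) * p} = 0 := by
          rw [measure_eq_zero_iff_ae_notMem]
          filter_upwards [ae_rs i (i + a)
            (Function.update A (i + a) (A i + (A (i + a + 1) - A i) * τ))] with B hB hB'
          have h1 := hB.2 (i + a) (Or.inr le_rfl)
          rw [Function.update_self] at h1
          have h2 : B (i + a) ≤ A i + (A (i + a + 1) - A i) * p := hB'
          rw [h1] at h2
          push Not at hτp
          nlinarith [mul_lt_mul_of_pos_left hτp (sub_pos.2 hA)]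
        rw [h0]
        exact zero_le
    refine (OnePt_bt_le (measurable_one.indicator measurableSet_Iic) hle).trans ?_
    have e3 : ∫⁻ τ in Ioc (0 : ℝ) 1, ENNReal.ofReal (a * τ ^ (a - 1)) * (Iic p).indicator 1 τ =
        ∫⁻ τ in Ioc 0 p, ENNReal.ofReal (a * (τ + 0) ^ (a - 1)) := by
      have : (fun τ : ℝ => ENNReal.ofReal (a * τ ^ (a - 1)) * (Iic p).indicator 1 τ) =
          (Iic p).indicator fun τ : ℝ => ENNReal.ofReal (a * (τ + 0) ^ (a - 1)) := by
        funext τ
        by_cases h : τ ∈ Iic p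
        · rw [indicator_of_mem h, indicator_of_mem h]
          simp
        · rw [indicator_of_notMem h, indicator_of_notMem h, mul_zero]
      rw [this, lintegral_indicator measurableSet_Iic,
        Measure.restrict_restrict measurableSet_Iic]
      congr 2
      ext x
      simp only [mem_inter_iff, mem_Iic, mem_Ioc]
      constructor
      · rintro ⟨h1, h2, h3⟩
        exact ⟨h2, h1⟩
      · rintro ⟨h1, h2⟩
        exact ⟨h2, h1, h2.trans hp1⟩
    rw [e3, OnePt_integral ha (by simp) hp0]
    refine ENNReal.ofReal_le_ofReal ?_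
    rw [← inv_pow, ← mul_pow, add_zero, add_zero, zero_pow (by omega), sub_zero]
    refine pow_le_pow_left₀ hp0 ?_ _
    rw [inv_mul_eq_div, le_div_iff₀ hs0]
    nlinarith
  | succ m ham ih =>
    intro A hA p hp0 hp1
    rw [← lintegral_indicator_one (OnePt_set _ _), rs_rec (by omega) hA
      (measurable_one.indicator (OnePt_set _ _))]
    have e1 : i + (m + 1) + 1 - 1 = i + m + 1 := by omega
    have e2 : i + (m + 1) + 1 - i - 1 = m + 1 := by omega
    rw [e1, e2]
    set J := i + (m + 1) + 1 with hJ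
    set h : ℝ → ℝ≥0∞ := fun τ => if τ ≤ p then 1 else
      ENNReal.ofReal ((s ^ a)⁻¹ * (1 + (s - 1) * (p / τ)) ^ m) with hh
    have hhm : Measurable h := by
      refine Measurable.ite measurableSet_Iic measurable_const ?_
      fun_prop
    have hle : ∀ τ ∈ Ioc (0 : ℝ) 1,
        ∫⁻ B, ({B : Sq | B (i + a) ≤ A i + (A J - A i) * p}).indicator 1 B
          ∂(rs i (i + m + 1) (Function.update A (i + m + 1) (A i + (A J - A i) * τ))) ≤ h τ := by
      intro τ hτ
      rw [lintegral_indicator_one (OnePt_set _ _)]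
      have hA' : (Function.update A (i + m + 1) (A i + (A J - A i) * τ)) i <
          (Function.update A (i + m + 1) (A i + (A J - A i) * τ)) (i + m + 1) := by
        rw [Function.update_self, Function.update_of_ne (by omega)]
        nlinarith [hτ.1, mul_pos (sub_pos.2 hA) hτ.1]
      by_cases hτp : τ ≤ p
      · simp only [hh, if_pos hτp]
        have := prob_rs (i := i) (j := i + m + 1) (by omega) hA'
        exact prob_le_one
      · simp only [hh, if_neg hτp]
        push Not at hτp
        have h3 := ih _ hA' (p / τ) (div_nonneg hp0 hτ.1.le) ((div_le_one hτ.1).2 hτp.le)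
        rw [Function.update_self, Function.update_of_ne (by omega)] at h3
        have e4 : A i + (A i + (A J - A i) * τ - A i) * (p / τ) = A i + (A J - A i) * p := by
          have := hτ.1.ne'
          field_simp
          ring
        rwa [e4] at h3
    refine (OnePt_bt_le hhm hle).trans ?_
    -- split the integral at `p`
    have hsplit : Ioc (0 : ℝ) 1 = Ioc 0 p ∪ Ioc p 1 := (Ioc_union_Ioc_eq_Ioc hp0 hp1).symm
    rw [hsplit, lintegral_union measurableSet_Ioc (by
      rw [Set.disjoint_left]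
      intro x hx hx'
      exact absurd hx.2 (not_le.2 hx'.1))]
    have i1 : ∫⁻ τ in Ioc (0 : ℝ) p, ENNReal.ofReal (((m + 1 : ℕ) : ℝ) * τ ^ (m + 1 - 1)) * h τ =
        ENNReal.ofReal (p ^ (m + 1)) := by
      have : ∫⁻ τ in Ioc (0 : ℝ) p, ENNReal.ofReal (((m + 1 : ℕ) : ℝ) * τ ^ (m + 1 - 1)) * h τ =
          ∫⁻ τ in Ioc (0 : ℝ) p, ENNReal.ofReal (((m + 1 : ℕ) : ℝ) * (τ + 0) ^ (m + 1 - 1)) := by
        refine setLIntegral_congr_fun measurableSet_Ioc fun τ hτ => ?_
        simp only [hh, if_pos hτ.2, mul_one, add_zero]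
      rw [this, OnePt_integral (by omega) (by simp) hp0]
      simp
    have i2 : ∫⁻ τ in Ioc p 1, ENNReal.ofReal (((m + 1 : ℕ) : ℝ) * τ ^ (m + 1 - 1)) * h τ =
        ENNReal.ofReal ((s ^ a)⁻¹) *
          ENNReal.ofReal ((1 + (s - 1) * p) ^ (m + 1) - (p + (s - 1) * p) ^ (m + 1)) := by
      rw [← OnePt_integral (c := (s - 1) * p) (by omega) (by nlinarith) hp1,
        ← lintegral_const_mul _ (by fun_prop)]
      refine setLIntegral_congr_fun measurableSet_Ioc fun τ hτ => ?_
      have hτ0 : 0 < τ := lt_of_le_of_lt hp0 hτ.1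
      simp only [hh, if_neg (not_le.2 hτ.1)]
      rw [← ENNReal.ofReal_mul (by positivity), ← ENNReal.ofReal_mul (by positivity)]
      congr 1
      have e5 : τ + (s - 1) * p = τ * (1 + (s - 1) * (p / τ)) := by
        field_simp
      rw [e5, mul_pow, Nat.add_sub_cancel]
      ring
    rw [i1, i2, ← ENNReal.ofReal_mul (by positivity), ← ENNReal.ofReal_add (by positivity) ?_]
    · refine ENNReal.ofReal_le_ofReal ?_
      have e6 : p + (s - 1) * p = s * p := by ring
      rw [e6, mul_sub, mul_pow]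
      have h7 : p ^ (m + 1) ≤ (s ^ a)⁻¹ * (s ^ (m + 1) * p ^ (m + 1)) := by
        rw [← mul_assoc]
        refine le_mul_of_one_le_left (by positivity) ?_
        rw [inv_mul_eq_div, le_div_iff₀ (by positivity), one_mul]
        exact pow_le_pow_right₀ hs (by omega)
      linarith
    · refine mul_nonneg (by positivity) (sub_nonneg.2 ?_)
      refine pow_le_pow_left₀ (by nlinarith) ?_ _
      linarith

theorem rs_onept {i k j : ℕ} (hik : i < k) (hkj : k < j) {A : Sq} (hA : A i < A j) {t : ℝ}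
    (ht : 0 ≤ t) :
    rs i j A {B | B k ≤ A i + (A j - A i) * (((k : ℝ) - i) / ((j : ℝ) - i) - t)} ≤
      ENNReal.ofReal (Real.exp (-((j : ℝ) - i) * t ^ 2 / 4)) := by
  obtain ⟨a, rfl⟩ : ∃ a, k = i + a := ⟨k - i, by omega⟩
  obtain ⟨m, rfl⟩ : ∃ m, j = i + m + 1 := ⟨j - i - 1, by omega⟩
  have ha : 1 ≤ a := by omega
  have ham : a ≤ m := by omega
  have eM : ((i + m + 1 : ℕ) : ℝ) - i = m + 1 := by push_cast; ring
  have ea : ((i + a : ℕ) : ℝ) - i = a := by push_cast; ring
  rw [eM, ea]
  have hM : (0 : ℝ) < (m : ℝ) + 1 := by positivity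
  have ham' : (a : ℝ) ≤ m := by exact_mod_cast ham
  set p : ℝ := (a : ℝ) / (m + 1) - t with hp
  have hq : (a : ℝ) / (m + 1) ≤ 1 := by
    rw [div_le_one hM]
    linarith
  rcases lt_or_ge p 0 with hp0 | hp0
  · have h0 : rs i (i + m + 1) A {B | B (i + a) ≤ A i + (A (i + m + 1) - A i) * p} = 0 := by
      rw [measure_eq_zero_iff_ae_notMem]
      filter_upwards [ae_rs i (i + m + 1) A] with B hB hB'
      have h1 : B i = A i := hB.2 i (Or.inl le_rfl)
      have h2 : B (i + a) ≤ A i + (A (i + m + 1) - A i) * p := hB'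
      have h3 : ∀ b, b ≤ m + 1 → B i ≤ B (i + b) := by
        intro b
        induction b with
        | zero => intro _; exact le_rfl
        | succ b ihb =>
          intro hb
          exact (ihb (by omega)).trans (hB.1 (i + b) (by omega) (by omega))
      have h4 := h3 a (by omega)
      nlinarith [mul_pos (sub_pos.2 hA) (neg_pos.2 hp0)]
    rw [h0]
    exact zero_le
  · have hp1 : p ≤ 1 := by linarith
    have ht1 : t ≤ 1 := by linarith
    have hs : 1 ≤ Real.exp (t / 2) := Real.one_le_exp (by linarith)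
    refine (OnePt_chernoff hs i a ha m ham A hA p hp0 hp1).trans (ENNReal.ofReal_le_ofReal ?_)
    have h1 : Real.exp (t / 2) - 1 ≤ t / 2 + (t / 2) ^ 2 := by
      have := Real.abs_exp_sub_one_sub_id_le (x := t / 2) (by rw [abs_le]; constructor <;> linarith)
      have := (abs_le.1 this).2
      linarith
    have h2 : 1 + (Real.exp (t / 2) - 1) * p ≤ Real.exp ((t / 2 + (t / 2) ^ 2) * p) := by
      have := Real.add_one_le_exp ((t / 2 + (t / 2) ^ 2) * p)
      nlinarith [mul_le_mul_of_nonneg_right h1 hp0]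
    have h3 : (1 + (Real.exp (t / 2) - 1) * p) ^ m ≤ Real.exp (m * ((t / 2 + (t / 2) ^ 2) * p)) := by
      rw [Real.exp_nat_mul]
      refine pow_le_pow_left₀ ?_ h2 _
      have : 0 ≤ (Real.exp (t / 2) - 1) * p := mul_nonneg (by linarith) hp0
      linarith
    have h4 : (Real.exp (t / 2) ^ a)⁻¹ = Real.exp (-(a * (t / 2))) := by
      rw [← Real.exp_nat_mul, Real.exp_neg]
    rw [h4]
    refine (mul_le_mul_of_nonneg_left h3 (Real.exp_nonneg _)).trans ?_
    rw [← Real.exp_add]
    refine Real.exp_le_exp.2 ?_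
    have h5 : (a : ℝ) = (m + 1) * (p + t) := by
      rw [hp]
      field_simp
      ring
    rw [h5]
    have h6 : (m : ℝ) * ((t / 2 + (t / 2) ^ 2) * p) ≤ (m + 1) * (t / 2 * p + (t / 2) ^ 2) := by
      have h7 : (t / 2 + (t / 2) ^ 2) * p ≤ t / 2 * p + (t / 2) ^ 2 := by nlinarith [sq_nonneg (t/2)]
      have h8 : 0 ≤ (t / 2 + (t / 2) ^ 2) * p := by positivity
      have h9 : (0 : ℝ) ≤ m := by positivity
      nlinarith
    nlinarith

end Pool.Agent.H22.DL
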