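import Pool.Agent.H22.DL.ConvInt
import Pool.Agent.H22.DL.GoodZ
import Pool.Agent.H22.DL.LcpA
import Pool.Agent.H22.DL.OnePt

/-!
# Module FinT: one-point lower tail (paper 7.4)

`hwin` is T3 (`IsAirySheet.window`). Fix `x`, `κ` large, `h = 28 κ²`. With probability at least
`1 - 2 exp (-0.55 κ³)` there are `y₁ ∈ [x - 5κ, x - κ]`, `y₂ ∈ [x + κ, x + 5κ]` with
`S(0, y) + y² > -κ²`; for `n` large the same for the discrete line with `-κ² - 1`, up to a small
probability. Let `i` be the first such column in the left window, `j` the last one in the right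
window (this event depends only on the columns `≤ i` and `≥ j`). `kappa_lower` with
`V = {B | B k₀ ≤ thr}`, `k₀ = jn n x`; `rs_mono` (lower the endpoints to
`2 n + 2 k + rt n (-κ² - 1 - y²)`), `rs_onept` with `t = κ² rt n / (distance of the endpoints)`:
bound `exp (-κ³ / 400)`. Sum over `(i, j)`; `n → ∞`.
-/

open MeasureTheory ProbabilityTheory Filter Topology Set
open scoped ENNReal

namespace Pool.Agent.H22.DL

open Pool.Agent.H37.DL

/-- the event that `i` is the first high column on the left and `j` the last one on the right -/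
def finT_E (thr : ℕ → ℝ) (i₀ j₁ i j : ℕ) (B : Sq) : Prop :=
  thr i < B i ∧ (∀ k, i₀ ≤ k → k < i → B k ≤ thr k) ∧ thr j < B j ∧
    (∀ k, j < k → k ≤ j₁ → B k ≤ thr k)

theorem finT_measurableSet_E (thr : ℕ → ℝ) (i₀ j₁ i j : ℕ) :
    MeasurableSet {p : Sq × Sq | finT_E thr i₀ j₁ i j p.2} := by
  have h1 : MeasurableSet {p : Sq × Sq | thr i < p.2 i} :=
    measurableSet_lt measurable_const (by fun_prop)
  have h2 : MeasurableSet {p : Sq × Sq | thr j < p.2 j} :=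
    measurableSet_lt measurable_const (by fun_prop)
  have h3 : MeasurableSet {p : Sq × Sq | ∀ k, i₀ ≤ k → k < i → p.2 k ≤ thr k} := by
    have : {p : Sq × Sq | ∀ k, i₀ ≤ k → k < i → p.2 k ≤ thr k} =
        ⋂ k, ⋂ (_ : i₀ ≤ k), ⋂ (_ : k < i), {p : Sq × Sq | p.2 k ≤ thr k} := by
      ext p; simp
    rw [this]
    exact MeasurableSet.iInter fun k => MeasurableSet.iInter fun _ => MeasurableSet.iInter fun _ =>
      measurableSet_le (by fun_prop) measurable_const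
  have h4 : MeasurableSet {p : Sq × Sq | ∀ k, j < k → k ≤ j₁ → p.2 k ≤ thr k} := by
    have : {p : Sq × Sq | ∀ k, j < k → k ≤ j₁ → p.2 k ≤ thr k} =
        ⋂ k, ⋂ (_ : j < k), ⋂ (_ : k ≤ j₁), {p : Sq × Sq | p.2 k ≤ thr k} := by
      ext p; simp
    rw [this]
    exact MeasurableSet.iInter fun k => MeasurableSet.iInter fun _ => MeasurableSet.iInter fun _ =>
      measurableSet_le (by fun_prop) measurable_const
  exact h1.inter (h3.inter (h2.inter h4))

theorem finT_disc {N : ℕ} {κ : Measure (Sq × Sq)} (hκ : GibbsPair N κ) {i₀ i₁ k₀ j₀ j₁ : ℕ}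
    (hik : i₁ < k₀) (hkj : k₀ < j₀) (hjN : j₁ ≤ N) {thr : ℕ → ℝ} {v : ℝ} {e : ℝ≥0∞}
    (hrs : ∀ i j, i₀ ≤ i → i ≤ i₁ → j₀ ≤ j → j ≤ j₁ → ∀ A : Sq, A i < A j → thr i < A i →
      thr j < A j → rs i j A {B | B k₀ ≤ v} ≤ e) :
    κ {p | (∃ i, i₀ ≤ i ∧ i ≤ i₁ ∧ thr i < p.2 i) ∧ (∃ j, j₀ ≤ j ∧ j ≤ j₁ ∧ thr j < p.2 j) ∧
      p.2 k₀ ≤ v} ≤ e := by
  classical
  have := hκ.prob
  set I : Finset (ℕ × ℕ) := Finset.Icc i₀ i₁ ×ˢ Finset.Icc j₀ j₁ with hI
  have hVm : MeasurableSet {B : Sq | B k₀ ≤ v} :=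
    measurableSet_le (measurable_pi_apply _) measurable_const
  have hV : IsLowerSet {B : Sq | B k₀ ≤ v} := fun B B' hBB hB => (hBB k₀).trans hB
  have hsub : {p : Sq × Sq | (∃ i, i₀ ≤ i ∧ i ≤ i₁ ∧ thr i < p.2 i) ∧
      (∃ j, j₀ ≤ j ∧ j ≤ j₁ ∧ thr j < p.2 j) ∧ p.2 k₀ ≤ v} ⊆
      ⋃ q ∈ I, {p : Sq × Sq | finT_E thr i₀ j₁ q.1 q.2 p.2 ∧ p.2 ∈ {B : Sq | B k₀ ≤ v}} := by
    rintro p ⟨hi, hj, hv⟩
    -- first column on the left
    have hi' : ∃ i, i₀ ≤ i ∧ i ≤ i₁ ∧ thr i < p.2 i ∧ ∀ k, i₀ ≤ k → k < i → p.2 k ≤ thr k := by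
      have hs := Nat.find_spec hi
      refine ⟨Nat.find hi, hs.1, hs.2.1, hs.2.2, fun k hk hk' => ?_⟩
      have := Nat.find_min hi hk'
      by_contra hcon
      exact this ⟨hk, by omega, not_le.1 hcon⟩
    -- last column on the right
    have hj' : ∃ j, j₀ ≤ j ∧ j ≤ j₁ ∧ thr j < p.2 j ∧ ∀ k, j < k → k ≤ j₁ → p.2 k ≤ thr k := by
      have hs := Nat.findGreatest_spec (P := fun j => j₀ ≤ j ∧ thr j < p.2 j) (n := j₁)
        hj.choose_spec.2.1 ⟨hj.choose_spec.1, hj.choose_spec.2.2⟩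
      refine ⟨Nat.findGreatest (fun j => j₀ ≤ j ∧ thr j < p.2 j) j₁, hs.1,
        Nat.findGreatest_le _, hs.2, fun k hk hk' => ?_⟩
      have := Nat.findGreatest_is_greatest hk hk'
      by_contra hcon
      exact this ⟨by omega, not_le.1 hcon⟩
    obtain ⟨i, a1, a2, a3, a4⟩ := hi'
    obtain ⟨j, b1, b2, b3, b4⟩ := hj'
    simp only [mem_iUnion]
    exact ⟨(i, j), by simp [hI, a1, a2, b1, b2], ⟨a3, a4, b3, b4⟩, hv⟩
  refine (measure_mono hsub).trans ((measure_biUnion_finset_le _ _).trans ?_)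
  have hterm : ∀ q ∈ I, κ {p : Sq × Sq | finT_E thr i₀ j₁ q.1 q.2 p.2 ∧
      p.2 ∈ {B : Sq | B k₀ ≤ v}} ≤ e * κ {p : Sq × Sq | finT_E thr i₀ j₁ q.1 q.2 p.2} := by
    intro q hq
    simp only [hI, Finset.mem_product, Finset.mem_Icc] at hq
    obtain ⟨⟨a1, a2⟩, b1, b2⟩ := hq
    refine kappa_lower hκ (i := q.1) (j := q.2) (by omega) (by omega)
      (E := fun _ B => finT_E thr i₀ j₁ q.1 q.2 B) (finT_measurableSet_E _ _ _ _ _) ?_ hV hVm ?_
    · intro _ B B' hBB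
      have e1 : B q.1 = B' q.1 := hBB _ (Or.inl le_rfl)
      have e2 : B q.2 = B' q.2 := hBB _ (Or.inr le_rfl)
      unfold finT_E
      rw [e1, e2]
      constructor
      · rintro ⟨c1, c2, c3, c4⟩
        exact ⟨c1, fun k h1 h2 => (hBB k (Or.inl h2.le)) ▸ c2 k h1 h2, c3,
          fun k h1 h2 => (hBB k (Or.inr h1.le)) ▸ c4 k h1 h2⟩
      · rintro ⟨c1, c2, c3, c4⟩
        exact ⟨c1, fun k h1 h2 => (hBB k (Or.inl h2.le)).symm ▸ c2 k h1 h2, c3,
          fun k h1 h2 => (hBB k (Or.inr h1.le)).symm ▸ c4 k h1 h2⟩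
    · intro _ A hA hAlt
      exact hrs q.1 q.2 a1 a2 b1 b2 A hAlt hA.1 hA.2.2.1
  refine (Finset.sum_le_sum hterm).trans ?_
  rw [← Finset.mul_sum]
  have hdisj : (I : Set (ℕ × ℕ)).PairwiseDisjoint
      (fun q => {p : Sq × Sq | finT_E thr i₀ j₁ q.1 q.2 p.2}) := by
    intro q hq q' hq' hne
    simp only [hI, Finset.coe_product, Finset.coe_Icc, mem_prod, mem_Icc] at hq hq'
    rw [Function.onFun, Set.disjoint_left]
    intro p hp hp'
    apply hne
    have hp1 : finT_E thr i₀ j₁ q.1 q.2 p.2 := hp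
    have hp2 : finT_E thr i₀ j₁ q'.1 q'.2 p.2 := hp'
    obtain ⟨c1, c2, c3, c4⟩ := hp1
    obtain ⟨d1, d2, d3, d4⟩ := hp2
    refine Prod.ext ?_ ?_
    · rcases lt_trichotomy q.1 q'.1 with h | h | h
      · exact absurd c1 (not_lt.2 (d2 _ hq.1.1 h))
      · exact h
      · exact absurd d1 (not_lt.2 (c2 _ hq'.1.1 h))
    · rcases lt_trichotomy q.2 q'.2 with h | h | h
      · exact absurd d3 (not_lt.2 (c4 _ h hq'.2.2))
      · exact h
      · exact absurd c3 (not_lt.2 (d4 _ h hq.2.2))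
  rw [← measure_biUnion_finset hdisj fun q _ => finT_measurableSet_E _ _ _ _ _]
  calc e * κ (⋃ b ∈ I, {p : Sq × Sq | finT_E thr i₀ j₁ b.1 b.2 p.2}) ≤ e * 1 := by
        gcongr
        exact prob_le_one
    _ = e := mul_one e

/-- the bound for the bridge -/
theorem finT_rs {i j k₀ : ℕ} (hik : i < k₀) (hkj : k₀ < j) {A : Sq} (hA : A i < A j)
    {a b v t : ℝ} (ha : a < A i) (hb : b < A j) (hab : a < b) (ht : 0 ≤ t)
    (hv : v ≤ a + (b - a) * (((k₀ : ℝ) - i) / ((j : ℝ) - i) - t)) :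
    rs i j A {B | B k₀ ≤ v} ≤ ENNReal.ofReal (Real.exp (-((j : ℝ) - i) * t ^ 2 / 4)) := by
  have hij : i < j := hik.trans hkj
  set A' : Sq := Function.update (Function.update A i a) j b with hA'
  have hi' : A' i = a := by
    rw [hA', Function.update_of_ne hij.ne, Function.update_self]
  have hj' : A' j = b := by rw [hA', Function.update_self]
  have hle : A' ≤ A := by
    intro k
    rw [hA']
    by_cases hk : k = j
    · subst hk; rw [Function.update_self]; exact hb.le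
    · rw [Function.update_of_ne hk]
      by_cases hk' : k = i
      · subst hk'; rw [Function.update_self]; exact ha.le
      · rw [Function.update_of_ne hk']
  have hA'lt : A' i < A' j := by rw [hi', hj']; exact hab
  have hp := prob_rs hij hA
  have hp' := prob_rs hij hA'lt
  have hVm : MeasurableSet {B : Sq | B k₀ ≤ v} :=
    measurableSet_le (measurable_pi_apply _) measurable_const
  have hU : IsUpperSet ({B : Sq | B k₀ ≤ v}ᶜ) := by
    intro B B' hBB hB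
    simp only [mem_compl_iff, Set.mem_ofPred_eq, not_le] at hB ⊢
    exact lt_of_lt_of_le hB (hBB k₀)
  have h1 := rs_mono hij hle hA'lt hA hU hVm.compl
  have h2 : rs i j A {B | B k₀ ≤ v} ≤ rs i j A' {B | B k₀ ≤ v} := by
    have e1 : rs i j A {B | B k₀ ≤ v} = 1 - rs i j A {B | B k₀ ≤ v}ᶜ := by
      rw [prob_compl_eq_one_sub hVm]
      exact (ENNReal.sub_sub_cancel ENNReal.one_ne_top prob_le_one).symm
    have e2 : rs i j A' {B | B k₀ ≤ v} = 1 - rs i j A' {B | B k₀ ≤ v}ᶜ := by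
      rw [prob_compl_eq_one_sub hVm]
      exact (ENNReal.sub_sub_cancel ENNReal.one_ne_top prob_le_one).symm
    rw [e1, e2]
    exact tsub_le_tsub_left h1 _
  refine h2.trans ((measure_mono ?_).trans (rs_onept hik hkj hA'lt ht))
  intro B hB
  simp only [Set.mem_ofPred_eq] at hB ⊢
  rw [hi', hj']
  exact hB.trans hv

/-- the threshold -/
noncomputable def finT_thr (n : ℕ) (K : ℝ) (k : ℕ) : ℝ :=
  2 * n + 2 * k + rt n * (-K ^ 2 - 1 - (((k : ℝ) - n) / sc n) ^ 2)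

/-- the level of the event -/
noncomputable def finT_v (n : ℕ) (x K : ℝ) : ℝ :=
  2 * n + 2 * (jn n x : ℕ) + rt n * (-x ^ 2 - 28 * K ^ 2 + 1)

theorem finT_num (x : ℝ) {K : ℝ} (hK : 10 ≤ K) : ∀ᶠ n : ℕ in atTop,
    jn n (x - K) < jn n x ∧ jn n x < jn n (x + K) ∧
    ∀ i j : ℕ, jn n (x - 5 * K) ≤ i → i ≤ jn n (x - K) → jn n (x + K) ≤ j →
      j ≤ jn n (x + 5 * K) → ∀ A : Sq, A i < A j → finT_thr n K i < A i → finT_thr n K j < A j →
      rs i j A {B | B (jn n x) ≤ finT_v n x K} ≤ ENNReal.ofReal (Real.exp (-K ^ 3 / 200)) := by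
  have habs := abs_nonneg x
  set R : ℝ := |x| + 6 * K with hR
  set C : ℝ := 2 * |x| + 4 * K + 2 with hC
  have hCpos : 0 < C := by positivity
  have hrs : ∀ᶠ n : ℕ in atTop, rt n / sc n < 1 / C :=
    tendsto_rt_div_sc.eventually_lt_const (by positivity)
  have hsc : ∀ᶠ n : ℕ in atTop, 10 * K + 2 * |x| + 2 ≤ sc n := tendsto_sc.eventually_ge_atTop _
  filter_upwards [jn_bounds R, hrs, hsc, eventually_ge_atTop 1] with n hjn hrs hsc hn
  have hs : 0 < sc n := sc_pos hn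
  have hr : 0 < rt n := rt_pos hn
  have hr2 : rt n ^ 2 = 2 * sc n := rt_sq n
  have hrC : rt n * C ≤ sc n := by
    rw [div_lt_div_iff₀ hs hCpos] at hrs
    linarith
  have hx1 := neg_abs_le x
  have hx2 := le_abs_self x
  obtain ⟨m1, m2, -⟩ := hjn (x - 5 * K) (by rw [abs_le]; constructor <;> linarith)
  obtain ⟨b1, b2, -⟩ := hjn (x - K) (by rw [abs_le]; constructor <;> linarith)
  obtain ⟨c1, c2, -⟩ := hjn x (by rw [abs_le]; constructor <;> linarith)
  obtain ⟨d1, d2, -⟩ := hjn (x + K) (by rw [abs_le]; constructor <;> linarith)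
  obtain ⟨e1, e2, -⟩ := hjn (x + 5 * K) (by rw [abs_le]; constructor <;> linarith)
  set s := sc n
  set r := rt n
  have hs1 : 1 ≤ s := by linarith
  have hsK : 10 ≤ s * K := by
    calc (10 : ℝ) = 1 * 10 := by norm_num
      _ ≤ s * K := mul_le_mul hs1 hK (by norm_num) hs.le
  have hlt1 : jn n (x - K) < jn n x := by
    have : (jn n (x - K) : ℝ) < jn n x := by
      have e : s * (x - K) = s * x - s * K := by ring
      linarith
    exact_mod_cast this
  have hlt2 : jn n x < jn n (x + K) := by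
    have : (jn n x : ℝ) < jn n (x + K) := by
      have e : s * (x + K) = s * x + s * K := by ring
      linarith
    exact_mod_cast this
  refine ⟨hlt1, hlt2, fun i j hi₀ hi₁ hj₀ hj₁ A hA hAi hAj => ?_⟩
  have hi₀' : (jn n (x - 5 * K) : ℝ) ≤ i := by exact_mod_cast hi₀
  have hi₁' : (i : ℝ) ≤ jn n (x - K) := by exact_mod_cast hi₁
  have hj₀' : (jn n (x + K) : ℝ) ≤ j := by exact_mod_cast hj₀
  have hj₁' : (j : ℝ) ≤ jn n (x + 5 * K) := by exact_mod_cast hj₁
  obtain ⟨yi, hyi⟩ : ∃ yi : ℝ, yi = ((i : ℝ) - n) / s := ⟨_, rfl⟩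
  obtain ⟨yj, hyj⟩ : ∃ yj : ℝ, yj = ((j : ℝ) - n) / s := ⟨_, rfl⟩
  obtain ⟨y0, hy0⟩ : ∃ y0 : ℝ, y0 = ((jn n x : ℝ) - n) / s := ⟨_, rfl⟩
  have hi : (i : ℝ) = n + s * yi := by rw [hyi]; field_simp; ring
  have hj : (j : ℝ) = n + s * yj := by rw [hyj]; field_simp; ring
  have h0 : (jn n x : ℝ) = n + s * y0 := by rw [hy0]; field_simp; ring
  obtain ⟨δ, hδ⟩ : ∃ δ : ℝ, δ = 1 / s := ⟨_, rfl⟩
  have hδ0 : 0 < δ := by rw [hδ]; positivity
  have hδs : s * δ = 1 := by rw [hδ]; field_simp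
  have hδ1 : δ * (10 * K + 2 * |x| + 2) ≤ 1 := by
    rw [← hδs, mul_comm s δ]
    exact mul_le_mul_of_nonneg_left hsc hδ0.le
  have hδle : δ ≤ 1 := by
    have h1 : (1 : ℝ) ≤ 10 * K + 2 * |x| + 2 := by linarith
    calc δ = δ * 1 := (mul_one δ).symm
      _ ≤ δ * (10 * K + 2 * |x| + 2) := mul_le_mul_of_nonneg_left h1 hδ0.le
      _ ≤ 1 := hδ1
  -- bounds of the coordinates
  have yi1 : x - 5 * K - δ ≤ yi := by
    have : s * (x - 5 * K - δ) ≤ s * yi := by
      have e : s * (x - 5 * K - δ) = s * (x - 5 * K) - 1 := by rw [mul_sub, hδs]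
      linarith
    exact le_of_mul_le_mul_left this hs
  have yi2 : yi ≤ x - K := by
    have : s * yi ≤ s * (x - K) := by linarith
    exact le_of_mul_le_mul_left this hs
  have y01 : x - δ ≤ y0 := by
    have : s * (x - δ) ≤ s * y0 := by
      have e : s * (x - δ) = s * (x) - 1 := by rw [mul_sub, hδs]
      linarith
    exact le_of_mul_le_mul_left this hs
  have y02 : y0 ≤ x := by
    have : s * y0 ≤ s * x := by linarith
    exact le_of_mul_le_mul_left this hs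
  have yj1 : x + K - δ ≤ yj := by
    have : s * (x + K - δ) ≤ s * yj := by
      have e : s * (x + K - δ) = s * (x + K) - 1 := by rw [mul_sub, hδs]
      linarith
    exact le_of_mul_le_mul_left this hs
  have yj2 : yj ≤ x + 5 * K := by
    have : s * yj ≤ s * (x + 5 * K) := by linarith
    exact le_of_mul_le_mul_left this hs
  obtain ⟨D, hD⟩ : ∃ D : ℝ, D = yj - yi := ⟨_, rfl⟩
  have hD1 : K ≤ D := by rw [hD]; linarith
  have hD2 : D ≤ 11 * K := by rw [hD]; linarith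
  have hD0 : 0 < D := by linarith
  have hsum : |yi + yj| ≤ C := by
    rw [abs_le, hC]
    constructor <;> linarith
  obtain ⟨u, hu⟩ : ∃ u : ℝ, u = yi + yj := ⟨_, rfl⟩
  have hru : |r * u| ≤ s := by
    rw [abs_mul, abs_of_pos hr, hu]
    exact (mul_le_mul_of_nonneg_left hsum hr.le).trans hrC
  rw [abs_le] at hru
  have hba : finT_thr n K j - finT_thr n K i = D * (2 * s - r * u) := by
    unfold finT_thr
    rw [← hyi, ← hyj, hi, hj, hD, hu]
    ring
  have hba1 : D * s ≤ finT_thr n K j - finT_thr n K i := by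
    rw [hba]
    exact mul_le_mul_of_nonneg_left (by linarith) hD0.le
  have hba2 : finT_thr n K j - finT_thr n K i ≤ 3 * D * s := by
    rw [hba]
    have := mul_le_mul_of_nonneg_left (show 2 * s - r * u ≤ 3 * s by linarith) hD0.le
    linarith
  have hba0 : 0 < finT_thr n K j - finT_thr n K i := lt_of_lt_of_le (by positivity) hba1
  obtain ⟨t, ht⟩ : ∃ t : ℝ, t = K ^ 2 * r / (finT_thr n K j - finT_thr n K i) := ⟨_, rfl⟩
  have ht0 : 0 ≤ t := by rw [ht]; positivity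
  have hji : ((j : ℝ) - i) = s * D := by rw [hi, hj, hD]; ring
  have hq : (finT_thr n K j - finT_thr n K i) * (((jn n x : ℝ) - i) / ((j : ℝ) - i)) =
      (2 * s - r * u) * (y0 - yi) := by
    rw [hji, hba, h0, hi]
    field_simp
    ring
  have htt : (finT_thr n K j - finT_thr n K i) * t = K ^ 2 * r := by
    rw [ht]
    field_simp
  have hv : finT_v n x K ≤ finT_thr n K i + (finT_thr n K j - finT_thr n K i) *
      (((jn n x : ℝ) - i) / ((j : ℝ) - i) - t) := by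
    rw [mul_sub, hq, htt]
    have hkey : -x ^ 2 - 28 * K ^ 2 + 1 ≤
        -K ^ 2 - 1 - yi ^ 2 - u * (y0 - yi) - K ^ 2 := by
      have e1 : yi ^ 2 + u * (y0 - yi) = y0 ^ 2 + (y0 - yi) * (yj - y0) := by rw [hu]; ring
      have f1 : 0 ≤ y0 - yi := by linarith
      have f2 : y0 - yi ≤ 5 * K + δ := by linarith
      have f3 : 0 ≤ yj - y0 := by linarith
      have f4 : yj - y0 ≤ 5 * K + δ := by linarith
      have f5 : (y0 - yi) * (yj - y0) ≤ (5 * K + δ) * (5 * K + δ) :=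
        mul_le_mul f2 f4 f3 (by linarith)
      have f6 : y0 ^ 2 - x ^ 2 ≤ δ * (2 * |x| + 1) := by
        have g1 : y0 ^ 2 - x ^ 2 = (x - y0) * (-(x + y0)) := by ring
        have g2 : -(x + y0) ≤ 2 * |x| + 1 := by linarith
        have g3 : 0 ≤ x - y0 := by linarith
        have g4 : x - y0 ≤ δ := by linarith
        rw [g1]
        calc (x - y0) * (-(x + y0)) ≤ (x - y0) * (2 * |x| + 1) :=
              mul_le_mul_of_nonneg_left g2 g3
          _ ≤ δ * (2 * |x| + 1) := mul_le_mul_of_nonneg_right g4 (by positivity)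
      have f7 : δ * δ ≤ δ * 1 := mul_le_mul_of_nonneg_left hδle hδ0.le
      have f8 : 100 ≤ K ^ 2 := by
        have := mul_le_mul hK hK (by norm_num) (by linarith)
        calc (100 : ℝ) = 10 * 10 := by norm_num
          _ ≤ K * K := this
          _ = K ^ 2 := by ring
      have f9 : (5 * K + δ) * (5 * K + δ) = 25 * K ^ 2 + 10 * (δ * K) + δ * δ := by ring
      have f10 : δ * (10 * K + 2 * |x| + 2) = 10 * (δ * K) + δ * (2 * |x| + 1) + δ := by ring
      linarith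
    unfold finT_v
    unfold finT_thr
    rw [← hyi, hi, h0]
    have h3 := mul_le_mul_of_nonneg_left hkey hr.le
    linarith
  refine (finT_rs (lt_of_le_of_lt hi₁ hlt1) (lt_of_lt_of_le hlt2 hj₀) hA hAi hAj
    (by linarith) ht0 hv).trans ?_
  apply ENNReal.ofReal_le_ofReal
  apply Real.exp_le_exp.2
  -- exponent
  have hexp : K ^ 3 / 200 ≤ ((j : ℝ) - i) * t ^ 2 / 4 := by
    rw [hji]
    have hK0 : 0 < K := by linarith
    have g1 : K ^ 2 * r / (3 * D * s) ≤ t := by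
      rw [ht]
      exact div_le_div_of_nonneg_left (by positivity) hba0 hba2
    have g2 : (K ^ 2 * r / (3 * D * s)) ^ 2 ≤ t ^ 2 := by
      gcongr
    have g3 : s * D * (K ^ 2 * r / (3 * D * s)) ^ 2 / 4 = K ^ 4 / (18 * D) := by
      have : (K ^ 2 * r / (3 * D * s)) ^ 2 = K ^ 4 * (2 * s) / (9 * D ^ 2 * s ^ 2) := by
        rw [div_pow, mul_pow, hr2]
        ring
      rw [this]
      field_simp
      ring
    have g4 : K ^ 3 / 200 ≤ K ^ 4 / (18 * D) := by
      rw [div_le_div_iff₀ (by norm_num) (by positivity)]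
      have h1 : K ^ 3 * (18 * D) ≤ K ^ 3 * (18 * (11 * K)) := by gcongr
      have h2 : K ^ 3 * (18 * (11 * K)) = 198 * K ^ 4 := by ring
      have h3 := pow_pos hK0 4
      linarith
    calc K ^ 3 / 200 ≤ K ^ 4 / (18 * D) := g4
      _ = s * D * (K ^ 2 * r / (3 * D * s)) ^ 2 / 4 := g3.symm
      _ ≤ s * D * t ^ 2 / 4 := by gcongr
  have e3 : -((j : ℝ) - i) * t ^ 2 / 4 = -(((j : ℝ) - i) * t ^ 2 / 4) := by ring
  rw [e3, neg_div]
  linarith

/-- the discrete event -/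
def finT_D (n : ℕ) (x K : ℝ) (A : Sq) : Prop :=
  (∃ i, jn n (x - 5 * K) ≤ i ∧ i ≤ jn n (x - K) ∧ finT_thr n K i < A i) ∧
    (∃ j, jn n (x + K) ≤ j ∧ j ≤ jn n (x + 5 * K) ∧ finT_thr n K j < A j) ∧
    A (jn n x) ≤ finT_v n x K

theorem finT_D_congr {n N : ℕ} {x K : ℝ} (hK : 0 ≤ K) (hN : jn n (x + 5 * K) ≤ N) {A B : Sq}
    (hAB : ∀ k ≤ N, A k = B k) : finT_D n x K A → finT_D n x K B := by
  rintro ⟨⟨i, h1, h2, h3⟩, ⟨j, h4, h5, h6⟩, h7⟩
  have m1 : jn n (x - K) ≤ jn n (x + 5 * K) := jn_mono n (by linarith)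
  have m2 : jn n x ≤ jn n (x + 5 * K) := jn_mono n (by linarith)
  exact ⟨⟨i, h1, h2, hAB i (by omega) ▸ h3⟩, ⟨j, h4, h5, hAB j (by omega) ▸ h6⟩,
    hAB (jn n x) (by omega) ▸ h7⟩

theorem finT_measurableSet_D {α : Type*} [MeasurableSpace α] (n : ℕ) (x K : ℝ) {f : α → Sq}
    (hf : Measurable f) : MeasurableSet {a | finT_D n x K (f a)} := by
  have hf' : ∀ k, Measurable fun a => f a k := fun k => (measurable_pi_apply k).comp hf
  refine MeasurableSet.inter (s₁ := {a | ∃ i, jn n (x - 5 * K) ≤ i ∧ i ≤ jn n (x - K) ∧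
    finT_thr n K i < f a i}) ?_ (MeasurableSet.inter (s₁ := {a | ∃ j, jn n (x + K) ≤ j ∧
    j ≤ jn n (x + 5 * K) ∧ finT_thr n K j < f a j}) ?_ (measurableSet_le (hf' _) measurable_const))
  · have : {a | ∃ i, jn n (x - 5 * K) ≤ i ∧ i ≤ jn n (x - K) ∧ finT_thr n K i < f a i} =
        ⋃ i, ⋃ (_ : jn n (x - 5 * K) ≤ i), ⋃ (_ : i ≤ jn n (x - K)),
          {a | finT_thr n K i < f a i} := by
      ext a
      simp only [Set.mem_ofPred_eq, mem_iUnion, exists_prop]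
    rw [this]
    exact MeasurableSet.iUnion fun _ => MeasurableSet.iUnion fun _ => MeasurableSet.iUnion fun _ =>
      measurableSet_lt measurable_const (hf' _)
  · have : {a | ∃ j, jn n (x + K) ≤ j ∧ j ≤ jn n (x + 5 * K) ∧ finT_thr n K j < f a j} =
        ⋃ i, ⋃ (_ : jn n (x + K) ≤ i), ⋃ (_ : i ≤ jn n (x + 5 * K)),
          {a | finT_thr n K i < f a i} := by
      ext a
      simp only [Set.mem_ofPred_eq, mem_iUnion, exists_prop]
    rw [this]
    exact MeasurableSet.iUnion fun _ => MeasurableSet.iUnion fun _ => MeasurableSet.iUnion fun _ =>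
      measurableSet_lt measurable_const (hf' _)

theorem finT_Dn {Ω : Type*} [MeasurableSpace Ω] {P : Measure Ω} [IsProbabilityMeasure P]
    {w : Ω → ℤ → ℕ → ℝ} (hw : IsExpWeights P w) {n : ℕ} {x K : ℝ} (hK : 0 ≤ K) {e : ℝ≥0∞}
    (hnum : jn n (x - K) < jn n x ∧ jn n x < jn n (x + K) ∧
      ∀ i j : ℕ, jn n (x - 5 * K) ≤ i → i ≤ jn n (x - K) → jn n (x + K) ≤ j →
        j ≤ jn n (x + 5 * K) → ∀ A : Sq, A i < A j → finT_thr n K i < A i →
        finT_thr n K j < A j → rs i j A {B | B (jn n x) ≤ finT_v n x K} ≤ e) :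
    P {ω | finT_D n x K (top (w ω) (n - 1))} ≤ e := by
  set N := jn n (x + 5 * K) with hN
  obtain ⟨κ, hκ, hmap⟩ := exists_gibbs hw (n - 1) N
  have hmt : Measurable fun ω (k : Fin (N + 1)) => top (w ω) (n - 1) k :=
    measurable_pi_iff.2 fun k => measurable_top hw (n - 1) k
  have hmk : Measurable fun (p : Sq × Sq) (k : Fin (N + 1)) => p.2 k := by fun_prop
  have hT : MeasurableSet {a : Fin (N + 1) → ℝ | finT_D n x K (exv a)} := by
    refine finT_measurableSet_D n x K ?_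
    refine measurable_pi_iff.2 fun k => ?_
    unfold exv
    by_cases hk : k < N + 1
    · simp only [hk, dite_true]
      exact measurable_pi_apply _
    · simp only [hk, dite_false]
      exact measurable_const
  have h1 : P {ω | finT_D n x K (top (w ω) (n - 1))} ≤
      (P.map fun ω (k : Fin (N + 1)) => top (w ω) (n - 1) k) {a | finT_D n x K (exv a)} := by
    rw [Measure.map_apply hmt hT]
    refine measure_mono fun ω hω => ?_
    refine finT_D_congr hK le_rfl ?_ hω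
    intro k hk
    unfold exv
    rw [dif_pos (by omega : k < N + 1)]
  have h2 : (κ.map fun p (k : Fin (N + 1)) => p.2 k) {a | finT_D n x K (exv a)} ≤
      κ {p | (∃ i, jn n (x - 5 * K) ≤ i ∧ i ≤ jn n (x - K) ∧ finT_thr n K i < p.2 i) ∧
        (∃ j, jn n (x + K) ≤ j ∧ j ≤ jn n (x + 5 * K) ∧ finT_thr n K j < p.2 j) ∧
        p.2 (jn n x) ≤ finT_v n x K} := by
    rw [Measure.map_apply hmk hT]
    refine measure_mono fun p hp => ?_
    refine finT_D_congr hK le_rfl ?_ hp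
    intro k hk
    unfold exv
    rw [dif_pos (by omega : k < N + 1)]
  refine h1.trans ?_
  rw [← hmap]
  exact h2.trans (finT_disc hκ hnum.1 hnum.2.1 le_rfl hnum.2.2)

/-- the window event, for rational points -/
def finT_W (x K : ℝ) : Set (ℝ × ℝ → ℝ) :=
  {f | ∀ u : ℚ, |(u : ℝ)| ≤ 1.05 * K → f (0, x + u) + (x + u) ^ 2 - (u : ℝ) ^ 2 ≤ -K ^ 2}

theorem finT_measurableSet_W (x K : ℝ) : MeasurableSet (finT_W x K) := by
  have : finT_W x K = ⋂ u : ℚ, ⋂ (_ : |(u : ℝ)| ≤ 1.05 * K),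
      {f : ℝ × ℝ → ℝ | f (0, x + u) + (x + u) ^ 2 - (u : ℝ) ^ 2 ≤ -K ^ 2} := by
    ext f; simp [finT_W]
  rw [this]
  exact MeasurableSet.iInter fun _ => MeasurableSet.iInter fun _ =>
    measurableSet_le (by fun_prop) measurable_const

theorem finT_W_real {f : ℝ × ℝ → ℝ} (hf : Continuous f) {x K : ℝ} (hK : 0 < K)
    (h : f ∈ finT_W x K) : ∀ u : ℝ, |u| ≤ 1.05 * K →
      f (0, x + u) + (x + u) ^ 2 - u ^ 2 ≤ -K ^ 2 := by
  have hcl : IsClosed {u : ℝ | f (0, x + u) + (x + u) ^ 2 - u ^ 2 ≤ -K ^ 2} :=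
    isClosed_le (by fun_prop) continuous_const
  have h1 : Ioo (-(1.05 * K)) (1.05 * K) ∩ range ((↑) : ℚ → ℝ) ⊆
      {u : ℝ | f (0, x + u) + (x + u) ^ 2 - u ^ 2 ≤ -K ^ 2} := by
    rintro _ ⟨hu, q, rfl⟩
    exact h q (abs_le.2 ⟨hu.1.le, hu.2.le⟩)
  have h2 : Ioo (-(1.05 * K)) (1.05 * K) ⊆ closure (Ioo (-(1.05 * K)) (1.05 * K) ∩
      range ((↑) : ℚ → ℝ)) := Rat.denseRange_cast.open_subset_closure_inter isOpen_Ioo
  have h3 : closure (Ioo (-(1.05 * K)) (1.05 * K)) ⊆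
      {u : ℝ | f (0, x + u) + (x + u) ^ 2 - u ^ 2 ≤ -K ^ 2} :=
    closure_minimal (h2.trans (closure_minimal h1 hcl)) hcl
  rw [closure_Ioo (by linarith [hK] : -(1.05 * K) ≠ 1.05 * K)] at h3
  intro u hu
  exact h3 (abs_le.1 hu)

/-- from the limit to the discrete line -/
theorem finT_incl (x : ℝ) {K : ℝ} (hK : 10 ≤ K) : ∀ᶠ n : ℕ in atTop,
    ∀ (w : ℤ → ℕ → ℝ) (f : ℝ × ℝ → ℝ),
      (∀ p : ℝ × ℝ, |p.1| ≤ |x| + 6 * K → |p.2| ≤ |x| + 6 * K → |Sn w n p - f p| < 1 / 2) →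
      f ∉ finT_W (x - 3 * K) K → f ∉ finT_W (x + 3 * K) K → f (0, x) + x ^ 2 ≤ -(28 * K ^ 2) →
      finT_D n x K (top w (n - 1)) := by
  set R : ℝ := |x| + 6 * K with hR
  have habs := abs_nonneg x
  have hR0 : 0 < R := by positivity
  have hsc : ∀ᶠ n : ℕ in atTop, 2 * (2 * R + 1) ≤ sc n := tendsto_sc.eventually_ge_atTop _
  filter_upwards [jn_bounds R, Sn_eq R, hsc, eventually_ge_atTop 1] with n hjn hSn hsc hn w f
    hclose hf1 hf2 hf0
  have hs : 0 < sc n := sc_pos hn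
  have hr : 0 < rt n := rt_pos hn
  -- a high point of the limit gives a high column
  have key : ∀ y : ℝ, |y| ≤ R → -K ^ 2 - y ^ 2 < f (0, y) →
      finT_thr n K (jn n y) < top w (n - 1) (jn n y) := by
    intro y hy hfy
    have h1 := hclose (0, y) (by simpa using hR0.le) hy
    rw [abs_lt] at h1
    have h2 := hSn y hy w
    obtain ⟨m1, m2, -⟩ := hjn y hy
    have h3 : top w (n - 1) (jn n y) = 2 * n + 2 * (jn n y : ℕ) + rt n * Sn w n (0, y) := by
      rw [h2]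
      field_simp
      ring
    rw [h3]
    unfold finT_thr
    have h4 : -K ^ 2 - 1 - (((jn n y : ℕ) : ℝ) - n) ^ 2 / (sc n) ^ 2 < Sn w n (0, y) := by
      obtain ⟨z, hz⟩ : ∃ z : ℝ, z = (((jn n y : ℕ) : ℝ) - n) / sc n := ⟨_, rfl⟩
      have hjz : ((jn n y : ℕ) : ℝ) = n + sc n * z := by rw [hz]; field_simp; ring
      obtain ⟨δ, hδ⟩ : ∃ δ : ℝ, δ = 1 / sc n := ⟨_, rfl⟩
      have hδ0 : 0 < δ := by rw [hδ]; positivity
      have hδs : sc n * δ = 1 := by rw [hδ]; field_simp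
      have hz1 : y - δ ≤ z := by
        have : sc n * (y - δ) ≤ sc n * z := by
          have e : sc n * (y - δ) = sc n * y - 1 := by rw [mul_sub, hδs]
          linarith
        exact le_of_mul_le_mul_left this hs
      have hz2 : z ≤ y := by
        have : sc n * z ≤ sc n * y := by linarith
        exact le_of_mul_le_mul_left this hs
      have hδ1 : δ * (2 * (2 * R + 1)) ≤ 1 := by
        have h9 := mul_le_mul_of_nonneg_left hsc hδ0.le
        linarith
      have hδle : δ ≤ 1 := by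
        have h1 : (1 : ℝ) ≤ 2 * (2 * R + 1) := by linarith
        calc δ = δ * 1 := (mul_one δ).symm
          _ ≤ δ * (2 * (2 * R + 1)) := mul_le_mul_of_nonneg_left h1 hδ0.le
          _ ≤ 1 := hδ1
      rw [abs_le] at hy
      have hyz : y ^ 2 - z ^ 2 ≤ 1 / 2 := by
        have g1 : y ^ 2 - z ^ 2 = (y - z) * (y + z) := by ring
        have g2 : y + z ≤ 2 * R + 1 := by linarith
        rw [g1]
        calc (y - z) * (y + z) ≤ (y - z) * (2 * R + 1) :=
              mul_le_mul_of_nonneg_left g2 (by linarith)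
          _ ≤ δ * (2 * R + 1) := mul_le_mul_of_nonneg_right (by linarith) (by linarith)
          _ ≤ 1 / 2 := by linarith
      have e : (((jn n y : ℕ) : ℝ) - n) ^ 2 / (sc n) ^ 2 = z ^ 2 := by rw [hz, div_pow]
      rw [e]
      linarith
    rw [div_pow]
    have h5 := mul_lt_mul_of_pos_left h4 hr
    linarith
  have hx1 := neg_abs_le x
  have hx2 := le_abs_self x
  refine ⟨?_, ?_, ?_⟩
  · have : ∃ u : ℚ, |(u : ℝ)| ≤ 1.05 * K ∧
        -K ^ 2 < f (0, x - 3 * K + u) + (x - 3 * K + u) ^ 2 - (u : ℝ) ^ 2 := by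
      by_contra hcon
      push Not at hcon
      exact hf1 hcon
    obtain ⟨u, hu, hfu⟩ := this
    have hu' := abs_le.1 hu
    refine ⟨jn n (x - 3 * K + u), jn_mono n (by linarith), jn_mono n (by linarith), ?_⟩
    apply key
    · rw [abs_le]; constructor <;> linarith
    · have := sq_nonneg (u : ℝ)
      linarith
  · have : ∃ u : ℚ, |(u : ℝ)| ≤ 1.05 * K ∧
        -K ^ 2 < f (0, x + 3 * K + u) + (x + 3 * K + u) ^ 2 - (u : ℝ) ^ 2 := by
      by_contra hcon
      push Not at hcon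
      exact hf2 hcon
    obtain ⟨u, hu, hfu⟩ := this
    have hu' := abs_le.1 hu
    refine ⟨jn n (x + 3 * K + u), jn_mono n (by linarith), jn_mono n (by linarith), ?_⟩
    apply key
    · rw [abs_le]; constructor <;> linarith
    · have := sq_nonneg (u : ℝ)
      linarith
  · have hxR : |x| ≤ R := by linarith
    have h1 := hclose (0, x) (by simpa using hR0.le) hxR
    rw [abs_lt] at h1
    have h2 := hSn x hxR w
    have h3 : top w (n - 1) (jn n x) = 2 * n + 2 * (jn n x : ℕ) + rt n * Sn w n (0, x) := by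
      rw [h2]
      field_simp
      ring
    rw [h3]
    unfold finT_v
    have h4 : Sn w n (0, x) ≤ -x ^ 2 - 28 * K ^ 2 + 1 := by linarith
    have h5 := mul_le_mul_of_nonneg_left h4 hr.le
    linarith

theorem finT_main {Ω : Type*} [MeasurableSpace Ω] {P : Measure Ω} [IsProbabilityMeasure P]
    {S : Ω → ℝ × ℝ → ℝ} (hS : IsAirySheet P S) {x K : ℝ} (hK : 10 ≤ K)
    (hwin : ∀ x : ℝ, P {ω | ∀ u, |u| ≤ 1.05 * K → S ω (0, x + u) + (x + u) ^ 2 - u ^ 2 ≤ -K ^ 2} ≤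
        ENNReal.ofReal (Real.exp (-0.55 * K ^ 3))) :
    P {ω | S ω (0, x) + x ^ 2 ≤ -(28 * K ^ 2)} ≤ ENNReal.ofReal (Real.exp (-K ^ 3 / 400)) := by
  obtain ⟨Ω', _, Q, S', w, hQ, hw, hm', hc', hmap, hlim⟩ := hS.limit
  have hSm : Measurable S := measurable_pi_iff.2 hS.meas
  have hSm' : Measurable S' := measurable_pi_iff.2 hm'
  have htr : ∀ T : Set (ℝ × ℝ → ℝ), MeasurableSet T → Q (S' ⁻¹' T) = P (S ⁻¹' T) := by
    intro T hT
    rw [← Measure.map_apply hSm' hT, ← Measure.map_apply hSm hT, hmap]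
  have hW : ∀ y : ℝ, Q (S' ⁻¹' finT_W y K) ≤ ENNReal.ofReal (Real.exp (-0.55 * K ^ 3)) := by
    intro y
    rw [htr _ (finT_measurableSet_W y K)]
    refine (measure_mono ?_).trans (hwin y)
    intro ω hω
    exact finT_W_real (hS.cont ω) (by linarith) hω
  have hT0 : MeasurableSet {f : ℝ × ℝ → ℝ | f (0, x) + x ^ 2 ≤ -(28 * K ^ 2)} :=
    measurableSet_le (by fun_prop) measurable_const
  have h0 : P {ω | S ω (0, x) + x ^ 2 ≤ -(28 * K ^ 2)} =
      Q {ω | S' ω (0, x) + x ^ 2 ≤ -(28 * K ^ 2)} := (htr _ hT0).symm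
  rw [h0]
  have hbound : ∀ᶠ n : ℕ in atTop, Q {ω | S' ω (0, x) + x ^ 2 ≤ -(28 * K ^ 2)} ≤
      (ENNReal.ofReal (Real.exp (-0.55 * K ^ 3)) + ENNReal.ofReal (Real.exp (-0.55 * K ^ 3)) +
        ENNReal.ofReal (Real.exp (-K ^ 3 / 200))) +
      Q {ω | ∃ p : ℝ × ℝ, |p.1| ≤ |x| + 6 * K ∧ |p.2| ≤ |x| + 6 * K ∧
          1 / 2 ≤ |Sn (w n ω) n p - S' ω p|} := by
    filter_upwards [finT_num x hK, finT_incl x hK] with n hnum hincl
    have hsub : {ω | S' ω (0, x) + x ^ 2 ≤ -(28 * K ^ 2)} ⊆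
        ((S' ⁻¹' finT_W (x - 3 * K) K ∪ S' ⁻¹' finT_W (x + 3 * K) K) ∪
          {ω | finT_D n x K (top (w n ω) (n - 1))}) ∪
        {ω | ∃ p : ℝ × ℝ, |p.1| ≤ |x| + 6 * K ∧ |p.2| ≤ |x| + 6 * K ∧
          1 / 2 ≤ |Sn (w n ω) n p - S' ω p|} := by
      intro ω hω
      by_cases hbad : ∃ p : ℝ × ℝ, |p.1| ≤ |x| + 6 * K ∧ |p.2| ≤ |x| + 6 * K ∧
          1 / 2 ≤ |Sn (w n ω) n p - S' ω p|
      · exact Or.inr hbad
      · left
        push Not at hbad
        by_cases h1 : S' ω ∈ finT_W (x - 3 * K) K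
        · exact Or.inl (Or.inl h1)
        · by_cases h2 : S' ω ∈ finT_W (x + 3 * K) K
          · exact Or.inl (Or.inr h2)
          · exact Or.inr (hincl (w n ω) (S' ω) hbad h1 h2 hω)
    refine (measure_mono hsub).trans ((measure_union_le _ _).trans ?_)
    gcongr
    refine (measure_union_le _ _).trans (add_le_add ((measure_union_le _ _).trans
      (add_le_add (hW _) (hW _))) (finT_Dn (hw n) (by linarith) hnum))
  have hlim' := hlim (|x| + 6 * K) (1 / 2) (by norm_num)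
  have hlim2 : Tendsto (fun n : ℕ =>
      (ENNReal.ofReal (Real.exp (-0.55 * K ^ 3)) + ENNReal.ofReal (Real.exp (-0.55 * K ^ 3)) +
        ENNReal.ofReal (Real.exp (-K ^ 3 / 200))) +
      Q {ω | ∃ p : ℝ × ℝ, |p.1| ≤ |x| + 6 * K ∧ |p.2| ≤ |x| + 6 * K ∧
          1 / 2 ≤ |Sn (w n ω) n p - S' ω p|}) atTop
      (𝓝 ((ENNReal.ofReal (Real.exp (-0.55 * K ^ 3)) + ENNReal.ofReal (Real.exp (-0.55 * K ^ 3)) +
        ENNReal.ofReal (Real.exp (-K ^ 3 / 200))) + 0)) :=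
    tendsto_const_nhds.add hlim'
  refine (ge_of_tendsto hlim2 hbound).trans ?_
  rw [add_zero, ← ENNReal.ofReal_add (Real.exp_pos _).le (Real.exp_pos _).le,
    ← ENNReal.ofReal_add (by positivity) (Real.exp_pos _).le]
  apply ENNReal.ofReal_le_ofReal
  have hK3 : 1000 ≤ K ^ 3 := by
    calc (1000 : ℝ) = 10 ^ 3 := by norm_num
      _ ≤ K ^ 3 := by gcongr
  have h1 : Real.exp (-0.55 * K ^ 3) ≤ Real.exp (-K ^ 3 / 200) := by
    apply Real.exp_le_exp.2
    linarith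
  have h2 : 3 * Real.exp (-K ^ 3 / 200) ≤ Real.exp (-K ^ 3 / 400) := by
    have e : Real.exp (-K ^ 3 / 400) = Real.exp (K ^ 3 / 400) * Real.exp (-K ^ 3 / 200) := by
      rw [← Real.exp_add]
      congr 1
      ring
    rw [e]
    have h3 : 3 ≤ Real.exp (K ^ 3 / 400) := by
      have := Real.add_one_le_exp (K ^ 3 / 400)
      linarith
    exact mul_le_mul_of_nonneg_right h3 (Real.exp_pos _).le
  linarith

theorem lower {Ω : Type*} [MeasurableSpace Ω] {P : Measure Ω} [IsProbabilityMeasure P]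
    {S : Ω → ℝ × ℝ → ℝ} (hS : IsAirySheet P S)
    (hwin : ∃ κ₀ : ℝ, 0 < κ₀ ∧ ∀ x κ : ℝ, κ₀ ≤ κ →
      P {ω | ∀ u, |u| ≤ 1.05 * κ → S ω (0, x + u) + (x + u) ^ 2 - u ^ 2 ≤ -κ ^ 2} ≤
        ENNReal.ofReal (Real.exp (-0.55 * κ ^ 3))) :
    ∃ c : ℝ, 0 < c ∧ ∃ h₀ : ℝ, 0 < h₀ ∧ ∀ x h : ℝ, h₀ ≤ h →
      P {ω | S ω (0, x) + x ^ 2 ≤ -h} ≤ ENNReal.ofReal (Real.exp (-c * h ^ (3 / 2 : ℝ))) := by
  obtain ⟨κ₀, hκ₀, hwin⟩ := hwin
  set K₀ := max κ₀ 10 with hK₀
  have hK₀pos : 0 < K₀ := lt_of_lt_of_le hκ₀ (le_max_left _ _)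
  refine ⟨1 / (400 * (28 : ℝ) ^ (3 / 2 : ℝ)), by positivity, 28 * K₀ ^ 2, by positivity,
    fun x h hh => ?_⟩
  have hh0 : 0 ≤ h := le_trans (by positivity) hh
  set K := √(h / 28) with hKdef
  have hK0 : K₀ ≤ K := by
    rw [hKdef]
    apply Real.le_sqrt_of_sq_le
    linarith
  have hK1 : κ₀ ≤ K := (le_max_left _ _).trans hK0
  have hK10 : 10 ≤ K := (le_max_right _ _).trans hK0
  have hKsq : K ^ 2 = h / 28 := Real.sq_sqrt (by positivity)
  have hmain := finT_main hS (x := x) hK10 (fun y => hwin y K hK1)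
  have e1 : 28 * K ^ 2 = h := by rw [hKsq]; ring
  rw [e1] at hmain
  refine hmain.trans (ENNReal.ofReal_le_ofReal (Real.exp_le_exp.2 (le_of_eq ?_)))
  have e2 : K ^ 3 = h ^ (3 / 2 : ℝ) / (28 : ℝ) ^ (3 / 2 : ℝ) := by
    rw [← Real.div_rpow hh0 (by norm_num), hKdef, Real.sqrt_eq_rpow, ← Real.rpow_natCast,
      ← Real.rpow_mul (by positivity)]
    norm_num
  rw [e2]
  field_simp

end Pool.Agent.H22.DL
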