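import Pool.Agent.H22.DL.Vol

/-!
# Module HatB: deforming the inside of the bridge

With `J B = ∏_{i < k < j} T' (B k)`: Cauchy-Schwarz and `2 x y ≤ λ x² + y² / λ`:
`∫ 1{bar} G (tw B) = ∫ 1{bar} [G (tw B) J^{1/2}] J^{-1/2}
  ≤ λ ∫ 1{bar} G (tw B)² J + λ⁻¹ ∫ J⁻¹`.
* `∫ 1{bar B} G (tw B)² J ≤ ∫ 1{bar (tw B)} G (tw B)² J = ∫ 1{bar B} G B²`: `T` is a strictly
  increasing `C¹` bijection of `ℝ`, so `T_* (T' · volume) = volume`, hence the coordinatewise map
  pushes `J · volume` to `volume` (`HatB_covs`, one coordinate at a time); `mon` is preserved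
  because `T` is strictly increasing and fixes `A i`, `A j` (`HatB_bI`).
* `∫ J⁻¹ = (mean over [A i, A j] of 1/T')^m ≤ (1 + 2 η²)^m`, `m = j - i - 1`: the same change of
  variables with `V' = κ / T'`, `κ` chosen such that `V` fixes `A i` and `A j`, and
  `1/(1+u) ≤ 1 - u + 2 u²`, `∫_{A i}^{A j} (T' - 1) = 0`.
-/

open MeasureTheory ProbabilityTheory Filter Topology Set
open scoped ENNReal

namespace Pool.Agent.H22.DL

theorem HatB_surj {V V' : ℝ → ℝ} (hV : ∀ v, HasDerivAt V (V' v) v) {a : ℝ} (ha : 0 < a)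
    (hVa : ∀ v, a ≤ V' v) : Function.Surjective V := by
  have hc : Continuous V := continuous_iff_continuousAt.mpr fun v => (hV v).continuousAt
  have hd : ∀ v, HasDerivAt (fun v => V v - a * v) (V' v - a) v := fun v => by
    have h := (hV v).fun_sub ((hasDerivAt_id' v).const_mul a)
    rwa [mul_one] at h
  have hmono : Monotone fun v => V v - a * v :=
    monotone_of_deriv_nonneg (fun v => (hd v).differentiableAt) fun v => by
      rw [(hd v).deriv]
      linarith [hVa v]
  refine hc.surjective ?_ ?_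
  · have h1 : Tendsto (fun v : ℝ => V 0 + a * v) atTop atTop :=
      tendsto_atTop_add_const_left _ _ (tendsto_id.const_mul_atTop ha)
    refine tendsto_atTop_mono' _ ?_ h1
    filter_upwards [eventually_ge_atTop (0 : ℝ)] with v hv
    have := hmono hv
    simp only [mul_zero, sub_zero] at this
    linarith
  · have h1 : Tendsto (fun v : ℝ => V 0 + a * v) atBot atBot :=
      tendsto_atBot_add_const_left _ _ (tendsto_id.const_mul_atBot ha)
    refine tendsto_atBot_mono' _ ?_ h1
    filter_upwards [eventually_le_atBot (0 : ℝ)] with v hv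
    have := hmono hv
    simp only [mul_zero, sub_zero] at this
    linarith

theorem HatB_strictMono {V V' : ℝ → ℝ} (hV : ∀ v, HasDerivAt V (V' v) v)
    (hpos : ∀ v, 0 < V' v) : StrictMono V :=
  strictMono_of_deriv_pos fun v => by
    rw [(hV v).deriv]
    exact hpos v

theorem HatB_cov1 {V V' : ℝ → ℝ} (hV : ∀ v, HasDerivAt V (V' v) v) (hpos : ∀ v, 0 < V' v)
    (hsurj : Function.Surjective V) (g : ℝ → ℝ≥0∞) :
    ∫⁻ t, g (V t) * ENNReal.ofReal (V' t) = ∫⁻ t, g t := by
  have h := lintegral_image_eq_lintegral_abs_deriv_mul (f := V) (f' := V') MeasurableSet.univ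
    (fun x _ => (hV x).hasDerivWithinAt) (HatB_strictMono hV hpos).injective.injOn g
  rw [image_univ, hsurj.range_eq, Measure.restrict_univ] at h
  rw [h]
  refine lintegral_congr fun t => ?_
  rw [abs_of_pos (hpos t), mul_comm]

/-- apply `V` to the coordinates in `s` -/
def HatB_tws (s : Finset ℕ) (V : ℝ → ℝ) (B : Sq) : Sq := fun k => if k ∈ s then V (B k) else B k

theorem HatB_measurable_tws (s : Finset ℕ) {V : ℝ → ℝ} (hV : Measurable V) :
    Measurable (HatB_tws s V) := by
  refine measurable_pi_iff.mpr fun k => ?_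
  unfold HatB_tws
  by_cases hk : k ∈ s
  · simp only [hk, if_true]
    exact hV.comp (measurable_pi_apply k)
  · simp only [hk, if_false]
    exact measurable_pi_apply k

theorem HatB_tws_insert {s : Finset ℕ} {a : ℕ} (V : ℝ → ℝ) (x : Sq) (t : ℝ) :
    HatB_tws (insert a s) V (Function.update x a t) =
      Function.update (HatB_tws s V x) a (V t) := by
  funext k
  unfold HatB_tws
  by_cases hk : k = a
  · subst hk
    simp
  · simp [hk]

theorem HatB_covs {V V' : ℝ → ℝ} (hV : ∀ v, HasDerivAt V (V' v) v) (hV' : Continuous V')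
    (hpos : ∀ v, 0 < V' v) (hsurj : Function.Surjective V) (s : Finset ℕ) :
    ∀ {F : Sq → ℝ≥0∞}, Measurable F →
      (∫⋯∫⁻_s, (fun B => F (HatB_tws s V B) * ∏ k ∈ s, ENNReal.ofReal (V' (B k)))
        ∂fun _ => volume) = ∫⋯∫⁻_s, F ∂fun _ => volume := by
  have hc : Continuous V := continuous_iff_continuousAt.mpr fun v => (hV v).continuousAt
  induction s using Finset.induction_on with
  | empty =>
    intro F hF
    congr 1
    funext B
    have h0 : HatB_tws ∅ V B = B := by
      funext k
      simp [HatB_tws]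
    simp [h0]
  | insert a s ha ih =>
    intro F hF
    have hmeas : Measurable fun B : Sq => F (HatB_tws (insert a s) V B) *
        ∏ k ∈ insert a s, ENNReal.ofReal (V' (B k)) := by
      refine (hF.comp (HatB_measurable_tws _ hc.measurable)).mul ?_
      refine Finset.measurable_fun_prod _ fun k _ => ?_
      exact (hV'.measurable.comp (measurable_pi_apply k)).ennreal_ofReal
    rw [lmarginal_insert' _ hmeas ha, lmarginal_insert' _ hF ha]
    have hF1 : Measurable fun x : Sq => ∫⁻ t, F (Function.update x a t) := by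
      refine Measurable.lintegral_prod_right' (f := fun p : Sq × ℝ => F (Function.update p.1 a p.2)) ?_
      exact hF.comp measurable_update'
    rw [← ih hF1]
    congr 1
    funext x
    have h1 : ∀ t, F (HatB_tws (insert a s) V (Function.update x a t)) *
        ∏ k ∈ insert a s, ENNReal.ofReal (V' ((Function.update x a t) k)) =
        (∏ k ∈ s, ENNReal.ofReal (V' (x k))) *
          (F (Function.update (HatB_tws s V x) a (V t)) * ENNReal.ofReal (V' t)) := by
      intro t
      rw [HatB_tws_insert, Finset.prod_insert ha]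
      have h2 : ∏ k ∈ s, ENNReal.ofReal (V' ((Function.update x a t) k)) =
          ∏ k ∈ s, ENNReal.ofReal (V' (x k)) := by
        refine Finset.prod_congr rfl fun k hk => ?_
        have hka : k ≠ a := fun h => ha (h ▸ hk)
        rw [Function.update_of_ne hka]
      rw [h2, Function.update_self]
      ring
    simp_rw [h1]
    have hm : Measurable fun t => F (Function.update (HatB_tws s V x) a (V t)) *
        ENNReal.ofReal (V' t) := by
      refine (hF.comp ((measurable_update _).comp hc.measurable)).mul ?_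
      exact hV'.measurable.ennreal_ofReal
    rw [lintegral_const_mul _ hm,
      HatB_cov1 hV hpos hsurj (fun t => F (Function.update (HatB_tws s V x) a t)), mul_comm]

theorem HatB_tw (i j : ℕ) (V : ℝ → ℝ) (B : Sq) : tw i j V B = HatB_tws (Finset.Ioo i j) V B := by
  funext k
  simp [tw, HatB_tws, Finset.mem_Ioo]

/-- change of variables for `bI` -/
theorem HatB_bI {i j : ℕ} (hij : i < j) {A : Sq} {V V' : ℝ → ℝ}
    (hV : ∀ v, HasDerivAt V (V' v) v) (hV' : Continuous V')
    (hpos : ∀ v, 0 < V' v) (hsurj : Function.Surjective V) (hVi : V (A i) = A i)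
    (hVj : V (A j) = A j) {F : Sq → ℝ≥0∞} (hF : Measurable F) :
    bI i j (fun B => F (tw i j V B) * ∏ k ∈ Finset.Ioo i j, ENNReal.ofReal (V' (B k))) A =
      bI i j F A := by
  have hsm := HatB_strictMono hV hpos
  unfold bI
  have h1 := congrFun (HatB_covs hV hV' hpos hsurj (Finset.Ioo i j)
    (F := (mon i j).indicator F) (hF.indicator (measurableSet_mon i j))) A
  rw [← h1]
  unfold lmarginal
  refine lintegral_congr fun y => ?_
  set B : Sq := Function.updateFinset A (Finset.Ioo i j) y with hB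
  have hBi : B i = A i := by
    simp [hB, Function.updateFinset]
  have hBj : B j = A j := by
    simp [hB, Function.updateFinset]
  have htw : ∀ k, i ≤ k → k ≤ j → HatB_tws (Finset.Ioo i j) V B k = V (B k) := by
    intro k hik hkj
    unfold HatB_tws
    by_cases hk : k ∈ Finset.Ioo i j
    · simp [hk]
    · simp only [hk, if_false]
      rw [Finset.mem_Ioo] at hk
      rcases eq_or_lt_of_le hik with rfl | h
      · rw [hBi, hVi]
      · have : k = j := by omega
        subst this
        rw [hBj, hVj]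
  have hmon : HatB_tws (Finset.Ioo i j) V B ∈ mon i j ↔ B ∈ mon i j := by
    unfold mon
    simp only [mem_setOf_eq]
    refine forall_congr' fun k => forall_congr' fun h2 => forall_congr' fun h3 => ?_
    rw [htw k h2 h3.le, htw (k + 1) (by omega) (by omega)]
    exact hsm.le_iff_le
  beta_reduce
  by_cases hm : B ∈ mon i j
  · rw [indicator_of_mem hm, indicator_of_mem (hmon.mpr hm), HatB_tw]
  · rw [indicator_of_notMem hm, indicator_of_notMem (fun h => hm (hmon.mp h)), zero_mul]

theorem HatB_amgm (a g : ℝ≥0∞) (ha : a ≠ ∞) : g ≤ a * g ^ 2 + a⁻¹ := by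
  rcases le_total 1 (a * g) with h | h
  · calc g = 1 * g := (one_mul g).symm
      _ ≤ (a * g) * g := by gcongr
      _ = a * g ^ 2 := by ring
      _ ≤ _ := le_self_add
  · have : g ≤ a⁻¹ := by
      rw [ENNReal.le_inv_iff_mul_le]
      rwa [mul_comm]
    exact this.trans le_add_self

/-- the mean of `1 / T'` -/
theorem HatB_mean {a b η : ℝ} (hab : a < b) {T T' : ℝ → ℝ} (hT : ∀ v, HasDerivAt T (T' v) v)
    (hT' : Continuous T') (hη : ∀ v, |T' v - 1| ≤ η) (hη1 : η ≤ 1 / 2) (hTa : T a = a)
    (hTb : T b = b) : 0 < ∫ v in a..b, (T' v)⁻¹ ∧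
      ∫ v in a..b, (T' v)⁻¹ ≤ (1 + 2 * η ^ 2) * (b - a) := by
  have hlo : ∀ v, 1 / 2 ≤ T' v := fun v => by linarith [(abs_le.mp (hη v)).1]
  have hcinv : Continuous fun v => (T' v)⁻¹ :=
    hT'.inv₀ fun v => by linarith [hlo v]
  have hint : IntervalIntegrable (fun v => (T' v)⁻¹) volume a b := hcinv.intervalIntegrable _ _
  constructor
  · refine intervalIntegral.intervalIntegral_pos_of_pos_on hint (fun v _ => ?_) hab
    have := hlo v
    positivity
  · have h1 : ∫ v in a..b, (T' v)⁻¹ ≤ ∫ v in a..b, (2 + 2 * η ^ 2 - T' v) := by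
      refine intervalIntegral.integral_mono hab.le hint
        ((continuous_const.sub hT').intervalIntegrable _ _) fun v => ?_
      have h2 := abs_le.mp (hη v)
      have h3 := hlo v
      have h4 : (T' v - 1) ^ 2 ≤ η ^ 2 := by
        rw [← sq_abs (T' v - 1)]
        gcongr
        exact hη v
      rw [inv_le_iff_one_le_mul₀ (by linarith)]
      set u := T' v - 1 with hu
      have hTu : T' v = 1 + u := by rw [hu]; ring
      rw [hTu] at h3 ⊢
      nlinarith [sq_nonneg u, mul_nonneg (sq_nonneg u) (by linarith : 0 ≤ 1 + 2 * u)]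
    have h5 : ∫ v in a..b, T' v = b - a := by
      rw [intervalIntegral.integral_eq_sub_of_hasDerivAt (fun v _ => hT v)
        (hT'.intervalIntegrable _ _), hTa, hTb]
    rw [intervalIntegral.integral_sub (continuous_const.intervalIntegrable _ _)
      (hT'.intervalIntegrable _ _), h5, intervalIntegral.integral_const, smul_eq_mul] at h1
    linarith

theorem HatB_inv {i j : ℕ} (hij : i < j) {A : Sq} (hA : A i < A j) {T T' : ℝ → ℝ}
    (hT : ∀ v, HasDerivAt T (T' v) v) (hT' : Continuous T') {η : ℝ} (hη : ∀ v, |T' v - 1| ≤ η)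
    (hη1 : η ≤ 1 / 2) (hTi : T (A i) = A i) (hTj : T (A j) = A j) :
    ∫⁻ B, (∏ k ∈ Finset.Ioo i j, ENNReal.ofReal (T' (B k)))⁻¹ ∂(rs i j A) ≤
      ENNReal.ofReal (Real.exp (2 * η ^ 2 * (j - i - 1 : ℕ))) := by
  have hlo : ∀ v, 1 / 2 ≤ T' v := fun v => by linarith [(abs_le.mp (hη v)).1]
  have hhi : ∀ v, T' v ≤ 3 / 2 := fun v => by linarith [(abs_le.mp (hη v)).2]
  obtain ⟨hI0, hI1⟩ := HatB_mean hA hT hT' hη hη1 hTi hTj
  set I : ℝ := ∫ v in A i..A j, (T' v)⁻¹ with hI
  set κ : ℝ := (A j - A i) / I with hκ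
  have hd : 0 < A j - A i := by linarith
  have hκ0 : 0 < κ := by positivity
  have hcinv : Continuous fun v => (T' v)⁻¹ :=
    hT'.inv₀ fun v => by linarith [hlo v]
  set V : ℝ → ℝ := fun v => A i + κ * ∫ x in A i..v, (T' x)⁻¹ with hVdef
  have hV : ∀ v, HasDerivAt V (κ * (T' v)⁻¹) v := by
    intro v
    have h1 := intervalIntegral.integral_hasDerivAt_right (hcinv.intervalIntegrable (A i) v)
      (hcinv.stronglyMeasurableAtFilter _ _) hcinv.continuousAt
    exact (h1.const_mul κ).const_add (A i)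
  have hV' : Continuous fun v => κ * (T' v)⁻¹ := continuous_const.mul hcinv
  have hVa : ∀ v, κ * (3 / 2)⁻¹ ≤ κ * (T' v)⁻¹ := fun v => by
    have h1 := hlo v
    have h2 := hhi v
    gcongr
  have hpos : ∀ v, 0 < κ * (T' v)⁻¹ := fun v => lt_of_lt_of_le (by positivity) (hVa v)
  have hsurj := HatB_surj hV (by positivity) hVa
  have hVi : V (A i) = A i := by
    simp [hVdef]
  have hVj : V (A j) = A j := by
    simp only [hVdef]
    rw [← hI, hκ]
    field_simp
    ring
  have hcov := HatB_bI hij hV hV' hpos hsurj hVi hVj (F := fun _ => 1) measurable_const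
  have hprob := prob_rs hij hA
  -- the product of the `V'`
  have hm1 : Measurable fun B : Sq => ∏ k ∈ Finset.Ioo i j, ENNReal.ofReal (κ * (T' (B k))⁻¹) :=
    Finset.measurable_fun_prod _ fun k _ =>
      (hV'.measurable.comp (measurable_pi_apply k)).ennreal_ofReal
  have hone : ∫⁻ B, ∏ k ∈ Finset.Ioo i j, ENNReal.ofReal (κ * (T' (B k))⁻¹) ∂(rs i j A) = 1 := by
    rw [lintegral_rs hm1]
    simp only [one_mul] at hcov
    rw [hcov, ← lintegral_rs measurable_const]
    simp
  have hpt : ∀ B : Sq, (∏ k ∈ Finset.Ioo i j, ENNReal.ofReal (T' (B k)))⁻¹ =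
      ENNReal.ofReal κ⁻¹ ^ (j - i - 1) *
        ∏ k ∈ Finset.Ioo i j, ENNReal.ofReal (κ * (T' (B k))⁻¹) := by
    intro B
    have hcard : (Finset.Ioo i j).card = j - i - 1 := Nat.card_Ioo i j
    rw [← hcard, ← Finset.prod_const, ← Finset.prod_mul_distrib,
      ← ENNReal.ofReal_prod_of_nonneg (fun k _ => by linarith [hlo (B k)]),
      ← ENNReal.ofReal_inv_of_pos (Finset.prod_pos fun k _ => by linarith [hlo (B k)]),
      ← Finset.prod_inv_distrib,
      ENNReal.ofReal_prod_of_nonneg (fun k _ => by have := hlo (B k); positivity)]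
    refine Finset.prod_congr rfl fun k _ => ?_
    rw [← ENNReal.ofReal_mul (by positivity)]
    congr 1
    field_simp
  simp_rw [hpt]
  rw [lintegral_const_mul _ hm1, hone, mul_one, ← ENNReal.ofReal_pow (by positivity)]
  apply ENNReal.ofReal_le_ofReal
  have hκ1 : κ⁻¹ ≤ 1 + 2 * η ^ 2 := by
    rw [hκ, inv_div, div_le_iff₀ hd]
    exact hI1
  calc κ⁻¹ ^ (j - i - 1) ≤ (Real.exp (2 * η ^ 2)) ^ (j - i - 1) := by
        gcongr
        refine hκ1.trans ?_
        linarith [Real.add_one_le_exp (2 * η ^ 2)]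
    _ = _ := by
        rw [← Real.exp_nat_mul]
        congr 1
        ring

theorem rs_hat {i j : ℕ} (hij : i < j) {A : Sq} (hA : A i < A j) {T T' : ℝ → ℝ}
    (hT : ∀ v, HasDerivAt T (T' v) v) (hT' : Continuous T') {η : ℝ} (hη : ∀ v, |T' v - 1| ≤ η)
    (hη1 : η ≤ 1 / 2) (hTi : T (A i) = A i) (hTj : T (A j) = A j) (hup : ∀ v, v ≤ T v) (h : Sq)
    {G : Sq → ℝ≥0∞} (hG : Measurable G) {l : ℝ} (hl : 0 < l) :
    ∫⁻ B, (bar h i j).indicator (fun B => G (tw i j T B)) B ∂(rs i j A) ≤
      ENNReal.ofReal l * ∫⁻ B, (bar h i j).indicator (fun B => G B ^ 2) B ∂(rs i j A) +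
        ENNReal.ofReal (l⁻¹ * Real.exp (2 * η ^ 2 * (j - i - 1 : ℕ))) := by
  have hlo : ∀ v, 1 / 2 ≤ T' v := fun v => by linarith [(abs_le.mp (hη v)).1]
  have hpos : ∀ v, 0 < T' v := fun v => by linarith [hlo v]
  have hsurj := HatB_surj hT (by norm_num : (0 : ℝ) < 1 / 2) hlo
  have hc : Continuous T := continuous_iff_continuousAt.mpr fun v => (hT v).continuousAt
  have hbar : MeasurableSet (bar h i j) := by
    have := measurable_prodMk_left (x := h) (measurableSet_bar i j)
    exact this
  set J : Sq → ℝ≥0∞ := fun B => ∏ k ∈ Finset.Ioo i j, ENNReal.ofReal (T' (B k)) with hJ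
  have hJm : Measurable J := Finset.measurable_fun_prod _ fun k _ =>
      (hT'.measurable.comp (measurable_pi_apply k)).ennreal_ofReal
  have hJtop : ∀ B, J B ≠ ∞ := fun B => ENNReal.prod_ne_top fun k _ => ENNReal.ofReal_ne_top
  set F : Sq → ℝ≥0∞ := (bar h i j).indicator (fun B => G B ^ 2) with hF
  have hFm : Measurable F := (hG.pow_const 2).indicator hbar
  have htwm : Measurable (tw i j T) := by
    have : tw i j T = HatB_tws (Finset.Ioo i j) T := funext fun B => HatB_tw i j T B
    rw [this]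
    exact HatB_measurable_tws _ hc.measurable
  have hFJ : Measurable fun B => F (tw i j T B) * J B := (hFm.comp htwm).mul hJm
  have hpt : ∀ B, (bar h i j).indicator (fun B => G (tw i j T B)) B ≤
      ENNReal.ofReal l * (F (tw i j T B) * J B) + ENNReal.ofReal l⁻¹ * (J B)⁻¹ := by
    intro B
    by_cases hB : B ∈ bar h i j
    · have hB' : tw i j T B ∈ bar h i j := by
        intro k hik hkj
        have : tw i j T B k = T (B k) := by simp [tw, hik, hkj]
        rw [this]
        exact (hB k hik hkj).trans (hup _)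
      rw [indicator_of_mem hB, hF, indicator_of_mem hB']
      refine (HatB_amgm (ENNReal.ofReal l * J B) _
        (ENNReal.mul_ne_top ENNReal.ofReal_ne_top (hJtop B))).trans (le_of_eq ?_)
      rw [ENNReal.mul_inv (Or.inr (hJtop B)) (Or.inl ENNReal.ofReal_ne_top),
        ENNReal.ofReal_inv_of_pos hl]
      ring
    · rw [indicator_of_notMem hB]
      exact bot_le
  calc ∫⁻ B, (bar h i j).indicator (fun B => G (tw i j T B)) B ∂(rs i j A)
      ≤ ∫⁻ B, (ENNReal.ofReal l * (F (tw i j T B) * J B) + ENNReal.ofReal l⁻¹ * (J B)⁻¹)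
        ∂(rs i j A) := lintegral_mono hpt
    _ = ENNReal.ofReal l * ∫⁻ B, F (tw i j T B) * J B ∂(rs i j A) +
        ENNReal.ofReal l⁻¹ * ∫⁻ B, (J B)⁻¹ ∂(rs i j A) := by
        rw [lintegral_add_left (hFJ.const_mul _),
          lintegral_const_mul _ hFJ,
          lintegral_const_mul (f := fun B => (J B)⁻¹) _ hJm.inv]
    _ ≤ _ := by
        have h1 : ∫⁻ B, F (tw i j T B) * J B ∂(rs i j A) = ∫⁻ B, F B ∂(rs i j A) := by
          rw [lintegral_rs hFJ, lintegral_rs hFm]
          congr 1
          exact HatB_bI hij hT hT' hpos hsurj hTi hTj hFm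
        rw [h1, ENNReal.ofReal_mul (by positivity)]
        gcongr
        exact HatB_inv hij hA hT hT' hη hη1 hTi hTj

end Pool.Agent.H22.DL
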