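import Pool.Agent.H22.DL.Core

/-!
# Module Paths: partial sums of independent exponential variables

Induction on `c` (from `c = i`): `path i (c + 1) A x` is `path i c A x` updated at `c + 1` by
`path i c A x c + x (c - i)`; `x (c - i)` is independent of `x 0, .., x (c - i - 1)` under
`ex l` (an `infinitePi`); one-dimensional translation; `lmarginal_insert`.
-/

open MeasureTheory ProbabilityTheory Filter Topology Set
open scoped ENNReal

namespace Pool.Agent.H22.DL

theorem measurable_path (i c : ℕ) (A : Sq) : Measurable (path i c A) := by
  refine measurable_pi_iff.2 fun k => ?_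
  unfold path ps
  by_cases h : i < k ∧ k ≤ c
  · simp only [h, and_self, if_true]
    exact measurable_const.add (Finset.measurable_fun_sum _ fun t _ => measurable_pi_apply t)
  · simp only [h, if_false]
    exact measurable_const

theorem prob_ex {l : ℝ} (hl : 0 < l) : IsProbabilityMeasure (ex l) := by
  have : IsProbabilityMeasure (expMeasure l) := isProbabilityMeasure_expMeasure hl
  unfold ex
  infer_instance

theorem paths_marg {l : ℝ} (hl : 0 < l) (s : Finset ℕ) (x₀ : Sq) {f : Sq → ℝ≥0∞}
    (hf : Measurable f) (hdep : ∀ x y : Sq, (∀ k ∈ s, x k = y k) → f x = f y) :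
    ∫⁻ x, f x ∂(ex l) = (∫⋯∫⁻_s, f ∂fun _ => expMeasure l) x₀ := by
  have : IsProbabilityMeasure (expMeasure l) := isProbabilityMeasure_expMeasure hl
  let g : (s → ℝ) → ℝ≥0∞ := fun y => f (Function.updateFinset x₀ s y)
  have hg : Measurable g := hf.comp measurable_updateFinset
  have h1 : ∀ x : Sq, f x = g (s.restrict x) := by
    intro x
    refine hdep _ _ fun k hk => ?_
    simp [Function.updateFinset, hk]
  have h2 := lintegral_restrict_infinitePi (μ := fun _ : ℕ => expMeasure l) (s := s) hg
  calc ∫⁻ x, f x ∂(ex l) = ∫⁻ x, g (s.restrict x) ∂(ex l) := lintegral_congr h1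
    _ = _ := h2

theorem paths_exp {l : ℝ} (hl : 0 < l) (s₀ : ℝ) {g : ℝ → ℝ≥0∞} (hg : Measurable g) :
    ∫⁻ t, g (s₀ + t) ∂(expMeasure l) =
      ∫⁻ s, (Ici s₀).indicator (fun s => ENNReal.ofReal (l * Real.exp (-l * (s - s₀))) * g s) s := by
  have h0 : expMeasure l = volume.withDensity (exponentialPDF l) := rfl
  have hm : Measurable (exponentialPDF l) := (measurable_exponentialPDFReal l).ennreal_ofReal
  have hg1 : Measurable fun t : ℝ => g (s₀ + t) := hg.comp (measurable_const.add measurable_id)
  rw [h0, lintegral_withDensity_eq_lintegral_mul _ hm hg1]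
  rw [← lintegral_add_left_eq_self (μ := (volume : Measure ℝ))
    (fun s => (Ici s₀).indicator (fun s => ENNReal.ofReal (l * Real.exp (-l * (s - s₀))) * g s) s)
    s₀]
  refine lintegral_congr fun t => ?_
  simp only [Pi.mul_apply]
  by_cases ht : 0 ≤ t
  · rw [indicator_of_mem (by simp [ht]), exponentialPDF_of_nonneg ht]
    congr 4
    ring
  · rw [indicator_of_notMem (by simpa using ht), exponentialPDF_of_neg (not_le.mp ht), zero_mul]

theorem paths_step {i c : ℕ} (hic : i ≤ c) (A x : Sq) :
    path i (c + 1) A x = Function.update (path i c A x) (c + 1) (path i c A x c + x (c - i)) := by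
  funext k
  by_cases hk : k = c + 1
  · subst hk
    rw [Function.update_self]
    unfold path
    have h1 : i < c + 1 ∧ c + 1 ≤ c + 1 := ⟨by omega, le_rfl⟩
    rw [if_pos h1]
    have h2 : c + 1 - i = (c - i) + 1 := by omega
    have h3 : ps x (c + 1 - i) = ps x (c - i) + x (c - i) := by
      rw [h2]; unfold ps; rw [Finset.sum_range_succ]
    rw [h3]
    rcases hic.eq_or_lt with h | h
    · subst h
      simp [ps]
    · rw [if_pos ⟨h, le_rfl⟩]; ring
  · rw [Function.update_of_ne hk]
    unfold path
    have : (i < k ∧ k ≤ c + 1) ↔ (i < k ∧ k ≤ c) := by omega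
    simp only [this]

theorem paths_dep {i c : ℕ} (A x y : Sq) (h : ∀ k ∈ Finset.range (c - i), x k = y k) :
    path i c A x = path i c A y := by
  funext k
  unfold path
  by_cases hk : i < k ∧ k ≤ c
  · rw [if_pos hk, if_pos hk]
    congr 1
    unfold ps
    refine Finset.sum_congr rfl fun t ht => h t ?_
    rw [Finset.mem_range] at ht ⊢
    omega
  · rw [if_neg hk, if_neg hk]

theorem lintegral_path {l : ℝ} (hl : 0 < l) {i c : ℕ} (hic : i ≤ c) (A : Sq) {Φ : Sq → ℝ≥0∞}
    (hΦ : Measurable Φ) :
    ∫⁻ x, Φ (path i c A x) ∂(ex l) =
      (∫⋯∫⁻_Finset.Ioc i c, (mon i c).indicator (fun B =>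
        ENNReal.ofReal (l ^ (c - i) * Real.exp (-l * (B c - B i))) * Φ B)
          ∂fun _ => volume) A := by
  have hprob := prob_ex hl
  have hpe : IsProbabilityMeasure (expMeasure l) := isProbabilityMeasure_expMeasure hl
  induction c, hic using Nat.le_induction generalizing Φ with
  | base =>
    have h1 : ∀ x, path i i A x = A := by
      intro x
      funext k
      unfold path
      rw [if_neg (by omega)]
    have h2 : A ∈ mon i i := fun k h1 h2 => by omega
    simp only [h1, Finset.Ioc_self, lmarginal_empty]
    rw [indicator_of_mem h2]
    simp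
  | succ c hic ih =>
    -- the integral over the last increment
    set Ψ : Sq → ℝ≥0∞ := fun B => ∫⁻ t, Φ (Function.update B (c + 1) (B c + t)) ∂(expMeasure l)
      with hΨd
    have hΨ : Measurable Ψ := by
      refine Measurable.lintegral_prod_right'
        (f := fun p : Sq × ℝ => Φ (Function.update p.1 (c + 1) (p.1 c + p.2))) ?_
      refine hΦ.comp (measurable_update'.comp (measurable_fst.prodMk ?_))
      exact ((measurable_pi_apply c).comp measurable_fst).add measurable_snd
    have hstep : ∫⁻ x, Φ (path i (c + 1) A x) ∂(ex l) = ∫⁻ x, Ψ (path i c A x) ∂(ex l) := by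
      have m1 : Measurable fun x : Sq => Φ (path i (c + 1) A x) :=
        hΦ.comp (measurable_path i (c + 1) A)
      have m2 : Measurable fun x : Sq => Ψ (path i c A x) := hΨ.comp (measurable_path i c A)
      rw [paths_marg hl (Finset.range (c + 1 - i)) 0 m1 (fun x y h => by rw [paths_dep A x y h]),
        paths_marg hl (Finset.range (c - i)) 0 m2 (fun x y h => by rw [paths_dep A x y h])]
      have h2 : c + 1 - i = (c - i) + 1 := by omega
      rw [h2, Finset.range_add_one, lmarginal_insert' _ m1 Finset.notMem_range_self]
      congr 1
      funext x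
      simp only [hΨd]
      refine lintegral_congr fun t => ?_
      rw [paths_step hic, Function.update_self]
      have h3 : path i c A (Function.update x (c - i) t) = path i c A x := by
        refine paths_dep A _ _ fun k hk => ?_
        rw [Finset.mem_range] at hk
        rw [Function.update_of_ne (by omega)]
      rw [h3]
    rw [hstep, ih hΨ]
    have h4 : Finset.Ioc i (c + 1) = insert (c + 1) (Finset.Ioc i c) := by
      ext k
      simp only [Finset.mem_Ioc, Finset.mem_insert]
      omega
    have hmeas : Measurable ((mon i (c + 1)).indicator fun B : Sq =>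
        ENNReal.ofReal (l ^ (c + 1 - i) * Real.exp (-l * (B (c + 1) - B i))) * Φ B) := by
      refine Measurable.indicator ?_ (measurableSet_mon i (c + 1))
      refine Measurable.mul ?_ hΦ
      refine ENNReal.measurable_ofReal.comp (measurable_const.mul (Real.measurable_exp.comp ?_))
      exact measurable_const.mul ((measurable_pi_apply (c + 1)).sub (measurable_pi_apply i))
    rw [h4, lmarginal_insert' _ hmeas (by simp)]
    congr 1
    funext B
    by_cases hB : B ∈ mon i c
    · rw [indicator_of_mem hB, hΨd]
      simp only
      have hg : Measurable fun s : ℝ => Φ (Function.update B (c + 1) s) :=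
        hΦ.comp (measurable_update B)
      rw [paths_exp hl (B c) hg]
      have hm2 : Measurable ((Ici (B c)).indicator fun s =>
          ENNReal.ofReal (l * Real.exp (-l * (s - B c))) * Φ (Function.update B (c + 1) s)) := by
        refine Measurable.indicator ?_ measurableSet_Ici
        exact Measurable.mul (by fun_prop) hg
      rw [← lintegral_const_mul _ hm2]
      refine lintegral_congr fun s => ?_
      have hmem : Function.update B (c + 1) s ∈ mon i (c + 1) ↔ B c ≤ s := by
        constructor
        · intro h
          have := h c hic (by omega)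
          rwa [Function.update_self, Function.update_of_ne (by omega)] at this
        · intro h k h1 h2
          rcases Nat.lt_or_ge k c with h3 | h3
          · rw [Function.update_of_ne (by omega), Function.update_of_ne (by omega)]
            exact hB k h1 h3
          · have : k = c := by omega
            subst this
            rw [Function.update_self, Function.update_of_ne (by omega)]
            exact h
      by_cases hs : B c ≤ s
      · rw [indicator_of_mem (show s ∈ Ici (B c) from hs), indicator_of_mem (hmem.2 hs),
          Function.update_self, Function.update_of_ne (by omega : i ≠ c + 1), ← mul_assoc,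
          ← ENNReal.ofReal_mul (by positivity)]
        congr 2
        have e : c + 1 - i = (c - i) + 1 := by omega
        rw [e, pow_succ]
        have : Real.exp (-l * (s - B i)) =
            Real.exp (-l * (B c - B i)) * Real.exp (-l * (s - B c)) := by
          rw [← Real.exp_add]; congr 1; ring
        rw [this]; ring
      · rw [indicator_of_notMem (show s ∉ Ici (B c) from hs),
          indicator_of_notMem (fun h => hs (hmem.1 h)), mul_zero]
    · rw [indicator_of_notMem hB]
      symm
      rw [lintegral_eq_zero_iff' ]
      · refine Filter.Eventually.of_forall fun s => ?_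
        refine indicator_of_notMem (fun h => hB fun k h1 h2 => ?_) _
        have := h k h1 (by omega)
        rwa [Function.update_of_ne (by omega), Function.update_of_ne (by omega)] at this
      · exact (hmeas.comp (measurable_update B)).aemeasurable

end Pool.Agent.H22.DL
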