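import Pool.Agent.H22.DL.RowDefs

/-!
# Finite products of the exponential law have density `es`
-/

open MeasureTheory ProbabilityTheory Filter Topology Set
open scoped ENNReal

namespace Pool.Agent.H22.DL

theorem lintegral_pi_withDensity {ν : Measure ℝ} [SigmaFinite ν] {f : ℝ → ℝ≥0∞}
    (hf : Measurable f) [SigmaFinite (ν.withDensity f)] : ∀ (m : ℕ)
    (G : (Fin m → ℝ) → ℝ≥0∞), Measurable G →
    ∫⁻ v, G v ∂(Measure.pi fun _ : Fin m => ν.withDensity f) =
      ∫⁻ v, (∏ i, f (v i)) * G v ∂(Measure.pi fun _ : Fin m => ν) := by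
  intro m
  induction m with
  | zero =>
    intro G _
    rw [Measure.pi_of_empty _ 0, Measure.pi_of_empty _ 0, lintegral_dirac, lintegral_dirac]
    simp
  | succ m ih =>
    intro G hG
    set e := (MeasurableEquiv.piFinSuccAbove (fun _ : Fin (m + 1) => ℝ) 0) with he
    have hs : ∀ (x : ℝ) (y : Fin m → ℝ), e.symm (x, y) = Fin.cons x y := by
      intro x y
      rw [MeasurableEquiv.symm_apply_eq]
      simp [he, MeasurableEquiv.piFinSuccAbove, Fin.insertNthEquiv]
    have key : ∀ (ρ : Measure ℝ) [SigmaFinite ρ] (h : (Fin (m + 1) → ℝ) → ℝ≥0∞), Measurable h →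
        ∫⁻ z, h z ∂(Measure.pi fun _ : Fin (m + 1) => ρ) =
        ∫⁻ x, ∫⁻ y, h (e.symm (x, y)) ∂(Measure.pi fun _ : Fin m => ρ) ∂ρ := by
      intro ρ _ h mh
      have mp := (measurePreserving_piFinSuccAbove (fun _ : Fin (m + 1) => ρ) 0).symm
      rw [← mp.lintegral_comp mh, lintegral_prod _ (by fun_prop)]
    have mF : Measurable fun v : Fin (m + 1) → ℝ => (∏ i, f (v i)) * G v :=
      (Finset.measurable_prod _ fun i _ => hf.comp (measurable_pi_apply i)).mul hG
    have mF' : Measurable fun p : ℝ × (Fin m → ℝ) => (∏ i, f (p.2 i)) * G (e.symm p) :=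
      (Finset.measurable_prod _ fun i _ => hf.comp ((measurable_pi_apply i).comp
        measurable_snd)).mul (hG.comp e.symm.measurable)
    rw [key _ G hG, key _ _ mF]
    have step : ∀ x : ℝ, ∫⁻ y, G (e.symm (x, y)) ∂(Measure.pi fun _ : Fin m => ν.withDensity f) =
        ∫⁻ y, (∏ i, f (y i)) * G (e.symm (x, y)) ∂(Measure.pi fun _ : Fin m => ν) := fun x =>
      ih _ (hG.comp (e.symm.measurable.comp measurable_prodMk_left))
    simp_rw [step]
    rw [lintegral_withDensity_eq_lintegral_mul _ hf mF'.lintegral_prod_right']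
    refine lintegral_congr fun x => ?_
    simp only [Pi.mul_apply]
    have mFx : Measurable fun y : Fin m → ℝ => (∏ i, f (y i)) * G (e.symm (x, y)) :=
      mF'.comp measurable_prodMk_left
    rw [← lintegral_const_mul _ mFx]
    refine lintegral_congr fun y => ?_
    rw [hs, Fin.prod_univ_succ, Fin.cons_zero, mul_assoc]
    simp only [Fin.cons_succ]

theorem es_eq_prod {N : ℕ} (s : Fin (N + 1) → ℝ) : es s = ∏ i, exponentialPDF 1 (s i) := by
  unfold es
  split_ifs with h
  · have : ∀ i, exponentialPDF 1 (s i) = ENNReal.ofReal (Real.exp (-(s i))) := by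
      intro i
      rw [exponentialPDF_of_nonneg (h i)]
      simp
    simp_rw [this]
    rw [← ENNReal.ofReal_prod_of_nonneg fun i _ => (Real.exp_pos _).le, ← Real.exp_sum,
      Finset.sum_neg_distrib]
  · push Not at h
    obtain ⟨i, hi⟩ := h
    rw [eq_comm, Finset.prod_eq_zero_iff]
    exact ⟨i, Finset.mem_univ _, exponentialPDF_of_neg hi⟩

theorem measurable_es {N : ℕ} : Measurable (es : (Fin (N + 1) → ℝ) → ℝ≥0∞) := by
  have : (es : (Fin (N + 1) → ℝ) → ℝ≥0∞) = fun s => ∏ i, exponentialPDF 1 (s i) := by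
    funext s
    exact es_eq_prod s
  rw [this]
  exact Finset.measurable_prod _ fun i _ =>
    (measurable_exponentialPDFReal 1).ennreal_ofReal.comp (measurable_pi_apply i)

/-- The product of exponential laws has density `es`. -/
theorem lintegral_pi_exp {N : ℕ} {G : (Fin (N + 1) → ℝ) → ℝ≥0∞} (hG : Measurable G) :
    ∫⁻ s, G s ∂(Measure.pi fun _ : Fin (N + 1) => expMeasure 1) = ∫⁻ s, es s * G s := by
  have : IsProbabilityMeasure (expMeasure 1) := isProbabilityMeasure_expMeasure one_pos
  have e : expMeasure 1 = (volume : Measure ℝ).withDensity (exponentialPDF 1) := rfl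
  have hm : Measurable (exponentialPDF 1) := (measurable_exponentialPDFReal 1).ennreal_ofReal
  have : SigmaFinite ((volume : Measure ℝ).withDensity (exponentialPDF 1)) := by
    rw [← e]; infer_instance
  rw [e, lintegral_pi_withDensity hm (N + 1) G hG, volume_pi]
  simp_rw [es_eq_prod]

end Pool.Agent.H22.DL
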