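import Pool.Agent.H22.DL.RowDefs

/-!
# Module RowAlg: the pointwise identity of one row

For `D = rowD a s`, `r = rowR D a`: `dn N h a * es s = dn N (newh h r) D * gr h r`.
* `{a` monotone, `s ≥ 0}` iff `{D` monotone, `r k ≥ 0 (k < N)`, `D N ≥ a N}`
  (`s k = D k - max (a k) (D (k-1))`);
* `a N + ∑ s = D N + ∑_{k < N} r k` (telescoping, `max x y + min x y = x + y`);
* `{a ≥ h}` iff `{D k ≥ ht k + r k (k < N), a N ≥ ht N}` since
  `a k = min (D k) (a (k + 1)) - r k`.
All by induction on `N` in terms of sequences.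
-/

open MeasureTheory ProbabilityTheory Filter Topology Set
open scoped ENNReal

namespace Pool.Agent.H22.DL

theorem RowAlg_seq_iff (N : ℕ) (h a s r : Sq)
    (hr : ∀ k, k < N → r k = min (rowS a s k) (a (k + 1)) - a k) :
    ((∀ k, k < N → a k ≤ a (k + 1)) ∧ (∀ k, k ≤ N → h k ≤ a k) ∧ (∀ k, k ≤ N → 0 ≤ s k)) ↔
      ((∀ k, k < N → rowS a s k ≤ rowS a s (k + 1)) ∧
        (∀ k, k < N → hts h r k + r k ≤ rowS a s k) ∧ a N ≤ rowS a s N ∧
        (∀ k, k < N → 0 ≤ r k) ∧ hts h r N ≤ a N) := by
  constructor
  · rintro ⟨hA, hB, hC⟩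
    have hD : ∀ k, k ≤ N → a k ≤ rowS a s k := by
      intro k hk
      cases k with
      | zero => have := hC 0 hk; simp only [rowS]; linarith
      | succ k =>
        have := hC (k + 1) hk
        have h2 := le_max_left (a (k + 1)) (rowS a s k)
        simp only [rowS]; linarith
    have hmono : ∀ k, k < N → rowS a s k ≤ rowS a s (k + 1) := by
      intro k hk
      have := hC (k + 1) hk
      have h2 := le_max_right (a (k + 1)) (rowS a s k)
      simp only [rowS]; linarith
    have hr0 : ∀ k, k < N → 0 ≤ r k := by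
      intro k hk
      rw [hr k hk]
      have := le_min (hD k hk.le) (hA k hk)
      linarith
    have hht : ∀ k, k ≤ N → hts h r k ≤ a k := by
      intro k
      induction k with
      | zero => intro hk; simpa [hts] using hB 0 hk
      | succ k ih =>
        intro hk
        have h1 := ih (by omega)
        have h2 := hr k (by omega)
        have h3 := min_le_right (rowS a s k) (a (k + 1))
        simp only [hts]
        exact max_le (hB _ hk) (by linarith)
    refine ⟨hmono, ?_, hD N le_rfl, hr0, hht N le_rfl⟩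
    intro k hk
    have h1 := hht k hk.le
    have h2 := hr k hk
    have h3 := min_le_left (rowS a s k) (a (k + 1))
    linarith
  · rintro ⟨hA, hB, hN, hr0, hE⟩
    have key : ∀ k, k < N → a k ≤ rowS a s k ∧ a k ≤ a (k + 1) := by
      intro k hk
      have h1 := hr0 k hk
      rw [hr k hk] at h1
      have h2 : a k ≤ min (rowS a s k) (a (k + 1)) := by linarith
      exact le_min_iff.1 h2
    have hD : ∀ k, k ≤ N → a k ≤ rowS a s k := by
      intro k hk
      rcases hk.lt_or_eq with h1 | h1
      · exact (key k h1).1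
      · rw [h1]; exact hN
    have hht : ∀ j, j ≤ N → hts h r (N - j) ≤ a (N - j) := by
      intro j
      induction j with
      | zero => intro _; simpa using hE
      | succ j ih =>
        intro hj
        have h0 := ih (by omega)
        obtain ⟨k, hk⟩ : ∃ k, N - j = k + 1 := ⟨N - j - 1, by omega⟩
        have hk' : N - (j + 1) = k := by omega
        rw [hk] at h0
        rw [hk']
        have hkN : k < N := by omega
        have h1 : hts h r k + r k ≤ hts h r (k + 1) := by
          simp only [hts]; exact le_max_right _ _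
        have h2 := hB k hkN
        have h3 := hr k hkN
        have h4 : hts h r k + r k ≤ min (rowS a s k) (a (k + 1)) := le_min h2 (h1.trans h0)
        linarith
    have hhle : ∀ k, h k ≤ hts h r k := by
      intro k
      cases k with
      | zero => simp [hts]
      | succ k => simp only [hts]; exact le_max_left _ _
    refine ⟨fun k hk => (key k hk).2, ?_, ?_⟩
    · intro k hk
      have := hht (N - k) (by omega)
      have h1 : N - (N - k) = k := by omega
      rw [h1] at this
      exact (hhle k).trans this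
    · intro k hk
      cases k with
      | zero => have := hD 0 hk; simp only [rowS] at this; linarith
      | succ k =>
        have h1 := hD (k + 1) hk
        have h2 := hA k (by omega)
        have h3 : max (a (k + 1)) (rowS a s k) ≤ rowS a s (k + 1) := max_le h1 h2
        simp only [rowS] at h3
        linarith

theorem RowAlg_sum (N : ℕ) (a s r : Sq)
    (hr : ∀ k, k < N → r k = min (rowS a s k) (a (k + 1)) - a k) :
    a N + ∑ k ∈ Finset.range (N + 1), s k = rowS a s N + ∑ k ∈ Finset.range N, r k := by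
  induction N with
  | zero => simp [rowS]; ring
  | succ N ih =>
    have h0 := ih (fun k hk => hr k (by omega))
    rw [Finset.sum_range_succ s (N + 1), Finset.sum_range_succ r N, hr N (by omega)]
    have h1 := max_add_min (a (N + 1)) (rowS a s N)
    rw [min_comm] at h1
    simp only [rowS]
    linarith

theorem RowAlg_exv {N : ℕ} (v : Fin (N + 1) → ℝ) (k : Fin (N + 1)) : exv v (k : ℕ) = v k := by
  have := k.2
  simp only [exv, Fin.eta, dif_pos this]

theorem row_identity {N : ℕ} (h a s : Fin (N + 1) → ℝ) :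
    dn N h a * es s =
      dn N (newh h (rowR (rowD a s) a)) (rowD a s) * gr h (rowR (rowD a s) a) := by
  set r := rowR (rowD a s) a with hrdef
  have hD : ∀ k : Fin (N + 1), rowD a s k = rowS (exv a) (exv s) k := fun k => rfl
  have hr : ∀ k, k < N → exv r k = min (rowS (exv a) (exv s) k) (exv a (k + 1)) - exv a k := by
    intro k hk
    have h1 := RowAlg_exv r ⟨k, by omega⟩
    have h2 := RowAlg_exv a ⟨k, by omega⟩
    simp only at h1 h2
    rw [h1, h2, hrdef]
    simp [rowR, hk, rowD]
  have hrN : r (Fin.last N) = exv a N := by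
    have h2 := RowAlg_exv a (Fin.last N)
    simp only [Fin.val_last] at h2
    rw [h2, hrdef]
    simp [rowR]
  have hsum := RowAlg_sum N (exv a) (exv s) (exv r) hr
  have hiff := RowAlg_seq_iff N (exv h) (exv a) (exv s) (exv r) hr
  have e1 : (∀ k : Fin N, a k.castSucc ≤ a k.succ) ↔ ∀ k, k < N → exv a k ≤ exv a (k + 1) := by
    constructor
    · intro H k hk
      have := H ⟨k, hk⟩
      rw [← RowAlg_exv a, ← RowAlg_exv a] at this
      simpa using this
    · intro H k
      rw [← RowAlg_exv a, ← RowAlg_exv a]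
      simpa using H k k.2
  have e2 : (∀ k, h k ≤ a k) ↔ ∀ k, k ≤ N → exv h k ≤ exv a k := by
    constructor
    · intro H k hk
      have := H ⟨k, by omega⟩
      rw [← RowAlg_exv a, ← RowAlg_exv h] at this
      simpa using this
    · intro H k
      rw [← RowAlg_exv a, ← RowAlg_exv h]
      exact H k (by omega)
  have e3 : (∀ k, 0 ≤ s k) ↔ ∀ k, k ≤ N → 0 ≤ exv s k := by
    constructor
    · intro H k hk
      have := H ⟨k, by omega⟩
      rw [← RowAlg_exv s] at this
      simpa using this
    · intro H k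
      rw [← RowAlg_exv s]
      exact H k (by omega)
  have e4 : (∀ k : Fin N, rowD a s k.castSucc ≤ rowD a s k.succ) ↔
      ∀ k, k < N → rowS (exv a) (exv s) k ≤ rowS (exv a) (exv s) (k + 1) := by
    constructor
    · intro H k hk
      simpa [rowD] using H ⟨k, hk⟩
    · intro H k
      simpa [rowD] using H k k.2
  have e5 : (∀ k, newh h r k ≤ rowD a s k) ↔
      (∀ k, k < N → hts (exv h) (exv r) k + exv r k ≤ rowS (exv a) (exv s) k) ∧
        exv a N ≤ rowS (exv a) (exv s) N := by
    constructor
    · intro H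
      refine ⟨?_, ?_⟩
      · intro k hk
        have h1 := H ⟨k, by omega⟩
        have h2 := RowAlg_exv r ⟨k, by omega⟩
        simp only at h2
        rw [h2]
        simpa [newh, hk, rowD] using h1
      · have h1 := H (Fin.last N)
        rw [← hrN]
        simpa [newh, rowD] using h1
    · rintro ⟨H1, H2⟩ k
      by_cases hk : (k : ℕ) < N
      · have h1 := H1 k hk
        rw [RowAlg_exv] at h1
        simpa [newh, hk, rowD] using h1
      · have hk' : k = Fin.last N := by
          apply Fin.ext
          have := k.2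
          simp only [Fin.val_last]
          omega
        subst hk'
        rw [← hrN] at H2
        simpa [newh, rowD] using H2
  have e6 : (∀ k : Fin N, 0 ≤ r k.castSucc) ↔ ∀ k, k < N → 0 ≤ exv r k := by
    constructor
    · intro H k hk
      have := H ⟨k, hk⟩
      rw [← RowAlg_exv r] at this
      simpa using this
    · intro H k
      rw [← RowAlg_exv r]
      simpa using H k k.2
  have s1 : ∑ k, s k = ∑ k ∈ Finset.range (N + 1), exv s k := by
    rw [Finset.sum_range]
    exact Finset.sum_congr rfl fun k _ => (RowAlg_exv s k).symm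
  have s2 : ∑ k : Fin N, r k.castSucc = ∑ k ∈ Finset.range N, exv r k := by
    rw [Finset.sum_range]
    refine Finset.sum_congr rfl fun k _ => ?_
    rw [← RowAlg_exv r]
    rfl
  have s3 : a (Fin.last N) = exv a N := (RowAlg_exv a (Fin.last N)).symm
  have s4 : rowD a s (Fin.last N) = rowS (exv a) (exv s) N := rfl
  have e7 : hts (exv h) (exv r) N ≤ r (Fin.last N) ↔ hts (exv h) (exv r) N ≤ exv a N := by
    rw [hrN]
  unfold dn es gr
  by_cases hc : ((∀ k : Fin N, a k.castSucc ≤ a k.succ) ∧ (∀ k, h k ≤ a k)) ∧ (∀ k, 0 ≤ s k)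
  · obtain ⟨⟨c1, c2⟩, c3⟩ := hc
    obtain ⟨d1, d2, d3, d4, d5⟩ := hiff.1 ⟨e1.1 c1, e2.1 c2, e3.1 c3⟩
    rw [if_pos ⟨c1, c2⟩, if_pos c3, if_pos ⟨e4.2 d1, e5.2 ⟨d2, d3⟩⟩, if_pos ⟨e6.2 d4, e7.2 d5⟩,
      ← ENNReal.ofReal_mul (Real.exp_pos _).le, ← ENNReal.ofReal_mul (Real.exp_pos _).le,
      ← Real.exp_add, ← Real.exp_add, s1, s2, s3, s4]
    congr 2
    linarith
  · have hL : ((if (∀ k : Fin N, a k.castSucc ≤ a k.succ) ∧ (∀ k, h k ≤ a k) then
        ENNReal.ofReal (Real.exp (-(a (Fin.last N)))) else 0) *
        if ∀ k, 0 ≤ s k then ENNReal.ofReal (Real.exp (-∑ k, s k)) else 0) = 0 := by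
      by_cases c12 : (∀ k : Fin N, a k.castSucc ≤ a k.succ) ∧ (∀ k, h k ≤ a k)
      · rw [if_neg (fun c3 => hc ⟨c12, c3⟩), mul_zero]
      · rw [if_neg c12, zero_mul]
    rw [hL]
    symm
    by_cases d12 : (∀ k : Fin N, rowD a s k.castSucc ≤ rowD a s k.succ) ∧
        (∀ k, newh h r k ≤ rowD a s k)
    · by_cases d45 : (∀ k : Fin N, 0 ≤ r k.castSucc) ∧ hts (exv h) (exv r) N ≤ r (Fin.last N)
      · have hh := hiff.2 ⟨e4.1 d12.1, (e5.1 d12.2).1, (e5.1 d12.2).2, e6.1 d45.1, e7.1 d45.2⟩
        exact absurd ⟨⟨e1.2 hh.1, e2.2 hh.2.1⟩, e3.2 hh.2.2⟩ hc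
      · rw [if_neg d45, mul_zero]
    · rw [if_neg d12, zero_mul]

end Pool.Agent.H22.DL
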