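import Pool.Agent.H22.DL.Tri
import Pool.Agent.H22.DL.RowAlg

/-!
# Module RepStep: one more row preserves the representation

`∫ F dμ' = ∫ζ ∫a ∫s dn (h z) a * es s * F (rowD a s)`; the map `(a, s) ↦ (a, rowD a s)` and then
`(a, D) ↦ (rowR D a, D)` preserves Lebesgue measure (`tri_low` for fixed `a` with
`f k s = max (a k) (rowD a s (k-1))`, `tri_up` for fixed `D` with `ε k = -1` for `k < N`, `1` for
`k = N`; `MeasurePreserving.skew_product`); `row_identity`. New space `Z × (Fin (N + 1) → ℝ)`,
`ζ' = (ζ.prod volume).withDensity (gr (h z) r)`, `h' = newh (h z) r`.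
-/

open MeasureTheory ProbabilityTheory Filter Topology Set
open scoped ENNReal

namespace Pool.Agent.H22.DL

/-! ### Measurability -/

theorem RepStep_exv {N : ℕ} (k : ℕ) : Measurable fun v : Fin (N + 1) → ℝ => exv v k := by
  unfold exv
  by_cases h : k < N + 1
  · simp only [h, dif_pos]
    exact measurable_pi_apply _
  · simp only [h, dif_neg, not_false_iff]
    exact measurable_const

theorem RepStep_rowS (k : ℕ) : Measurable fun p : Sq × Sq => rowS p.1 p.2 k := by
  induction k with
  | zero =>
    simp only [rowS]
    exact ((measurable_pi_apply 0).comp measurable_snd).add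
      ((measurable_pi_apply 0).comp measurable_fst)
  | succ k ih =>
    simp only [rowS]
    exact ((measurable_pi_apply (k + 1)).comp measurable_snd).add
      (((measurable_pi_apply (k + 1)).comp measurable_fst).max ih)

theorem RepStep_hts (k : ℕ) : Measurable fun p : Sq × Sq => hts p.1 p.2 k := by
  induction k with
  | zero =>
    simp only [hts]
    exact (measurable_pi_apply 0).comp measurable_fst
  | succ k ih =>
    simp only [hts]
    exact ((measurable_pi_apply (k + 1)).comp measurable_fst).max
      (ih.add ((measurable_pi_apply k).comp measurable_snd))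

theorem RepStep_exv' {N : ℕ} : Measurable fun v : Fin (N + 1) → ℝ => exv v :=
  measurable_pi_iff.2 fun k => RepStep_exv k

theorem RepStep_rowD {N : ℕ} :
    Measurable fun p : (Fin (N + 1) → ℝ) × (Fin (N + 1) → ℝ) => rowD p.1 p.2 := by
  refine measurable_pi_iff.2 fun k => ?_
  exact (RepStep_rowS k).comp
    ((RepStep_exv'.comp measurable_fst).prodMk (RepStep_exv'.comp measurable_snd))

theorem RepStep_rowR {N : ℕ} :
    Measurable fun p : (Fin (N + 1) → ℝ) × (Fin (N + 1) → ℝ) => rowR p.1 p.2 := by
  refine measurable_pi_iff.2 fun k => ?_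
  unfold rowR
  by_cases h : (k : ℕ) < N
  · simp only [h, if_true]
    exact (((measurable_pi_apply k).comp measurable_fst).min
      ((RepStep_exv _).comp measurable_snd)).sub ((measurable_pi_apply k).comp measurable_snd)
  · simp only [h, if_false]
    exact (measurable_pi_apply k).comp measurable_snd

theorem RepStep_newh {N : ℕ} :
    Measurable fun p : (Fin (N + 1) → ℝ) × (Fin (N + 1) → ℝ) => newh p.1 p.2 := by
  refine measurable_pi_iff.2 fun k => ?_
  unfold newh
  by_cases h : (k : ℕ) < N
  · simp only [h, if_true]
    exact ((RepStep_hts k).comp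
      ((RepStep_exv'.comp measurable_fst).prodMk (RepStep_exv'.comp measurable_snd))).add
        ((measurable_pi_apply k).comp measurable_snd)
  · simp only [h, if_false]
    exact (measurable_pi_apply k).comp measurable_snd

theorem RepStep_le {α : Type*} [MeasurableSpace α] {f g : α → ℝ} (hf : Measurable f)
    (hg : Measurable g) : Measurable fun a => f a ≤ g a :=
  measurableSet_setOfPred.1 (measurableSet_le hf hg)

theorem RepStep_dn {N : ℕ} :
    Measurable fun p : (Fin (N + 1) → ℝ) × (Fin (N + 1) → ℝ) => dn N p.1 p.2 := by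
  unfold dn
  refine Measurable.ite ?_ ?_ measurable_const
  · refine measurableSet_setOfPred.2 (Measurable.and ?_ ?_)
    · refine Measurable.forall fun k => RepStep_le ?_ ?_
      · exact (measurable_pi_apply _).comp measurable_snd
      · exact (measurable_pi_apply _).comp measurable_snd
    · refine Measurable.forall fun k => RepStep_le ?_ ?_
      · exact (measurable_pi_apply _).comp measurable_fst
      · exact (measurable_pi_apply _).comp measurable_snd
  · exact (Real.measurable_exp.comp ((measurable_pi_apply _).comp measurable_snd).neg).ennreal_ofReal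

theorem RepStep_gr {N : ℕ} :
    Measurable fun p : (Fin (N + 1) → ℝ) × (Fin (N + 1) → ℝ) => gr p.1 p.2 := by
  unfold gr
  refine Measurable.ite ?_ ?_ measurable_const
  · refine measurableSet_setOfPred.2 (Measurable.and ?_ ?_)
    · refine Measurable.forall fun k => RepStep_le measurable_const ?_
      exact (measurable_pi_apply _).comp measurable_snd
    · refine RepStep_le ?_ ?_
      · exact (RepStep_hts N).comp
          ((RepStep_exv'.comp measurable_fst).prodMk (RepStep_exv'.comp measurable_snd))
      · exact (measurable_pi_apply _).comp measurable_snd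
  · refine (Real.measurable_exp.comp (Measurable.neg ?_)).ennreal_ofReal
    exact Finset.measurable_sum _ fun k _ => (measurable_pi_apply _).comp measurable_snd

theorem RepStep_es {N : ℕ} : Measurable fun s : Fin (N + 1) → ℝ => es s := by
  unfold es
  refine Measurable.ite ?_ ?_ measurable_const
  · exact measurableSet_setOfPred.2
      (Measurable.forall fun k => RepStep_le measurable_const (measurable_pi_apply _))
  · refine (Real.measurable_exp.comp (Measurable.neg ?_)).ennreal_ofReal
    exact Finset.measurable_sum _ fun k _ => measurable_pi_apply _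

/-! ### Product of densities -/

theorem RepStep_pi_withDensity (n : ℕ) (f : Fin n → ℝ → ℝ≥0∞) (hf : ∀ i, Measurable (f i))
    (hs : ∀ i, SigmaFinite ((volume : Measure ℝ).withDensity (f i)))
    (F : (Fin n → ℝ) → ℝ≥0∞) (hF : Measurable F) :
    ∫⁻ x, F x ∂(Measure.pi fun i => (volume : Measure ℝ).withDensity (f i)) =
      ∫⁻ x : Fin n → ℝ, (∏ i, f i (x i)) * F x := by
  induction n with
  | zero =>
    rw [volume_pi]
    simp only [Finset.univ_eq_empty, Finset.prod_empty, one_mul]
    rw [Measure.pi_of_empty _ default, Measure.pi_of_empty _ default]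
  | succ n ih =>
    have e1 := (measurePreserving_piFinSuccAbove
      (fun i => (volume : Measure ℝ).withDensity (f i)) 0).symm
    have e2 := (volume_preserving_piFinSuccAbove (fun _ : Fin (n + 1) => ℝ) 0).symm
    rw [← e1.lintegral_comp_emb (MeasurableEquiv.measurableEmbedding _),
      ← e2.lintegral_comp_emb (MeasurableEquiv.measurableEmbedding _)]
    have hm1 : Measurable fun x : ℝ × (Fin n → ℝ) =>
        F ((MeasurableEquiv.piFinSuccAbove (fun _ : Fin (n + 1) => ℝ) 0).symm x) :=
      hF.comp (MeasurableEquiv.measurable _)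
    have hm2 : Measurable fun x : Fin (n + 1) → ℝ => (∏ i, f i (x i)) * F x :=
      (Finset.measurable_prod _ fun i _ => (hf i).comp (measurable_pi_apply i)).mul hF
    have hm3 : Measurable fun x : ℝ × (Fin n → ℝ) =>
        (∏ i, f i ((MeasurableEquiv.piFinSuccAbove (fun _ : Fin (n + 1) => ℝ) 0).symm x i)) *
          F ((MeasurableEquiv.piFinSuccAbove (fun _ : Fin (n + 1) => ℝ) 0).symm x) :=
      hm2.comp (MeasurableEquiv.measurable _)
    rw [lintegral_prod _ hm1.aemeasurable, Measure.volume_eq_prod,
      lintegral_prod _ hm3.aemeasurable, lintegral_withDensity_eq_lintegral_mul _ (hf 0)]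
    · refine lintegral_congr fun x => ?_
      simp only [Pi.mul_apply]
      have h1 := ih (fun i => f ((0 : Fin (n + 1)).succAbove i)) (fun i => hf _) (fun i => hs _)
        (fun y => F ((MeasurableEquiv.piFinSuccAbove (fun _ : Fin (n + 1) => ℝ) 0).symm (x, y)))
        (hm1.comp measurable_prodMk_left)
      rw [h1, ← lintegral_const_mul]
      · refine lintegral_congr fun y => ?_
        rw [Fin.prod_univ_succ, ← mul_assoc]
        simp [MeasurableEquiv.piFinSuccAbove_symm_apply]
      · exact (Finset.measurable_prod _ fun i _ => (hf _).comp (measurable_pi_apply i)).mul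
          (hm1.comp measurable_prodMk_left)
    · exact hm1.lintegral_prod_right'

theorem RepStep_exp {N : ℕ} (F : (Fin (N + 1) → ℝ) → ℝ≥0∞) (hF : Measurable F) :
    ∫⁻ s, F s ∂(Measure.pi fun _ : Fin (N + 1) => expMeasure 1) =
      ∫⁻ s, es s * F s := by
  have h1 : expMeasure 1 = (volume : Measure ℝ).withDensity (exponentialPDF 1) := rfl
  have hp : IsProbabilityMeasure ((volume : Measure ℝ).withDensity (exponentialPDF 1)) := by
    rw [← h1]; exact isProbabilityMeasure_expMeasure one_pos
  have hm : Measurable (exponentialPDF 1) :=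
    (measurable_exponentialPDFReal 1).ennreal_ofReal
  simp only [h1]
  rw [RepStep_pi_withDensity (N + 1) (fun _ => exponentialPDF 1) (fun _ => hm)
    (fun _ => inferInstance) F hF]
  refine lintegral_congr fun s => ?_
  congr 1
  unfold es
  split_ifs with hs
  · rw [← Finset.sum_neg_distrib, Real.exp_sum, ENNReal.ofReal_prod_of_nonneg
      (fun i _ => (Real.exp_pos _).le)]
    refine Finset.prod_congr rfl fun i _ => ?_
    rw [exponentialPDF_of_nonneg (hs i)]
    simp
  · push Not at hs
    obtain ⟨k, hk⟩ := hs
    exact Finset.prod_eq_zero (Finset.mem_univ k) (exponentialPDF_of_neg hk)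

theorem RepStep_low {N : ℕ} (a : Fin (N + 1) → ℝ) :
    MeasurePreserving (fun s : Fin (N + 1) → ℝ => rowD a s) volume volume := by
  have h := tri_low (N + 1) (fun _ => 1) (fun _ => Or.inl rfl)
    (fun k s => match (k : ℕ) with
      | 0 => exv a 0
      | j + 1 => max (exv a (j + 1)) (rowS (exv a) (exv s) j)) ?_ ?_
  · convert h using 1
    funext s k
    obtain ⟨k, hk⟩ := k
    cases k with
    | zero =>
      have := RowAlg_exv s ⟨0, hk⟩
      simp only at this
      simp [rowD, rowS, this]
    | succ j =>
      have := RowAlg_exv s ⟨j + 1, hk⟩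
      simp only at this
      simp [rowD, rowS, this]
  · intro k
    obtain ⟨k, hk⟩ := k
    cases k with
    | zero => exact measurable_const
    | succ j =>
      exact measurable_const.max ((RepStep_rowS j).comp (measurable_const.prodMk RepStep_exv'))
  · intro k v v' hv
    obtain ⟨k, hk⟩ := k
    cases k with
    | zero => rfl
    | succ j =>
      simp only
      congr 1
      have key : ∀ i, i ≤ j → rowS (exv a) (exv v) i = rowS (exv a) (exv v') i := by
        intro i
        induction i with
        | zero =>
          intro _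
          simp only [rowS]
          congr 1
          have h1 := RowAlg_exv v ⟨0, by omega⟩
          have h2 := RowAlg_exv v' ⟨0, by omega⟩
          simp only at h1 h2
          rw [h1, h2]
          exact hv _ (by simp [Fin.lt_def])
        | succ i ih =>
          intro hi
          simp only [rowS]
          rw [ih (by omega)]
          congr 1
          have h1 := RowAlg_exv v ⟨i + 1, by omega⟩
          have h2 := RowAlg_exv v' ⟨i + 1, by omega⟩
          simp only at h1 h2
          rw [h1, h2]
          exact hv _ (by simp only [Fin.lt_def]; omega)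
      exact key j le_rfl

theorem RepStep_up {N : ℕ} (D : Fin (N + 1) → ℝ) :
    MeasurePreserving (fun a : Fin (N + 1) → ℝ => rowR D a) volume volume := by
  have h := tri_up (N + 1) (fun k => if (k : ℕ) < N then -1 else 1)
    (fun k => by by_cases h : (k : ℕ) < N <;> simp [h])
    (fun k a => if (k : ℕ) < N then min (D k) (exv a (k + 1)) else 0) ?_ ?_
  · convert h using 1
    funext a k
    unfold rowR
    by_cases hk : (k : ℕ) < N
    · simp only [hk, if_true]; ring
    · simp only [hk, if_false]; ring
  · intro k
    by_cases hk : (k : ℕ) < N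
    · simp only [hk, if_true]
      exact measurable_const.min (RepStep_exv _)
    · simp only [hk, if_false]
      exact measurable_const
  · intro k v v' hv
    by_cases hk : (k : ℕ) < N
    · simp only [hk, if_true]
      congr 1
      have h1 := RowAlg_exv v ⟨k + 1, by omega⟩
      have h2 := RowAlg_exv v' ⟨k + 1, by omega⟩
      simp only at h1 h2
      rw [h1, h2]
      exact hv _ (by simp [Fin.lt_def])
    · simp only [hk, if_false]

theorem rep_step {N : ℕ} {μ : Measure (Fin (N + 1) → ℝ)} [SFinite μ] (hμ : Rep N μ) :
    Rep N ((μ.prod (Measure.pi fun _ : Fin (N + 1) => expMeasure 1)).map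
      fun p => rowD p.1 p.2) := by
  obtain ⟨Z, mZ, ζ, h, hζ, hh, hrep⟩ := hμ
  have hgm : Measurable fun p : Z × (Fin (N + 1) → ℝ) => gr (h p.1) p.2 :=
    RepStep_gr.comp ((hh.comp measurable_fst).prodMk measurable_snd)
  have hnm : Measurable fun p : Z × (Fin (N + 1) → ℝ) => newh (h p.1) p.2 :=
    RepStep_newh.comp ((hh.comp measurable_fst).prodMk measurable_snd)
  refine ⟨Z × (Fin (N + 1) → ℝ), inferInstance,
    (ζ.prod volume).withDensity (fun p => gr (h p.1) p.2), fun p => newh (h p.1) p.2,
    inferInstance, hnm, ?_⟩
  intro F hF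
  have : IsProbabilityMeasure (expMeasure 1) := isProbabilityMeasure_expMeasure one_pos
  have hFD : Measurable fun p : (Fin (N + 1) → ℝ) × (Fin (N + 1) → ℝ) => F (rowD p.1 p.2) :=
    hF.comp RepStep_rowD
  rw [lintegral_map hF RepStep_rowD, lintegral_prod _ hFD.aemeasurable]
  have hmes : Measurable fun p : (Fin (N + 1) → ℝ) × (Fin (N + 1) → ℝ) =>
      es p.2 * F (rowD p.1 p.2) := (RepStep_es.comp measurable_snd).mul hFD
  have st1 : ∀ a : Fin (N + 1) → ℝ, ∫⁻ s, F (rowD a s) ∂(Measure.pi fun _ : Fin (N + 1) =>
      expMeasure 1) = ∫⁻ s, es s * F (rowD a s) :=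
    fun a => RepStep_exp _ (hFD.comp measurable_prodMk_left)
  simp only [st1]
  rw [hrep _ hmes.lintegral_prod_right']
  -- the right side
  have hdnm : Measurable fun p : (Z × (Fin (N + 1) → ℝ)) × (Fin (N + 1) → ℝ) =>
      dn N (newh (h p.1.1) p.1.2) p.2 * F p.2 :=
    (RepStep_dn.comp ((hnm.comp measurable_fst).prodMk measurable_snd)).mul
      (hF.comp measurable_snd)
  rw [lintegral_withDensity_eq_lintegral_mul _ hgm hdnm.lintegral_prod_right',
    lintegral_prod _ (hgm.mul hdnm.lintegral_prod_right').aemeasurable]
  refine lintegral_congr fun z => ?_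
  simp only [Pi.mul_apply]
  -- for fixed z
  have hΦ : Measurable fun p : (Fin (N + 1) → ℝ) × (Fin (N + 1) → ℝ) =>
      gr (h z) p.1 * (dn N (newh (h z) p.1) p.2 * F p.2) := by
    have h1 : Measurable fun p : (Fin (N + 1) → ℝ) × (Fin (N + 1) → ℝ) => gr (h z) p.1 :=
      RepStep_gr.comp (measurable_const.prodMk measurable_fst)
    have h2 : Measurable fun p : (Fin (N + 1) → ℝ) × (Fin (N + 1) → ℝ) =>
        dn N (newh (h z) p.1) p.2 :=
      RepStep_dn.comp ((RepStep_newh.comp (measurable_const.prodMk measurable_fst)).prodMk
        measurable_snd)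
    exact h1.mul (h2.mul (hF.comp measurable_snd))
  have st2 : ∀ a : Fin (N + 1) → ℝ, dn N (h z) a * ∫⁻ s, es s * F (rowD a s) =
      ∫⁻ D, gr (h z) (rowR D a) * (dn N (newh (h z) (rowR D a)) D * F D) := by
    intro a
    have h1 : Measurable fun D : Fin (N + 1) → ℝ =>
        gr (h z) (rowR D a) * (dn N (newh (h z) (rowR D a)) D * F D) :=
      hΦ.comp ((RepStep_rowR.comp (measurable_id.prodMk measurable_const)).prodMk measurable_id)
    rw [← (RepStep_low a).lintegral_comp h1, ← lintegral_const_mul]
    · refine lintegral_congr fun s => ?_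
      rw [← mul_assoc, row_identity, ← mul_assoc, mul_comm (gr _ _)]
    · exact hmes.comp measurable_prodMk_left
  simp only [st2]
  have hm4 : Measurable fun p : (Fin (N + 1) → ℝ) × (Fin (N + 1) → ℝ) =>
      gr (h z) (rowR p.2 p.1) * (dn N (newh (h z) (rowR p.2 p.1)) p.2 * F p.2) :=
    hΦ.comp ((RepStep_rowR.comp (measurable_snd.prodMk measurable_fst)).prodMk measurable_snd)
  rw [lintegral_lintegral_swap hm4.aemeasurable]
  have st3 : ∀ D : Fin (N + 1) → ℝ,
      ∫⁻ a, gr (h z) (rowR D a) * (dn N (newh (h z) (rowR D a)) D * F D) =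
        ∫⁻ r, gr (h z) r * (dn N (newh (h z) r) D * F D) := by
    intro D
    exact (RepStep_up D).lintegral_comp (hΦ.comp (measurable_id.prodMk measurable_const))
  simp only [st3]
  rw [lintegral_lintegral_swap]
  · refine lintegral_congr fun r => ?_
    rw [lintegral_const_mul]
    exact hdnm.comp (measurable_const.prodMk measurable_id :
      Measurable fun D : Fin (N + 1) → ℝ => (((z, r) : Z × (Fin (N + 1) → ℝ)), D))
  · exact (hΦ.comp measurable_swap).aemeasurable

end Pool.Agent.H22.DL
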