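import Pool.Agent.H22.DL.RepStep
import Pool.Agent.H22.DL.PiExp
import Pool.Agent.H74.DL.Lpp

/-!
# Module RepTop: the top line of exponential last passage percolation

Induction on `n`. Row `0`: partial sums of iid exponential variables (`Z` = a point, `h = 0`,
`tri_low`/`Paths` or a direct computation). Step: `top (w ω) (n + 1) k = rowD (top (w ω) n) (w ω ·
(n + 1)) k` for `k ≤ N`, and the weights of row `n + 1` are independent of the rows `≤ n`
(`iIndepFun.indepFun_finset`).
-/

open MeasureTheory ProbabilityTheory Filter Topology Set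
open scoped ENNReal

namespace Pool.Agent.H22.DL

open Pool.Agent.H37.DL

theorem measurable_top {Ω : Type*} [MeasurableSpace Ω] {P : Measure Ω} {w : Ω → ℤ → ℕ → ℝ}
    (hw : IsExpWeights P w) (n k : ℕ) : Measurable fun ω => top (w ω) n k :=
  Pool.Agent.H74.DL.measurable_lpp hw.meas 0 k n

/-- partial sums, as a self-map of `Fin (N + 1) → ℝ` -/
noncomputable def pps {N : ℕ} (v : Fin (N + 1) → ℝ) (k : Fin (N + 1)) : ℝ :=
  ∑ j ∈ Finset.univ.filter (· ≤ k), v j

theorem pps_eq {N : ℕ} (v : Fin (N + 1) → ℝ) (k : Fin (N + 1)) :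
    pps v k = 1 * v k + ∑ j ∈ Finset.univ.filter (· < k), v j := by
  unfold pps
  have : Finset.univ.filter (· ≤ k) = insert k (Finset.univ.filter (· < k)) := by
    ext j
    simp [le_iff_eq_or_lt]
  rw [this, Finset.sum_insert (by simp), one_mul]

theorem pps_preserving (N : ℕ) :
    MeasurePreserving (pps : (Fin (N + 1) → ℝ) → (Fin (N + 1) → ℝ)) volume volume := by
  have h := tri_low (N + 1) (fun _ => 1) (fun _ => Or.inl rfl)
    (fun k v => ∑ j ∈ Finset.univ.filter (· < k), v j) (fun k => by fun_prop)
    (fun k v v' hv => Finset.sum_congr rfl fun j hj => hv j (by simpa using hj))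
  have e : (fun (v : Fin (N + 1) → ℝ) (k : Fin (N + 1)) =>
      1 * v k + ∑ j ∈ Finset.univ.filter (· < k), v j) = pps := by
    funext v k
    exact (pps_eq v k).symm
  rwa [e] at h

theorem pps_zero {N : ℕ} (v : Fin (N + 1) → ℝ) : pps v 0 = v 0 := by
  unfold pps
  have : Finset.univ.filter (· ≤ (0 : Fin (N + 1))) = {0} := by
    ext j
    simp
  rw [this, Finset.sum_singleton]

theorem pps_succ {N : ℕ} (v : Fin (N + 1) → ℝ) (k : Fin N) :
    pps v k.succ = pps v k.castSucc + v k.succ := by
  unfold pps
  have : Finset.univ.filter (· ≤ k.succ) = insert k.succ (Finset.univ.filter (· ≤ k.castSucc)) := by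
    ext j
    simp only [Finset.mem_filter, Finset.mem_univ, true_and, Finset.mem_insert]
    constructor
    · intro h
      rcases h.eq_or_lt with h | h
      · exact Or.inl h
      · right
        rwa [Fin.le_castSucc_iff]
    · rintro (h | h)
      · exact h.le
      · rw [Fin.le_castSucc_iff] at h
        exact h.le
  rw [this, Finset.sum_insert, add_comm]
  simp only [Finset.mem_filter, Finset.mem_univ, true_and, not_le]
  exact Fin.castSucc_lt_succ

theorem pps_last {N : ℕ} (v : Fin (N + 1) → ℝ) : pps v (Fin.last N) = ∑ k, v k := by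
  unfold pps
  congr 1
  ext j
  simp [Fin.le_last]

theorem es_eq_dn {N : ℕ} (s : Fin (N + 1) → ℝ) : es s = dn N 0 (pps s) := by
  unfold es dn
  rw [pps_last]
  have : (∀ k, 0 ≤ s k) ↔ ((∀ k : Fin N, pps s k.castSucc ≤ pps s k.succ) ∧
      ∀ k, (0 : Fin (N + 1) → ℝ) k ≤ pps s k) := by
    constructor
    · intro h
      refine ⟨fun k => ?_, fun k => ?_⟩
      · rw [pps_succ]
        linarith [h k.succ]
      · exact Finset.sum_nonneg fun j _ => h j
    · rintro ⟨h1, h2⟩ k
      rcases Fin.eq_zero_or_eq_succ k with rfl | ⟨j, rfl⟩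
      · have := h2 0
        rw [pps_zero] at this
        exact this
      · have := h1 j
        rw [pps_succ] at this
        linarith
  simp only [this]

theorem reptop_measurable_dn {N : ℕ} (h : Fin (N + 1) → ℝ) : Measurable (dn N h) := by
  classical
  unfold dn
  refine Measurable.ite ?_ (by fun_prop) measurable_const
  refine MeasurableSet.inter ?_ ?_
  · have : {a : Fin (N + 1) → ℝ | ∀ k : Fin N, a k.castSucc ≤ a k.succ} =
        ⋂ k : Fin N, {a : Fin (N + 1) → ℝ | a k.castSucc ≤ a k.succ} := by
      ext a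
      simp
    show MeasurableSet {a : Fin (N + 1) → ℝ | ∀ k : Fin N, a k.castSucc ≤ a k.succ}
    rw [this]
    exact MeasurableSet.iInter fun k => measurableSet_le (by fun_prop) (by fun_prop)
  · have : {a : Fin (N + 1) → ℝ | ∀ k, h k ≤ a k} =
        ⋂ k, {a : Fin (N + 1) → ℝ | h k ≤ a k} := by
      ext a
      simp
    show MeasurableSet {a : Fin (N + 1) → ℝ | ∀ k, h k ≤ a k}
    rw [this]
    exact MeasurableSet.iInter fun k => measurableSet_le (by fun_prop) (by fun_prop)

/-- law of one row of weights -/
theorem map_row {Ω : Type*} [MeasurableSpace Ω] {P : Measure Ω} [IsProbabilityMeasure P]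
    {w : Ω → ℤ → ℕ → ℝ} (hw : IsExpWeights P w) (n N : ℕ) :
    P.map (fun ω (k : Fin (N + 1)) => w ω k n) =
      Measure.pi fun _ : Fin (N + 1) => expMeasure 1 := by
  have hind : iIndepFun (fun (k : Fin (N + 1)) ω => w ω k n) P := by
    have := hw.indep.precomp (g := fun k : Fin (N + 1) => (((k : ℕ) : ℤ), n)) (by
      intro a b hab
      simp only [Prod.mk.injEq, Nat.cast_inj, and_true] at hab
      exact Fin.ext hab)
    exact this
  rw [iIndepFun_iff_map_fun_eq_pi_map (fun k => (hw.meas _ _).aemeasurable)] at hind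
  rw [hind]
  congr 1
  funext k
  exact hw.law _ _

theorem lpp_row_zero (w : ℤ → ℕ → ℝ) {N : ℕ} (k : Fin (N + 1)) :
    lpp w 0 k 0 = pps (fun j : Fin (N + 1) => w j 0) k := by
  obtain ⟨k, hk⟩ := k
  induction k with
  | zero =>
    have := pps_zero (fun j : Fin (N + 1) => w j 0)
    rw [show (⟨0, hk⟩ : Fin (N + 1)) = 0 from rfl, this]
    exact Pool.Agent.H74.DL.lpp_00 w 0
  | succ k ih =>
    have hk' : k < N := by omega
    have e1 : (⟨k + 1, hk⟩ : Fin (N + 1)) = (⟨k, hk'⟩ : Fin N).succ := rfl
    have e2 : (⟨k, by omega⟩ : Fin (N + 1)) = (⟨k, hk'⟩ : Fin N).castSucc := rfl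
    rw [e1, pps_succ, ← e2, ← ih]
    simp only [Fin.val_succ, Pool.Agent.H74.DL.lpp_s0]
    simp

theorem lpp_row_succ (w : ℤ → ℕ → ℝ) {N : ℕ} (n : ℕ) (k : Fin (N + 1)) :
    lpp w 0 k (n + 1) =
      rowD (fun j : Fin (N + 1) => lpp w 0 j n) (fun j : Fin (N + 1) => w j (n + 1)) k := by
  unfold rowD
  obtain ⟨k, hk⟩ := k
  induction k with
  | zero =>
    simp only [rowS, exv]
    rw [dif_pos (by omega), dif_pos (by omega), Pool.Agent.H74.DL.lpp_0s]
    simp [add_comm]
  | succ k ih =>
    have ih' := ih (by omega)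
    simp only at ih' ⊢
    rw [Pool.Agent.H74.DL.lpp_ss, rowS, ← ih']
    simp only [exv]
    rw [dif_pos hk, dif_pos hk, max_comm, add_comm]
    simp

theorem reptop_measurable_exv (N k : ℕ) : Measurable fun v : Fin (N + 1) → ℝ => exv v k := by
  unfold exv
  split_ifs
  · exact measurable_pi_apply _
  · exact measurable_const

theorem reptop_measurable_rowD (N : ℕ) :
    Measurable fun p : (Fin (N + 1) → ℝ) × (Fin (N + 1) → ℝ) => rowD p.1 p.2 := by
  have key : ∀ k : ℕ, Measurable fun p : (Fin (N + 1) → ℝ) × (Fin (N + 1) → ℝ) =>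
      rowS (exv p.1) (exv p.2) k := by
    intro k
    induction k with
    | zero =>
      simp only [rowS]
      exact ((reptop_measurable_exv N 0).comp measurable_snd).add
        ((reptop_measurable_exv N 0).comp measurable_fst)
    | succ k ih =>
      simp only [rowS]
      exact ((reptop_measurable_exv N (k + 1)).comp measurable_snd).add
        (((reptop_measurable_exv N (k + 1)).comp measurable_fst).max ih)
  exact measurable_pi_iff.2 fun k => key k

theorem rep_top {Ω : Type*} [MeasurableSpace Ω] {P : Measure Ω} [IsProbabilityMeasure P]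
    {w : Ω → ℤ → ℕ → ℝ} (hw : IsExpWeights P w) (n N : ℕ) :
    Rep N (P.map fun ω (k : Fin (N + 1)) => top (w ω) n k) := by
  induction n with
  | zero =>
    refine ⟨PUnit, inferInstance, Measure.dirac PUnit.unit, fun _ => 0, inferInstance,
      measurable_const, ?_⟩
    intro F hF
    rw [lintegral_dirac]
    have e : (fun ω (k : Fin (N + 1)) => top (w ω) 0 k) =
        (fun v : Fin (N + 1) → ℝ => pps v) ∘ fun ω (k : Fin (N + 1)) => w ω k 0 := by
      funext ω k
      exact lpp_row_zero (w ω) k
    have mp := pps_preserving N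
    have mw : Measurable fun ω (k : Fin (N + 1)) => w ω k 0 :=
      measurable_pi_iff.2 fun k => hw.meas _ _
    have e4 := lintegral_pi_exp (hF.comp mp.measurable)
    simp only [Function.comp] at e4
    rw [e, ← Measure.map_map mp.measurable mw, map_row hw, lintegral_map hF mp.measurable, e4]
    simp_rw [es_eq_dn]
    exact mp.lintegral_comp ((reptop_measurable_dn 0).mul hF)
  | succ n ih =>
    have mt : Measurable fun ω (k : Fin (N + 1)) => top (w ω) n k :=
      measurable_pi_iff.2 fun k => measurable_top hw n k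
    have mw : Measurable fun ω (k : Fin (N + 1)) => w ω k (n + 1) :=
      measurable_pi_iff.2 fun k => hw.meas _ _
    have := Measure.isProbabilityMeasure_map (μ := P) mt.aemeasurable
    have h := rep_step ih
    have ind : IndepFun (fun ω (k : Fin (N + 1)) => top (w ω) n k)
        (fun ω (k : Fin (N + 1)) => w ω k (n + 1)) P := by
      set A : Finset (ℤ × ℕ) := Finset.Icc (0 : ℤ) N ×ˢ Finset.range (n + 1) with hA
      set B : Finset (ℤ × ℕ) := Finset.Icc (0 : ℤ) N ×ˢ {n + 1} with hB
      have hdis : Disjoint A B := by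
        rw [Finset.disjoint_left]
        rintro ⟨i, l⟩ h1 h2
        simp only [hA, hB, Finset.mem_product, Finset.mem_range, Finset.mem_singleton] at h1 h2
        omega
      have hi := hw.indep.indepFun_finset A B hdis (fun q => hw.meas q.1 q.2)
      classical
      let Φ : (A → ℝ) → Fin (N + 1) → ℝ := fun z k =>
        lpp (fun i l => if h : (i, l) ∈ A then z ⟨(i, l), h⟩ else 0) 0 k n
      let Ψ : (B → ℝ) → Fin (N + 1) → ℝ := fun z k =>
        if h : (((k : ℕ) : ℤ), n + 1) ∈ B then z ⟨(((k : ℕ) : ℤ), n + 1), h⟩ else 0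
      have mΦ : Measurable Φ := by
        apply measurable_pi_iff.2
        intro k
        apply Pool.Agent.H74.DL.measurable_lpp
        intro i l
        split_ifs
        · exact measurable_pi_apply _
        · exact measurable_const
      have mΨ : Measurable Ψ := by
        apply measurable_pi_iff.2
        intro k
        simp only [Ψ]
        split_ifs
        · exact measurable_pi_apply _
        · exact measurable_const
      have hc := hi.comp mΦ mΨ
      have e1 : (Φ ∘ fun a (i : A) => w a (i : ℤ × ℕ).1 (i : ℤ × ℕ).2) =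
          fun ω (k : Fin (N + 1)) => top (w ω) n k := by
        funext ω k
        simp only [Function.comp, Φ, top]
        apply Pool.Agent.H74.DL.lpp_congr
        intro i hi l hl
        have hk := k.2
        have hm : ((0 : ℤ) + i, l) ∈ A := by
          simp only [hA, Finset.mem_product, Finset.mem_Icc, Finset.mem_range]
          omega
        rw [dif_pos hm]
      have e2 : (Ψ ∘ fun a (i : B) => w a (i : ℤ × ℕ).1 (i : ℤ × ℕ).2) =
          fun ω (k : Fin (N + 1)) => w ω k (n + 1) := by
        funext ω k
        simp only [Function.comp, Ψ]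
        have hk := k.2
        have hm : (((k : ℕ) : ℤ), n + 1) ∈ B := by
          simp only [hB, Finset.mem_product, Finset.mem_Icc, Finset.mem_singleton]
          exact ⟨⟨by omega, by omega⟩, trivial⟩
        rw [dif_pos hm]
      rw [e1, e2] at hc
      exact hc
    have hprod := ind.map_prod_eq_prod_map_map mt.aemeasurable mw.aemeasurable
    rw [map_row hw (n + 1) N] at hprod
    rw [← hprod] at h
    have mR : Measurable fun p : (Fin (N + 1) → ℝ) × (Fin (N + 1) → ℝ) => rowD p.1 p.2 :=
      reptop_measurable_rowD N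
    rw [Measure.map_map mR (mt.prodMk mw)] at h
    have e3 : (fun p : (Fin (N + 1) → ℝ) × (Fin (N + 1) → ℝ) => rowD p.1 p.2) ∘
        (fun ω => ((fun (k : Fin (N + 1)) => top (w ω) n k), fun (k : Fin (N + 1)) =>
          w ω k (n + 1))) = fun ω (k : Fin (N + 1)) => top (w ω) (n + 1) k := by
      funext ω k
      exact (lpp_row_succ (w ω) n k).symm
    rwa [e3] at h

end Pool.Agent.H22.DL
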