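import Pool.Agent.H22.DL.Defs

/-!
# One more row of last passage percolation: definitions

`a` = top line, `s` = weights of the new row, `D = rowD a s` = new top line,
`r = rowR D a` (`r k = min (D k) (a (k + 1)) - a k` for `k < N`, `r N = a N`).
-/

open MeasureTheory ProbabilityTheory Filter Topology Set
open scoped ENNReal

namespace Pool.Agent.H22.DL

/-- extension of a vector by `0` -/
noncomputable def exv {N : ℕ} (v : Fin (N + 1) → ℝ) : Sq :=
  fun k => if h : k < N + 1 then v ⟨k, h⟩ else 0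

/-- new top line, as a sequence -/
noncomputable def rowS (a s : Sq) : Sq
  | 0 => s 0 + a 0
  | k + 1 => s (k + 1) + max (a (k + 1)) (rowS a s k)

/-- new top line -/
noncomputable def rowD {N : ℕ} (a s : Fin (N + 1) → ℝ) : Fin (N + 1) → ℝ :=
  fun k => rowS (exv a) (exv s) k

/-- the complementary variables -/
noncomputable def rowR {N : ℕ} (D a : Fin (N + 1) → ℝ) : Fin (N + 1) → ℝ :=
  fun k => if (k : ℕ) < N then min (D k) (exv a (k + 1)) - a k else a k

/-- `ht 0 = h 0`, `ht (k + 1) = max (h (k + 1)) (ht k + r k)` -/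
noncomputable def hts (h r : Sq) : Sq
  | 0 => h 0
  | k + 1 => max (h (k + 1)) (hts h r k + r k)

/-- the new barrier: `ht k + r k` for `k < N`, `r N` for `k = N` -/
noncomputable def newh {N : ℕ} (h r : Fin (N + 1) → ℝ) : Fin (N + 1) → ℝ :=
  fun k => if (k : ℕ) < N then hts (exv h) (exv r) k + r k else r k

open Classical in
/-- the density of the top line given the barrier `h` -/
noncomputable def dn (N : ℕ) (h a : Fin (N + 1) → ℝ) : ℝ≥0∞ :=
  if (∀ k : Fin N, a k.castSucc ≤ a k.succ) ∧ (∀ k, h k ≤ a k) then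
    ENNReal.ofReal (Real.exp (-(a (Fin.last N)))) else 0

open Classical in
/-- the weight of the complementary variables -/
noncomputable def gr {N : ℕ} (h r : Fin (N + 1) → ℝ) : ℝ≥0∞ :=
  if (∀ k : Fin N, 0 ≤ r k.castSucc) ∧ hts (exv h) (exv r) N ≤ r (Fin.last N) then
    ENNReal.ofReal (Real.exp (-∑ k : Fin N, r k.castSucc)) else 0

open Classical in
/-- the density of independent exponential variables -/
noncomputable def es {N : ℕ} (s : Fin (N + 1) → ℝ) : ℝ≥0∞ :=
  if ∀ k, 0 ≤ s k then ENNReal.ofReal (Real.exp (-∑ k, s k)) else 0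

/-- representation of the law of a top line by a barrier -/
def Rep (N : ℕ) (μ : Measure (Fin (N + 1) → ℝ)) : Prop :=
  ∃ (Z : Type) (_ : MeasurableSpace Z) (ζ : Measure Z) (h : Z → Fin (N + 1) → ℝ),
    SFinite ζ ∧ Measurable h ∧ ∀ F : (Fin (N + 1) → ℝ) → ℝ≥0∞, Measurable F →
      ∫⁻ a, F a ∂μ = ∫⁻ z, ∫⁻ a, dn N (h z) a * F a ∂volume ∂ζ

end Pool.Agent.H22.DL
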