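import Pool.Agent.H22.DL.RepTop
import Pool.Agent.H74.DL.Mod

/-!
# Module Scale: scaling (deterministic)

`jn n x = n + ⌊sc n * x⌋` (as a natural number), `Sn w n (0, x) * rt n = top w (n-1) (jn n x) - 2 n -
2 jn n x` as soon as `n + ⌊sc n * x⌋ ≥ 0`; `rt n ^ 2 = 2 sc n`, `rt n / sc n → 0`, `sc n / n → 0`.
-/

open MeasureTheory ProbabilityTheory Filter Topology Set
open scoped ENNReal

namespace Pool.Agent.H22.DL

open Pool.Agent.H37.DL

/-- index of the column at `x` -/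
noncomputable def jn (n : ℕ) (x : ℝ) : ℕ := ((n : ℤ) + ⌊sc n * x⌋).toNat

theorem sc_pos {n : ℕ} (hn : 1 ≤ n) : 0 < sc n := Pool.Agent.H74.DL.sc_pos hn

theorem rt_pos {n : ℕ} (hn : 1 ≤ n) : 0 < rt n := by
  unfold rt
  have : (0 : ℝ) < n := by exact_mod_cast hn
  positivity

theorem rt_sq (n : ℕ) : rt n ^ 2 = 2 * sc n := by
  unfold rt sc
  have hn : (0 : ℝ) ≤ n := Nat.cast_nonneg n
  rw [mul_pow, ← Real.rpow_natCast, ← Real.rpow_natCast, ← Real.rpow_mul (by norm_num),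
    ← Real.rpow_mul hn, ← mul_assoc]
  congr 1
  · have : (2 : ℝ) * 2 ^ (5 / 3 : ℝ) = 2 ^ (1 + 5 / 3 : ℝ) := by
      rw [Real.rpow_add (by norm_num), Real.rpow_one]
    rw [this]
    norm_num
  · norm_num

theorem tendsto_sc : Tendsto sc atTop atTop := Pool.Agent.H74.DL.sc_tendsto

theorem tendsto_rt : Tendsto rt atTop atTop := by
  unfold rt
  refine Tendsto.const_mul_atTop (by positivity) ?_
  exact (tendsto_rpow_atTop (by norm_num)).comp tendsto_natCast_atTop_atTop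

theorem tendsto_rt_div_sc : Tendsto (fun n => rt n / sc n) atTop (𝓝 0) := by
  have h : Tendsto (fun n => 2 / rt n) atTop (𝓝 0) := tendsto_const_nhds.div_atTop tendsto_rt
  refine h.congr' ?_
  filter_upwards [eventually_ge_atTop 1] with n hn
  have h1 := sc_pos hn
  have h2 := rt_pos hn
  rw [div_eq_div_iff h2.ne' h1.ne', ← rt_sq, sq]

theorem tendsto_sc_div : Tendsto (fun n : ℕ => sc n / n) atTop (𝓝 0) :=
  Pool.Agent.H74.DL.sc_div_tendsto

theorem sc_nonneg (n : ℕ) : 0 ≤ sc n := by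
  unfold sc
  positivity

theorem jn_mono (n : ℕ) : Monotone (jn n) := by
  intro x y hxy
  unfold jn
  apply Int.toNat_le_toNat
  have h : sc n * x ≤ sc n * y := mul_le_mul_of_nonneg_left hxy (sc_nonneg n)
  have := Int.floor_le_floor h
  omega

/-- for large `n`, uniformly on compacts -/
theorem jn_bounds (K : ℝ) : ∀ᶠ n : ℕ in atTop, ∀ x : ℝ, |x| ≤ K →
    (n : ℝ) + sc n * x - 1 ≤ jn n x ∧ (jn n x : ℝ) ≤ n + sc n * x ∧
      (jn n x : ℤ) = n + ⌊sc n * x⌋ := by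
  filter_upwards [Pool.Agent.H74.DL.eventually_sc_le K] with n hn x hx
  have h0 := sc_nonneg n
  have h1 := Int.floor_le (sc n * x)
  have h2 := Int.lt_floor_add_one (sc n * x)
  have h3 : 0 ≤ (n : ℤ) + ⌊sc n * x⌋ := by
    have h4 : (0 : ℝ) ≤ (n : ℝ) + ⌊sc n * x⌋ := by
      rw [abs_le] at hx
      nlinarith
    exact_mod_cast h4
  have h5 : (jn n x : ℤ) = n + ⌊sc n * x⌋ := Int.toNat_of_nonneg h3
  have h6 : (jn n x : ℝ) = n + ⌊sc n * x⌋ := by exact_mod_cast h5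
  refine ⟨?_, ?_, h5⟩
  · rw [h6]
    linarith
  · rw [h6]
    linarith

theorem Sn_eq (K : ℝ) : ∀ᶠ n : ℕ in atTop, ∀ x : ℝ, |x| ≤ K → ∀ w : ℤ → ℕ → ℝ,
    Sn w n (0, x) = (top w (n - 1) (jn n x) - 2 * n - 2 * jn n x) / rt n := by
  filter_upwards [jn_bounds K] with n hn x hx w
  obtain ⟨_, _, h5⟩ := hn x hx
  have h6 : (jn n x : ℝ) = n + ⌊sc n * x⌋ := by exact_mod_cast h5
  unfold Sn top
  simp only [mul_zero, Int.floor_zero, sub_zero, Int.cast_zero]
  rw [h6]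
  rfl

theorem jn_inv (K : ℝ) : ∀ᶠ n : ℕ in atTop, ∀ k : ℕ, |(k : ℝ) - n| ≤ K * sc n →
    jn n (((k : ℝ) - n) / sc n) = k := by
  filter_upwards [eventually_ge_atTop 1] with n hn k _
  have h := sc_pos hn
  unfold jn
  rw [mul_div_cancel₀ _ h.ne']
  have : ((k : ℝ) - n) = (((k : ℤ) - (n : ℤ) : ℤ) : ℝ) := by push_cast; ring
  rw [this, Int.floor_intCast]
  omega

end Pool.Agent.H22.DL
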