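import Pool.Agent.H22.DL.Scale

/-!
# Module Tight: tightness

From the locally uniform convergence and the continuity of `S'` (`{ω | C < sup over |x| ≤ K of
|S' ω (0, x)|}` decreases to the empty set as `C → ∞`; rational `x`); each natural number `k` with
`|k - n| ≤ K sc n` is `jn n ((k - n) / sc n)` (`jn_inv`, `Sn_eq`).
-/

open MeasureTheory ProbabilityTheory Filter Topology Set
open scoped ENNReal

namespace Pool.Agent.H22.DL

open Pool.Agent.H37.DL

section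

variable {Ω' : Type} [MeasurableSpace Ω'] {Q : Measure Ω'} [IsProbabilityMeasure Q]
  {S' : Ω' → ℝ × ℝ → ℝ} {w : ℕ → Ω' → ℤ → ℕ → ℝ}

theorem tight (hw : ∀ n, IsExpWeights Q (w n)) (hm : ∀ p, Measurable fun ω => S' ω p)
    (hc : ∀ ω, Continuous (S' ω))
    (hlim : ∀ R : ℝ, ∀ ε : ℝ, 0 < ε → Tendsto
        (fun n : ℕ => Q {ω | ∃ p : ℝ × ℝ, |p.1| ≤ R ∧ |p.2| ≤ R ∧
          ε ≤ |Sn (w n ω) n p - S' ω p|}) atTop (𝓝 0))
    (K : ℝ) {ε : ℝ} (hε : 0 < ε) : ∃ C : ℝ, 0 < C ∧ ∀ᶠ n : ℕ in atTop,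
      Q {ω | ∃ k : ℕ, |(k : ℝ) - n| ≤ K * sc n ∧
        C * rt n < |top (w n ω) (n - 1) k - 2 * n - 2 * k|} ≤ ENNReal.ofReal ε := by
  -- the limit is bounded on compacts
  set D : ℕ → ℝ := TopologicalSpace.denseSeq ℝ with hD
  set B : ℕ → Set Ω' := fun M => {ω | ∃ m, D m ∈ Set.Ioo (-(K + 1)) (K + 1) ∧
    (M : ℝ) < |S' ω (0, D m)|} with hB
  have hBm : ∀ M, MeasurableSet (B M) := by
    intro M
    have : B M = ⋃ m, {ω | D m ∈ Set.Ioo (-(K + 1)) (K + 1) ∧ (M : ℝ) < |S' ω (0, D m)|} := by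
      ext ω
      simp [hB]
    rw [this]
    refine MeasurableSet.iUnion fun m => ?_
    exact (MeasurableSet.const _).inter
      (measurableSet_lt measurable_const (continuous_abs.measurable.comp (hm _)))
  have hBa : Antitone B := by
    intro M M' hM ω hω
    obtain ⟨m, h1, h2⟩ := hω
    have : (M : ℝ) ≤ M' := by exact_mod_cast hM
    exact ⟨m, h1, this.trans_lt h2⟩
  have hBe : ⋂ M, B M = ∅ := by
    apply Set.eq_empty_of_forall_notMem
    intro ω hω
    have hcomp : IsCompact (Set.Icc (-(K + 1)) (K + 1)) := isCompact_Icc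
    have hcont : ContinuousOn (fun x : ℝ => S' ω (0, x)) (Set.Icc (-(K + 1)) (K + 1)) :=
      ((hc ω).comp (by fun_prop)).continuousOn
    obtain ⟨C, hC⟩ := hcomp.exists_bound_of_continuousOn hcont
    obtain ⟨M, hM⟩ := exists_nat_gt C
    obtain ⟨m, h1, h2⟩ := Set.mem_iInter.1 hω M
    have h3 := hC (D m) ⟨h1.1.le, h1.2.le⟩
    rw [Real.norm_eq_abs] at h3
    linarith
  have hBlim : Tendsto (fun M => Q (B M)) atTop (𝓝 0) := by
    have := tendsto_measure_iInter_atTop (μ := Q) (fun M => (hBm M).nullMeasurableSet) hBa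
      ⟨0, measure_ne_top _ _⟩
    rwa [hBe, measure_empty] at this
  have hε2 : (0 : ℝ≥0∞) < ENNReal.ofReal (ε / 2) := ENNReal.ofReal_pos.2 (by linarith)
  obtain ⟨M, hM⟩ := ((ENNReal.tendsto_nhds_zero.1 hBlim) _ hε2).exists
  refine ⟨M + 1, by positivity, ?_⟩
  have hl := (ENNReal.tendsto_nhds_zero.1 (hlim (max K 0) 1 one_pos)) _ hε2
  filter_upwards [hl, jn_inv K, Sn_eq K, eventually_ge_atTop 1] with n h1 h2 h3 hn
  have hsc := sc_pos hn
  have hrt := rt_pos hn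
  have hsplit : ENNReal.ofReal ε = ENNReal.ofReal (ε / 2) + ENNReal.ofReal (ε / 2) := by
    rw [← ENNReal.ofReal_add (by linarith) (by linarith)]
    congr 1
    ring
  rw [hsplit]
  refine le_trans ?_ (add_le_add hM h1)
  refine (measure_mono ?_).trans (measure_union_le _ _)
  rintro ω ⟨k, hk1, hk2⟩
  set x : ℝ := ((k : ℝ) - n) / sc n with hx
  have hxK : |x| ≤ K := by
    rw [hx, abs_div, abs_of_pos hsc, div_le_iff₀ hsc]
    exact hk1
  have hK0 : 0 ≤ K := (abs_nonneg _).trans hxK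
  have hjn : jn n x = k := h2 k hk1
  have hSn := h3 x hxK (w n ω)
  rw [hjn] at hSn
  have hbig : (M : ℝ) + 1 < |Sn (w n ω) n (0, x)| := by
    rw [hSn, abs_div, abs_of_pos hrt, lt_div_iff₀ hrt]
    exact hk2
  by_cases hcl : 1 ≤ |Sn (w n ω) n (0, x) - S' ω (0, x)|
  · refine Or.inr ⟨(0, x), ?_, ?_, hcl⟩
    · simp
    · exact hxK.trans (le_max_left _ _)
  · refine Or.inl ?_
    push Not at hcl
    have hS : (M : ℝ) < |S' ω (0, x)| := by
      have := abs_sub_abs_le_abs_sub (Sn (w n ω) n (0, x)) (S' ω (0, x))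
      linarith
    have hUo : IsOpen {y : ℝ | y ∈ Set.Ioo (-(K + 1)) (K + 1) ∧ (M : ℝ) < |S' ω (0, y)|} := by
      have hcS : Continuous fun y : ℝ => |S' ω (0, y)| :=
        ((hc ω).comp (continuous_const.prodMk continuous_id)).abs
      have o2 : IsOpen {y : ℝ | (M : ℝ) < |S' ω (0, y)|} := isOpen_lt continuous_const hcS
      exact isOpen_Ioo.inter o2
    rw [abs_le] at hxK
    obtain ⟨m, hm'⟩ := (TopologicalSpace.denseRange_denseSeq ℝ).exists_mem_open hUo
      ⟨x, ⟨by linarith [hxK.1], by linarith [hxK.2]⟩, hS⟩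
    exact ⟨m, hm'⟩

end

end Pool.Agent.H22.DL
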