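import Mathlib

/-!
# Module Tri: triangular maps preserve Lebesgue measure

`v ↦ (ε k * v k + f k v)` with `ε k = ±1` and `f k` depending only on the coordinates `< k`
(`> k`). Induction on `m`: split off the last (first) coordinate with
`MeasurableEquiv.piFinSuccAbove (fun _ => ℝ) (Fin.last m)` (`0`),
`volume_preserving_piFinSuccAbove`, and `MeasurePreserving.skew_product` (in one dimension
`x ↦ ε x + c` preserves `volume`).
-/

open MeasureTheory ProbabilityTheory Filter Topology Set

namespace Pool.Agent.H22.DL

/-- In dimension one, `x ↦ ε x + c` with `ε = ±1` preserves Lebesgue measure. -/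
theorem tri_one (e c : ℝ) (he : e = 1 ∨ e = -1) :
    Measure.map (fun x : ℝ => e * x + c) volume = volume := by
  rcases he with h | h
  · subst h
    have := (measurePreserving_add_right (volume : Measure ℝ) c).map_eq
    simpa using this
  · subst h
    have := (Measure.measurePreserving_sub_left (volume : Measure ℝ) c).map_eq
    have h2 : (fun x : ℝ => -1 * x + c) = (fun x : ℝ => c - x) := by
      funext x; ring
    rw [h2]; exact this

/-- One induction step: split off the coordinate `i`. -/
theorem tri_step (m : ℕ) (i : Fin (m + 1)) (ε : Fin (m + 1) → ℝ)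
    (hε : ∀ k, ε k = 1 ∨ ε k = -1)
    (f : Fin (m + 1) → (Fin (m + 1) → ℝ) → ℝ) (hf : ∀ k, Measurable (f k))
    (hdep : ∀ k v v', (∀ j, j ≠ i → v j = v' j) → f k v = f k v')
    (hB : MeasurePreserving (fun (w : Fin m → ℝ) (k : Fin m) =>
      ε (i.succAbove k) * w k + f (i.succAbove k) (i.insertNth (0 : ℝ) w)) volume volume) :
    MeasurePreserving (fun (v : Fin (m + 1) → ℝ) (k : Fin (m + 1)) => ε k * v k + f k v)
      volume volume := by
  set e := MeasurableEquiv.piFinSuccAbove (fun _ : Fin (m + 1) => ℝ) i with he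
  have hem : MeasurePreserving e volume volume := volume_preserving_piFinSuccAbove _ i
  -- the insertion map is measurable
  have hins : Measurable (fun w : Fin m → ℝ => (i.insertNth (0 : ℝ) w : Fin (m + 1) → ℝ)) := by
    rw [measurable_pi_iff]
    intro a
    rcases Fin.eq_self_or_eq_succAbove i a with h | ⟨j, h⟩
    · subst h; simp
    · subst h; simp only [Fin.insertNth_apply_succAbove]; exact measurable_pi_apply j
  have hskew : MeasurePreserving (fun p : (Fin m → ℝ) × ℝ =>
      ((fun (k : Fin m) => ε (i.succAbove k) * p.1 k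
          + f (i.succAbove k) (i.insertNth (0 : ℝ) p.1)),
        ε i * p.2 + f i (i.insertNth (0 : ℝ) p.1)))
      ((volume : Measure (Fin m → ℝ)).prod (volume : Measure ℝ))
      ((volume : Measure (Fin m → ℝ)).prod (volume : Measure ℝ)) := by
    refine MeasurePreserving.skew_product (g := fun w x => ε i * x
      + f i (i.insertNth (0 : ℝ) w)) hB ?_ ?_
    · exact (measurable_snd.const_mul _).add ((hf i).comp (hins.comp measurable_fst))
    · exact Filter.Eventually.of_forall fun w => tri_one _ _ (hε i)
  have hsw1 : MeasurePreserving (Prod.swap : ℝ × (Fin m → ℝ) → (Fin m → ℝ) × ℝ)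
      volume ((volume : Measure (Fin m → ℝ)).prod (volume : Measure ℝ)) :=
    Measure.measurePreserving_swap
  have hsw2 : MeasurePreserving (Prod.swap : (Fin m → ℝ) × ℝ → ℝ × (Fin m → ℝ))
      ((volume : Measure (Fin m → ℝ)).prod (volume : Measure ℝ)) volume :=
    Measure.measurePreserving_swap
  have htot := (hem.symm e).comp (hsw2.comp (hskew.comp (hsw1.comp hem)))
  have hfun : (fun (v : Fin (m + 1) → ℝ) (k : Fin (m + 1)) => ε k * v k + f k v)
      = (e.symm ∘ (Prod.swap ∘ ((fun p : (Fin m → ℝ) × ℝ =>
      ((fun (k : Fin m) => ε (i.succAbove k) * p.1 k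
          + f (i.succAbove k) (i.insertNth (0 : ℝ) p.1)),
        ε i * p.2 + f i (i.insertNth (0 : ℝ) p.1))) ∘ (Prod.swap ∘ e)))) := by
    funext v k
    have hev : e v = (v i, fun j => v (i.succAbove j)) := rfl
    have hes : ∀ p : ℝ × (Fin m → ℝ), e.symm p = i.insertNth p.1 p.2 := fun p => rfl
    have hd : ∀ a, f a (i.insertNth (0 : ℝ) (fun j => v (i.succAbove j))) = f a v := by
      intro a
      refine hdep a _ _ ?_
      intro j hj
      obtain ⟨j', rfl⟩ := Fin.exists_succAbove_eq hj
      simp
    simp only [Function.comp_apply, hev, Prod.swap_prod_mk, hes, hd]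
    rcases Fin.eq_self_or_eq_succAbove i k with h | ⟨j, h⟩
    · subst h; simp
    · subst h; simp
  rw [hfun]
  exact htot

theorem tri_low (m : ℕ) (ε : Fin m → ℝ) (hε : ∀ k, ε k = 1 ∨ ε k = -1)
    (f : Fin m → (Fin m → ℝ) → ℝ) (hf : ∀ k, Measurable (f k))
    (hdep : ∀ k v v', (∀ j, j < k → v j = v' j) → f k v = f k v') :
    MeasurePreserving (fun (v : Fin m → ℝ) (k : Fin m) => ε k * v k + f k v) volume volume := by
  induction m with
  | zero =>
    have : (fun (v : Fin 0 → ℝ) (k : Fin 0) => ε k * v k + f k v) = id := by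
      funext v k; exact k.elim0
    rw [this]; exact MeasurePreserving.id _
  | succ m ih =>
    have hins : Measurable (fun w : Fin m → ℝ =>
        ((Fin.last m).insertNth (0 : ℝ) w : Fin (m + 1) → ℝ)) := by
      rw [measurable_pi_iff]
      intro a
      rcases Fin.eq_self_or_eq_succAbove (Fin.last m) a with h | ⟨j, h⟩
      · subst h; simp
      · subst h; simp only [Fin.insertNth_apply_succAbove]; exact measurable_pi_apply j
    refine tri_step m (Fin.last m) ε hε f hf ?_ ?_
    · intro k v v' h
      refine hdep k v v' fun j hj => h j ?_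
      exact ne_of_lt (lt_of_lt_of_le hj (Fin.le_last k))
    · refine ih (fun k => ε ((Fin.last m).succAbove k)) (fun k => hε _)
        (fun k w => f ((Fin.last m).succAbove k) ((Fin.last m).insertNth (0 : ℝ) w))
        (fun k => (hf _).comp hins) ?_
      intro k w w' h
      refine hdep _ _ _ ?_
      intro j hj
      have hjl : j ≠ Fin.last m := ne_of_lt (lt_of_lt_of_le hj (Fin.le_last _))
      obtain ⟨j', rfl⟩ := Fin.exists_succAbove_eq hjl
      simp only [Fin.insertNth_apply_succAbove]
      refine h j' ?_
      exact (Fin.strictMono_succAbove (Fin.last m)).lt_iff_lt.1 hj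

theorem tri_up (m : ℕ) (ε : Fin m → ℝ) (hε : ∀ k, ε k = 1 ∨ ε k = -1)
    (f : Fin m → (Fin m → ℝ) → ℝ) (hf : ∀ k, Measurable (f k))
    (hdep : ∀ k v v', (∀ j, k < j → v j = v' j) → f k v = f k v') :
    MeasurePreserving (fun (v : Fin m → ℝ) (k : Fin m) => ε k * v k + f k v) volume volume := by
  induction m with
  | zero =>
    have : (fun (v : Fin 0 → ℝ) (k : Fin 0) => ε k * v k + f k v) = id := by
      funext v k; exact k.elim0
    rw [this]; exact MeasurePreserving.id _
  | succ m ih =>
    have hins : Measurable (fun w : Fin m → ℝ =>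
        ((0 : Fin (m + 1)).insertNth (0 : ℝ) w : Fin (m + 1) → ℝ)) := by
      rw [measurable_pi_iff]
      intro a
      rcases Fin.eq_self_or_eq_succAbove (0 : Fin (m + 1)) a with h | ⟨j, h⟩
      · subst h; simp
      · subst h; simp only [Fin.insertNth_apply_succAbove]; exact measurable_pi_apply j
    refine tri_step m 0 ε hε f hf ?_ ?_
    · intro k v v' h
      refine hdep k v v' fun j hj => h j ?_
      exact ne_of_gt (lt_of_le_of_lt (Fin.zero_le k) hj)
    · refine ih (fun k => ε ((0 : Fin (m + 1)).succAbove k)) (fun k => hε _)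
        (fun k w => f ((0 : Fin (m + 1)).succAbove k) ((0 : Fin (m + 1)).insertNth (0 : ℝ) w))
        (fun k => (hf _).comp hins) ?_
      intro k w w' h
      refine hdep _ _ _ ?_
      intro j hj
      have hjl : j ≠ 0 := ne_of_gt (lt_of_le_of_lt (Fin.zero_le _) hj)
      obtain ⟨j', rfl⟩ := Fin.exists_succAbove_eq hjl
      simp only [Fin.insertNth_apply_succAbove]
      refine h j' ?_
      exact (Fin.strictMono_succAbove (0 : Fin (m + 1))).lt_iff_lt.1 hj

end Pool.Agent.H22.DL
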